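import Pool.Agent.MP_c6cf52_lc.Defs

namespace Pool.Agent.MP_2e2931_gt.Gap

open Pool.Agent.MP_c6cf52_lc

universe u

variable {M : Type u} (E : M → M → Prop)

/-- Inclusion. -/
def Sub (a b : M) : Prop := ∀ x, E x a → E x b

/-- `w` is the first infinite ordinal: a nonzero limit ordinal all of whose nonzero members have a
largest member. -/
def IsOmega (w : M) : Prop :=
  IsOrd E w ∧ (∃ x, E x w) ∧ (∀ x, E x w → ∃ y, E y w ∧ E x y) ∧
    ∀ x, E x w → (∃ y, E y x) → ∃ y, E y x ∧ ∀ z, E z x → ¬ E y z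

/-- `T` is a topology on `X`. -/
def IsTop (X T : M) : Prop :=
  (∀ U, E U T → Sub E U X) ∧ E X T ∧
    (∀ S, Sub E S T → ∃ W, E W T ∧ ∀ x, E x W ↔ ∃ U, E U S ∧ E x U) ∧
    ∀ U V, E U T → E V T → ∃ W, E W T ∧ ∀ x, E x W ↔ E x U ∧ E x V

/-- `(K, T)` is a compact Hausdorff space (`w` is omega). -/
def IsCH (w K T : M) : Prop :=
  IsTop E K T ∧
    (∀ x y, E x K → E y K → x ≠ y →
      ∃ U V, E U T ∧ E V T ∧ E x U ∧ E y V ∧ ∀ z, ¬ (E z U ∧ E z V)) ∧
    ∀ C, Sub E C T → (∀ x, E x K → ∃ U, E U C ∧ E x U) →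
      ∃ D n f, Sub E D C ∧ E n w ∧ IsInj E f D n ∧ ∀ x, E x K → ∃ U, E U D ∧ E x U

/-- `(K, T)` is a compactification of `(X, S)`, and `Y` is the dense homeomorphic copy of `X`. -/
def IsCpt (w X S K T Y : M) : Prop :=
  IsCH E w K T ∧ (∀ V, E V T → (∃ y, E y V) → ∃ y, E y Y ∧ E y V) ∧
    ∃ e, IsInj E e X K ∧ (∀ y, E y Y ↔ ∃ x, App E e x y) ∧
      ∀ U, E U S ↔ Sub E U X ∧ ∃ V, E V T ∧ ∀ x y, App E e x y → (E x U ↔ E y V)

/-- `A` is closed in `(K, T)`. -/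
def Clsd (K T A : M) : Prop := ∃ V, E V T ∧ ∀ y, E y A ↔ E y K ∧ ¬ E y V

/-- `A` is the union (for odd `n`) or the intersection (for even `n`) of a countable family of
sets with property `P`. -/
def Step (w K : M) (n : ℕ) (P : M → Prop) (A : M) : Prop :=
  ∃ C f, IsInj E f C w ∧ (∀ B, E B C → P B) ∧
    ∀ y, E y A ↔ (Odd n ∧ ∃ B, E B C ∧ E y B) ∨ (Even n ∧ E y K ∧ ∀ B, E B C → E y B)

/-- `A` belongs to one of the classes `F 0`, ..., `F n`. -/
def FLe (w K T : M) : ℕ → M → Prop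
  | 0 => Clsd E K T
  | n + 1 => fun A => FLe w K T n A ∨ Step E w K (n + 1) (FLe w K T n) A

/-- `A` belongs to the class `F n` of `(K, T)`. -/
def InF (w K T : M) : ℕ → M → Prop
  | 0 => Clsd E K T
  | n + 1 => Step E w K (n + 1) (FLe E w K T n)

/-- `A` is obtained from closed sets by the Suslin operation: `F` assigns closed sets to the
finite sequences, and `t` is the restriction of `s` to `k`. -/
def Susl (w K T A : M) : Prop :=
  ∃ F, (∀ t B, App E F t B → Clsd E K T B) ∧ (∀ t B B', App E F t B → App E F t B' → B = B') ∧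
    ∀ y, E y A ↔ ∃ s, IsFun E s w w ∧ ∀ k, E k w →
      ∃ t B, (∀ p, E p t ↔ E p s ∧ ∃ a b, E a k ∧ IsPair E p a b) ∧ App E F t B ∧ E y B

end Pool.Agent.MP_2e2931_gt.Gap
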