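import Pool.Agent.Mg.F2e2931.G841ab5

open Pool.Agent.MP_c6cf52_lc Pool.Agent.MP_2e2931_gt.Gap

theorem Pool.Agent.MP_2e2931_gt.ConGap.result :
    ∃ (M : Type 2) (E : M → M → Prop), IsZFC E ∧ ∃ w X S, IsOmega E w ∧ IsTop E X S ∧
      (∃ K T Y, IsCpt E w X S K T Y ∧ InF E w K T 2 Y ∧ ∀ m < 2, ¬ InF E w K T m Y) ∧
      (∃ K T Y, IsCpt E w X S K T Y ∧ Susl E w K T Y ∧ ∀ m ≤ 3, ¬ InF E w K T m Y) ∧
      ∀ K T Y, IsCpt E w X S K T Y → InF E w K T 3 Y → InF E w K T 2 Y :=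
  final
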