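import Pool.Agent.MP_2e2931_gt.FR

namespace Pool.Agent.MP_2e2931_gt.Gap

open Set Ordinal

section Mem

variable {N : Set Ob} {α β : Type*} [Cod α] [Cod β]

@[simp] theorem mem_prod {a : α} {b : β} : Mem N (a, b) ↔ Mem N a ∧ Mem N b := Iff.rfl

@[simp] theorem mem_nat {n : ℕ} : Mem N n := trivial

theorem mem_list {l : List α} : Mem N l ↔ ∀ a ∈ l, Mem N a := by
  induction l with
  | nil => simp only [List.not_mem_nil, false_imp_iff, implies_true, iff_true]; trivial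
  | cons a l ih =>
    simp only [List.mem_cons, forall_eq_or_imp, ← ih]
    rfl

theorem mem_atom {a : Atom} : Mem N a ↔ Mem N a.pos := by
  exact ⟨fun h => h.1, fun h => ⟨h, trivial, ⟨trivial, trivial, trivial⟩,
    ⟨trivial, trivial, trivial⟩, trivial⟩⟩

theorem mem_W {z : W} : Mem N z ↔ Mem N (z.1 : K) := Iff.rfl

def Ob.lev (N : Set Ob) : ℕ → Set Ob
  | 0 => N ∪ range Ob.nat
  | i + 1 => Ob.lev N i ∪ image2 Ob.pr (Ob.lev N i) (Ob.lev N i)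

theorem Ob.lev_mono (N : Set Ob) : Monotone (Ob.lev N) :=
  monotone_nat_of_le_succ fun _ => subset_union_left

theorem Ob.countable_in (h : N.Countable) : {o : Ob | o.In N}.Countable := by
  have h₁ : ∀ n, (Ob.lev N n).Countable := by
    intro n
    induction n with
    | zero => exact h.union (countable_range _)
    | succ n ih => exact ih.union (ih.image2 ih _)
  refine (countable_iUnion h₁).mono fun o ho => mem_iUnion.2 ?_
  induction o with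
  | nat n => exact ⟨0, Or.inr ⟨n, rfl⟩⟩
  | pr a b iha ihb =>
    obtain ⟨m, hm⟩ := iha ho.1
    obtain ⟨n, hn⟩ := ihb ho.2
    exact ⟨max m n + 1, Or.inr ⟨a, Ob.lev_mono N (le_max_left _ _) hm, b,
      Ob.lev_mono N (le_max_right _ _) hn, rfl⟩⟩
  | _ => exact ⟨0, Or.inl ho⟩

theorem countable_mem (h : N.Countable) : {a : α | Mem N a}.Countable := by
  exact (Ob.countable_in h).preimage Cod.inj

end Mem

variable {Φ Ψ : Set Ob → W → Cond → Prop} {N : Set Ob} {η : W} {ρ ρ' : Cond}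

theorem GM.ext (h : GM N η ρ) (hv : RV ρ') (hl : RL ρ' ρ) : GM N η ρ' := by
  refine ⟨h.ct, h.eta, hv, h.ht.trans (hl 0).ht, fun D hD H => ?_⟩
  obtain ⟨c, h₁, h₂, h₃, h₄⟩ := h.gen D hD H
  exact ⟨c, h₁, h₂, h₃, hl.trans h₄⟩

theorem AE.of_all (H : ∀ N η ρ, GM N η ρ → Φ N η ρ) : AE Φ := by
  exact ⟨∅, countable_empty, fun N η ρ h _ => H N η ρ h⟩

theorem AE.mono (h : AE Φ) (H : ∀ N η ρ, GM N η ρ → Φ N η ρ → Ψ N η ρ) : AE Ψ := by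
  obtain ⟨R, hR, h⟩ := h
  exact ⟨R, hR, fun N η ρ h₁ h₂ => H N η ρ h₁ (h N η ρ h₁ h₂)⟩

theorem AE.and (h : AE Φ) (h' : AE Ψ) : AE fun N η ρ => Φ N η ρ ∧ Ψ N η ρ := by
  obtain ⟨R, hR, h⟩ := h
  obtain ⟨R', hR', h'⟩ := h'
  exact ⟨R ∪ R', hR.union hR', fun N η ρ h₁ h₂ =>
    ⟨h N η ρ h₁ fun r hr => h₂ r (Or.inl hr), h' N η ρ h₁ fun r hr => h₂ r (Or.inr hr)⟩⟩

theorem AE.all {ι : Sort*} [Countable ι] {Φ : ι → Set Ob → W → Cond → Prop} (h : ∀ i, AE (Φ i)) :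
    AE fun N η ρ => ∀ i, Φ i N η ρ := by
  choose R hR h using h
  exact ⟨⋃ i, R i, countable_iUnion hR, fun N η ρ h₁ h₂ i =>
    h i N η ρ h₁ fun r hr => h₂ r (mem_iUnion.2 ⟨i, hr⟩)⟩

theorem AE.closed {R : Set (Ob → Ob → Prop)} (h : R.Countable) : AE fun N _ _ => Closed R N := by
  exact ⟨R, h, fun _ _ _ _ h => h⟩

theorem AE.ext (h : AE Φ) : AE fun N η ρ => ∀ ρ', RV ρ' → RL ρ' ρ → Φ N η ρ' := by
  obtain ⟨R, hR, h⟩ := h
  exact ⟨R, hR, fun N η ρ h₁ h₂ ρ' hv hl => h N η ρ' (h₁.ext hv hl) h₂⟩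

section

variable {α β : Type*} [Cod α] [Cod β]

theorem AE.wit (Q : α → β → Prop) :
    AE fun N _ _ => ∀ a, Mem N a → (∃ b, Q a b) → ∃ b, Mem N b ∧ Q a b := by
  refine ⟨{fun o o' => ∃ a b, o = Cod.ι a ∧ o' = Cod.ι b ∧ Q a b}, countable_singleton _,
    fun N _ _ _ h a ha ⟨b, hb⟩ => ?_⟩
  obtain ⟨_, h₁, a', b', e, rfl, h₂⟩ := h _ rfl _ ha ⟨_, a, b, rfl, rfl, hb⟩
  exact ⟨b', h₁, Cod.inj e ▸ h₂⟩

theorem AE.fn (g : α → β) : AE fun N _ _ => ∀ a, Mem N a → Mem N (g a) := by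
  refine (AE.wit fun a b => b = g a).mono fun N _ _ _ h a ha => ?_
  obtain ⟨_, h₁, rfl⟩ := h a ha ⟨_, rfl⟩
  exact h₁

theorem AE.const (b : β) : AE fun N _ _ => Mem N b := by
  exact (AE.fn fun _ : ℕ => b).mono fun N _ _ _ h => h 0 mem_nat

/-- Diagonal intersection. -/
theorem AE.diag {Φ : α → Set Ob → W → Cond → Prop} (h : ∀ a, AE (Φ a)) :
    AE fun N η ρ => ∀ a, Mem N a → Φ a N η ρ := by
  choose R hR h using h
  have : ∀ a, ∃ e : ℕ → Ob → Ob → Prop, insert (fun _ _ => False) (R a) = range e := fun a =>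
    ((hR a).insert _).exists_eq_range (insert_nonempty _ _)
  choose e he using this
  refine ⟨range fun n o₁ o' => ∃ a o, o₁ = Ob.pr (Cod.ι a) o ∧ e a n o o', countable_range _,
    fun N η ρ h₁ h₂ a ha => h a N η ρ h₁ fun r hr o ho ⟨o', h₃⟩ => ?_⟩
  obtain ⟨n, rfl⟩ : r ∈ range (e a) := he a ▸ mem_insert_of_mem _ hr
  obtain ⟨o₂, h₄, a', o₃, e₁, h₅⟩ :=
    h₂ _ ⟨n, rfl⟩ (Ob.pr (Cod.ι a) o) ⟨ha, ho⟩ ⟨o', a, o, rfl, h₃⟩
  obtain ⟨e₂, rfl⟩ := Ob.pr.inj e₁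
  obtain rfl := Cod.inj e₂
  exact ⟨o₂, h₄, h₅⟩

/-- Countable sets attached to members are included. -/
theorem AE.sub (g : α → Set β) :
    AE fun N _ _ => ∀ a, Mem N a → (g a).Countable → ∀ b ∈ g a, Mem N b := by
  refine AE.diag fun a => ?_
  by_cases hc : (g a).Countable
  · have := hc.to_subtype
    exact (AE.all fun b : g a => AE.const b.1).mono fun N _ _ _ h _ b hb => h ⟨b, hb⟩
  · exact AE.of_all fun _ _ _ _ h => absurd h hc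

/-- The active witness principle. -/
theorem AE.act (Q : α → β → Prop) (rt : β → Cond) :
    AE fun N _ ρ => ∀ a, Mem N a → (∃ b, Q a b ∧ RV (rt b) ∧ RL (rt b) ρ) →
      ∃ b, Mem N b ∧ Q a b ∧ RV (rt b) ∧ RL ρ (rt b) := by
  let D : α → Set Cond := fun a => {c | (∃ b, Q a b ∧ RV (rt b) ∧ RL c (rt b)) ∨
    ∀ b, Q a b → RV (rt b) → ¬ RL (rt b) c}
  refine ((AE.fn D).and (AE.wit fun (z : α × Cond) b =>
    Q z.1 b ∧ RV (rt b) ∧ RL z.2 (rt b))).mono fun N η ρ hg ⟨h₁, h₂⟩ a ha ⟨b, q₁, q₂, q₃⟩ => ?_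
  obtain ⟨c, hc, c₁, -, c₃⟩ := hg.gen (D a) (h₁ a ha) fun c hc => by
    by_cases h : ∃ b, Q a b ∧ RV (rt b) ∧ RL (rt b) c
    · obtain ⟨b, h₁, h₂, h₃⟩ := h
      exact ⟨rt b, Or.inl ⟨b, h₁, h₂, RL.refl⟩, h₂, h₃⟩
    · exact ⟨c, Or.inr fun b h₁ h₂ h₃ => h ⟨b, h₁, h₂, h₃⟩, hc, RL.refl⟩
  rcases hc with hc | hc
  · obtain ⟨b', b₁, b₂, b₃, b₄⟩ := h₂ (a, c) ⟨ha, c₁⟩ hc
    exact ⟨b', b₁, b₂, b₃, c₃.trans b₄⟩
  · exact absurd (q₃.trans c₃) (hc b q₁ q₂)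

end

theorem ae_zero : AE fun _ η _ => w0 < η := by
  exact (AE.const w0).mono fun N η ρ hg h => (hg.eta _).1 h

theorem ae_ht : AE fun N η _ => ∀ c : Cond, Mem N c → c.ht < η := by
  exact (AE.fn fun c : Cond => c.ht).mono fun N η ρ hg h c hc => (hg.eta _).1 (h c hc)

theorem ae_T : AE fun N _ _ => ∀ c : Cond, Mem N c → RV c → c.T ⊆ KN N := by
  exact (AE.sub fun c : Cond => c.T).mono fun N η ρ _ h c hc hv β hβ => h c hc hv.ct β hβ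

theorem ae_memT : AE fun N _ ρ => KN N ⊆ ρ.T := by
  refine (AE.act (fun (β : K) (c : Cond) => β ∈ c.T) id).mono fun N η ρ hg h β hβ => ?_
  obtain ⟨c, c₁, c₂, c₃, -⟩ := exists_addT hg.rv β
  obtain ⟨b, -, b₁, -, b₂⟩ := h β hβ ⟨c, c₃, c₁, c₂⟩
  exact RL.T b₂ b₁

section AEC

variable {Φ' Ψ' : Ch → Prop}

theorem AEC.of_AE (h : AE Φ) : AEC fun C => ∀ i, Φ (C.N i) (C.η i) C.ρ := by
  obtain ⟨R, hR, h⟩ := h
  exact ⟨R, hR, fun C hC i => h _ _ _ (C.gm i) (hC i)⟩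

theorem AEC.of_all (H : ∀ C, Φ' C) : AEC Φ' := by
  exact ⟨∅, countable_empty, fun C _ => H C⟩

theorem AEC.mono (h : AEC Φ') (H : ∀ C, Φ' C → Ψ' C) : AEC Ψ' := by
  obtain ⟨R, hR, h⟩ := h
  exact ⟨R, hR, fun C hC => H C (h C hC)⟩

theorem AEC.and (h : AEC Φ') (h' : AEC Ψ') : AEC fun C => Φ' C ∧ Ψ' C := by
  obtain ⟨R, hR, h⟩ := h
  obtain ⟨R', hR', h'⟩ := h'
  exact ⟨R ∪ R', hR.union hR', fun C hC =>
    ⟨h C fun i r hr => hC i r (Or.inl hr), h' C fun i r hr => hC i r (Or.inr hr)⟩⟩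

theorem AEC.all {ι : Sort*} [Countable ι] {Φ' : ι → Ch → Prop} (h : ∀ i, AEC (Φ' i)) :
    AEC fun C => ∀ i, Φ' i C := by
  choose R hR h using h
  exact ⟨⋃ i, R i, countable_iUnion hR, fun C hC i =>
    h i C fun j r hr => hC j r (mem_iUnion.2 ⟨i, hr⟩)⟩

theorem Ch.mem_mono (C : Ch) {α : Type*} [Cod α] {a : α} {i j : ℕ} (h : Mem (C.N i) a)
    (hij : i ≤ j) : Mem (C.N j) a := C.mono i j hij _ h

theorem Ch.eta_mono (C : Ch) {i j : ℕ} (hij : i ≤ j) : C.η i ≤ C.η j := by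
  by_contra h
  exact lt_irrefl _ (((C.gm j).eta _).1 (C.mem_mono (((C.gm i).eta _).2 (not_le.1 h)) hij))

end AEC

end Pool.Agent.MP_2e2931_gt.Gap
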