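import Pool.Agent.MP_2e2931_gt.FBasic

namespace Pool.Agent.MP_2e2931_gt.Gap

open Set Ordinal

variable {β γ b : K} {p p' p'' q r s t ρ : Cond}

/-- One coordinate of the amalgamation, in the case of a common root. -/
theorem fam_delta {x : W} (hβ : β < γ) (v₁ : V γ p') (v₂ : V γ q) (r₁ : Rle γ t p')
    (r₂ : Rle γ t q) (m₀ : L b t p'') (m₁ : L β t p') (m₂ : L β t q)
    (he : ∀ a, (β, a) ∈ t.f ↔ (β, a) ∈ p'.f ∨ (β, a) ∈ q.f)
    (Lr : L (Order.succ β) p' r) (Vr : V (Order.succ β) r)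
    (rq : ∀ a, (β, a) ∈ r.f → (β, a) ∈ q.f) (tl : Tail β x q r)
    (hpos : ∀ a a', (β, a) ∈ p'.f → (β, a') ∈ q.f → x ≤ a.pos → a'.pos < a.pos)
    (hval : ∀ d m z a, (β, Atom.bd d m) ∈ p'.f → (β, Atom.val z a) ∈ q.f → x ≤ z → z ∈ t.E d →
      m ≤ a ∨ (β = b ∧ ∃ u m', (β, Atom.cl d u m') ∈ p'.f ∧ m' ≤ a ∧
        Uc b d u (code p' b d u) p'' z)) :
    LocV β t ∧ LocL β t p' ∧ LocL β t q := by
  have hs : β < Order.succ β := Order.lt_succ β
  have w₁ := v₁.loc hβ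
  have w₂ := v₂.loc hβ
  have F1 : ∀ a, (β, a) ∈ q.f → a.pos < x → (β, a) ∈ p'.f := fun a ha hx =>
    Lr.sub hs (tl.1 a ha hx)
  have F2 : ∀ a a', (β, a) ∈ p'.f → (β, a') ∈ q.f → a.pos = a'.pos → a'.pos < x := by
    intro a a' ha ha' e
    by_contra hx
    have := hpos a a' ha ha' (e ▸ not_lt.1 hx)
    exact absurd e.symm this.ne
  have F3 : ∀ a a', (β, a) ∈ t.f → (β, a') ∈ t.f → a.pos = a'.pos →
      ((β, a) ∈ p'.f ∧ (β, a') ∈ p'.f) ∨ ((β, a) ∈ q.f ∧ (β, a') ∈ q.f) := by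
    intro a a' ha ha' e
    rcases (he a).1 ha with h | h <;> rcases (he a').1 ha' with h' | h'
    · exact Or.inl ⟨h, h'⟩
    · exact Or.inl ⟨h, F1 a' h' (F2 a a' h h' e)⟩
    · exact Or.inl ⟨F1 a h (F2 a' a h' h e.symm), h'⟩
    · exact Or.inr ⟨h, h'⟩
  have i₁ : ∀ a, (β, a) ∈ p'.f → (β, a) ∈ t.f := fun a h => (he a).2 (Or.inl h)
  have i₂ : ∀ a, (β, a) ∈ q.f → (β, a) ∈ t.f := fun a h => (he a).2 (Or.inr h)
  refine ⟨⟨?_, ?_, ?_, ?_, ?_, ?_, ?_⟩, ⟨i₁, ?_, ?_⟩, ⟨i₂, ?_, ?_⟩⟩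
  · intro a ha
    exact ((he a).1 ha).elim (fun h => i₁ _ (w₁.on a h)) fun h => i₂ _ (w₂.on a h)
  · intro a ha
    exact ((he a).1 ha).elim (fun h => (w₁.pos a h).trans_le r₁.ht)
      fun h => (w₂.pos a h).trans_le r₂.ht
  · intro ha
    exact ((he _).1 ha).elim (fun h => r₁.T β hβ (w₁.T h)) fun h => r₂.T β hβ (w₂.T h)
  · intro ha
    exact ((he _).1 ha).elim (fun h => (v₁.good hβ h).mono m₁) fun h => (v₂.good hβ h).mono m₂
  · intro z a a' ha ha'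
    exact (F3 _ _ ha ha' rfl).elim (fun h => w₁.fn z a a' h.1 h.2) fun h => w₂.fn z a a' h.1 h.2
  · intro d u m u' m' ha ha' hne
    rcases F3 _ _ ha ha' rfl with h | h
    · obtain ⟨k, hk⟩ := w₁.sep d u m u' m' h.1 h.2 hne
      exact ⟨k, hk.imp (i₁ _) (i₁ _)⟩
    · obtain ⟨k, hk⟩ := w₂.sep d u m u' m' h.1 h.2 hne
      exact ⟨k, hk.imp (i₂ _) (i₂ _)⟩
  · intro d u l ha
    by_cases h : (β, Atom.pm d u l) ∈ p'.f
    · have e : code t β d u = code p' β d u := code_congr fun a hd =>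
        ⟨fun h' => ((he a).1 h').elim id fun h'' => F1 a h'' (F2 _ a h h'' hd.symm), i₁ a⟩
      rw [e, r₁.Z β hβ (v₁.supp hβ h) d (w₁.pos _ h)]
      exact (v₁.pm hβ h).mono m₁
    · have h' := ((he _).1 ha).resolve_left h
      have e : code t β d u = code q β d u := code_congr fun a hd =>
        ⟨fun h₃ => ((he a).1 h₃).elim (fun h₄ => absurd (F1 _ h' (F2 a _ h₄ h' hd)) h) id, i₂ a⟩
      rw [e, r₂.Z β hβ (v₂.supp hβ h') d (w₂.pos _ h')]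
      exact (v₂.pm hβ h').mono m₂
  · intro z a d m ha hn hbd hd hz
    have h' := ((he _).1 ha).resolve_left hn
    have hx : x ≤ z := not_lt.1 fun hx => hn (F1 _ h' hx)
    rcases hval d m z a hbd h' hx (by rw [r₁.E d hd]; exact hz) with h | ⟨rfl, u, m', h1, h2, h3⟩
    · exact Or.inl h
    · exact Or.inr ⟨u, m', h1, h2, h3.mono m₀⟩
  · intro d u m' m ha hn hbd
    have h' := ((he _).1 ha).resolve_left hn
    exact absurd (F1 _ h' (F2 _ _ hbd h' rfl)) hn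
  · intro z a d m ha hn hbd hd hz
    have h' := ((he _).1 ha).resolve_right hn
    by_cases hx : d < x
    · have b₁ : (β, Atom.bd d m) ∈ r.f := tl.1 _ hbd hx
      have d₁ : d < r.ht := (Vr.loc hs).pos _ b₁
      have e : r.E d = q.E d := by
        rw [← Lr.rle.E d d₁, ← r₁.E d (d₁.trans_le Lr.rle.ht), r₂.E d hd]
      have e' : code r β d = code q β d := funext fun u => code_congr fun a hd =>
        ⟨rq a, fun h => tl.1 a h (hd ▸ hx)⟩
      rcases (Lr.loc hs).val z a d m h' (fun h => hn (rq _ h)) b₁ d₁ (e ▸ hz) with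
        h | ⟨u, m', h1, h2, h3⟩
      · exact Or.inl h
      · refine Or.inr ⟨u, m', rq _ h1, h2, ?_⟩
        rw [← e']
        exact Uc.mono h3 m₁
    · have hzd : z < d := (v₂.rv.lad d hd).lt z hz
      have hzx : z < x := not_le.1 fun h => absurd (hpos _ _ h' hbd h) (not_lt.2 hzd.le)
      obtain ⟨a', ha'⟩ := tl.2 d m hbd (not_lt.1 hx) z hz hzx
      rw [← w₁.fn z a a' h' (F1 _ ha' hzx)] at ha'
      exact absurd ha' hn
  · intro d u m' m ha hn hbd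
    have h' := ((he _).1 ha).resolve_right hn
    exact (Lr.loc hs).cl d u m' m h' (fun h => hn (rq _ h)) (tl.1 _ hbd (F2 _ _ h' hbd rfl))

/-- The amalgamation lemma. -/
theorem am_spec (hb : b ≤ γ) (hρ : RV ρ) (v₀ : V b p'') (v₁ : V γ p') (v₂ : V γ q)
    (l₁ : L b p'' p') (l₂ : L b p'' q) (r₀ : Rle b ρ p'') (r₁ : Rle γ ρ p') (r₂ : Rle γ ρ q)
    (H : ∀ β, b ≤ β → β < γ → Cmp b β ρ p'' p' q) :
    V γ (am b ρ p'' p' q) ∧ L γ (am b ρ p'' p' q) p' ∧ L γ (am b ρ p'' p' q) q ∧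
      L b (am b ρ p'' p' q) p'' := by
  have _ := hb
  have lo : ∀ β < b, ∀ a, (β, a) ∈ (am b ρ p'' p' q).f ↔ (β, a) ∈ p''.f := fun β h a => by
    simp [mem_am, h, not_le.2 h]
  have hi : ∀ β, b ≤ β → ∀ a, (β, a) ∈ (am b ρ p'' p' q).f ↔ (β, a) ∈ p'.f ∨ (β, a) ∈ q.f :=
    fun β h a => by simp [mem_am, h, not_lt.2 h]
  have R₀ : Rle b (am b ρ p'' p' q) p'' := r₀.setf_left
  have R₁ : Rle γ (am b ρ p'' p' q) p' := r₁.setf_left
  have R₂ : Rle γ (am b ρ p'' p' q) q := r₂.setf_left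
  have m₀ : L b (am b ρ p'' p' q) p'' := L_of_eq R₀ lo
  have key : ∀ β, β < γ → LocV β (am b ρ p'' p' q) ∧ LocL β (am b ρ p'' p' q) p' ∧
      LocL β (am b ρ p'' p' q) q := by
    intro β
    induction β using WellFoundedLT.induction with
    | ind β ih =>
      intro hβ
      have m₁ : L β (am b ρ p'' p' q) p' :=
        L_iff.2 ⟨R₁.mono hβ.le, fun β' h => (ih β' h (h.trans hβ)).2.1⟩
      have m₂ : L β (am b ρ p'' p' q) q :=
        L_iff.2 ⟨R₂.mono hβ.le, fun β' h => (ih β' h (h.trans hβ)).2.2⟩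
      have hs : Order.succ β ≤ γ := Order.succ_le_of_lt hβ
      rcases lt_or_ge β b with h | h
      · exact ⟨(v₀.loc h).of_le (lo β h) (m₀.mono h.le) (R₀.mono (Order.succ_le_of_lt h)),
          (l₁.loc h).congr_left (lo β h) (m₀.mono h.le),
          (l₂.loc h).congr_left (lo β h) (m₀.mono h.le)⟩
      · rcases H β h hβ with c | c | c | ⟨r, x, c₁, c₂, c₃, c₄, c₅, c₆⟩
        · have e : ∀ a, (β, a) ∈ (am b ρ p'' p' q).f ↔ (β, a) ∈ q.f := fun a => by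
            rw [hi β h a, or_iff_right (c a)]
          exact ⟨(v₂.loc hβ).of_le e m₂ (R₂.mono hs), LocL.of_empty c, LocL.of_eq e⟩
        · have e : ∀ a, (β, a) ∈ (am b ρ p'' p' q).f ↔ (β, a) ∈ p'.f := fun a => by
            rw [hi β h a, or_iff_left (c a)]
          exact ⟨(v₁.loc hβ).of_le e m₁ (R₁.mono hs), LocL.of_eq e, LocL.of_empty c⟩
        · have e : ∀ a, (β, a) ∈ (am b ρ p'' p' q).f ↔ (β, a) ∈ q.f := fun a => by
            rw [hi β h a, c a, or_self]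
          exact ⟨(v₂.loc hβ).of_le e m₂ (R₂.mono hs), LocL.of_eq fun a => (e a).trans (c a).symm,
            LocL.of_eq e⟩
        · exact fam_delta hβ v₁ v₂ R₁ R₂ m₀ m₁ m₂ (hi β h) c₁ c₂ c₃ c₄ c₅ c₆
  refine ⟨V_iff.2 ⟨hρ.setf, ?_, fun β h => (key β h).1⟩, L_iff.2 ⟨R₁, fun β h => (key β h).2.1⟩,
    L_iff.2 ⟨R₂, fun β h => (key β h).2.2⟩, m₀⟩
  refine (v₀.fin.union (v₁.fin.union v₂.fin)).subset fun y hy => ?_
  exact (mem_am.1 hy).elim (fun h => Or.inl h.2) fun h => Or.inr h.2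

theorem le_am (hb : b ≤ γ) (v₀ : V b p) (v₁ : V γ s) (l₀ : L b t p) (l₁ : L γ t s)
    (r : Rle γ t ρ) (r₀ : Rle 0 ρ p) (r₁ : Rle 0 ρ s) : L γ t (am b ρ p s s) := by
  have _ := hb
  refine L_iff.2 ⟨r.setf_right, fun β hβ => ?_⟩
  rcases lt_or_ge β b with h | h
  · exact (l₀.loc h).congr_right (fun a => by simp [mem_am, h, not_le.2 h]) (v₀.loc h)
      r₀.setf_left
  · exact (l₁.loc hβ).congr_right (fun a => by simp [mem_am, h, not_lt.2 h]) (v₁.loc hβ)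
      r₁.setf_left

theorem mix_spec (hb : b ≤ γ) (v₀ : V b p) (v₁ : V γ s) (l : L b p s) :
    V γ (mix b p s) ∧ Le γ (mix b p s) s ∧ L b (mix b p s) p ∧ L b p (mix b p s) := by
  have hR : RL (amR b p s) s := amR_RL l.rle
  obtain ⟨h₁, h₂, -, h₃⟩ := am_spec hb (v₀.rv.amR v₁.rv) v₀ v₁ v₁ l l amR_rle (hR γ) (hR γ)
    fun _ _ _ => Or.inr (Or.inr (Or.inl fun _ => Iff.rfl))
  refine ⟨h₁, ⟨h₂, hR.setf_left⟩, h₃, L_of_eq (rle_amR (ρ := s)).setf_right fun β h a => ?_⟩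
  simp [mem_mix, h, not_le.2 h]

end Pool.Agent.MP_2e2931_gt.Gap
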