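import Pool.Agent.MP_2e2931_gt.FBasic

namespace Pool.Agent.MP_2e2931_gt.Gap

open Set Ordinal

variable {β γ : K} {r : Cond}

/-- Adding finitely many atoms at one coordinate. -/
lemma fadd_gen (h : V γ r) {f : Set (K × Atom)} (N : Set Atom) (hN : N.Finite)
    (hf : ∀ y, y ∈ f ↔ y ∈ r.f ∨ (y.1 = β ∧ y.2 ∈ N))
    (hon : (β, Atom.on) ∈ f) (hT : β < γ → β ∈ r.T ∧ Good β r)
    (hpos : ∀ a ∈ N, a.pos < r.ht)
    (hval : ∀ z a, Atom.val z a ∈ N → (∀ a', (β, Atom.val z a') ∈ f → a' = a) ∧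
      ∀ d m, (β, Atom.bd d m) ∈ r.f → m ≤ a)
    (hcl : ∀ d t a, Atom.cl d t a ∈ N → (∀ m, (β, Atom.bd d m) ∈ r.f → m ≤ a) ∧
      ∀ t' a', (β, Atom.cl d t' a') ∈ f → t' ≠ t → ∃ k, (β, Atom.sh d t' t k) ∈ f)
    (hpm : β < γ → ∀ d t l, (β, Atom.pm d t l) ∈ f →
      Dec β (r.Z β d l) r (.cd t (code (setf r f) β d t))) :
    V γ (setf r f) ∧ L γ (setf r f) r := by
  have hsub : ∀ {y}, y ∈ r.f → y ∈ f := fun hy => (hf _).2 (Or.inl hy)
  have hc : ∀ {a}, (β, a) ∈ f → (β, a) ∈ r.f ∨ a ∈ N := fun ha => ((hf _).1 ha).imp id And.right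
  refine modify (β := β) h h.rv.setf ((h.fin.union (hN.image (Prod.mk β))).subset ?_)
    Rle.refl.setf_left (fun β' hb a => by simp [hf, hb]) fun hβ hl => ⟨?_, ?_⟩
  · rintro ⟨b, a⟩ hy
    rcases (hf _).1 hy with h1 | ⟨rfl, h1⟩
    exacts [Or.inl h1, Or.inr ⟨a, h1, rfl⟩]
  · have hv := h.loc hβ
    refine ⟨fun _ _ => hon, fun a ha => (hc ha).elim (hv.pos a) (hpos a), fun _ => (hT hβ).1,
      fun _ => (hT hβ).2.mono hl, fun z a a' h1 h2 => ?_, fun d t m t' m' h1 h2 hne => ?_,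
      fun d t l h1 => (hpm hβ d t l h1).mono hl⟩
    · rcases hc h1 with h3 | h3
      · rcases hc h2 with h4 | h4
        exacts [hv.fn z a a' h3 h4, (hval z a' h4).1 a h1]
      · exact ((hval z a h3).1 a' h2).symm
    · rcases hc h1 with h3 | h3
      · rcases hc h2 with h4 | h4
        · exact (hv.sep d t m t' m' h3 h4 hne).imp fun k hk => hk.imp hsub hsub
        · exact ((hcl d t' m' h4).2 t m h1 hne).imp fun k => Or.inl
      · exact ((hcl d t m h3).2 t' m' h2 hne.symm).imp fun k => Or.inr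
  · exact ⟨fun a => hsub,
      fun z a d m h1 h2 h3 _ _ => Or.inl ((hval z a ((hc h1).resolve_left h2)).2 d m h3),
      fun d t m' m h1 h2 h3 => (hcl d t m' ((hc h1).resolve_left h2)).1 m h3⟩

lemma fadd_code {f : Set (K × Atom)} {N : Set Atom}
    (hf : ∀ y, y ∈ f ↔ y ∈ r.f ∨ (y.1 = β ∧ y.2 ∈ N)) {d : W} {t : Nn}
    (hN : ∀ t' m, Atom.sh d t t' m ∉ N) : code (setf r f) β d t = code r β d t := by
  ext y
  simp [code, hf, hN]

lemma fadd_ins (a : Atom) (y : K × Atom) :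
    y ∈ insert (β, a) r.f ↔ y ∈ r.f ∨ (y.1 = β ∧ y.2 ∈ ({a} : Set Atom)) := by
  simp [Prod.ext_iff, or_comm]

theorem fadd_bound (h : r.f.Finite) : ∃ M, ∀ β d m, (β, Atom.bd d m) ∈ r.f → m ≤ M := by
  obtain ⟨M, hM⟩ := (h.image fun y => y.2.rest.2.2.2).bddAbove
  exact ⟨M, fun β d m hm => hM ⟨_, hm, rfl⟩⟩

theorem exists_addv (h : V γ r) (hβ : β < γ) (ho : (β, Atom.on) ∈ r.f) {Zs : Set W}
    (hZ : Zs.Finite) (hlt : ∀ z ∈ Zs, z < r.ht) (M : ℕ) :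
    ∃ f, V γ (setf r f) ∧ L γ (setf r f) r ∧ r.f ⊆ f ∧
      (∀ y ∈ f, y ∈ r.f ∨ ∃ z ∈ Zs, ∃ a, M ≤ a ∧ (∀ a', (β, Atom.val z a') ∉ r.f) ∧
        y = (β, Atom.val z a)) ∧ ∀ z ∈ Zs, ∃ a, (β, Atom.val z a) ∈ f := by
  obtain ⟨M', hM⟩ := fadd_bound h.fin
  let N : Set Atom := (fun z => Atom.val z (max M M')) '' {z ∈ Zs | ∀ a', (β, Atom.val z a') ∉ r.f}
  have hf : ∀ y : K × Atom, y ∈ {y | y ∈ r.f ∨ (y.1 = β ∧ y.2 ∈ N)} ↔
      y ∈ r.f ∨ (y.1 = β ∧ y.2 ∈ N) := fun _ => Iff.rfl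
  have key := fadd_gen h N ((hZ.subset fun _ hz => hz.1).image _) hf (Or.inl ho)
    (fun _ => ⟨h.supp hβ ho, h.good hβ ho⟩) (by rintro _ ⟨z, hz, rfl⟩; exact hlt z hz.1)
    (by
      rintro z a ⟨z', hz, e⟩
      cases e
      refine ⟨fun a' h1 => ?_, fun d m h1 => (hM β d m h1).trans (le_max_right _ _)⟩
      rcases h1 with h1 | ⟨-, z', -, e⟩
      · exact absurd h1 (hz.2 a')
      · cases e; rfl)
    (by rintro d t a ⟨z, -, e⟩; cases e)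
    (by
      intro _ d t l h1
      rw [fadd_code hf (by rintro t' m ⟨z, -, e⟩; cases e)]
      rcases h1 with h1 | ⟨-, z', -, e⟩
      · exact h.pm hβ h1
      · cases e)
  refine ⟨_, key.1, key.2, fun _ => Or.inl, ?_, fun z hz => ?_⟩
  · rintro ⟨b, a⟩ (h1 | ⟨rfl, z, hz, rfl⟩)
    exacts [Or.inl h1, Or.inr ⟨z, hz.1, _, le_max_left _ _, hz.2, rfl⟩]
  · by_cases h1 : ∃ a, (β, Atom.val z a) ∈ r.f
    · exact h1.imp fun _ => Or.inl
    · exact ⟨_, Or.inr ⟨rfl, z, ⟨hz, not_exists.1 h1⟩, rfl⟩⟩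

theorem exists_close (h : V γ r) (hβ : β < γ) {x : W} (hx : r.E x = ∅) :
    ∃ f, V γ (setf r f) ∧ L γ (setf r f) r ∧ Clo β x (setf r f) ∧
      ∀ y : K × Atom, y.1 ≠ β → (y ∈ f ↔ y ∈ r.f) := by
  have hv := h.loc hβ
  by_cases ho : (β, Atom.on) ∈ r.f
  swap
  · exact ⟨r.f, h, L.refl, fun d m h1 => absurd (hv.on _ h1) ho, fun _ _ => Iff.rfl⟩
  have hZ : {z | z < x ∧ ∃ d m, (β, Atom.bd d m) ∈ r.f ∧ x ≤ d ∧ z ∈ r.E d}.Finite := by
    have hD : {d | ∃ m, (β, Atom.bd d m) ∈ r.f ∧ x ≤ d}.Finite :=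
      (h.fin.image fun y => y.2.pos).subset fun d ⟨m, hm, _⟩ => ⟨_, hm, rfl⟩
    refine (hD.biUnion (t := fun d => r.E d ∩ Iio x) ?_).subset ?_
    · rintro d ⟨m, hm, hd⟩
      rcases hd.eq_or_lt with rfl | hd
      · simp [hx]
      · exact (h.rv.lad d (hv.pos _ hm)).fin x hd
    · rintro z ⟨hz, d, m, hm, hd, hz'⟩
      exact mem_biUnion (t := fun d => r.E d ∩ Iio x) (x := d) ⟨m, hm, hd⟩ ⟨hz', hz⟩
  obtain ⟨f, h1, h2, h3, h4, h5⟩ := exists_addv h hβ ho hZ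
    (fun z ⟨hz, d, m, hm, hd, _⟩ => (hz.trans_le hd).trans (hv.pos _ hm)) 0
  refine ⟨f, h1, h2, fun d m hm hd z hz hz' => h5 z ⟨hz', d, m, ?_, hd, hz⟩,
    fun y hy => ⟨fun h6 => ?_, fun h6 => h3 h6⟩⟩
  · rcases h4 _ hm with h6 | ⟨z, -, a, -, -, e⟩
    · exact h6
    · cases e
  · rcases h4 _ h6 with h6 | ⟨z, -, a, -, -, rfl⟩
    · exact h6
    · exact absurd rfl hy

theorem exists_low (h : V (Order.succ β) r) {x : W} (hx : w0 < x) :
    ∃ c, V (Order.succ β) c ∧ L (Order.succ β) r c ∧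
      ∀ a, (β, a) ∈ c.f ↔ (β, a) ∈ r.f ∧ a.pos < x := by
  have hβ : β < Order.succ β := Order.lt_succ β
  have hv := h.loc hβ
  let c := setf r {y | y ∈ r.f ∧ (y.1 = β → y.2.pos < x)}
  have h1 : ∀ a, (β, a) ∈ c.f ↔ (β, a) ∈ r.f ∧ a.pos < x := fun a => by simp [c]
  have h2 : ∀ β' < β, ∀ a, (β', a) ∈ c.f ↔ (β', a) ∈ r.f := fun β' hb a => by simp [c, hb.ne]
  have hf : c.f.Finite := h.fin.subset fun _ hy => hy.1
  have hl : L β c r := L_of_eq Rle.refl.setf_left h2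
  have hV : V β c := V_of_eq (h.mono hβ.le) h.rv.setf hf Rle.refl.setf_left h2
  refine ⟨c, V_iff.2 ⟨h.rv.setf, hf, fun β' hb => ?_⟩,
    L_iff.2 ⟨Rle.refl.setf_right, fun β' hb => ?_⟩, h1⟩
  · rcases (Order.lt_succ_iff.1 hb).eq_or_lt with rfl | hb
    swap
    · exact hV.loc hb
    refine ⟨fun a ha => (h1 _).2 ⟨hv.on a ha.1, hx⟩, fun a ha => hv.pos a ha.1,
      fun ha => hv.T ha.1, fun ha => Good.mono (hv.good ha.1) hl,
      fun z a a' h3 h4 => hv.fn z a a' h3.1 h4.1, fun d t m t' m' h3 h4 hne => ?_,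
      fun d t l h3 => ?_⟩
    · have hd : d < x := h3.2 rfl
      exact (hv.sep d t m t' m' h3.1 h4.1 hne).imp fun k hk =>
        hk.imp (fun h5 => (h1 _).2 ⟨h5, hd⟩) fun h5 => (h1 _).2 ⟨h5, hd⟩
    · have hd : d < x := h3.2 rfl
      rw [code_congr (p := c) (q := r) fun a ha => by rw [h1, ha, and_iff_left hd]]
      exact (h.pm hβ h3.1).mono hl
  · rcases (Order.lt_succ_iff.1 hb).eq_or_lt with rfl | hb
    swap
    · exact LocL.of_eq fun a => (h2 β' hb a).symm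
    refine ⟨fun a ha => ha.1, fun z a d m h3 h4 h5 h6 h7 => ?_, fun d t m' m h3 h4 h5 => ?_⟩
    · exact absurd ((h1 _).2 ⟨h3, ((h.rv.lad d h6).lt z h7).trans (h5.2 rfl)⟩) h4
    · exact absurd ((h1 _).2 ⟨h3, h5.2 rfl⟩) h4

theorem add_on (h : V γ r) (h₀ : w0 < r.ht) (hT : β ∈ r.T) (hg : Good β r) :
    V γ (setf r (insert (β, Atom.on) r.f)) ∧ L γ (setf r (insert (β, Atom.on) r.f)) r := by
  refine fadd_gen h _ (finite_singleton _) (fadd_ins _) (mem_insert _ _) (fun _ => ⟨hT, hg⟩)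
    (by rintro _ rfl; exact h₀) (by simp) (by simp) fun hβ d t l h1 => ?_
  rw [fadd_code (fadd_ins _) (by simp)]
  exact h.pm hβ (by simpa using h1)

theorem add_bd (h : V γ r) (ho : (β, Atom.on) ∈ r.f) {d : W} (hd : d < r.ht) (m : ℕ) :
    V γ (setf r (insert (β, Atom.bd d m) r.f)) ∧ L γ (setf r (insert (β, Atom.bd d m) r.f)) r := by
  refine fadd_gen h _ (finite_singleton _) (fadd_ins _) (mem_insert_of_mem _ ho)
    (fun hβ => ⟨h.supp hβ ho, h.good hβ ho⟩)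
    (by rintro _ rfl; exact hd) (by simp) (by simp) fun hβ d t l h1 => ?_
  rw [fadd_code (fadd_ins _) (by simp)]
  exact h.pm hβ (by simpa using h1)

theorem add_pm (h : V γ r) (ho : (β, Atom.on) ∈ r.f) {d : W} (hd : d < r.ht) {t : Nn} {l : ℕ}
    (H : Dec β (r.Z β d l) r (.cd t (code r β d t))) :
    V γ (setf r (insert (β, Atom.pm d t l) r.f)) ∧
      L γ (setf r (insert (β, Atom.pm d t l) r.f)) r := by
  refine fadd_gen h _ (finite_singleton _) (fadd_ins _) (mem_insert_of_mem _ ho)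
    (fun hβ => ⟨h.supp hβ ho, h.good hβ ho⟩)
    (by rintro _ rfl; exact hd) (by simp) (by simp) fun hβ d t l h1 => ?_
  rw [fadd_code (fadd_ins _) (by simp)]
  rcases h1 with e | h1
  · cases e
    exact H
  · exact h.pm hβ h1

/-- A level above all nodes mentioned in a finite set of atoms. -/
theorem exists_fresh (h : r.f.Finite) : ∃ j, ∀ β d (t : Nn), j ≤ t.2.1 →
    (∀ m, (β, Atom.cl d t m) ∉ r.f) ∧ (∀ t' m, (β, Atom.sh d t t' m) ∉ r.f) ∧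
      ∀ l, (β, Atom.pm d t l) ∉ r.f := by
  obtain ⟨M, hM⟩ := (h.image fun y => y.2.rest.2.1.2.1).bddAbove
  refine ⟨M + 1, fun β d t ht => ⟨fun m hm => ?_, fun t' m hm => ?_, fun l hm => ?_⟩⟩ <;>
    exact absurd (ht.trans (hM ⟨_, hm, rfl⟩)) (Nat.not_succ_le_self M)

theorem exists_bd_bound (h : r.f.Finite) : ∃ M, ∀ β d m, (β, Atom.bd d m) ∈ r.f → m ≤ M := by
  exact fadd_bound h

/-- A new cluster `t`; all old clusters are separated from it. -/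
theorem add_cluster (h : V γ r) (ho : (β, Atom.on) ∈ r.f) {d : W} (hd : d < r.ht) {t : Nn}
    {a k l : ℕ} (f₁ : ∀ m, (β, Atom.cl d t m) ∉ r.f) (f₂ : ∀ t' m, (β, Atom.sh d t t' m) ∉ r.f)
    (f₃ : ∀ l, (β, Atom.pm d t l) ∉ r.f) (ha : ∀ m, (β, Atom.bd d m) ∈ r.f → m ≤ a)
    (H₁ : Dec β (r.Z β d l) r (.cd t ∅))
    (H₂ : ∀ t' l', (β, Atom.pm d t' l') ∈ r.f →
      Dec β (r.Z β d l') r (.cd t' (insert (t, k) (code r β d t')))) :
    ∃ f, V γ (setf r f) ∧ L γ (setf r f) r ∧ (β, Atom.cl d t a) ∈ f ∧ (β, Atom.pm d t l) ∈ f ∧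
      ∀ y : K × Atom, y.1 ≠ β → (y ∈ f ↔ y ∈ r.f) := by
  let T : Set Nn := {t' | (∃ m, (β, Atom.cl d t' m) ∈ r.f) ∨ ∃ l', (β, Atom.pm d t' l') ∈ r.f}
  have hT : T.Finite := (h.fin.image fun y => y.2.rest.2.1).subset fun t' ht' =>
    ht'.elim (fun ⟨_, hm⟩ => ⟨_, hm, rfl⟩) fun ⟨_, hm⟩ => ⟨_, hm, rfl⟩
  let N : Set Atom := insert (Atom.cl d t a) (insert (Atom.pm d t l)
    ((fun t' => Atom.sh d t' t k) '' T))
  have hf : ∀ y : K × Atom, y ∈ {y | y ∈ r.f ∨ (y.1 = β ∧ y.2 ∈ N)} ↔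
      y ∈ r.f ∨ (y.1 = β ∧ y.2 ∈ N) := fun _ => Iff.rfl
  have key := fadd_gen h N (((hT.image _).insert _).insert _) hf (Or.inl ho)
    (fun hβ => ⟨h.supp hβ ho, h.good hβ ho⟩)
    (by rintro _ (rfl | rfl | ⟨z, hz, rfl⟩) <;> exact hd)
    (by rintro z a (e | e | ⟨z', hz, e⟩) <;> cases e)
    (by
      rintro d t a (e | e | ⟨z', hz, e⟩) <;> cases e
      refine ⟨ha, fun t' a' h1 hne => ⟨k, Or.inr ⟨rfl, Or.inr (Or.inr ⟨t', ?_, rfl⟩)⟩⟩⟩
      rcases h1 with h1 | ⟨-, e | e | ⟨z', hz, e⟩⟩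
      · exact Or.inl ⟨a', h1⟩
      · cases e; exact absurd rfl hne
      · cases e
      · cases e)
    (by
      rintro hβ d' t' l' (h1 | ⟨-, e | e | ⟨z', hz, e⟩⟩)
      · by_cases hd' : d' = d
        · subst hd'
          have ht' : t' ∈ T := Or.inr ⟨l', h1⟩
          convert H₂ t' l' h1 using 2
          ext ⟨u, m⟩
          simp only [code, setf_f, mem_ofPred_eq, N, mem_insert_iff, mem_image, reduceCtorEq,
            false_or, true_and, Atom.sh.injEq, Prod.mk.injEq]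
          constructor
          · rintro (h2 | ⟨_, -, -, rfl, rfl⟩)
            exacts [Or.inr h2, Or.inl ⟨rfl, rfl⟩]
          · rintro (⟨rfl, rfl⟩ | h2)
            exacts [Or.inr ⟨t', ht', rfl, rfl, rfl⟩, Or.inl h2]
        · rw [fadd_code hf]
          · exact h.pm hβ h1
          · rintro u m (e | e | ⟨z', hz, e⟩) <;> cases e
            exact hd' rfl
      · cases e
      · cases e
        rw [fadd_code hf]
        · convert H₁ using 2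
          exact eq_empty_of_forall_notMem fun y hy => f₂ _ _ hy
        · rintro u m (e | e | ⟨z', hz, e⟩) <;> cases e
          exact hz.elim (fun ⟨m, hm⟩ => f₁ m hm) fun ⟨m, hm⟩ => f₃ m hm
      · cases e)
  exact ⟨_, key.1, key.2, Or.inr ⟨rfl, Or.inl rfl⟩, Or.inr ⟨rfl, Or.inr (Or.inl rfl)⟩,
    fun y hy => or_iff_left fun h1 => hy h1.1⟩

end Pool.Agent.MP_2e2931_gt.Gap
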