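import Pool.Agent.MP_2e2931_gt.FDefs

namespace Pool.Agent.MP_2e2931_gt.Gap

open Set Ordinal

theorem W.countable_Iic (x : W) : (Iic x).Countable := by
  have h : (Iic x.1).Countable := by
    rw [← Cardinal.le_aleph0_iff_set_countable, ← Order.Iio_succ, Cardinal.mk_Iio_ordinal]
    have : (Order.succ x.1).card ≤ Cardinal.aleph0 := by
      have h₁ : Order.succ x.1 < ω₁ := (Cardinal.isSuccLimit_omega 1).succ_lt x.2
      rw [Cardinal.lt_omega_iff_card_lt, ← Cardinal.succ_aleph0, Order.lt_succ_iff] at h₁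
      exact h₁
    simpa using Cardinal.lift_le.{1}.2 this
  exact (h.preimage Subtype.val_injective).mono fun y hy => hy

theorem W.exists_gt {s : Set W} (hs : s.Countable) : ∃ b : W, ∀ x ∈ s, x < b := by
  have := hs.to_subtype
  have h : ⨆ x : s, Order.succ x.1.1 < ω₁ :=
    Ordinal.iSup_lt_omega_one fun x => (Cardinal.isSuccLimit_omega 1).succ_lt x.1.2
  refine ⟨⟨_, h⟩, fun x hx => ?_⟩
  have : Order.succ x.1 ≤ ⨆ x : s, Order.succ x.1.1 :=
    le_ciSup (f := fun x : s => Order.succ x.1.1) Ordinal.bddAbove_of_small ⟨x, hx⟩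
  exact (Order.succ_le_iff.1 this : x.1 < _)

theorem w0_le (x : W) : w0 ≤ x := by
  exact (zero_le : (0 : K) ≤ x.1)

instance : Small.{0} Atom := by
  exact small_of_injective Atom.pos_rest_inj

instance : Small.{0} At := by
  refine small_of_surjective (f := Sum.elim (fun x : W × ℕ × ℕ => At.pi x.1 x.2.1 x.2.2)
    (Sum.elim (fun x : W × ℕ × W × Nn => At.ce x.1 x.2.1 x.2.2.1 x.2.2.2)
      (fun x : Nn × Set (Nn × ℕ) => At.cd x.1 x.2))) ?_
  rintro (⟨x, j, c⟩ | ⟨d, k, x, t⟩ | ⟨t, L⟩)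
  exacts [⟨.inl (x, j, c), rfl⟩, ⟨.inr (.inl (d, k, x, t)), rfl⟩, ⟨.inr (.inr (t, L)), rfl⟩]

instance (n : Nm) : Small.{0} n.ent := by
  cases n; exact small_range _

theorem ent_canon {X : Set (Cond × At)} (h : Small.{0} X) : (canon X).ent = X := by
  unfold canon
  rw [dif_pos h]
  ext x
  simp only [Nm.ent, mem_range]
  constructor
  · rintro ⟨i, rfl⟩; exact Subtype.prop ((equivShrink X).symm i)
  · intro hx; exact ⟨equivShrink X ⟨x, hx⟩, by simp⟩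

theorem mem_S {α : K} {c : Cond} : c ∈ S α ↔ c.T ⊆ Iio α ∧ (∀ y ∈ c.f, y.1 < α) ∧
    (∀ β d l, α ≤ β → c.Z β d l = canon ∅) ∧ ∀ β < α, ∀ d l, c.Z β d l ∈ NS β := by
  conv_lhs => unfold S; rw [WellFounded.fix_eq]
  rfl

theorem small_S (α : K) : Small.{0} (S α) := by
  induction α using WellFoundedLT.induction with
  | ind α ih =>
    have hN : ∀ β : Iio α, Small.{0} (NS β.1) := fun β => by
      have := ih β.1 β.2
      have h₁ : Small.{0} {y : Cond × At | y.1 ∈ S β.1} :=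
        small_of_surjective (f := fun z : S β.1 × At =>
          (⟨(z.1.1, z.2), z.1.2⟩ : {y : Cond × At | y.1 ∈ S β.1})) fun y => ⟨(⟨_, y.2⟩, y.1.2), rfl⟩
      have h₂ : Small.{0} (𝒫 {y : Cond × At | y.1 ∈ S β.1}) := inferInstance
      exact @small_image _ _ _ _ h₂
    refine small_of_injective (f := fun c : S α =>
      (c.1.ht, c.1.σ, c.1.E, ((fun β : Iio α => β.1) ⁻¹' c.1.T),
        ((fun y : Iio α × Atom => (y.1.1, y.2)) ⁻¹' c.1.f),
        fun (β : Iio α) (d : W) (l : ℕ) =>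
          (⟨c.1.Z β.1 d l, (mem_S.1 c.2).2.2.2 β.1 β.2 d l⟩ : NS β.1))) ?_
    rintro ⟨c, hc⟩ ⟨c', hc'⟩ h
    simp only [Prod.mk.injEq] at h
    obtain ⟨h₁, h₂, h₃, h₄, h₅, h₆⟩ := h
    rw [mem_S] at hc hc'
    refine Subtype.ext (Cond.ext h₁ h₂ h₃ ?_ ?_ ?_)
    · ext β
      exact ⟨fun h => (Set.ext_iff.1 h₄ ⟨β, hc.1 h⟩).1 h,
        fun h => (Set.ext_iff.1 h₄ ⟨β, hc'.1 h⟩).2 h⟩
    · ext y
      exact ⟨fun h => (Set.ext_iff.1 h₅ (⟨y.1, hc.2.1 y h⟩, y.2)).1 h,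
        fun h => (Set.ext_iff.1 h₅ (⟨y.1, hc'.2.1 y h⟩, y.2)).2 h⟩
    · funext β d l
      rcases lt_or_ge β α with h | h
      · exact congrArg Subtype.val (congrFun (congrFun (congrFun h₆ ⟨β, h⟩) d) l)
      · exact (hc.2.2.1 β d l h).trans (hc'.2.2.1 β d l h).symm

theorem small_NS (α : K) : Small.{0} (NS α) := by
  have := small_S α
  have h₁ : Small.{0} {y : Cond × At | y.1 ∈ S α} :=
    small_of_surjective (f := fun z : S α × At =>
      (⟨(z.1.1, z.2), z.1.2⟩ : {y : Cond × At | y.1 ∈ S α})) fun y => ⟨(⟨_, y.2⟩, y.1.2), rfl⟩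
  have h₂ : Small.{0} (𝒫 {y : Cond × At | y.1 ∈ S α}) := inferInstance
  exact @small_image _ _ _ _ h₂

theorem small_of_S {α : K} {X : Set (Cond × At)} (h : ∀ y ∈ X, y.1 ∈ S α) : Small.{0} X := by
  have := small_S α
  have h₁ : Small.{0} {y : Cond × At | y.1 ∈ S α} :=
    small_of_surjective (f := fun z : S α × At =>
      (⟨(z.1.1, z.2), z.1.2⟩ : {y : Cond × At | y.1 ∈ S α})) fun y => ⟨(⟨_, y.2⟩, y.1.2), rfl⟩
  exact small_subset (s := {y : Cond × At | y.1 ∈ S α}) h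

theorem canon_empty_mem (β : K) : canon ∅ ∈ NS β := by
  exact ⟨∅, fun _ h => h.elim, rfl⟩

theorem S_mono {α β : K} (h : α ≤ β) : S α ⊆ S β := by
  intro c hc
  rw [mem_S] at hc ⊢
  refine ⟨hc.1.trans (Iio_subset_Iio h), fun y hy => (hc.2.1 y hy).trans_le h,
    fun γ d l hγ => hc.2.2.1 γ d l (h.trans hγ), fun γ _ d l => ?_⟩
  rcases lt_or_ge γ α with h' | h'
  · exact hc.2.2.2 γ h' d l
  · rw [hc.2.2.1 γ d l h']
    exact canon_empty_mem γ

theorem exists_book {Y : Type 1} [Nonempty Y] (S : K → Set Y) (hS : ∀ ν, Small.{0} (S ν)) :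
    ∃ bk : K → Y, ∀ ν, ∀ y ∈ S ν, ∃ ξ, ν ≤ ξ ∧ bk ξ = y := by
  have h₁ : ∀ ν, ∃ s : K → Y, S ν ⊆ range s := by
    intro ν
    have := hS ν
    let j : S ν → K := fun y => Ordinal.typein (WellOrderingRel (α := Shrink.{0} (S ν)))
      (equivShrink _ y)
    have hj : Function.Injective j :=
      (Ordinal.typein_injective _).comp (equivShrink _).injective
    refine ⟨Function.extend j Subtype.val fun _ => Classical.arbitrary Y, fun y hy => ?_⟩
    exact ⟨j ⟨y, hy⟩, hj.extend_apply _ _ _⟩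
  choose s hs using h₁
  obtain ⟨e⟩ : Nonempty (K ≃ K × K × K) := by
    have := Cardinal.mul_eq_self Cardinal.aleph0_lt_univ.{0, 1}.le
    rw [← Cardinal.eq]
    simp [this]
  refine ⟨fun ξ => s (e ξ).1 (e ξ).2.1, fun ν y hy => ?_⟩
  obtain ⟨α, rfl⟩ := hs ν hy
  by_contra hn
  push Not at hn
  refine not_small_ordinal.{0, 0} (small_of_injective
    (f := fun β : K => (⟨e.symm (ν, α, β), ?_⟩ : Iio ν)) fun β β' h => ?_)
  · by_contra h
    exact hn _ (not_lt.1 h) (by simp)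
  · simpa using h

theorem bk_spec {ν : K} {n : Nm} (h : n ∈ NS ν) (α : K) : ∃ β, ν ≤ β ∧ α ≤ β ∧ bk β = n := by
  have : Nonempty Nm := ⟨canon ∅⟩
  have H : ∀ ν, ∀ n ∈ NS ν, ∃ β, ν ≤ β ∧ bk β = n :=
    @Classical.epsilon_spec _ (fun b : K → Nm => ∀ ν, ∀ n ∈ NS ν, ∃ β, ν ≤ β ∧ b β = n)
      (exists_book NS small_NS)
  obtain ⟨X, hX, rfl⟩ := h
  obtain ⟨β, h₁, h₂⟩ := H (max ν α) _ ⟨X, fun y hy => S_mono (le_max_left _ _) (hX y hy), rfl⟩
  exact ⟨β, (le_max_left _ _).trans h₁, (le_max_right _ _).trans h₁, h₂⟩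

variable {α β γ b : K} {p p' q r s t c ρ : Cond}

theorem Rle.refl : Rle α p p := ⟨le_rfl, fun _ _ => rfl, fun _ _ => rfl, fun _ _ h => h,
  fun _ _ _ _ _ _ => rfl⟩

theorem Rle.trans (h : Rle α r q) (h' : Rle α q p) : Rle α r p := by
  exact ⟨h'.ht.trans h.ht, fun x hx => (h.σ x (hx.trans_le h'.ht)).trans (h'.σ x hx),
    fun x hx => (h.E x (hx.trans_le h'.ht)).trans (h'.E x hx),
    fun β hβ hT => h.T β hβ (h'.T β hβ hT),
    fun β hβ hT d hd l => (h.Z β hβ (h'.T β hβ hT) d (hd.trans_le h'.ht) l).trans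
      (h'.Z β hβ hT d hd l)⟩

theorem Rle.mono (h : Rle α q p) (hβ : β ≤ α) : Rle β q p := by
  exact ⟨h.ht, h.σ, h.E, fun γ hγ => h.T γ (hγ.trans_le hβ), fun γ hγ => h.Z γ (hγ.trans_le hβ)⟩

theorem RL.refl : RL p p := fun _ => Rle.refl

theorem RL.trans (h : RL r q) (h' : RL q p) : RL r p := fun α => (h α).trans (h' α)

theorem RL.T (h : RL q p) : p.T ⊆ q.T := by
  exact fun β hβ => (h (Order.succ β)).T β (Order.lt_succ β) hβ

theorem V_iff : V α c ↔ RV c ∧ c.f.Finite ∧ ∀ β < α, LocV β c := by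
  unfold V
  conv_lhs => unfold st; rw [WellFounded.fix_eq]
  rfl

theorem L_iff : L α q p ↔ Rle α q p ∧ ∀ β < α, LocL β q p := by
  unfold L
  conv_lhs => unfold st; rw [WellFounded.fix_eq]
  rfl

theorem V.rv (h : V α c) : RV c := (V_iff.1 h).1
theorem V.fin (h : V α c) : c.f.Finite := (V_iff.1 h).2.1
theorem V.loc (h : V α c) (hβ : β < α) : LocV β c := (V_iff.1 h).2.2 β hβ
theorem L.rle (h : L α q p) : Rle α q p := (L_iff.1 h).1
theorem L.loc (h : L α q p) (hβ : β < α) : LocL β q p := (L_iff.1 h).2 β hβ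

theorem V.mono (h : V α c) (hβ : β ≤ α) : V β c := by
  exact V_iff.2 ⟨h.rv, h.fin, fun γ hγ => h.loc (hγ.trans_le hβ)⟩

theorem L.mono (h : L α q p) (hβ : β ≤ α) : L β q p := by
  exact L_iff.2 ⟨h.rle.mono hβ, fun γ hγ => h.loc (hγ.trans_le hβ)⟩

theorem L.refl : L α p p := by
  exact L_iff.2 ⟨Rle.refl, fun β _ => ⟨fun _ h => h, fun _ _ _ _ h h' => absurd h h',
    fun _ _ _ _ h h' => absurd h h'⟩⟩

theorem L.trans (h : L α r q) (h' : L α q p) : L α r p := by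
  induction α using WellFoundedLT.induction generalizing r q p with
  | ind α ih =>
    refine L_iff.2 ⟨h.rle.trans h'.rle, fun β hβ => ?_⟩
    have h₁ := h.loc hβ
    have h₂ := h'.loc hβ
    have hd : ∀ {n a}, DecOf (st β) n q a → DecOf (st β) n r a := fun H s hs hsr =>
      H s hs (ih β hβ hsr (h.mono hβ.le))
    refine ⟨fun a ha => h₁.sub a (h₂.sub a ha), fun z a d m hz hz' hb hd' hE => ?_,
      fun d t m' m hc hc' hb => ?_⟩
    · by_cases hq : (β, Atom.val z a) ∈ q.f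
      · rcases h₂.val z a d m hq hz' hb hd' hE with H | ⟨t, m', H₁, H₂, H₃, H₄, H₅⟩
        · exact Or.inl H
        · exact Or.inr ⟨t, m', H₁, H₂, hd H₃, hd H₄, fun y hy =>
            (H₅ y hy).imp fun k hk => ⟨hk.1, hd hk.2⟩⟩
      · rcases h₁.val z a d m hz hq (h₂.sub _ hb) (hd'.trans_le h'.rle.ht)
          (by rw [h'.rle.E d hd']; exact hE) with H | ⟨t, m', H₁, H₂, H₃, H₄, H₅⟩
        · exact Or.inl H
        · by_cases hp : (β, Atom.cl d t m') ∈ p.f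
          · exact Or.inr ⟨t, m', hp, H₂, H₃, H₄, fun y hy => H₅ y (h₂.sub _ hy)⟩
          · exact Or.inl ((h₂.cl d t m' m H₁ hp hb).trans H₂)
    · by_cases hq : (β, Atom.cl d t m') ∈ q.f
      · exact h₂.cl d t m' m hq hc' hb
      · exact h₁.cl d t m' m hc hq (h₂.sub _ hb)

theorem L.sub (h : L α q p) (hβ : β < α) {a : Atom} (ha : (β, a) ∈ p.f) : (β, a) ∈ q.f :=
  (h.loc hβ).sub a ha

theorem V.supp (h : V α c) (hβ : β < α) {a : Atom} (ha : (β, a) ∈ c.f) : β ∈ c.T :=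
  (h.loc hβ).T ((h.loc hβ).on a ha)

theorem V_zero : V 0 c ↔ RV c ∧ c.f.Finite := by
  simp [V_iff]

theorem L_zero : L 0 q p ↔ Rle 0 q p := by
  simp [L_iff]

theorem Le.refl : Le α p p := ⟨L.refl, RL.refl⟩
theorem Le.trans (h : Le α r q) (h' : Le α q p) : Le α r p := ⟨h.1.trans h'.1, h.2.trans h'.2⟩
theorem Le.mono (h : Le α q p) (hβ : β ≤ α) : Le β q p := ⟨h.1.mono hβ, h.2⟩

section Dns

variable {Φ Ψ : Cond → Prop}

theorem Dns.mono (h : Dns β p Φ) (hl : L β q p) : Dns β q Φ := by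
  exact fun s hs hsq => h s hs (hsq.trans hl)

theorem Dns.imp (h : Dns β p Φ) (H : ∀ s, V β s → L β s p → Φ s → Ψ s) : Dns β p Ψ := by
  intro s hs hsp
  obtain ⟨t, ht, hts, h⟩ := h s hs hsp
  exact ⟨t, ht, hts, H t ht (hts.trans hsp) h⟩

theorem Dns.of_all (H : ∀ s, V β s → L β s p → Φ s) : Dns β p Φ := by
  exact fun s hs hsp => ⟨s, hs, L.refl, H s hs hsp⟩

theorem Dns.join (h : Dns β p fun s => Dns β s Φ) : Dns β p Φ := by
  intro s hs hsp
  obtain ⟨t, ht, hts, h⟩ := h s hs hsp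
  obtain ⟨u, hu, hut, h⟩ := h t ht L.refl
  exact ⟨u, hu, hut.trans hts, h⟩

theorem Dns.ex (h : Dns β p Φ) (hp : V β p) : ∃ s, V β s ∧ L β s p ∧ Φ s := h p hp L.refl

theorem not_dns : ¬ Dns β p Φ ↔ ∃ s, V β s ∧ L β s p ∧ ∀ s', V β s' → L β s' s → ¬ Φ s' := by
  unfold Dns
  push Not
  rfl

end Dns

theorem Dec_def {n : Nm} {a : At} :
    Dec β n p a ↔ Dns β p fun r => ∃ c, (c, a) ∈ n.ent ∧ L β r c := Iff.rfl

theorem Dec.mono {n : Nm} {a : At} (h : Dec β n p a) (hl : L β q p) : Dec β n q a :=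
  Dns.mono h hl

theorem Dec.reg {n : Nm} {a : At} (h : Dns β p fun s => Dec β n s a) : Dec β n p a := Dns.join h

theorem Uc_def {d x : W} {u : Nn} {D : Set (Nn × ℕ)} : Uc β d u D p x ↔
    Dec β (bk β) p (.pi x 0 u.1) ∧ Dec β (bk β) p (.pi x (u.2.1 + 1) u.2.2) ∧
      ∀ y ∈ D, ∃ k < y.2, Dec β (bk β) p (.ce d k x y.1) := Iff.rfl

theorem Uc.mono {d x : W} {u : Nn} {D : Set (Nn × ℕ)} (h : Uc β d u D p x) (hl : L β q p) :
    Uc β d u D q x := by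
  rw [Uc_def] at h ⊢
  exact ⟨h.1.mono hl, h.2.1.mono hl, fun y hy => (h.2.2 y hy).imp fun k hk => ⟨hk.1, hk.2.mono hl⟩⟩

theorem Uc.anti {d x : W} {u : Nn} {D D' : Set (Nn × ℕ)} (h : Uc β d u D p x) (hD : D' ⊆ D) :
    Uc β d u D' p x := by
  rw [Uc_def] at h ⊢
  exact ⟨h.1, h.2.1, fun y hy => h.2.2 y (hD hy)⟩

theorem um_Uc (d : W) (u : Nn) (D : Set (Nn × ℕ)) : UM β (Uc β d u D) :=
  fun _ _ _ h _ hl => h.mono hl

theorem Good_def : Good β p ↔ (∀ x j, Dns β p fun r => ∃ c, Dec β (bk β) r (.pi x j c)) ∧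
    ∀ (d : W) (n₀ : ℕ) (B : Cond → ℕ × ℕ → Prop),
      (∀ r r' y, B r y → V β r' → L β r' r → B r' y) →
      ∀ p', V β p' → L β p' p → d < p'.ht → (∀ j, Dns β p' fun r => ∃ y, j ≤ y.1 ∧ B r y) →
        ∃ p'', V β p'' ∧ L β p'' p' ∧ ∃ k, ∃ u : Set (ℕ × ℕ), u.Finite ∧ (∀ y ∈ u, B p'' y) ∧
          ∀ x ∈ p'.E d, Dns β p'' fun r => ∃ y ∈ u, Dec β (bk β) r (.ce d k x (n₀, y)) :=
  Iff.rfl

theorem Good.mono (h : Good β p) (hl : L β q p) : Good β q := by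
  rw [Good_def] at h ⊢
  exact ⟨fun x j => (h.1 x j).mono hl,
    fun d n B hB p' hp' hl' => h.2 d n B hB p' hp' (hl'.trans hl)⟩

theorem V.good (h : V α c) (hβ : β < α) (ho : (β, Atom.on) ∈ c.f) : Good β c :=
  (h.loc hβ).good ho

theorem V.pm (h : V α c) (hβ : β < α) {d : W} {u : Nn} {l : ℕ} (ho : (β, Atom.pm d u l) ∈ c.f) :
    Dec β (c.Z β d l) c (.cd u (code c β d u)) := (h.loc hβ).pm d u l ho

theorem code_congr {d : W} {u : Nn}
    (h : ∀ a : Atom, a.pos = d → ((β, a) ∈ p.f ↔ (β, a) ∈ q.f)) : code p β d u = code q β d u := by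
  ext y
  exact h _ rfl

theorem LocV.of_le (h : LocV β r) (he : ∀ a, (β, a) ∈ t.f ↔ (β, a) ∈ r.f) (hl : L β t r)
    (hr : Rle (Order.succ β) t r) : LocV β t := by
  refine ⟨fun a ha => (he _).2 (h.on a ((he a).1 ha)),
    fun a ha => (h.pos a ((he a).1 ha)).trans_le hr.ht,
    fun ho => hr.T β (Order.lt_succ β) (h.T ((he _).1 ho)),
    fun ho => Good.mono (h.good ((he _).1 ho)) hl,
    fun z a a' h₁ h₂ => h.fn z a a' ((he _).1 h₁) ((he _).1 h₂),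
    fun d u m u' m' h₁ h₂ hne => ?_, fun d u l h₁ => ?_⟩
  · simp only [he]
    exact h.sep d u m u' m' ((he _).1 h₁) ((he _).1 h₂) hne
  · have h₂ := (he _).1 h₁
    rw [hr.Z β (Order.lt_succ β) (h.T (h.on _ h₂)) d (h.pos _ h₂) l,
      code_congr (p := t) (q := r) fun a _ => he a]
    exact Dec.mono (h.pm d u l h₂) hl

theorem LocL.of_eq (he : ∀ a, (β, a) ∈ t.f ↔ (β, a) ∈ r.f) : LocL β t r := by
  exact ⟨fun a ha => (he a).2 ha, fun _ _ _ _ h h' => absurd ((he _).1 h) h',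
    fun _ _ _ _ h h' => absurd ((he _).1 h) h'⟩

theorem LocL.of_empty (he : ∀ a, (β, a) ∉ r.f) : LocL β t r := by
  exact ⟨fun a ha => absurd ha (he a), fun _ _ _ _ _ _ h => absurd h (he _),
    fun _ _ _ _ _ _ h => absurd h (he _)⟩

theorem LocL.congr_left (h : LocL β q p) (he : ∀ a, (β, a) ∈ t.f ↔ (β, a) ∈ q.f) (hl : L β t q) :
    LocL β t p := by
  refine ⟨fun a ha => (he a).2 (h.sub a ha), fun z a d m h₁ h₂ h₃ h₄ h₅ => ?_,
    fun d u m' m h₁ => h.cl d u m' m ((he _).1 h₁)⟩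
  exact (h.val z a d m ((he _).1 h₁) h₂ h₃ h₄ h₅).imp_right fun ⟨u, m', H₁, H₂, H₃⟩ =>
    ⟨u, m', H₁, H₂, Uc.mono H₃ hl⟩

theorem LocL.congr_right (h : LocL β q p) (he : ∀ a, (β, a) ∈ p'.f ↔ (β, a) ∈ p.f)
    (hv : LocV β p) (hr : Rle 0 p' p) : LocL β q p' := by
  refine ⟨fun a ha => h.sub a ((he a).1 ha), fun z a d m h₁ h₂ h₃ _ h₅ => ?_,
    fun d u m' m h₁ h₂ h₃ => h.cl d u m' m h₁ (fun h => h₂ ((he _).2 h)) ((he _).1 h₃)⟩
  have hd : d < p.ht := hv.pos _ ((he _).1 h₃)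
  rw [hr.E d hd] at h₅
  refine (h.val z a d m h₁ (fun h => h₂ ((he _).2 h)) ((he _).1 h₃) hd h₅).imp_right
    fun ⟨u, m', H₁, H₂, H₃⟩ => ⟨u, m', (he _).2 H₁, H₂, ?_⟩
  rw [code_congr (p := p') (q := p) fun a _ => he a]
  exact H₃

theorem L_of_eq (hr : Rle α t r) (he : ∀ β < α, ∀ a, (β, a) ∈ t.f ↔ (β, a) ∈ r.f) : L α t r := by
  exact L_iff.2 ⟨hr, fun β hβ => LocL.of_eq (he β hβ)⟩

theorem V_of_eq (h : V α r) (ht : RV t) (hf : t.f.Finite) (hr : Rle α t r)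
    (he : ∀ β < α, ∀ a, (β, a) ∈ t.f ↔ (β, a) ∈ r.f) : V α t := by
  exact V_iff.2 ⟨ht, hf, fun β hβ => (h.loc hβ).of_le (he β hβ)
    (L_of_eq (hr.mono hβ.le) fun γ hγ => he γ (hγ.trans hβ)) (hr.mono (Order.succ_le_of_lt hβ))⟩

theorem L.congr_right (h : L α q p) (hv : V α p) (h₁ : Rle α q p') (h₂ : Rle 0 p' p)
    (he : ∀ β < α, ∀ a, (β, a) ∈ p'.f ↔ (β, a) ∈ p.f) : L α q p' := by
  exact L_iff.2 ⟨h₁, fun β hβ => (h.loc hβ).congr_right (he β hβ) (hv.loc hβ) h₂⟩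

/-- Change of one coordinate. -/
theorem modify (h : V γ r) (ht : RV t) (hf : t.f.Finite) (hr : Rle γ t r)
    (he : ∀ β', β' ≠ β → ∀ a, (β', a) ∈ t.f ↔ (β', a) ∈ r.f)
    (hv : β < γ → L β t r → LocV β t ∧ LocL β t r) : V γ t ∧ L γ t r := by
  have hl : ∀ α ≤ γ, L α t r := by
    intro α hα
    refine L_iff.2 ⟨hr.mono hα, fun β' hβ' => ?_⟩
    by_cases e : β' = β
    · subst e
      exact (hv (hβ'.trans_le hα) (L_of_eq (hr.mono (hβ'.le.trans hα))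
        fun δ hδ => he δ hδ.ne)).2
    · exact LocL.of_eq (he β' e)
  refine ⟨V_iff.2 ⟨ht, hf, fun β' hβ' => ?_⟩, hl γ le_rfl⟩
  by_cases e : β' = β
  · subst e
    exact (hv hβ' (hl _ hβ'.le)).1
  · exact (h.loc hβ').of_le (he β' e) (hl _ hβ'.le) (hr.mono (Order.succ_le_of_lt hβ'))

theorem L_of_supp (h : L β p q) (hq : V α q) (hT : ∀ γ ∈ q.T, γ < α → γ < β) : L α p q := by
  refine L_iff.2 ⟨⟨h.rle.ht, h.rle.σ, h.rle.E, fun γ hγ h' => h.rle.T γ (hT γ h' hγ) h',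
    fun γ hγ h' => h.rle.Z γ (hT γ h' hγ) h'⟩, fun γ hγ => ?_⟩
  by_cases e : γ < β
  · exact h.loc e
  · exact LocL.of_empty fun a ha => e (hT γ (hq.supp hγ ha) hγ)

section setf

variable {f : Set (K × Atom)}

@[simp] theorem setf_f : (setf c f).f = f := rfl
@[simp] theorem setf_ht : (setf c f).ht = c.ht := rfl
@[simp] theorem setf_σ : (setf c f).σ = c.σ := rfl
@[simp] theorem setf_E : (setf c f).E = c.E := rfl
@[simp] theorem setf_T : (setf c f).T = c.T := rfl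
@[simp] theorem setf_Z : (setf c f).Z = c.Z := rfl

theorem RV.setf (h : RV c) : RV (setf c f) := ⟨h.ct, h.sc, h.lad, h.ns⟩

theorem Rle.setf_left (h : Rle α q p) : Rle α (setf q f) p := ⟨h.ht, h.σ, h.E, h.T, h.Z⟩

theorem Rle.setf_right (h : Rle α q p) : Rle α q (setf p f) := ⟨h.ht, h.σ, h.E, h.T, h.Z⟩

theorem RL.setf_left (h : RL q p) : RL (setf q f) p := fun α => (h α).setf_left

theorem RL.setf_right (h : RL q p) : RL q (setf p f) := fun α => (h α).setf_right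

end setf

@[simp] theorem amR_f : (amR b p ρ).f = p.f := rfl
@[simp] theorem amR_ht : (amR b p ρ).ht = p.ht := rfl
@[simp] theorem amR_σ : (amR b p ρ).σ = p.σ := rfl
@[simp] theorem amR_E : (amR b p ρ).E = p.E := rfl

theorem RV.amR (hp : RV p) (hρ : RV ρ) : RV (amR b p ρ) := by
  refine ⟨(hp.ct.mono inter_subset_left).union (hρ.ct.mono inter_subset_left), hp.sc, hp.lad,
    fun β d l => ?_⟩
  simp only [Gap.amR]
  split_ifs
  exacts [hp.ns β d l, hρ.ns β d l]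

theorem amR_RL (h : Rle b p ρ) : RL (amR b p ρ) ρ := by
  refine fun α => ⟨h.ht, h.σ, h.E, fun β _ hT => ?_, fun β _ hT d hd l => ?_⟩
  · rcases lt_or_ge β b with h' | h'
    exacts [Or.inl ⟨h.T β h' hT, h'⟩, Or.inr ⟨hT, h'⟩]
  · simp only [amR]
    split_ifs with h'
    exacts [h.Z β h' hT d hd l, rfl]

theorem amR_rle : Rle b (amR b p ρ) p := by
  exact ⟨le_rfl, fun _ _ => rfl, fun _ _ => rfl, fun β hβ hT => Or.inl ⟨hT, hβ⟩,
    fun β hβ _ d _ l => by simp only [amR, if_pos hβ]⟩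

theorem rle_amR : Rle b p (amR b p ρ) := by
  refine ⟨le_rfl, fun _ _ => rfl, fun _ _ => rfl, fun β hβ hT => ?_,
    fun β hβ _ d _ l => by simp only [amR, if_pos hβ]⟩
  rcases hT with h | h
  exacts [h.1, absurd hβ (not_lt.2 h.2)]

theorem amR_L : L b (amR b p ρ) p := by
  exact L_of_eq amR_rle fun _ _ _ => Iff.rfl

theorem L_amR : L b p (amR b p ρ) := by
  exact L_of_eq rle_amR fun _ _ _ => Iff.rfl

theorem V.amR (h : V b p) (hρ : RV ρ) : V b (amR b p ρ) := by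
  exact V_of_eq h (h.rv.amR hρ) h.fin amR_rle fun _ _ _ => Iff.rfl

@[simp] theorem cut_ht : (cut b p).ht = p.ht := rfl
@[simp] theorem cut_σ : (cut b p).σ = p.σ := rfl
@[simp] theorem cut_E : (cut b p).E = p.E := rfl

theorem cut_T : (cut b p).T ⊆ Iio b := by
  exact inter_subset_right

theorem cut_mem_S (h : RV p) : cut b p ∈ S b := by
  exact mem_S.2 ⟨cut_T, fun y hy => hy.2, fun β d l hβ => by simp only [cut, if_neg (not_lt.2 hβ)],
    fun β hβ d l => by simpa only [cut, if_pos hβ] using h.ns β d l⟩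

theorem cut_L : L b (cut b p) p := by
  exact L_of_eq ⟨le_rfl, fun _ _ => rfl, fun _ _ => rfl, fun β hβ hT => ⟨hT, hβ⟩,
    fun β hβ _ d _ l => by simp only [cut, if_pos hβ]⟩ fun β hβ a => ⟨fun h => h.1, fun h => ⟨h, hβ⟩⟩

theorem L_cut : L α p (cut b p) := by
  refine L_iff.2 ⟨⟨le_rfl, fun _ _ => rfl, fun _ _ => rfl, fun β _ hT => hT.1,
    fun β _ hT d _ l => by simp only [cut, if_pos (show β < b from hT.2)]⟩, fun β _ => ?_⟩
  by_cases e : β < b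
  · exact LocL.of_eq fun a => ⟨fun h => ⟨h, e⟩, fun h => h.1⟩
  · exact LocL.of_empty fun a ha => e ha.2

theorem V.cut (h : V b p) (α : K) : V α (cut b p) := by
  have hv : RV (Gap.cut b p) := ⟨h.rv.ct.mono inter_subset_left, h.rv.sc, h.rv.lad,
    fun β d l => by
      simp only [Gap.cut]
      split_ifs
      exacts [h.rv.ns β d l, canon_empty_mem β]⟩
  have hf : (Gap.cut b p).f.Finite := h.fin.subset fun y hy => hy.1
  have hb : V b (Gap.cut b p) :=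
    V_of_eq h hv hf cut_L.rle fun β hβ a => ⟨fun h => h.1, fun h => ⟨h, hβ⟩⟩
  refine V_iff.2 ⟨hv, hf, fun β _ => ?_⟩
  by_cases e : β < b
  · exact hb.loc e
  · exact ⟨fun _ h => absurd h.2 e, fun _ h => absurd h.2 e, fun h => absurd h.2 e,
      fun h => absurd h.2 e, fun _ _ _ h => absurd h.2 e, fun _ _ _ _ _ h => absurd h.2 e,
      fun _ _ _ h => absurd h.2 e⟩

theorem mem_am {p'' : Cond} {y : K × Atom} : y ∈ (am b ρ p'' p' q).f ↔
    (y.1 < b ∧ y ∈ p''.f) ∨ (b ≤ y.1 ∧ (y ∈ p'.f ∨ y ∈ q.f)) := Iff.rfl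

theorem mem_mix {y : K × Atom} : y ∈ (mix b p s).f ↔
    (y.1 < b ∧ y ∈ p.f) ∨ (b ≤ y.1 ∧ y ∈ s.f) := by
  simp [mix, mem_am]

end Pool.Agent.MP_2e2931_gt.Gap
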