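import Pool.Agent.MP_2e2931_gt.FPosL

namespace Pool.Agent.MP_2e2931_gt.Gap

open Set Ordinal

/-- Labels of the tree of nodes. -/
structure ChLb : Type 1 where
  w : Nod
  μ : K
  j : ℕ
  m : ℕ

/-- States of the construction. -/
structure ChSt : Type 1 where
  N : Set Ob
  η : W
  ρ : Cond
  lab : List (ℕ × ℕ) → Option ChLb

structure ChOk (N : Set Ob) (ρ : Cond) (l : ChLb) : Prop where
  mem : Mem N l.w
  node : Node 0 l.w
  spl : Spl l.w l.j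
  rl : RL ρ l.w.r

def ChQ (a : Nod × ℕ × Set Nod × ℕ) (b : Nod × ℕ × ℕ) : Prop :=
  b.1 ∈ a.2.2.1 ∧ Node 0 b.1 ∧ Spl b.1 b.2.1 ∧ a.2.2.2 ≤ b.2.2 ∧
    NLe 0 b.1 (restr a.1 a.2.1 b.2.2)

structure ChInv (R : Set (Ob → Ob → Prop)) (l₀ : ChLb) (i : ℕ) (X : ChSt) : Prop where
  gm : GM X.N X.η X.ρ
  cl : Closed R X.N
  kn : KN X.N ⊆ X.ρ.T
  ht : X.ρ.ht = X.η
  T : X.ρ.T ⊆ KN X.N
  root : X.lab [] = some l₀
  ok : ∀ a l, X.lab a = some l → ChOk X.N X.ρ l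
  par : ∀ i' e a l', X.lab ((i', e) :: a) = some l' → i' ≤ i ∧ ∃ l, X.lab a = some l ∧
    l'.μ < l.μ ∧ NLe 0 l'.w (restr l.w l.j l'.m) ∧ Nat.pair i' e ≤ l'.m

structure ChLeaf (bo : ℕ → List (ℕ × ℕ)) (i : ℕ) (X Y : ChSt) (x : W) (q : Cond) (B : Set K)
    (u : List (ℕ × ℕ)) (l : ChLb) : Prop where
  lab : X.lab u = some l
  book : ∀ l', X.lab (bo i) = some l' → u = bo i
  val : i ≤ q.σ x l.j
  mem : (x, q, B) ∈ l.w.A
  rl : RL Y.ρ q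
  lt : X.η < x
  lt' : x < q.ht
  ht : q.ht ≤ Y.η
  kn : KN X.N ⊆ B

structure ChRel (bo : ℕ → List (ℕ × ℕ)) (i : ℕ) (X Y : ChSt) : Prop where
  sub : ∀ o : Ob, o.In X.N → o.In Y.N
  rl : RL Y.ρ X.ρ
  emp : Y.ρ.E X.η = ∅
  ext : ∀ a l, X.lab a = some l → Y.lab a = some l
  full : ∀ a l, X.lab a = some l → ∀ (O : Set Nod) (μ' : K), Mem Y.N O → Mem Y.N μ' → DO 0 O →
    μ' < l.μ → ∃ e l', Y.lab ((i + 1, e) :: a) = some l' ∧ l'.μ = μ' ∧ l'.w ∈ O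
  leaf : ∃ x q B u l, ChLeaf bo i X Y x q B u l

theorem ch_dc {X : Type*} (Inv : ℕ → X → Prop) (Rel : ℕ → X → X → Prop) (x₀ : X) (h₀ : Inv 0 x₀)
    (step : ∀ n x, Inv n x → ∃ y, Inv (n + 1) y ∧ Rel n x y) :
    ∃ f : ℕ → X, ∀ n, Inv n (f n) ∧ Rel n (f n) (f (n + 1)) := by
  choose g hg using step
  let F : ∀ n, {x // Inv n x} := fun n =>
    Nat.rec ⟨x₀, h₀⟩ (fun n x => ⟨g n x.1 x.2, (hg n x.1 x.2).1⟩) n
  exact ⟨fun n => (F n).1, fun n => ⟨(F n).2, (hg n (F n).1 (F n).2).2⟩⟩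

theorem ch_book : ∃ bo : ℕ → List (ℕ × ℕ), ∀ a n, ∃ i, n ≤ i ∧ bo i = a := by
  obtain ⟨f, hf⟩ := exists_surjective_nat (List (ℕ × ℕ))
  refine ⟨fun i => f i.unpair.1, fun a n => ?_⟩
  obtain ⟨k, rfl⟩ := hf a
  exact ⟨Nat.pair k n, Nat.right_le_pair k n, by simp⟩

theorem ch_restr_nle (w : Nod) (j m : ℕ) : NLe 0 (restr w j m) w :=
  ⟨Le.refl, fun _ q _ h => ⟨q, h.1, Le.refl⟩⟩

theorem ch_le {q p : Cond} (h : RL q p) : Le 0 q p := ⟨L_zero.2 (h 0), h⟩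

theorem ch_wit {ρ : Cond} (hv : RV ρ) (hf : ρ.f = ∅) {w : Nod} {j : ℕ} (hw : Node 0 w)
    (hs : Spl w j) (hl : RL ρ w.r) {O : Set Nod} (hO : DO 0 O) (k : ℕ) :
    ∃ b, ChQ (w, j, O, k) b ∧ RV b.1.r ∧ RL b.1.r ρ := by
  obtain ⟨m, hm, hL⟩ := hs k
  obtain ⟨h1, -⟩ := restr_node hw hL
  obtain ⟨w₁, n₁, l₁, r₁, -⟩ := reroot h1 (V_zero.2 ⟨hv, hf ▸ finite_empty⟩) (ch_le hl)
  obtain ⟨w₂, o₂, n₂, l₂⟩ := hO.1 w₁ n₁
  obtain ⟨w₃, j₃, n₃, l₃, s₃⟩ := exists_spl n₂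
  exact ⟨(w₃, j₃, m), ⟨hO.2 w₂ o₂ w₃ n₂ n₃ l₃, n₃, s₃, hm, (l₃.trans l₂).trans l₁⟩, n₃.v.rv,
    ((l₃.trans l₂).1.2).trans r₁.2⟩

theorem ch_leaf {R : Set (Ob → Ob → Prop)} {l₀ : ChLb} {i : ℕ} {X : ChSt} (hX : ChInv R l₀ i X)
    {u : List (ℕ × ℕ)} {l : ChLb} (hu : X.lab u = some l) :
    ∃ x q B, RV q ∧ RL q X.ρ ∧ q.E X.η = ∅ ∧ i ≤ q.σ x l.j ∧ (x, q, B) ∈ l.w.A ∧ X.η < x ∧
      x < q.ht ∧ KN X.N ⊆ B := by
  have ok := hX.ok u l hu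
  obtain ⟨m, hm, hL⟩ := ok.spl i
  obtain ⟨ρ', v', r', h', T', -, E', -⟩ := exists_step hX.gm.rv (fun _ => 0)
    (Lad.empty X.ρ.σ X.ρ.ht) (fun _ _ => canon ∅) fun β _ => canon_empty_mem β
  obtain ⟨N₁, x, q, g₁, ⟨⟨a₁, a₂⟩, a₃⟩, r₁, m₁⟩ := hL ρ' v' (r'.trans ok.rl) _
    (((AE.const ρ').and ae_ht).and ae_T)
  rw [hX.ht] at h' E'
  refine ⟨x, q, KN N₁, g₁.rv, r₁.trans r', ?_, hm.trans_eq m₁.2.symm, m₁.1, h'.trans (a₂ ρ' a₁),
    (ok.node.el _ _ _ m₁.1).lt, hX.kn.trans ?_⟩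
  · rw [(r₁ 0).E _ h', E']
  · rw [← T']
    exact a₃ ρ' a₁ v'

theorem ch_step {R : Set (Ob → Ob → Prop)} (hR : R.Countable) (bo : ℕ → List (ℕ × ℕ))
    {l₀ : ChLb} (i : ℕ) (X : ChSt) (hX : ChInv R l₀ i X) :
    ∃ Y, ChInv R l₀ (i + 1) Y ∧ ChRel bo i X Y := by
  obtain ⟨u, l, hu, hb⟩ : ∃ u l, X.lab u = some l ∧ ∀ l', X.lab (bo i) = some l' → u = bo i := by
    cases h : X.lab (bo i) with
    | none => exact ⟨[], l₀, hX.root, fun _ h' => by cases h'⟩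
    | some l => exact ⟨bo i, l, h, fun _ _ => rfl⟩
  obtain ⟨x, q, B, vq, rq, Eq, val, mem, lt, lt', kn⟩ := ch_leaf hX hu
  obtain ⟨N, η, ρ, gm, ⟨⟨cl, kn'⟩, act⟩, rρ, ht, hf, T, sub⟩ :=
    exists_GM (((AE.closed hR).and ae_memT).and (AE.act ChQ fun b => b.1.r)) vq hX.gm.ct
  have rX : RL ρ X.ρ := rρ.trans rq
  have okY : ∀ l, ChOk X.N X.ρ l → ChOk N ρ l := fun l h =>
    ⟨sub _ h.mem, h.node, h.spl, rX.trans h.rl⟩
  obtain ⟨en, hen⟩ : ∃ en : ℕ → Set Nod × K, ∀ z, Mem N z → ∃ e, en e = z := by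
    have hc := (countable_mem (α := Set Nod × K) gm.ct).insert (∅, 0)
    obtain ⟨en, hen⟩ := hc.exists_eq_range (insert_nonempty _ _)
    exact ⟨en, fun z hz => by
      have : z ∈ range en := hen ▸ mem_insert_of_mem _ hz
      exact this⟩
  have hch : ∀ (e : ℕ) (l : ChLb), ∃ o : Option ChLb,
      (∀ l', o = some l' → ChOk N ρ l' ∧ l'.μ < l.μ ∧ NLe 0 l'.w (restr l.w l.j l'.m) ∧
        Nat.pair (i + 1) e ≤ l'.m) ∧
      (ChOk N ρ l → Mem N (en e).1 → DO 0 (en e).1 → (en e).2 < l.μ →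
        ∃ l', o = some l' ∧ l'.μ = (en e).2 ∧ l'.w ∈ (en e).1) := by
    intro e l
    by_cases H : ChOk N ρ l ∧ Mem N (en e).1 ∧ DO 0 (en e).1 ∧ (en e).2 < l.μ
    · obtain ⟨h1, h2, h3, h4⟩ := H
      obtain ⟨b, b1, ⟨b2, b3, b4, b5, b6⟩, -, b7⟩ := act (l.w, l.j, (en e).1, Nat.pair (i + 1) e)
        ⟨h1.mem, mem_nat, h2, mem_nat⟩ (ch_wit gm.rv hf h1.node h1.spl h1.rl h3 _)
      refine ⟨some ⟨b.1, (en e).2, b.2.1, b.2.2⟩, fun l' h => ?_, fun _ _ _ _ => ⟨_, rfl, rfl, b2⟩⟩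
      cases h
      exact ⟨⟨b1.1, b3, b4, b7⟩, h4, b6, b5⟩
    · exact ⟨none, fun _ h => (by cases h), fun h1 h2 h3 h4 => (H ⟨h1, h2, h3, h4⟩).elim⟩
  choose ch hch₁ hch₂ using hch
  let lab : List (ℕ × ℕ) → Option ChLb := fun a => match a with
    | [] => X.lab []
    | c :: a' => if c.1 = i + 1 then (X.lab a').bind (ch c.2) else X.lab (c :: a')
  have ext : ∀ a l, X.lab a = some l → lab a = some l := by
    rintro (_ | ⟨⟨i', e⟩, a'⟩) l h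
    · exact h
    · have := (hX.par i' e a' l h).1
      simp only [lab]
      rw [if_neg (by omega)]
      exact h
  have cas : ∀ i' e a l', lab ((i', e) :: a) = some l' → X.lab ((i', e) :: a) = some l' ∨
      (i' = i + 1 ∧ ∃ l, X.lab a = some l ∧ ch e l = some l') := by
    intro i' e a l' h
    simp only [lab] at h
    split_ifs at h with h'
    · exact Or.inr ⟨h', Option.bind_eq_some_iff.1 h⟩
    · exact Or.inl h
  refine ⟨⟨N, η, ρ, lab⟩, ⟨gm, cl, kn', ht, T, hX.root, ?_, ?_⟩, sub, rX, ?_, ext, ?_,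
    x, q, B, u, l, hu, hb, val, mem, rρ, lt, lt', ht ▸ (rρ 0).ht, kn⟩
  · rintro (_ | ⟨⟨i', e⟩, a'⟩) l' h
    · exact okY _ (hX.ok [] l' h)
    · rcases cas i' e a' l' h with h | ⟨-, l, -, h⟩
      · exact okY _ (hX.ok _ l' h)
      · exact (hch₁ e l l' h).1
  · intro i' e a l' h
    rcases cas i' e a l' h with h | ⟨rfl, l, h₁, h⟩
    · obtain ⟨h1, l, h2, h3⟩ := hX.par i' e a l' h
      exact ⟨h1.trans i.le_succ, l, ext _ _ h2, h3⟩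
    · exact ⟨le_rfl, l, ext _ _ h₁, (hch₁ e l l' h).2⟩
  · exact ((rρ 0).E _ (lt.trans lt')).trans Eq
  · intro a l h O μ' hO hμ hD hlt
    obtain ⟨e, he⟩ := hen (O, μ') ⟨hO, hμ⟩
    have := hch₂ e l (okY _ (hX.ok a l h))
    rw [he] at this
    obtain ⟨l', h1, h2⟩ := this hO hD hlt
    refine ⟨e, l', ?_, h2⟩
    simp only [lab, if_true, h, Option.bind_some]
    exact h1

theorem ch_start {R : Set (Ob → Ob → Prop)} (hR : R.Countable) {l₀ : ChLb} (hw : Node 0 l₀.w)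
    (hs : Spl l₀.w l₀.j) : ∃ X, ChInv R l₀ 0 X := by
  classical
  obtain ⟨N, η, ρ, gm, ⟨⟨cl, kn'⟩, mem⟩, rρ, ht, -, T, -⟩ :=
    exists_GM (((AE.closed hR).and ae_memT).and (AE.const l₀.w)) hw.v.rv countable_empty
  refine ⟨⟨N, η, ρ, fun a => if a = [] then some l₀ else none⟩, gm, cl, kn', ht, T, by simp,
    fun a l h => ?_, fun i' e a l' h => by simp at h⟩
  dsimp only at h
  split_ifs at h
  cases h
  exact ⟨mem, hw, hs, rρ⟩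

section Seq

variable {R : Set (Ob → Ob → Prop)} {l₀ : ChLb} {bo : ℕ → List (ℕ × ℕ)} {X : ℕ → ChSt}
  {x : ℕ → W} {q : ℕ → Cond} {B : ℕ → Set K} {u : ℕ → List (ℕ × ℕ)} {lf : ℕ → ChLb} {ρ : Cond}

theorem ch_lab_mono (hR : ∀ i, ChRel bo i (X i) (X (i + 1))) {a : List (ℕ × ℕ)} {l : ChLb}
    {i j : ℕ} (h : (X i).lab a = some l) (hij : i ≤ j) : (X j).lab a = some l := by
  induction hij with
  | refl => exact h
  | step _ ih => exact (hR _).ext _ _ ih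

theorem ch_lab_uniq (hR : ∀ i, ChRel bo i (X i) (X (i + 1))) {a : List (ℕ × ℕ)} {l l' : ChLb}
    {i j : ℕ} (h : (X i).lab a = some l) (h' : (X j).lab a = some l') : l = l' :=
  Option.some.inj ((ch_lab_mono hR h (le_max_left i j)).symm.trans
    (ch_lab_mono hR h' (le_max_right i j)))

theorem ch_down {i : ℕ} {Y : ChSt} (hI : ChInv R l₀ i Y) {x : W} {B : Set K} (a : List (ℕ × ℕ)) :
    ∀ (b : List (ℕ × ℕ)) (l : ChLb) (q : Cond), Y.lab (b ++ a) = some l → (x, q, B) ∈ l.w.A →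
      RL ρ q → ∃ l' q', Y.lab a = some l' ∧ (x, q', B) ∈ l'.w.A ∧ RL ρ q' := by
  intro b
  induction b with
  | nil => exact fun l q h1 h2 h3 => ⟨l, q, h1, h2, h3⟩
  | cons c b ih =>
    intro l q h1 h2 h3
    obtain ⟨-, l₁, h4, -, h5, -⟩ := hI.par c.1 c.2 (b ++ a) l h1
    obtain ⟨q₁, h6, h7⟩ := h5.2 x q B h2
    exact ih l₁ q₁ h4 h6.1 (h3.trans h7.2)

theorem ch_wf (hI : ∀ i, ChInv R l₀ i (X i)) (hR : ∀ i, ChRel bo i (X i) (X (i + 1)))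
    (hL : ∀ i, ChLeaf bo i (X i) (X (i + 1)) (x i) (q i) (B i) (u i) (lf i))
    (hρ : ∀ i, RL ρ (X i).ρ) (s : ℕ → ℕ) (μ : K) :
    ∀ a l n, (X n).lab a = some l → l.μ = μ →
      ∃ k, {i | a <:+ u i ∧ ∀ j < k, ρ.σ (x i) j = s j}.Finite := by
  induction μ using WellFoundedLT.induction with
  | ind μ ih =>
  intro a l n hl hμ
  have rq : ∀ i, RL ρ (q i) := fun i => (hρ (i + 1)).trans (hL i).rl
  have down : ∀ i a, a <:+ u i → ∃ l' q', (X i).lab a = some l' ∧ (x i, q', B i) ∈ l'.w.A ∧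
      RL ρ q' := by
    rintro i a ⟨b, hb⟩
    exact ch_down (hI i) a b _ _ (hb ▸ (hL i).lab) (hL i).mem (rq i)
  have key : ∀ c : ℕ × ℕ, ∃ k, {i | c :: a <:+ u i ∧ ∀ j < k, ρ.σ (x i) j = s j}.Finite := by
    intro c
    by_cases H : ∃ i, c :: a <:+ u i
    · obtain ⟨i, hi⟩ := H
      obtain ⟨l', -, h1, -⟩ := down i _ hi
      obtain ⟨-, l₁, h2, h3, -⟩ := (hI i).par c.1 c.2 a l' h1
      obtain rfl := ch_lab_uniq hR h2 hl
      exact ih l'.μ (hμ ▸ h3) _ l' i h1 rfl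
    · exact ⟨0, finite_empty.subset fun i hi => H ⟨i, hi.1⟩⟩
  choose k hk using key
  have hC : {c : ℕ × ℕ | Nat.pair c.1 c.2 ≤ s l.j}.Finite :=
    ((finite_Iic (s l.j)).prod (finite_Iic (s l.j))).subset fun c hc =>
      ⟨(Nat.left_le_pair _ _).trans hc, (Nat.right_le_pair _ _).trans hc⟩
  obtain ⟨k₀, hk₀⟩ := (hC.image k).bddAbove
  refine ⟨max k₀ (l.j + 1), ((finite_Iic (s l.j)).union (hC.biUnion fun c _ => hk c)).subset ?_⟩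
  rintro i ⟨⟨b, hb⟩, hs⟩
  have hj := hs l.j (lt_max_of_lt_right (Nat.lt_succ_self _))
  rcases b.eq_nil_or_concat with rfl | ⟨b', c, rfl⟩
  · left
    have h1 := (hL i).lab
    rw [← hb] at h1
    have h2 := (hL i).val
    rw [ch_lab_uniq hR h1 hl, ← (rq i 0).σ _ (hL i).lt', hj] at h2
    exact h2
  · right
    have hi : c :: a <:+ u i := ⟨b', by rw [← hb]; simp⟩
    obtain ⟨l', q', h1, h2, h3⟩ := down i _ hi
    obtain ⟨-, l₁, h4, -, h5, h6⟩ := (hI i).par c.1 c.2 a l' h1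
    obtain rfl := ch_lab_uniq hR h4 hl
    obtain ⟨q₁, h7, h8⟩ := h5.2 _ _ _ h2
    have h9 : ρ.σ (x i) = q₁.σ (x i) :=
      (h3.trans h8.2 0).σ _ (((hI i).ok a l₁ h4).node.el _ _ _ h7.1).lt
    have hc : Nat.pair c.1 c.2 ≤ s l₁.j := by
      rw [← hj, h9]
      exact h6.trans_eq h7.2.symm
    exact mem_biUnion (s := {c : ℕ × ℕ | Nat.pair c.1 c.2 ≤ s l₁.j}) hc
      ⟨hi, fun j hj => hs j (lt_max_of_lt_left (hj.trans_le (hk₀ (mem_image_of_mem k hc))))⟩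

theorem ch_eta (hL : ∀ i, ChLeaf bo i (X i) (X (i + 1)) (x i) (q i) (B i) (u i) (lf i)) :
    StrictMono fun i => (X i).η :=
  strictMono_nat_of_lt_succ fun i => ((hL i).lt.trans (hL i).lt').trans_le (hL i).ht

theorem ch_pos (hI : ∀ i, ChInv R l₀ i (X i)) (hR : ∀ i, ChRel bo i (X i) (X (i + 1)))
    (hL : ∀ i, ChLeaf bo i (X i) (X (i + 1)) (x i) (q i) (B i) (u i) (lf i))
    (hbo : ∀ a n, ∃ i, n ≤ i ∧ bo i = a) (C : Ch) (hN : ∀ i, C.N i = (X i).N)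
    (hη : ∀ i, C.η i = (X i).η) (hE : C.Ed = range x) (hρ : ∀ i, RL C.ρ (X i).ρ) (μ : K) :
    ∀ a l n, (X n).lab a = some l → l.μ = μ → C.FPos 0 μ l.w (fun _ _ => True) C.ρ := by
  induction μ using WellFoundedLT.induction with
  | ind μ ih =>
  intro a l n hl hμ
  have hm := ch_eta hL
  refine Ch.FPos_iff.2 ⟨fun y hy => Dns.of_all fun r _ hr => ?_,
    fun μ' ⟨n', hn'⟩ hlt i₀ => Dns.of_all fun r _ hr => ?_⟩
  · obtain ⟨n', hn'⟩ := C.cof y hy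
    obtain ⟨i, hi, hb⟩ := hbo a (max n n')
    have h1 := ch_lab_mono hR hl (le_of_max_le_left hi)
    have h2 : u i = a := ((hL i).book l (hb ▸ h1)).trans hb
    have h3 : lf i = l := ch_lab_uniq hR (h2 ▸ (hL i).lab) hl
    have h4 : RL C.ρ (q i) := (hρ (i + 1)).trans (hL i).rl
    refine ⟨x i, hE ▸ mem_range_self i,
      (hn'.trans_le (hη n' ▸ hm.monotone (le_of_max_le_right hi))).trans (hL i).lt,
      ⟨q i, B i, h3 ▸ (hL i).mem, h4, ?_, fun i' hi' => ?_, hr.trans (L_zero.2 (h4 0))⟩, trivial⟩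
    · rw [hE]
      rintro _ ⟨i', rfl⟩ hlt
      have : i < i' + 1 :=
        hm.lt_iff_lt.1 ((((hL i).lt.trans hlt).trans (hL i').lt').trans_le (hL i').ht)
      rcases (Nat.lt_succ_iff.1 this).eq_or_lt with rfl | h
      · exact (lt_irrefl _ hlt).elim
      · exact ((hL i).ht.trans (hm.monotone h)).trans (hL i').lt.le
    · rw [hη] at hi'
      have : i' < i + 1 := hm.lt_iff_lt.1 ((hi'.trans_lt (hL i).lt').trans_le (hL i).ht)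
      refine Subset.trans (fun β hβ => ?_) (hL i).kn
      rw [← hN]
      exact C.mem_mono hβ (Nat.lt_succ_iff.1 this)
  · have hlt' : μ' < l.μ := hμ ▸ Ch.lt_of_add hlt
    obtain ⟨i, h0, h1, h2⟩ : ∃ i, i₀ ≤ i ∧ n ≤ i ∧ n' ≤ i :=
      ⟨max i₀ (max n n'), by omega, by omega, by omega⟩
    refine ⟨i + 1, h0.trans i.le_succ, fun O hO hD => Dns.of_all fun s _ hs => ?_⟩
    have h3 := ch_lab_mono hR hl h1
    obtain ⟨e, l', h4, h5, h6⟩ := (hR i).full a l h3 O μ' (hN _ ▸ hO)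
      (hN _ ▸ C.mem_mono hn' (h2.trans i.le_succ)) hD hlt'
    have ok := (hI (i + 1)).ok _ l' h4
    obtain ⟨-, l₁, h7, -, h8, -⟩ := (hI (i + 1)).par _ e a l' h4
    obtain rfl := ch_lab_uniq hR h7 hl
    exact ⟨l'.w, h6, (hN _).symm ▸ ok.mem, ok.node, h8.trans (ch_restr_nle _ _ _),
      (ih μ' (hμ ▸ hlt') _ l' _ h4 h5).mono (hs.trans hr)⟩

end Seq

/-- The master construction. -/
theorem exists_ch {Φ : Ch → Prop} (h : AEC Φ) {w : Nod} (hw : Node 0 w) (μ : K) :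
    ∃ C, Φ C ∧ C.FPos 0 μ w (fun _ _ => True) C.ρ := by
  obtain ⟨R, hRc, hΦ⟩ := h
  obtain ⟨w₀, j₀, n₀, le₀, s₀⟩ := exists_spl hw
  obtain ⟨bo, hbo⟩ := ch_book
  obtain ⟨X₀, h₀⟩ := ch_start hRc (l₀ := ⟨w₀, μ, j₀, 0⟩) n₀ s₀
  obtain ⟨X, hX⟩ := ch_dc _ (ChRel bo) X₀ h₀ (ch_step hRc bo)
  have hI := fun i => (hX i).1
  have hR := fun i => (hX i).2
  choose x q B u lf hL using fun i => (hR i).leaf
  obtain ⟨ρ, v, hρ, hf, cof, sub⟩ := exists_lim (fun i => (X i).ρ) (fun i => (hI i).gm.rv)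
    fun i => (hR i).rl
  have hm := ch_eta hL
  have lt : ∀ i, (X i).η < ρ.ht := fun i =>
    (hm i.lt_succ_self).trans_le ((hI (i + 1)).ht.symm.trans_le (hρ (i + 1) 0).ht)
  have cof' : ∀ y < ρ.ht, ∃ i, y < (X i).η := fun y hy =>
    (cof y hy).imp fun i hi => (hI i).ht ▸ hi
  have mono : ∀ i j, i ≤ j → ∀ o : Ob, o.In (X i).N → o.In (X j).N := by
    intro i j hij o ho
    induction hij with
    | refl => exact ho
    | step _ ih => exact (hR _).sub _ ih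
  have emp : ∀ i, ρ.E (X i).η = ∅ := fun i =>
    ((hρ (i + 1) 0).E _ ((hI (i + 1)).ht ▸ hm i.lt_succ_self)).trans (hR i).emp
  have lad : Lad ρ.σ ρ.ht (range x) := by
    refine ⟨?_, fun y hy => ?_, fun s => ?_⟩
    · rintro _ ⟨i, rfl⟩
      exact ((hL i).lt'.trans_le (hL i).ht).trans (lt _)
    · obtain ⟨n, hn⟩ := cof' y hy
      refine ((finite_Iio n).image x).subset ?_
      rintro _ ⟨⟨i, rfl⟩, hi⟩
      exact mem_image_of_mem x (hm.lt_iff_lt.1 (((hL i).lt.trans hi).trans hn))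
    · obtain ⟨k, hk⟩ := ch_wf hI hR hL hρ s μ [] _ 0 (hI 0).root rfl
      refine ⟨k, (hk.image x).subset ?_⟩
      rintro _ ⟨⟨i, rfl⟩, hi⟩
      exact mem_image_of_mem x ⟨List.nil_suffix, hi⟩
  let C : Ch := ⟨fun i => (X i).N, fun i => (X i).η, ρ.ht, range x, ρ,
    fun i => (hI i).gm.ext v (hρ i), mono, rfl, hf, lt, cof', emp, lad,
    fun β hβ => (sub β hβ).imp fun i hi => (hI i).T hi⟩
  exact ⟨C, hΦ C fun i => (hI i).cl, (ch_pos hI hR hL hbo C (fun _ => rfl) (fun _ => rfl) rfl hρ μ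
    [] _ 0 (hI 0).root rfl).nle le₀⟩

end Pool.Agent.MP_2e2931_gt.Gap
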