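import Pool.Agent.MP_2e2931_gt.FCre

namespace Pool.Agent.MP_2e2931_gt.Gap

open Set Ordinal

/-- The value of `w` at `β` is above the bounds of `r`. -/
def Ch.Bd (C : Ch) (β : K) (w : Nod) (r : Cond) : Prop :=
  ∀ a m, w.F β a → (β, Atom.bd C.δ m) ∈ r.f → m ≤ a

/-- The statement of the chain lemma. -/
def Ch.CL (C : Ch) : Prop :=
  ∀ (lam γ b μ : K) (w : Nod) (r : Cond), (∀ μ' ≤ lam, C.TS μ') → C.MemU w → C.MemU b →
    C.MemU μ → Node γ w → V γ r → C.Bel γ r → L γ r w.r → b < γ →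
    (C.Jn b lam w r ∨ (C.FPos b lam w (fun _ _ => True) r ∧ C.Bd b w r)) →
    (∀ β, b < β → β < γ → C.Bd β w r) → μ + ω ^ γ ≤ lam →
    ∃ r', V γ r' ∧ L γ r' r ∧ C.Ok γ μ w r'

theorem fch_five {β g : K} (h : β < g) : ω ^ β * 4 + ω ^ β ≤ ω ^ g := by
  have h₁ : ω ^ β * 4 + ω ^ β = ω ^ β * ((5 : ℕ) : K) := by
    have : ((5 : ℕ) : K) = 4 + 1 := by norm_num
    rw [this, mul_add, mul_one]
  rw [h₁]
  calc ω ^ β * ((5 : ℕ) : K) ≤ ω ^ β * ω := mul_le_mul_right (natCast_lt_omega0 5).le _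
    _ = ω ^ Order.succ β := (opow_succ _ _).symm
    _ ≤ ω ^ g := opow_le_opow_right omega0_pos (Order.succ_le_of_lt h)

/-- Clusters are created at all fresh coordinates. -/
theorem aec_cl : AEC Ch.CL := by
  refine ((aec_cre.and (AEC.of_AE (AE.fn fun w : Nod => w.r))).and ((AEC.of_AE ae_T).and
    (AEC.of_AE (AE.fn fun z : K × K => z.1 + ω ^ z.2 * 4)))).mono ?_
  rintro C ⟨⟨hC, hr⟩, hT, hf⟩ lam γ b μ w r ts mw mb mμ hw vr br lr hb h0 hB hμ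
  have key : ∀ g, b < g → g ≤ γ → ∀ μ, C.MemU μ → μ + ω ^ g ≤ lam →
      ∃ r', V γ r' ∧ L γ r' r ∧ (∀ y : K × Atom, g ≤ y.1 → (y ∈ r'.f ↔ y ∈ r.f)) ∧
        C.Ok g μ w r' := by
    intro g
    induction g using WellFoundedLT.induction with
    | ind g ih =>
      intro hbg hg μ mμ hμ
      have hμ' : μ ≤ lam := le_self_add.trans hμ
      have h5 : ∀ β < g, μ + ω ^ β * 4 + ω ^ β ≤ lam := fun β hβ => by
        rw [add_assoc]
        exact (add_le_add_right (fch_five hβ) μ).trans hμ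
      rcases {β | b < β ∧ β < g ∧ ∃ a, w.F β a}.eq_empty_or_nonempty with he | hne
      · have no : ∀ β, b < β → β < g → ∀ a, ¬ w.F β a := fun β h₁ h₂ a ha =>
          (he.subset ⟨h₁, h₂, a, ha⟩ : β ∈ (∅ : Set K))
        rcases h0 with h0 | ⟨h0, h1⟩
        · exact ⟨r, vr, L.refl, fun _ _ => Iff.rfl, lr.mono hg, b, hbg.le, mb, no,
            Or.inr ⟨hbg, h0.mono (fun _ h => h) hμ'⟩⟩
        · by_cases ha : ∃ a, w.F b a
          · obtain ⟨a, ha⟩ := ha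
            obtain ⟨r', v', l', e', j'⟩ := hC b γ μ w r a hb mb mμ mw vr br
              (lr.sub hb (hw.on b hb a ha)) ha (fun m hm => h1 a m ha hm)
              (h0.le (le_self_add.trans (h5 b hbg)))
            exact ⟨r', v', l', fun y hy => e' y (hbg.trans_le hy), (l'.trans lr).mono hg, b,
              hbg.le, mb, no, Or.inr ⟨hbg, j'⟩⟩
          · exact ⟨r, vr, L.refl, fun _ _ => Iff.rfl, lr.mono hg, b, hbg.le, mb, no,
              Or.inl ⟨Or.inr fun a h => ha ⟨a, h⟩, h0.le hμ'⟩⟩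
      · have hfin : {β | b < β ∧ β < g ∧ ∃ a, w.F β a}.Finite :=
          hw.F_fin.subset fun β h => ⟨h.2.1.trans_le hg, h.2.2⟩
        obtain ⟨β, ⟨h₁, h₂, a, ha⟩, hmax⟩ := Set.exists_max_image _ id hfin hne
        have hβ : β < γ := h₂.trans_le hg
        have hon := hw.on β hβ a ha
        have mβ : C.MemU β := by
          obtain ⟨i, hi⟩ := mw
          exact ⟨i, hT i _ (hr i w hi) hw.v.rv (hw.v.supp hβ hon)⟩
        have m2 : C.MemU (μ + ω ^ β * 4) := by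
          obtain ⟨i, hi⟩ := Ch.memU_prod.2 ⟨mμ, mβ⟩
          exact ⟨i, hf i _ hi⟩
        obtain ⟨r₁, v₁, l₁, e₁, o₁⟩ := ih β h₂ h₁ hβ.le _ m2 (h5 β h₂)
        have b₁ := br.mono l₁.rle
        have fp := ts _ (le_self_add.trans (h5 β h₂)) β w r₁ mβ mw (hw.mono hβ.le)
          (v₁.mono hβ.le) (b₁.level hβ.le) o₁
        obtain ⟨r', v', l', e', j'⟩ := hC β γ μ w r₁ a hβ mβ mμ mw v₁ b₁
          ((l₁.trans lr).sub hβ hon) ha (fun m hm => hB β h₁ hβ a m ha ((e₁ _ le_rfl).1 hm)) fp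
        refine ⟨r', v', l'.trans l₁, fun y hy => (e' y (h₂.trans_le hy)).trans
          (e₁ y (h₂.le.trans hy)), ((l'.trans l₁).trans lr).mono hg, β, h₂.le, mβ,
          fun β' k₁ k₂ a' ha' => ?_, Or.inr ⟨h₂, j'⟩⟩
        exact absurd (hmax β' ⟨h₁.trans k₁, k₂, a', ha'⟩) (not_le.2 k₁)
  obtain ⟨r', v', l', -, o'⟩ := key γ hb le_rfl μ mμ hμ
  exact ⟨r', v', l', o'⟩

theorem fch_idx (C : Ch) {s : Set K} (hs : s.Finite) (h : s ⊆ C.ρ.T) :
    ∃ i, s ⊆ KN (C.N i) := by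
  induction s, hs using Set.Finite.induction_on with
  | empty => exact ⟨0, empty_subset _⟩
  | insert _ _ ih =>
    obtain ⟨i, hi⟩ := ih ((subset_insert _ _).trans h)
    obtain ⟨j, hj⟩ := C.sub _ (h (mem_insert _ _))
    refine ⟨max i j, insert_subset (C.mem_mono hj (le_max_right _ _)) fun β hβ => ?_⟩
    exact C.mem_mono (hi hβ) (le_max_left _ _)

theorem fch_bound {r : Cond} (hv : RV r) (hf : r.f.Finite) {δ y y₁ : W} (hy : y < δ)
    (hy₁ : y₁ < δ) : ∃ y' < δ, y ≤ y' ∧ y₁ ≤ y' ∧ (∀ e ∈ r.f, e.2.pos < δ → e.2.pos ≤ y') ∧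
      ∀ e ∈ r.f, δ < e.2.pos → e.2.pos < r.ht → ∀ z ∈ r.E e.2.pos, z < δ → z ≤ y' := by
  have h₁ : ((fun e : K × Atom => e.2.pos) '' r.f).Finite := hf.image _
  have h₂ : (⋃ e ∈ {e ∈ r.f | δ < e.2.pos ∧ e.2.pos < r.ht}, r.E e.2.pos ∩ Iio δ).Finite :=
    (hf.subset (sep_subset _ _)).biUnion fun e he => (hv.lad _ he.2.2).fin δ he.2.1
  obtain ⟨y', hm, hmax⟩ := Set.exists_max_image _ id
    ((((h₁.union h₂).insert y₁).insert y).inter_of_left (Iio δ)) ⟨y, Or.inl rfl, hy⟩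
  exact ⟨y', hm.2, hmax y ⟨Or.inl rfl, hy⟩, hmax y₁ ⟨Or.inr (Or.inl rfl), hy₁⟩,
    fun e he h => hmax _ ⟨Or.inr (Or.inr (Or.inl ⟨e, he, rfl⟩)), h⟩,
    fun e he k₁ k₂ z hz h => hmax _ ⟨Or.inr (Or.inr (Or.inr
      (mem_biUnion (show e ∈ {e ∈ r.f | δ < e.2.pos ∧ e.2.pos < r.ht} from ⟨he, k₁, k₂⟩)
        ⟨hz, h⟩))), h⟩⟩

/-- The first clause of the lifting lemma. -/
theorem Ch.ok_A {C : Ch} (hT : ∀ i, KN (C.N i) ⊆ C.ρ.T) {γ μ : K} {w : Nod} {r : Cond}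
    (hw : Node γ w) (hr : V γ r) (hb : C.Bel γ r) (h : C.Ok γ μ w r) {y : W} (hy : y < C.δ) :
    ∃ r', V γ r' ∧ L γ r' r ∧ ∃ x ∈ C.Ed, y < x ∧ C.In γ w x r' := by
  obtain ⟨lr, b, hbγ, mb, no, h⟩ := h
  rcases hbγ.eq_or_lt with rfl | hlt
  · rcases h with ⟨-, h⟩ | ⟨h, -⟩
    · obtain ⟨r', v', l', x, h₁, h₂, h₃, -⟩ := ((Ch.FPos_iff.1 h).1 y hy).ex hr
      exact ⟨r', v', l', x, h₁, h₂, h₃⟩
    · exact absurd h (lt_irrefl _)
  have hU : ∃ (ν : K) (U : Cond → W → Prop), C.FPos b ν w U r ∧ ∀ a, w.F b a → ∃ t m',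
      (b, Atom.cl C.δ t m') ∈ r.f ∧ m' ≤ a ∧ ∀ p x, U p x → Uc b C.δ t (code r b C.δ t) p x := by
    rcases h with ⟨h₁, h₂⟩ | ⟨-, a, t, m, l, ν, h₁, h₂, h₃, h₄, h₅, -⟩
    · exact ⟨μ, _, h₂, fun a ha => absurd ha (h₁.resolve_left hlt.ne a)⟩
    · obtain ⟨i, hi⟩ := mb
      have k := hb.prom hr hlt (hT i hi) h₄
      rw [h₅] at k
      exact ⟨ν, _, k, fun a' ha' => ⟨t, m, h₃, hw.F_uniq hlt h₁ ha' ▸ h₂, fun _ _ h => h⟩⟩
  obtain ⟨ν, U, fp, hU⟩ := hU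
  obtain ⟨i, hi⟩ := fch_idx C ((hr.fin.image Prod.fst).inter_of_left C.ρ.T) inter_subset_right
  obtain ⟨y', hy', k₁, k₂, k₃, k₄⟩ := fch_bound hr.rv hr.fin hy (C.lt i)
  obtain ⟨p'', v'', l'', x, hx, hyx, ⟨q, B, hA, hR, hz, hB, lq⟩, hu⟩ :=
    ((Ch.FPos_iff.1 fp).1 y' hy').ex (hr.mono hbγ)
  have el := hw.el x q B hA
  have hq : q.ht ≤ C.δ := C.ht ▸ (hR 0).ht
  have hρ : RL (amR b p'' r) r := amR_RL l''.rle
  have big : ∀ e ∈ r.f, x ≤ e.2.pos → C.δ ≤ e.2.pos := fun e he h =>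
    not_lt.1 fun h' => absurd (hyx.trans_le (h.trans (k₃ e he h'))) (lt_irrefl _)
  obtain ⟨v', l₁, l₂, -⟩ := am_spec hbγ (v''.rv.amR hr.rv) v'' hr el.v l'' lq amR_rle (hρ γ)
    ((hρ γ).trans (hb.le.trans (hR γ))) (fun β h₁ h₂ => by
      by_cases hβ : β ∈ B
      · have hs : Order.succ β ≤ γ := Order.succ_le_of_lt h₂
        refine Or.inr (Or.inr (Or.inr ⟨w.r, x, lr.mono hs, hw.v.mono hs,
          fun a ha => el.le.1.sub h₂ ha, el.tail β h₂ hβ, fun a a' ha ha' h => ?_,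
          fun d m z a hd ha hxz hzd => Or.inr ?_⟩))
        · exact (((el.v.loc h₂).pos a' ha').trans_le hq).trans_le (big _ ha h)
        · have dr : d < r.ht := (hr.loc h₂).pos _ hd
          rw [(hρ 0).E d dr] at hzd
          have zq : z < q.ht := (el.v.loc h₂).pos _ ha
          have zd : z < d := (hr.rv.lad d dr).lt z hzd
          have hδ : C.δ ≤ d := big _ hd (hxz.trans zd.le)
          rcases hδ.eq_or_lt with rfl | hδ
          · rw [hb.E] at hzd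
            have e : x = z := hxz.eq_or_lt.resolve_right fun h => not_lt.2 (hz z hzd h) zq
            subst e
            have hF := (el.val β h₂ hβ a).1 ha
            have e : b = β := h₁.eq_or_lt.resolve_right fun h => no β h h₂ a hF
            subst e
            obtain ⟨t, m', n₁, n₂, n₃⟩ := hU a hF
            exact ⟨rfl, t, m', n₁, n₂, n₃ _ _ hu⟩
          · exact absurd (hyx.trans_le (hxz.trans (k₄ _ hd hδ dr z hzd (zq.trans_le hq))))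
              (lt_irrefl _)
      · by_cases h₃ : ∃ a, (β, a) ∈ r.f
        · obtain ⟨a, ha⟩ := h₃
          refine Or.inr (Or.inl fun a' ha' => hβ ?_)
          exact hB i (k₂.trans hyx.le) (hi ⟨⟨_, ha, rfl⟩, hR.T (el.v.supp h₂ ha')⟩)
        · exact Or.inl fun a ha => h₃ ⟨a, ha⟩)
  exact ⟨_, v', l₁, x, hx, k₁.trans_lt hyx, q, B, hA, hR, hz, hB, l₂⟩

end Pool.Agent.MP_2e2931_gt.Gap
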