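import Pool.Agent.MP_2e2931_gt.FAE
import Pool.Agent.MP_2e2931_gt.FAM
import Pool.Agent.MP_2e2931_gt.FAdd

namespace Pool.Agent.MP_2e2931_gt.Gap

open Set Ordinal

/-- The data required of the upper part in the reduction step. -/
def RedQ (γ β : K) (G : Set Cond) (l : List Atom) (c c' : Cond) : Prop :=
  c' ∈ G ∧ V γ c' ∧ Le β c c' ∧
    ∃ c₀, V (Order.succ β) c₀ ∧ (∀ a, (β, a) ∈ c₀.f ↔ a ∈ l) ∧ L (Order.succ β) c' c₀

theorem red_core {N : Set Ob} {η : W} {ρ : Cond} (gm : GM N η ρ)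
    (hact : ∀ (γ : K) (G : Set Cond), Mem N γ → Mem N G →
      (∃ b, (V γ b ∧ b ∈ G) ∧ RV b ∧ RL b ρ) → ∃ b, Mem N b ∧ (V γ b ∧ b ∈ G) ∧ RV b ∧ RL ρ b)
    (hht : ∀ c : Cond, Mem N c → c.ht < η) (hT : ∀ c : Cond, Mem N c → RV c → c.T ⊆ KN N)
    (h0 : w0 < η)
    (hG : ∀ (γ β : K) (G : Set Cond) (l : List Atom), Mem N γ → Mem N β → Mem N G → Mem N l →
      Mem N {c | ∃ c', RedQ γ β G l c c'})
    (hwit : ∀ (γ β : K) (G : Set Cond) (l : List Atom) (c : Cond), Mem N γ → Mem N β → Mem N G →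
      Mem N l → Mem N c → (∃ c', RedQ γ β G l c c') → ∃ c', Mem N c' ∧ RedQ γ β G l c c')
    (ham : ∀ (β : K) (c c' : Cond), Mem N β → Mem N c → Mem N c' → Mem N (am β c c c' c'))
    (hη : η < ρ.ht) (hE : ρ.E η = ∅) (γ : K) :
    Mem N γ → ∀ G : Set Cond, Mem N G → (∀ c ∈ G, ∀ c', V γ c' → Le γ c' c → c' ∈ G) →
      ∀ r ∈ G, V γ r → RL r ρ →
      ∃ r₁, ∃ r₀ ∈ G, V γ r₁ ∧ Le γ r₁ r ∧ Mem N r₀ ∧ V γ r₀ ∧ RL ρ r₀ ∧ L γ r₁ r₀ ∧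
        ∀ β < γ, Mem N β → Tail β η r₁ r₀ := by
  induction γ using WellFoundedLT.induction with
  | ind γ ih =>
  intro hγ G hGN hGm r hrG hr hrρ
  -- positions of atoms of valid members of `N` are below `η`
  have hpos : ∀ c : Cond, Mem N c → V γ c → ∀ β < γ, ∀ a, (β, a) ∈ c.f → a.pos < η :=
    fun c hc hv β hβ a ha => ((hv.loc hβ).pos a ha).trans (hht c hc)
  have hout : ∀ c : Cond, Mem N c → V γ c → ∀ β < γ, ¬ Mem N β → ∀ a, (β, a) ∉ c.f :=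
    fun c hc hv β hβ hn a ha => hn (hT c hc hv.rv (hv.supp hβ ha))
  by_cases hS : ∃ β, β < γ ∧ Mem N β ∧ ∃ a, (β, a) ∈ r.f
  swap
  · have hS' : ∀ β < γ, Mem N β → ∀ a, (β, a) ∉ r.f :=
      fun β hβ hm a ha => hS ⟨β, hβ, hm, a, ha⟩
    obtain ⟨r₀, hr₀N, ⟨hr₀v, hr₀G⟩, -, hρr₀⟩ := hact γ G hγ hGN ⟨r, ⟨hr, hrG⟩, hr.rv, hrρ⟩
    have hrr₀ : RL r r₀ := hrρ.trans hρr₀
    obtain ⟨v, l₁, l₂, -⟩ := am_spec (b := 0) (ρ := r) (p'' := r) (p' := r₀) (q := r)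
      zero_le hr.rv (hr.mono zero_le) hr₀v hr (L_zero.2 (hrr₀ 0)) L.refl Rle.refl
      (hrr₀ γ) Rle.refl (fun β _ hβ => by
        by_cases hm : Mem N β
        · exact Or.inr (Or.inl (hS' β hβ hm))
        · exact Or.inl (hout r₀ hr₀N hr₀v β hβ hm))
    refine ⟨am 0 r r r₀ r, r₀, hr₀G, v, ⟨l₂, RL.setf_left RL.refl⟩, hr₀N, hr₀v, hρr₀, l₁, ?_⟩
    intro β hβ hm
    have key : ∀ a, (β, a) ∈ (am 0 r r r₀ r).f → (β, a) ∈ r₀.f := by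
      intro a ha
      rcases mem_am.1 ha with ⟨h, -⟩ | ⟨-, h | h⟩
      · exact absurd h (not_lt.2 zero_le)
      · exact h
      · exact absurd h (hS' β hβ hm a)
    refine ⟨fun a ha _ => key a ha, fun d m hd hle => ?_⟩
    exact absurd (hpos r₀ hr₀N hr₀v β hβ _ (key _ hd)) (not_lt.2 hle)
  · have hfin : {β | β < γ ∧ Mem N β ∧ ∃ a, (β, a) ∈ r.f}.Finite :=
      (hr.fin.image Prod.fst).subset (by
        rintro β ⟨-, -, a, ha⟩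
        exact ⟨(β, a), ha, rfl⟩)
    obtain ⟨β, ⟨hβ, hβN, -⟩, hmax⟩ := Set.exists_max_image _ id hfin hS
    have hup : ∀ β', β < β' → β' < γ → Mem N β' → ∀ a, (β', a) ∉ r.f :=
      fun β' h₁ h₂ hm a ha => absurd (hmax β' ⟨h₂, hm, a, ha⟩) (not_le.2 h₁)
    have hsγ : Order.succ β ≤ γ := Order.succ_le_of_lt hβ
    have hβs : β < Order.succ β := Order.lt_succ β
    obtain ⟨f, hr'v, hr'l, hclo, hf⟩ := exists_close (x := η) hr hβ
      (((hrρ 0).E η hη).trans hE)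
    set r' := setf r f with hr'
    have hr'r : RL r' r := RL.setf_left RL.refl
    have hr'G : r' ∈ G := hGm r hrG r' hr'v ⟨hr'l, hr'r⟩
    have hr'ρ : RL r' ρ := hr'r.trans hrρ
    have hup' : ∀ β', β < β' → β' < γ → Mem N β' → ∀ a, (β', a) ∉ r'.f :=
      fun β' h₁ h₂ hm a ha => hup β' h₁ h₂ hm a ((hf (β', a) h₁.ne').1 ha)
    have hlf : {a : Atom | (β, a) ∈ r'.f ∧ a.pos < η}.Finite :=
      (hr'v.fin.image Prod.snd).subset (fun a ha => ⟨(β, a), ha.1, rfl⟩)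
    obtain ⟨l, hl⟩ : ∃ l : List Atom, ∀ a, a ∈ l ↔ (β, a) ∈ r'.f ∧ a.pos < η :=
      ⟨hlf.toFinset.toList, fun a => by simp⟩
    have hlN : Mem N l := mem_list.2 fun a ha => mem_atom.2 ((gm.eta _).2 ((hl a).1 ha).2)
    obtain ⟨c₁, hc₁v, hc₁l, hc₁f⟩ := exists_low (hr'v.mono hsγ) h0
    obtain ⟨r₁', r₀', hr₀'G, hr₁'v, hr₁'l, hr₀'N, hr₀'v, hρr₀', hl₁₀, htail⟩ :=
      ih β hβ hβN {c | ∃ c', RedQ γ β G l c c'} (hG γ β G l hγ hβN hGN hlN)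
        (by
          rintro c ⟨c', h₁, h₂, h₃, h₄⟩ c'' _ hle
          exact ⟨c', h₁, h₂, hle.trans h₃, h₄⟩)
        r' ⟨r', hr'G, hr'v, Le.refl, c₁, hc₁v, fun a => (hc₁f a).trans (hl a).symm, hc₁l⟩
        (hr'v.mono hβ.le) hr'ρ
    obtain ⟨c', hc'N, hc'G, hc'v, hc'l, c₀, hc₀v, hc₀f, hc₀l⟩ :=
      hwit γ β G l r₀' hγ hβN hGN hlN hr₀'N hr₀'G
    obtain ⟨hr₀v, hr₀c, -, -⟩ := am_spec (b := β) (ρ := r₀') (p'' := r₀') (p' := c') (q := c')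
      hβ.le hr₀'v.rv hr₀'v hc'v hc'v hc'l.1 hc'l.1 Rle.refl (hc'l.2 γ) (hc'l.2 γ)
      (fun _ _ _ => Or.inr (Or.inr (Or.inl fun _ => Iff.rfl)))
    have hr₀N : Mem N (am β r₀' r₀' c' c') := ham β r₀' c' hβN hr₀'N hc'N
    have hlow : ∀ β' < β, ∀ a, (β', a) ∈ (am β r₀' r₀' c' c').f ↔ (β', a) ∈ r₀'.f := by
      intro β' h a
      rw [mem_am]
      constructor
      · rintro (⟨-, h'⟩ | ⟨h', -⟩)
        · exact h'
        · exact absurd h (not_lt.2 h')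
      · exact fun h' => Or.inl ⟨h, h'⟩
    have hρr₀ : RL ρ (am β r₀' r₀' c' c') := hρr₀'.setf_right
    have hr₀G : am β r₀' r₀' c' c' ∈ G := hGm c' hc'G _ hr₀v ⟨hr₀c, hc'l.2.setf_left⟩
    have hl₀ : L β r₀' (am β r₀' r₀' c' c') :=
      L_of_eq (Rle.setf_right Rle.refl) fun β' h a => (hlow β' h a).symm
    generalize am β r₀' r₀' c' c' = r₀ at *
    have hr₀c₀ : L (Order.succ β) r₀ c₀ := (hr₀c.mono hsγ).trans hc₀l
    have hr₁'ρ : RL r₁' ρ := hr₁'l.2.trans hr'ρ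
    obtain ⟨v, l₁, l₂, -⟩ := am_spec (b := β) (ρ := r₁') (p'' := r₁') (p' := r₀) (q := r')
      hβ.le hr₁'v.rv hr₁'v hr₀v hr'v (hl₁₀.trans hl₀) hr₁'l.1 Rle.refl
      ((hr₁'ρ.trans hρr₀) γ) (hr₁'l.2 γ) (fun β' h₁ h₂ => by
        rcases h₁.eq_or_lt with rfl | h₁
        · refine Or.inr (Or.inr (Or.inr ⟨c₀, η, hr₀c₀, hc₀v,
            fun a ha => ((hl a).1 ((hc₀f a).1 ha)).1,
            ⟨fun a ha hp => (hc₀f a).2 ((hl a).2 ⟨ha, hp⟩), hclo⟩, ?_, ?_⟩))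
          · intro a a' ha _ hle
            exact absurd (hpos r₀ hr₀N hr₀v _ hβ a ha) (not_lt.2 hle)
          · intro d m z a hd _ hz hzE
            have hdη : d < η := hpos r₀ hr₀N hr₀v _ hβ _ hd
            have hzd : z < d :=
              (hr₁'v.rv.lad d ((hdη.trans hη).trans_le (hr₁'ρ 0).ht)).lt z hzE
            exact absurd (hzd.trans hdη) (not_lt.2 hz)
        · by_cases hm : Mem N β'
          · exact Or.inr (Or.inl (hup' β' h₁ h₂ hm))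
          · exact Or.inl (hout r₀ hr₀N hr₀v β' h₂ hm))
    refine ⟨am β r₁' r₁' r₀ r', r₀, hr₀G, v,
      ⟨l₂.trans hr'l, (hr₁'l.2.trans hr'r).setf_left⟩, hr₀N, hr₀v, hρr₀, l₁, ?_⟩
    intro β' hβ' hm
    rcases lt_trichotomy β' β with h | rfl | h
    · have key : ∀ a, (β', a) ∈ (am β r₁' r₁' r₀ r').f ↔ (β', a) ∈ r₁'.f := by
        intro a
        rw [mem_am]
        constructor
        · rintro (⟨-, h'⟩ | ⟨h', -⟩)
          · exact h'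
          · exact absurd h (not_lt.2 h')
        · exact fun h' => Or.inl ⟨h, h'⟩
      obtain ⟨t₁, t₂⟩ := htail β' h hm
      refine ⟨fun a ha hp => (hlow β' h a).2 (t₁ a ((key a).1 ha) hp), ?_⟩
      intro d m hd hle z hz hzη
      obtain ⟨a, ha⟩ := t₂ d m ((key _).1 hd) hle z hz hzη
      exact ⟨a, (key _).2 ha⟩
    · have key : ∀ a, (β', a) ∈ (am β' r₁' r₁' r₀ r').f ↔ (β', a) ∈ r₀.f ∨ (β', a) ∈ r'.f := by
        intro a
        rw [mem_am]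
        constructor
        · rintro (⟨h', -⟩ | ⟨-, h'⟩)
          · exact absurd h' (lt_irrefl _)
          · exact h'
        · exact fun h' => Or.inr ⟨le_rfl, h'⟩
      refine ⟨fun a ha hp => ?_, ?_⟩
      · rcases (key a).1 ha with h' | h'
        · exact h'
        · exact hr₀c₀.sub hβs ((hc₀f a).2 ((hl a).2 ⟨h', hp⟩))
      · intro d m hd hle z hz hzη
        rcases (key _).1 hd with h' | h'
        · exact absurd (hpos r₀ hr₀N hr₀v _ hβ _ h') (not_lt.2 hle)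
        · have hd' : d < r'.ht := (hr'v.loc hβ).pos _ h'
          have hE' : r₁'.E d = r'.E d := (hr₁'l.2 0).E d hd'
          obtain ⟨a, ha⟩ := hclo d m h' hle z (hE' ▸ hz) hzη
          exact ⟨a, (key _).2 (Or.inr ha)⟩
    · have key : ∀ a, (β', a) ∈ (am β r₁' r₁' r₀ r').f → (β', a) ∈ r₀.f := by
        intro a ha
        rcases mem_am.1 ha with ⟨h', -⟩ | ⟨-, h' | h'⟩
        · exact absurd h' (not_lt.2 h.le)
        · exact h'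
        · exact absurd h' (hup' β' h hβ' hm a)
      refine ⟨fun a ha _ => key a ha, fun d m hd hle => ?_⟩
      exact absurd (hpos r₀ hr₀N hr₀v β' hβ' _ (key _ hd)) (not_lt.2 hle)

/-- The reduction lemma. -/
theorem ae_red : AE fun N η ρ => η < ρ.ht → ρ.E η = ∅ → ∀ γ : K, Mem N γ → ∀ G : Set Cond,
    Mem N G → (∀ c ∈ G, ∀ c', V γ c' → Le γ c' c → c' ∈ G) → ∀ r ∈ G, V γ r → RL r ρ →
      ∃ r₁, ∃ r₀ ∈ G, V γ r₁ ∧ Le γ r₁ r ∧ Mem N r₀ ∧ V γ r₀ ∧ RL ρ r₀ ∧ L γ r₁ r₀ ∧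
        ∀ β < γ, Mem N β → Tail β η r₁ r₀ := by
  have a₁ := AE.act (fun (x : K × Set Cond) (b : Cond) => V x.1 b ∧ b ∈ x.2) id
  have a₂ := AE.fn (fun x : K × K × Set Cond × List Atom =>
    {c | ∃ c', RedQ x.1 x.2.1 x.2.2.1 x.2.2.2 c c'})
  have a₃ := AE.wit (fun (x : K × K × Set Cond × List Atom × Cond) (c' : Cond) =>
    RedQ x.1 x.2.1 x.2.2.1 x.2.2.2.1 x.2.2.2.2 c')
  have a₄ := AE.fn (fun x : K × Cond × Cond => am x.1 x.2.1 x.2.1 x.2.2 x.2.2)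
  refine (a₁.and (a₂.and (a₃.and (a₄.and (ae_ht.and (ae_T.and ae_zero)))))).mono ?_
  rintro N η ρ gm ⟨h₁, h₂, h₃, h₄, h₅, h₆, h₇⟩ hη hE γ
  exact red_core gm (fun γ G a b => h₁ (γ, G) ⟨a, b⟩) h₅ h₆ h₇
    (fun γ β G l a b c d => h₂ (γ, β, G, l) ⟨a, b, c, d⟩)
    (fun γ β G l c a b e d g => h₃ (γ, β, G, l, c) ⟨a, b, e, d, g⟩)
    (fun β c c' a b d => h₄ (β, c, c') ⟨a, b, d⟩) hη hE γ

end Pool.Agent.MP_2e2931_gt.Gap
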