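import Pool.Agent.MP_2e2931_gt.FNode
import Pool.Agent.MP_2e2931_gt.FRed

namespace Pool.Agent.MP_2e2931_gt.Gap

open Set Ordinal

variable {β γ b : K} {v w : Nod}

/-- The members with data `c = (root, list of values, value)`. -/
def shrB (γ : K) (w : Nod) (Q : W → Cond → ℕ → Prop) (c : Cond × List (K × ℕ) × ℕ) :
    Set (W × Cond × Set K) :=
  {e | ∃ q, (e.1, q, e.2.2) ∈ w.A ∧ V γ e.2.1 ∧ Le γ e.2.1 q ∧ Q e.1 e.2.1 c.2.2 ∧ V γ c.1 ∧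
    Le γ c.1 w.r ∧ Le γ e.2.1 c.1 ∧ (∀ β < γ, β ∈ e.2.2 → Tail β e.1 e.2.1 c.1) ∧
    (∀ β < γ, β ∈ e.2.2 → ∀ a, (β, Atom.val e.1 a) ∈ e.2.1.f ↔ (β, a) ∈ c.2.1) ∧
    ∀ β < γ, ∀ a, (β, a) ∈ c.2.1 → (β, Atom.on) ∈ c.1.f}

theorem shr_ae (hw : Node γ w) (Q : W → Cond → ℕ → Prop)
    (hQ : ∀ x q q' n, Q x q n → V γ q' → L γ q' q → Q x q' n)
    (H : ∀ x q B, (x, q, B) ∈ w.A → ∃ q' n, V γ q' ∧ L γ q' q ∧ Q x q' n) :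
    AE fun N x q => (x, q, KN N) ∈ w.A →
      ∃ q' c, RV q' ∧ RL q' q ∧ Mem N c ∧ (x, q', KN N) ∈ shrB γ w Q c := by
  refine (((ae_red.and ae_zero).and (AE.const γ)).and
    (AE.const {c : Cond | Le γ c w.r})).mono ?_
  rintro N x q - ⟨⟨⟨hred, h0⟩, hγ⟩, hG⟩ hA
  have he := hw.el _ _ _ hA
  obtain ⟨q', n, hv, hl, hq⟩ := H _ _ _ hA
  have hc : Le γ (amR γ q' q) q := ⟨amR_L.trans hl, amR_RL hl.rle⟩
  obtain ⟨r₁, r₀, hr₀, v₁, l₁, m₀, v₀, rl₀, l₀, ht⟩ := hred he.lt he.emp γ hγ _ hG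
    (fun c hc c' _ h => h.trans hc) (amR γ q' q) (hc.trans he.le) (hv.amR he.v.rv) hc.2
  have hfin : {y : K × ℕ | y.1 < γ ∧ Mem N y.1 ∧ (y.1, Atom.val x y.2) ∈ r₁.f}.Finite := by
    refine (v₁.fin.preimage (f := fun y : K × ℕ => (y.1, Atom.val x y.2)) ?_).subset
      fun y hy => hy.2.2
    intro y _ z _ h
    exact Prod.ext (Prod.mk.inj h).1 (Atom.val.inj (Prod.mk.inj h).2).2
  have hmem : ∀ y : K × ℕ, y ∈ hfin.toFinset.toList ↔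
      y.1 < γ ∧ Mem N y.1 ∧ (y.1, Atom.val x y.2) ∈ r₁.f := fun y => by
    rw [Finset.mem_toList, Finite.mem_toFinset]
    rfl
  refine ⟨r₁, (r₀, hfin.toFinset.toList, n), v₁.rv, l₁.2.trans hc.2,
    mem_prod.2 ⟨m₀, mem_prod.2 ⟨mem_list.2 fun y hy => ?_, mem_nat⟩⟩, q, hA, v₁, l₁.trans hc,
    hQ _ _ _ _ hq v₁ (l₁.1.trans amR_L), v₀, hr₀, ⟨l₀, (l₁.2.trans hc.2).trans rl₀⟩, ht,
    fun β hβ hN a => ?_, fun β hβ a ha => ?_⟩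
  · exact mem_prod.2 ⟨((hmem y).1 hy).2.1, mem_nat⟩
  · exact ⟨fun h => (hmem (β, a)).2 ⟨hβ, hN, h⟩, fun h => ((hmem (β, a)).1 h).2.2⟩
  · obtain ⟨-, hN, h⟩ := (hmem (β, a)).1 ha
    exact (ht β hβ hN).1 _ ((v₁.loc hβ).on _ h) h0

/-- Shrinking a node so that all its members have a property with the same value. -/
theorem shrink (hw : Node γ w) (Q : W → Cond → ℕ → Prop)
    (hQ : ∀ x q q' n, Q x q n → V γ q' → L γ q' q → Q x q' n)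
    (H : ∀ x q B, (x, q, B) ∈ w.A → ∃ q' n, V γ q' ∧ L γ q' q ∧ Q x q' n) :
    ∃ w' n, Node γ w' ∧ NLe γ w' w ∧ ∀ x q B, (x, q, B) ∈ w'.A → Q x q n := by
  obtain ⟨ρ₁, ⟨r₀, l, n⟩, hρ, -, hL⟩ := hw.large.fodor hw.v.rv (shrB γ w Q) (shr_ae hw Q hQ H)
  obtain ⟨⟨x₀, q₀, B₀⟩, ⟨-, -, v₀, -, -, vr, lr, l₀, -, -, hon⟩, rl₀, -, -⟩ :=
    (hL.sub hρ RL.refl).nonempty hρ
  have hrl : RL (setf q₀ r₀.f) r₀ := l₀.2.setf_left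
  have hv : V γ (setf q₀ r₀.f) :=
    V_of_eq vr v₀.rv.setf vr.fin (hrl γ) fun _ _ _ => Iff.rfl
  have hl : L γ (setf q₀ r₀.f) r₀ := L_of_eq (hrl γ) fun _ _ _ => Iff.rfl
  refine ⟨⟨setf q₀ r₀.f, _, fun β a => (β, a) ∈ l⟩, n,
    ⟨hv, hL.sub hv.rv rl₀.setf_left, ?_, hon⟩, ⟨Le.trans ⟨hl, hrl⟩ lr, ?_⟩, ?_⟩
  · rintro x q' B ⟨⟨q, hA, v', l', -, -, -, l'', ht, hval, -⟩, h₁, h₂, h₃⟩
    have he := hw.el _ _ _ hA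
    exact ⟨v', ⟨L.congr_right l''.1 vr (h₁ γ) (hrl 0) fun _ _ _ => Iff.rfl, h₁⟩, h₂,
      lt_of_lt_of_le he.lt l'.1.rle.ht, (l'.1.rle.E _ he.lt).trans he.emp, h₃, ht, hval⟩
  · rintro x q' B ⟨⟨q, hA, -, l', -⟩, -⟩
    exact ⟨q, hA, l'⟩
  · rintro x q' B ⟨⟨q, -, -, -, h, -⟩, -⟩
    exact h

theorem shr_add {q : Cond} (hq : V γ q) {x : W} (hx : x < q.ht) (M : ℕ) {H : Set K}
    (hH : H.Finite) : (∀ β ∈ H, β < γ ∧ (β, Atom.on) ∈ q.f) →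
    ∃ q', V γ q' ∧ L γ q' q ∧ (∀ y ∈ q'.f, y ∈ q.f ∨ ∃ a, M ≤ a ∧ y.2 = Atom.val x a) ∧
      ∀ β ∈ H, ∃ a, (β, Atom.val x a) ∈ q'.f := by
  induction H, hH using Set.Finite.induction_on with
  | empty => exact fun _ => ⟨q, hq, L.refl, fun _ h => Or.inl h, fun _ h => h.elim⟩
  | @insert β s _ _ ih =>
    intro h
    obtain ⟨q', v', l', h₁, h₂⟩ := ih fun β' hβ' => h β' (mem_insert_of_mem _ hβ')
    obtain ⟨hβ, ho⟩ := h β (mem_insert _ _)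
    obtain ⟨f, v'', l'', hsub, h₃, h₄⟩ := exists_addv v' hβ (l'.sub hβ ho) (finite_singleton x)
      (fun z hz => by rw [mem_singleton_iff.1 hz]; exact lt_of_lt_of_le hx l'.rle.ht) M
    refine ⟨setf q' f, v'', l''.trans l', fun y hy => ?_, ?_⟩
    · rcases h₃ y hy with h₅ | ⟨z, hz, a, ha, -, rfl⟩
      · exact h₁ y h₅
      · exact Or.inr ⟨a, ha, by rw [mem_singleton_iff.1 hz]⟩
    · rintro β' (rfl | hβ')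
      · exact h₄ x rfl
      · obtain ⟨a, ha⟩ := h₂ β' hβ'
        exact ⟨a, hsub ha⟩

theorem addvals (hw : Node γ w) {H : Set K} (hH : H.Finite)
    (h : ∀ β ∈ H, β < γ ∧ (β, Atom.on) ∈ w.r.f ∧ ∀ a, ¬ w.F β a) (M : ℕ) :
    ∃ w', Node γ w' ∧ NLe γ w' w ∧ ∀ β ∈ H, ∃ a, M ≤ a ∧ w'.F β a := by
  obtain ⟨w', n, hw', hl, hQ⟩ := shrink hw
    (fun x q _ => ∀ β ∈ H, ∃ a, M ≤ a ∧ (β, Atom.val x a) ∈ q.f)
    (fun x q q' _ hq _ hl β hβ => by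
      obtain ⟨a, ha, ha'⟩ := hq β hβ
      exact ⟨a, ha, hl.sub (h β hβ).1 ha'⟩)
    (fun x q B hA => by
      have he := hw.el _ _ _ hA
      obtain ⟨q', v', l', h₁, h₂⟩ := shr_add he.v he.lt M hH
        fun β hβ => ⟨(h β hβ).1, he.le.1.sub (h β hβ).1 (h β hβ).2.1⟩
      refine ⟨q', 0, v', l', fun β hβ => ?_⟩
      obtain ⟨a, ha⟩ := h₂ β hβ
      obtain ⟨h₃, h₄, h₅⟩ := h β hβ
      rcases h₁ _ ha with h₆ | ⟨a', ha', h₆⟩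
      · exact absurd ((he.val β h₃ (he.T (hw.v.supp h₃ h₄)) a).1 h₆) (h₅ a)
      · exact ⟨a, (Atom.val.inj h₆).2 ▸ ha', ha⟩)
  refine ⟨w', hw', hl, fun β hβ => ?_⟩
  obtain ⟨⟨x, q, B⟩, hA⟩ := hw'.large.nonempty hw'.v.rv
  have he := hw'.el _ _ _ hA
  obtain ⟨a, ha, ha'⟩ := hQ _ _ _ hA β hβ
  obtain ⟨h₃, h₄, -⟩ := h β hβ
  exact ⟨a, ha, (he.val β h₃ (he.T (hl.1.2.T (hw.v.supp h₃ h₄))) a).1 ha'⟩

/-- Nodes that decide the value of the data at `j`. -/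
def OPi (β : K) (j : ℕ) : Set Nod :=
  Plus β {v | ∃ c, ∀ x q B, (x, q, B) ∈ v.A → Dec β (bk β) q (.pi x j c)} fun v => Good β v.r

theorem do_OPi (β : K) (j : ℕ) : DO β (OPi β j) := by
  refine do_plus (fun v hv hg => ?_) ?_
  · obtain ⟨w', c, hw', hl, hQ⟩ := shrink hv (fun x q c => Dec β (bk β) q (.pi x j c))
      (fun _ _ _ _ hq _ hl => hq.mono hl) (fun x q B hA => by
        have he := hv.el _ _ _ hA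
        obtain ⟨s, vs, ls, c, hc⟩ := ((Good_def.1 (hg.mono he.le.1)).1 x j).ex he.v
        exact ⟨s, c, vs, ls, hc⟩)
    exact ⟨w', ⟨c, hQ⟩, hw', hl⟩
  · rintro v ⟨c, hc⟩ v' - - hl
    refine ⟨c, fun x q' B hA => ?_⟩
    obtain ⟨q, hq, h⟩ := hl.2 _ _ _ hA
    exact (hc _ _ _ hq).mono h.1

/-- The projection of `O` to level `b`. -/
def PrQ (γ b : K) (O : Set Nod) (w : Nod) (r : Cond) (M : ℕ) (v w'' : Nod) : Prop :=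
  w'' ∈ O ∧ Node γ w'' ∧ NLe γ w'' w ∧ L γ w''.r r ∧
    (∀ β, b ≤ β → β < γ → (β, Atom.on) ∈ r.f → (∀ a, ¬ w.F β a) → ∀ a, w''.F β a → M ≤ a) ∧
    NLe b v w''

def Proj (γ b : K) (O : Set Nod) (w : Nod) (r : Cond) (M : ℕ) : Set Nod :=
  Plus b {v | ∃ w'', PrQ γ b O w r M v w''} fun v => NLe b v w ∧ Le b v.r r

theorem do_proj (hb : b ≤ γ) {O : Set Nod} (hO : DO γ O) (hw : Node γ w) {r : Cond} (hr : V γ r)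
    (hl : L γ r w.r) (M : ℕ) : DO b (Proj γ b O w r M) := by
  refine do_plus ?_ ?_
  · rintro v hv ⟨h₁, h₂⟩
    obtain ⟨w₁, n₁, l₁, l₁', r₁, hF⟩ := nodeAm hb hw hv h₁ hr hl h₂
    have hH : {β | b ≤ β ∧ β < γ ∧ (β, Atom.on) ∈ r.f ∧ ∀ a, ¬ w.F β a}.Finite :=
      (hr.fin.image Prod.fst).subset fun β hβ => ⟨_, hβ.2.2.1, rfl⟩
    obtain ⟨w₂, n₂, l₂, h₃⟩ := addvals n₁ hH (fun β hβ => ⟨hβ.2.1, r₁.1.sub hβ.2.1 hβ.2.2.1,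
      fun a ha => hβ.2.2.2 a ((hF β hβ.1 a).1 ha)⟩) M
    obtain ⟨w₃, hO₃, n₃, l₃⟩ := hO.1 w₂ n₂
    refine ⟨w₃, ⟨w₃, hO₃, n₃, (l₃.trans l₂).trans l₁, ((l₃.trans l₂).1.trans r₁).1,
      fun β h₄ h₅ h₆ h₇ a ha => ?_, NLe.refl⟩, n₃.mono hb, ((l₃.trans l₂).mono hb).trans l₁'⟩
    obtain ⟨a', ha', h₈⟩ := h₃ β ⟨h₄, h₅, h₆, h₇⟩
    rw [n₃.F_uniq h₅ ha (n₃.F_mono n₂ l₃ h₅ h₈)]
    exact ha'
  · rintro v ⟨w₃, h₁, h₂, h₃, h₄, h₅, h₆⟩ v' - - hl'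
    exact ⟨w₃, h₁, h₂, h₃, h₄, h₅, hl'.trans h₆⟩

end Pool.Agent.MP_2e2931_gt.Gap
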