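import Pool.Agent.MP_2e2931_gt.FPart
import Pool.Agent.MP_2e2931_gt.FShr

namespace Pool.Agent.MP_2e2931_gt.Gap

open Set Ordinal

/-- The creation statement. -/
def Ch.Cre (C : Ch) : Prop :=
  ∀ (β γ μ : K) (w : Nod) (r : Cond) (a : ℕ), β < γ → C.MemU β → C.MemU μ → C.MemU w → V γ r →
    C.Bel γ r → (β, Atom.on) ∈ r.f → w.F β a → (∀ m, (β, Atom.bd C.δ m) ∈ r.f → m ≤ a) →
    C.FPos β (μ + ω ^ β * 4) w (fun _ _ => True) r →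
    ∃ r', V γ r' ∧ L γ r' r ∧ (∀ y : K × Atom, β < y.1 → (y ∈ r'.f ↔ y ∈ r.f)) ∧ C.Jn β μ w r'

namespace FCreX

variable {C : Ch} {β : K}

/-- Finitely many dense monotone requirements are met together. -/
theorem fin_meet {ι : Type} {S : Set ι} (hS : S.Finite) (P : ι → Cond → ℕ → Prop) {p₀ : Cond}
    (hp : V β p₀) (hm : ∀ i p p' j j', P i p j → L β p' p → j ≤ j' → P i p' j')
    (hd : ∀ i ∈ S, ∀ p, V β p → L β p p₀ → ∃ p' j, V β p' ∧ L β p' p ∧ P i p' j) :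
    ∃ p j, V β p ∧ L β p p₀ ∧ ∀ i ∈ S, P i p j := by
  induction S, hS using Set.Finite.induction_on with
  | empty => exact ⟨p₀, 0, hp, L.refl, fun _ h => h.elim⟩
  | @insert i S _ _ ih =>
    obtain ⟨p, j, h₁, h₂, h₃⟩ := ih fun i hi => hd i (mem_insert_of_mem _ hi)
    obtain ⟨p', j', g₁, g₂, g₃⟩ := hd i (mem_insert _ _) p h₁ h₂
    refine ⟨p', max j j', g₁, g₂.trans h₂, fun i' hi' => ?_⟩
    rcases hi' with rfl | hi'
    · exact hm _ _ _ _ _ g₃ L.refl (le_max_right _ _)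
    · exact hm _ _ _ _ _ (h₃ i' hi') g₂ (le_max_left _ _)

/-- A positive node has a positive extension that decides the data at `j`. -/
theorem decide_pi (hO : ∀ i (z : K × ℕ), Mem (C.N i) z → Mem (C.N i) (OPi z.1 z.2))
    (hβ : C.MemU β) {ν : K} (hν : C.MemU ν) {v : Nod} {p : Cond} (hp : V β p) (hg : Good β p)
    (h : C.FPos β (ν + ω ^ β * 2) v (fun _ _ => True) p) (j : ℕ) :
    ∃ p' v' c, V β p' ∧ L β p' p ∧ NLe β v' v ∧ C.FPos β ν v' (fun _ _ => True) p' ∧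
      ∀ x q B, (x, q, B) ∈ v'.A → Dec β (bk β) q (.pi x j c) := by
  obtain ⟨i₀, hi₀⟩ := hβ
  obtain ⟨p₁, v₁, l₁, i, hi, H⟩ := ((Ch.FPos_iff.1 h).2 ν hν le_rfl i₀).ex hp
  obtain ⟨p₂, v₂, l₂, w', hw, -, hn, hl, hf⟩ :=
    (H (OPi β j) (hO i (β, j) (mem_prod.2 ⟨C.mem_mono hi₀ hi, mem_nat⟩)) (do_OPi β j)).ex v₁
  rcases hw with ⟨c, hc⟩ | hw
  · exact ⟨p₂, w', c, v₂, l₂.trans l₁, hl, hf, hc⟩
  · obtain ⟨-, p₃, v₃, l₃, l₃'⟩ := hf.act v₂ hn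
    obtain ⟨w₁, n₁, e₁, g₁⟩ := reroot' hn v₃ l₃'
    exact absurd (hg.mono (g₁.trans (l₃.trans (l₂.trans l₁)))) (hw w₁ n₁ e₁)

/-- No extension promises that the certificate takes the value `(n, y)`. -/
def Bad (C : Ch) (β : K) (e : Nod × K × ℕ) (U : Cond → W → Prop) (n : ℕ) (p : Cond)
    (y : ℕ × ℕ) : Prop :=
  ∀ k p', V β p' → L β p' p →
    ¬ C.Prom β e (fun s x => U s x ∧ Dec β (bk β) s (.ce C.δ k x (n, y))) p'

theorem nobad (hP : ∀ (β : K) (e : Nod × K × ℕ) (U : Cond → W → Prop) (p : Cond)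
    (u : Set (ℕ × ℕ)) (A : ℕ × ℕ → Cond → W → Prop), u.Finite → UM β U → (∀ y, UM β (A y)) →
    V β p → C.Prom β e U p →
    (∀ x ∈ C.Ed, ∀ r, V β r → L β r p → U r x → Dns β r fun s => ∃ y ∈ u, A y s x) →
    ∃ p', ∃ y ∈ u, V β p' ∧ L β p' p ∧ C.Prom β e (fun r x => U r x ∧ A y r x) p')
    {e : Nod × K × ℕ} {U : Cond → W → Prop} (hU : UM β U) (n : ℕ) {p : Cond} (hp : V β p)
    (hg : Good β p) (hb : C.Bel β p) (h : C.Prom β e U p) :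
    ∃ p' j, V β p' ∧ L β p' p ∧
      ∀ s, V β s → L β s p' → ∀ y : ℕ × ℕ, j ≤ y.1 → ¬ Bad C β e U n s y := by
  by_contra hn
  push Not at hn
  obtain ⟨p'', v₁, l₁, k, u, hu, hB, hD⟩ := (Good_def.1 hg).2 C.δ n (Bad C β e U n)
    (fun r r' y h _ hl k p' hp' hl' => h k p' hp' (hl'.trans hl)) p hp L.refl hb.lt
    (fun j p' hp' hl' => by
      obtain ⟨s, h₁, h₂, y, h₃, h₄⟩ := hn p' j hp' hl'
      exact ⟨s, h₁, h₂, y, h₃, h₄⟩)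
  obtain ⟨p', y, hy, v₂, l₂, H⟩ := hP β e U p'' u
    (fun y s x => Dec β (bk β) s (.ce C.δ k x (n, y))) hu hU
    (fun y _ _ _ h _ hl => h.mono hl) v₁ (h.mono l₁)
    (fun x hx r _ hl _ => (hD x (hb.E.symm ▸ hx)).mono hl)
  exact hB y hy k p' v₂ l₂ H

end FCreX

open FCreX in
/-- Creation of a new cluster. -/
theorem aec_cre : AEC Ch.Cre := by
  refine ((aec_part.and (AEC.of_AE (AE.fn fun z : K × K => z.1 + ω ^ z.2 * 2))).and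
    ((AEC.of_AE (AE.fn fun z : K × ℕ => OPi z.1 z.2)).and (AEC.of_AE ae_memT))).mono ?_
  rintro C ⟨⟨hP, hA⟩, hO, hT⟩ β γ μ w r a hβ mβ mμ mw hr hb ho hF ha hpos
  have hrβ : V β r := hr.mono hβ.le
  have hg : Good β r := hr.good hβ ho
  have hbβ : C.Bel β r := hb.level hβ.le
  have hTβ : β ∈ C.ρ.T := by
    obtain ⟨i, hi⟩ := mβ
    exact hT i hi
  have mμ₁ : C.MemU (μ + ω ^ β * 2) := by
    obtain ⟨i, hi⟩ := Ch.memU_prod.2 ⟨mμ, mβ⟩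
    exact ⟨i, hA i (μ, β) hi⟩
  have e4 : μ + ω ^ β * 4 = μ + ω ^ β * 2 + ω ^ β * 2 := by
    rw [add_assoc, ← mul_add, two_add_two_eq_four]
  rw [e4] at hpos
  obtain ⟨p₂, v₁, n, V₂, L₂, N₁, F₁, D₁⟩ := decide_pi hO mβ mμ₁ hrβ hg hpos 0
  have hS : {z : Nn × ℕ | (β, Atom.pm C.δ z.1 z.2) ∈ r.f}.Finite := by
    refine hr.fin.preimage (f := fun z : Nn × ℕ => (β, Atom.pm C.δ z.1 z.2)) ?_
    rintro ⟨t, l⟩ - ⟨t', l'⟩ - h
    simpa using h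
  obtain ⟨p₃, j₀, V₃, L₃, H₃⟩ := fin_meet hS (fun z p j => ∀ s, V β s → L β s p →
      ∀ y : ℕ × ℕ, j ≤ y.1 → ¬ Bad C β (C.pr z.2) (Uc β C.δ z.1 (code r β C.δ z.1)) n s y) V₂
    (fun z p p' j j' h hl hj s hs hl' y hy => h s hs (hl'.trans hl) y (hj.trans hy))
    (fun z hz p hp hl => nobad hP (um_Uc _ _ _) n hp (hg.mono (hl.trans L₂))
      (hbβ.mono (hl.trans L₂).rle) ((hb.prom hr hβ hTβ hz).mono (hl.trans L₂)))
  obtain ⟨j₁, hj₁⟩ := exists_fresh hr.fin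
  obtain ⟨p₅, v₂, c, V₅, L₅, N₂, F₂, D₂⟩ :=
    decide_pi hO mβ mμ V₃ (hg.mono (L₃.trans L₂)) (F₁.mono L₃) (max j₀ j₁ + 1)
  set t : Nn := (n, max j₀ j₁, c) with ht
  have F₃ : C.FPos β μ w (Uc β C.δ t ∅) p₅ := by
    refine ((F₂.imp fun x _ s _ _ hI _ => Dns.of_all fun s' _ hl => ?_).nle N₂).nle N₁
    obtain ⟨q, B, hq, -, -, -, hs⟩ := hI
    obtain ⟨q₁, hq₁, hl₁⟩ := N₂.2 x q B hq
    exact Uc_def.2 ⟨(D₁ x q₁ B hq₁).mono (hl.trans (hs.trans hl₁.1)),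
      (D₂ x q B hq).mono (hl.trans hs), fun _ h => h.elim⟩
  obtain ⟨p₆, k, V₆, L₆, H₆⟩ := fin_meet hS (fun z p k =>
      C.Prom β (C.pr z.2) (Uc β C.δ z.1 (insert (t, k) (code r β C.δ z.1))) p) V₅
    (fun z p p' k k' h hl hk => (h.mono hl).imp fun x _ s _ _ hU => Dns.of_all fun s' _ hl' => by
      obtain ⟨h₁, h₂, h₃⟩ := Uc_def.1 (hU.mono hl')
      refine Uc_def.2 ⟨h₁, h₂, fun y hy => ?_⟩
      rcases hy with rfl | hy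
      · obtain ⟨m, hm, h₄⟩ := h₃ _ (mem_insert _ _)
        exact ⟨m, hm.trans_le hk, h₄⟩
      · exact h₃ y (mem_insert_of_mem _ hy))
    (fun z hz p hp hl => by
      have h₀ := H₃ z hz p hp (hl.trans L₅) (max j₀ j₁, c) (le_max_left _ _)
      unfold Bad at h₀
      push Not at h₀
      obtain ⟨k, p', h₁, h₂, h₃⟩ := h₀
      refine ⟨p', k + 1, h₁, h₂, h₃.imp fun x _ s _ _ hU => Dns.of_all fun s' _ hl' => ?_⟩
      obtain ⟨g₁, g₂, g₃⟩ := Uc_def.1 (hU.1.mono hl')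
      refine Uc_def.2 ⟨g₁, g₂, fun y hy => ?_⟩
      rcases hy with rfl | hy
      · exact ⟨k, Nat.lt_succ_self k, hU.2.mono hl'⟩
      · exact g₃ y hy)
  obtain ⟨V₀, L₀, M₀, -⟩ := mix_spec hβ.le V₆ hr (L₆.trans (L₅.trans (L₃.trans L₂)))
  have hm : ∀ y : K × Atom, β ≤ y.1 → (y ∈ (mix β p₆ r).f ↔ y ∈ r.f) := fun y hy => by
    rw [mem_mix]
    exact ⟨fun h => h.elim (fun h => absurd h.1 (not_lt.2 hy)) And.right, fun h => Or.inr ⟨hy, h⟩⟩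
  have hm' : ∀ x : Atom, (β, x) ∈ (mix β p₆ r).f ↔ (β, x) ∈ r.f := fun x => hm (β, x) le_rfl
  have B₀ : C.Bel γ (mix β p₆ r) := hb.mono L₀.1.rle
  obtain ⟨l, hl⟩ := Ch.pr_spec (C := C) (e := (w, μ, 0))
    (Ch.memU_prod.2 ⟨mw, Ch.memU_prod.2 ⟨mμ, 0, mem_nat⟩⟩)
  obtain ⟨f₁, f₂, f₃⟩ := hj₁ β C.δ t (le_max_right _ _)
  obtain ⟨f, g₁, g₂, g₃, g₄, g₅⟩ := add_cluster (t := t) (a := a) (k := k) (l := l) V₀
    ((hm' _).2 ho) B₀.lt (fun m h => f₁ m ((hm' _).1 h)) (fun t' m h => f₂ t' m ((hm' _).1 h))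
    (fun l h => f₃ l ((hm' _).1 h)) (fun m h => ha m ((hm' _).1 h))
    (by
      rw [B₀.Z β hβ hTβ l, Ch.dec_zeta, hl]
      exact F₃.mono (M₀.trans L₆))
    (fun t' l' h => by
      rw [B₀.Z β hβ hTβ l', Ch.dec_zeta, code_congr (q := r) fun x _ => hm' x]
      exact (H₆ (t', l') ((hm' _).1 h)).mono M₀)
  exact ⟨_, g₁, g₂.trans L₀.1, fun y hy => (g₅ y hy.ne').trans (hm y hy.le),
    a, t, a, l, μ, hF, le_rfl, g₃, g₄, hl, le_rfl⟩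

end Pool.Agent.MP_2e2931_gt.Gap
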