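import Mathlib

namespace Pool.Agent.MP_2e2931_gt.Gap

open Set Ordinal

/-- Positions of the iteration. -/
abbrev K : Type 1 := Ordinal.{0}

/-- Countable ordinals. -/
abbrev W : Type 1 := Set.Iio (ω₁ : Ordinal.{0})

def w0 : W := ⟨0, omega_pos 1⟩

/-- Nodes `(n, j, c)`. -/
abbrev Nn : Type := ℕ × ℕ × ℕ

/-- Atoms of the finite part of a condition at one coordinate. -/
inductive Atom : Type 1
  | on : Atom
  | val (z : W) (a : ℕ) : Atom
  | bd (d : W) (m : ℕ) : Atom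
  | cl (d : W) (t : Nn) (m : ℕ) : Atom
  | sh (d : W) (t t' : Nn) (m : ℕ) : Atom
  | pm (d : W) (t : Nn) (l : ℕ) : Atom

def Atom.pos : Atom → W
  | .on => w0
  | .val z _ => z
  | .bd d _ => d
  | .cl d _ _ => d
  | .sh d _ _ _ => d
  | .pm d _ _ => d

/-- Statements that names can force. -/
inductive At : Type 1
  | pi (x : W) (j c : ℕ) : At
  | ce (d : W) (k : ℕ) (x : W) (t : Nn) : At
  | cd (t : Nn) (L : Set (Nn × ℕ)) : At

/-- The part of a condition that does not mention names. -/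
@[ext] structure Sh : Type 1 where
  ht : W
  σ : W → ℕ → ℕ
  E : W → Set W
  T : Set K
  f : Set (K × Atom)

/-- Names: small families of pairs (condition, statement). -/
inductive Nm : Type 1
  | mk (ι : Type) (sh : ι → Sh) (Z : ι → K → W → ℕ → Nm) (a : ι → At) : Nm

/-- Conditions. -/
@[ext] structure Cond : Type 1 extends Sh where
  Z : K → W → ℕ → Nm

def Nm.ent : Nm → Set (Cond × At)
  | .mk _ sh Z a => range fun i => (⟨sh i, Z i⟩, a i)

open Classical in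
noncomputable def canon (X : Set (Cond × At)) : Nm :=
  if _h : Small.{0} X then
    .mk (Shrink.{0} X) (fun i => ((equivShrink X).symm i).1.1.toSh)
      (fun i => ((equivShrink X).symm i).1.1.Z) (fun i => ((equivShrink X).symm i).1.2)
  else .mk PEmpty PEmpty.elim PEmpty.elim PEmpty.elim

/-- Normal forms below a level. -/
noncomputable def S : K → Set Cond :=
  (wellFounded_lt (α := K)).fix fun α ih =>
    {c | c.T ⊆ Iio α ∧ (∀ y ∈ c.f, y.1 < α) ∧ (∀ β d l, α ≤ β → c.Z β d l = canon ∅) ∧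
      ∀ β (h : β < α) d l, c.Z β d l ∈ canon '' {X | ∀ y ∈ X, y.1 ∈ ih β h}}

/-- Names of level `β`. -/
def NS (β : K) : Set Nm := canon '' {X | ∀ y ∈ X, y.1 ∈ S β}

/-- Bookkeeping of names. -/
noncomputable def bk : K → Nm :=
  @Classical.epsilon _ ⟨fun _ => canon ∅⟩ fun b => ∀ ν, ∀ n ∈ NS ν, ∃ β, ν ≤ β ∧ b β = n

/-- A ladder below `d` on which `σ` is well founded. -/
structure Lad (σ : W → ℕ → ℕ) (d : W) (A : Set W) : Prop where
  lt : ∀ x ∈ A, x < d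
  fin : ∀ y < d, (A ∩ Iio y).Finite
  wf : ∀ s : ℕ → ℕ, ∃ k, {x | x ∈ A ∧ ∀ j < k, σ x j = s j}.Finite

/-- Validity of the countable part. -/
structure RV (c : Cond) : Prop where
  ct : c.T.Countable
  sc : ∀ x y, x < y → y < c.ht → ∀ᶠ j in Filter.atTop, c.σ x j ≤ c.σ y j
  lad : ∀ d < c.ht, Lad c.σ d (c.E d)
  ns : ∀ β d l, c.Z β d l ∈ NS β

/-- End extension of countable parts, for coordinates below `α`. -/
structure Rle (α : K) (q p : Cond) : Prop where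
  ht : p.ht ≤ q.ht
  σ : ∀ x < p.ht, q.σ x = p.σ x
  E : ∀ x < p.ht, q.E x = p.E x
  T : ∀ β < α, β ∈ p.T → β ∈ q.T
  Z : ∀ β < α, β ∈ p.T → ∀ d < p.ht, ∀ l, q.Z β d l = p.Z β d l

/-- End extension of countable parts. -/
def RL (q p : Cond) : Prop := ∀ α, Rle α q p

structure St where
  V : Cond → Prop
  L : Cond → Cond → Prop

def DnsOf (s : St) (p : Cond) (Φ : Cond → Prop) : Prop :=
  ∀ p', s.V p' → s.L p' p → ∃ p'', s.V p'' ∧ s.L p'' p' ∧ Φ p''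

def DecOf (s : St) (n : Nm) (p : Cond) (a : At) : Prop :=
  DnsOf s p fun r => ∃ c, (c, a) ∈ n.ent ∧ s.L r c

def UcOf (s : St) (n : Nm) (d : W) (t : Nn) (L : Set (Nn × ℕ)) (p : Cond) (x : W) : Prop :=
  DecOf s n p (.pi x 0 t.1) ∧ DecOf s n p (.pi x (t.2.1 + 1) t.2.2) ∧
    ∀ y ∈ L, ∃ k < y.2, DecOf s n p (.ce d k x y.1)

def GoodOf (s : St) (n : Nm) (p : Cond) : Prop :=
  (∀ x j, DnsOf s p fun r => ∃ c, DecOf s n r (.pi x j c)) ∧
    ∀ (d : W) (n₀ : ℕ) (B : Cond → ℕ × ℕ → Prop),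
      (∀ r r' y, B r y → s.V r' → s.L r' r → B r' y) →
      ∀ p', s.V p' → s.L p' p → d < p'.ht → (∀ j, DnsOf s p' fun r => ∃ y, j ≤ y.1 ∧ B r y) →
        ∃ p'', s.V p'' ∧ s.L p'' p' ∧ ∃ k, ∃ u : Set (ℕ × ℕ), u.Finite ∧ (∀ y ∈ u, B p'' y) ∧
          ∀ x ∈ p'.E d, DnsOf s p'' fun r => ∃ y ∈ u, DecOf s n r (.ce d k x (n₀, y))

/-- The separation data of the cluster `t` of `d` at coordinate `β`. -/
def code (c : Cond) (β : K) (d : W) (t : Nn) : Set (Nn × ℕ) :=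
  {y | (β, Atom.sh d t y.1 y.2) ∈ c.f}

structure LocVOf (s : St) (β : K) (c : Cond) : Prop where
  on : ∀ a, (β, a) ∈ c.f → (β, Atom.on) ∈ c.f
  pos : ∀ a, (β, a) ∈ c.f → a.pos < c.ht
  T : (β, Atom.on) ∈ c.f → β ∈ c.T
  good : (β, Atom.on) ∈ c.f → GoodOf s (bk β) c
  fn : ∀ z a a', (β, Atom.val z a) ∈ c.f → (β, Atom.val z a') ∈ c.f → a = a'
  sep : ∀ d t m t' m', (β, Atom.cl d t m) ∈ c.f → (β, Atom.cl d t' m') ∈ c.f → t ≠ t' →
    ∃ k, (β, Atom.sh d t t' k) ∈ c.f ∨ (β, Atom.sh d t' t k) ∈ c.f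
  pm : ∀ d t l, (β, Atom.pm d t l) ∈ c.f → DecOf s (c.Z β d l) c (.cd t (code c β d t))

structure LocLOf (s : St) (β : K) (q p : Cond) : Prop where
  sub : ∀ a, (β, a) ∈ p.f → (β, a) ∈ q.f
  val : ∀ z a d m, (β, Atom.val z a) ∈ q.f → (β, Atom.val z a) ∉ p.f → (β, Atom.bd d m) ∈ p.f →
    d < p.ht → z ∈ p.E d → m ≤ a ∨ ∃ t m', (β, Atom.cl d t m') ∈ p.f ∧ m' ≤ a ∧
      UcOf s (bk β) d t (code p β d t) q z
  cl : ∀ d t m' m, (β, Atom.cl d t m') ∈ q.f → (β, Atom.cl d t m') ∉ p.f →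
    (β, Atom.bd d m) ∈ p.f → m ≤ m'

noncomputable def st : K → St :=
  (wellFounded_lt (α := K)).fix fun α ih =>
    ⟨fun c => RV c ∧ c.f.Finite ∧ ∀ β (h : β < α), LocVOf (ih β h) β c,
      fun q p => Rle α q p ∧ ∀ β (h : β < α), LocLOf (ih β h) β q p⟩

/-- Valid conditions of level `α`. -/
def V (α : K) (c : Cond) : Prop := (st α).V c
/-- The order of level `α`. -/
def L (α : K) (q p : Cond) : Prop := (st α).L q p
def Dns (β : K) (p : Cond) (Φ : Cond → Prop) : Prop :=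
  ∀ p', V β p' → L β p' p → ∃ p'', V β p'' ∧ L β p'' p' ∧ Φ p''
def Dec (β : K) (n : Nm) (p : Cond) (a : At) : Prop := DecOf (st β) n p a
def Uc (β : K) (d : W) (t : Nn) (L : Set (Nn × ℕ)) (p : Cond) (x : W) : Prop :=
  UcOf (st β) (bk β) d t L p x
def Good (β : K) (p : Cond) : Prop := GoodOf (st β) (bk β) p
abbrev LocV (β : K) (c : Cond) : Prop := LocVOf (st β) β c
abbrev LocL (β : K) (q p : Cond) : Prop := LocLOf (st β) β q p
/-- Order of level `α` together with full end extension of the countable parts. -/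
def Le (α : K) (q p : Cond) : Prop := L α q p ∧ RL q p

/-- Change of the finite part. -/
def setf (c : Cond) (f : Set (K × Atom)) : Cond := { c with f := f }

open Classical in
/-- The countable part of `p` below `b` and that of `ρ` from `b` on; the finite part of `p`. -/
noncomputable def amR (b : K) (p ρ : Cond) : Cond :=
  { p with
    T := (p.T ∩ Iio b) ∪ (ρ.T ∩ Ici b)
    Z := fun β => if β < b then p.Z β else ρ.Z β }

open Classical in
/-- Restriction below `b`. -/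
noncomputable def cut (b : K) (p : Cond) : Cond :=
  { p with
    T := p.T ∩ Iio b
    f := {y | y ∈ p.f ∧ y.1 < b}
    Z := fun β => if β < b then p.Z β else fun _ _ => canon ∅ }

/-- Amalgamation. -/
def am (b : K) (ρ p'' p' q : Cond) : Cond :=
  setf ρ {y | (y.1 < b ∧ y ∈ p''.f) ∨ (b ≤ y.1 ∧ (y ∈ p'.f ∨ y ∈ q.f))}

/-- `p` below `b`, `s` from `b` on. -/
noncomputable def mix (b : K) (p s : Cond) : Cond := am b (amR b p s) p s s

/-- The ladders with bounds at positions from `x` on have all their points below `x` valued. -/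
def Clo (β : K) (x : W) (q : Cond) : Prop :=
  ∀ d m, (β, Atom.bd d m) ∈ q.f → x ≤ d → ∀ z ∈ q.E d, z < x → ∃ a, (β, Atom.val z a) ∈ q.f

/-- At coordinate `β`, the part of `q` below `x` is in `r`, and `q` is closed at `x`. -/
def Tail (β : K) (x : W) (q r : Cond) : Prop :=
  (∀ a, (β, a) ∈ q.f → a.pos < x → (β, a) ∈ r.f) ∧ Clo β x q

/-- Compatibility of `p'` and `q` at coordinate `β`. -/
def Cmp (b β : K) (ρ p'' p' q : Cond) : Prop :=
  (∀ a, (β, a) ∉ p'.f) ∨ (∀ a, (β, a) ∉ q.f) ∨ (∀ a, (β, a) ∈ p'.f ↔ (β, a) ∈ q.f) ∨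
    ∃ r x, L (Order.succ β) p' r ∧ V (Order.succ β) r ∧ (∀ a, (β, a) ∈ r.f → (β, a) ∈ q.f) ∧
      Tail β x q r ∧
      (∀ a a', (β, a) ∈ p'.f → (β, a') ∈ q.f → x ≤ a.pos → a'.pos < a.pos) ∧
      ∀ d m z a, (β, Atom.bd d m) ∈ p'.f → (β, Atom.val z a) ∈ q.f → x ≤ z → z ∈ ρ.E d →
        m ≤ a ∨ (β = b ∧ ∃ t m', (β, Atom.cl d t m') ∈ p'.f ∧ m' ≤ a ∧
          Uc b d t (code p' b d t) p'' z)

/-! ### Countable models -/

/-- Candidates for nodes. -/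
structure Nod : Type 1 where
  r : Cond
  A : Set (W × Cond × Set K)
  F : K → ℕ → Prop

inductive Ob : Type 1
  | k (β : K) : Ob
  | c (p : Cond) : Ob
  | n (w : Nod) : Ob
  | s (O : Set Nod) : Ob
  | d (D : Set Cond) : Ob
  | nat (n : ℕ) : Ob
  | pr (a b : Ob) : Ob

def Ob.In (N : Set Ob) : Ob → Prop
  | .nat _ => True
  | .pr a b => a.In N ∧ b.In N
  | o => o ∈ N

/-- Types coded by objects. -/
class Cod (α : Type*) where
  ι : α → Ob
  inj : Function.Injective ι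

def Mem (N : Set Ob) {α : Type*} [Cod α] (a : α) : Prop := (Cod.ι a).In N

instance : Cod K := ⟨.k, fun _ _ h => Ob.k.inj h⟩
instance : Cod W := ⟨fun z => .k z.1, fun _ _ h => Subtype.ext (Ob.k.inj h)⟩
instance : Cod Cond := ⟨.c, fun _ _ h => Ob.c.inj h⟩
instance : Cod Nod := ⟨.n, fun _ _ h => Ob.n.inj h⟩
instance : Cod (Set Nod) := ⟨.s, fun _ _ h => Ob.s.inj h⟩
instance : Cod (Set Cond) := ⟨.d, fun _ _ h => Ob.d.inj h⟩
instance : Cod ℕ := ⟨.nat, fun _ _ h => Ob.nat.inj h⟩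
instance {α β : Type*} [Cod α] [Cod β] : Cod (α × β) :=
  ⟨fun z => .pr (Cod.ι z.1) (Cod.ι z.2),
    fun _ _ h => Prod.ext (Cod.inj (Ob.pr.inj h).1) (Cod.inj (Ob.pr.inj h).2)⟩

def listOb {α : Type*} [Cod α] : List α → Ob
  | [] => .nat 0
  | a :: l => .pr (Cod.ι a) (listOb l)

theorem listOb_inj {α : Type*} [Cod α] : Function.Injective (listOb (α := α)) := by
  intro l
  induction l with
  | nil => intro l' h; cases l' with
    | nil => rfl
    | cons => cases h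
  | cons a l ih => intro l' h; cases l' with
    | nil => cases h
    | cons b l' => rw [Cod.inj (Ob.pr.inj h).1, ih (Ob.pr.inj h).2]

instance {α : Type*} [Cod α] : Cod (List α) := ⟨listOb, listOb_inj⟩

def Atom.rest : Atom → ℕ × Nn × Nn × ℕ
  | .on => (0, 0, 0, 0)
  | .val _ a => (1, 0, 0, a)
  | .bd _ m => (2, 0, 0, m)
  | .cl _ t m => (3, t, 0, m)
  | .sh _ t t' m => (4, t, t', m)
  | .pm _ t l => (5, t, 0, l)

theorem Atom.pos_rest_inj : Function.Injective fun a : Atom => (a.pos, a.rest) := by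
  intro a b h
  cases a <;> cases b <;> simp_all [Atom.pos, Atom.rest]

instance : Cod Atom := ⟨fun a => Cod.ι (a.pos, a.rest), Cod.inj.comp Atom.pos_rest_inj⟩

def Closed (R : Set (Ob → Ob → Prop)) (N : Set Ob) : Prop :=
  ∀ r ∈ R, ∀ o, o.In N → (∃ o', r o o') → ∃ o', o'.In N ∧ r o o'

/-- `ρ` is generic over the countable system `N` of height `η`. -/
structure GM (N : Set Ob) (η : W) (ρ : Cond) : Prop where
  ct : N.Countable
  eta : ∀ z : W, Mem N z ↔ z < η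
  rv : RV ρ
  ht : η ≤ ρ.ht
  gen : ∀ D : Set Cond, Mem N D → (∀ c, RV c → ∃ c' ∈ D, RV c' ∧ RL c' c) →
    ∃ c' ∈ D, Mem N c' ∧ RV c' ∧ RL ρ c'

/-- For almost all generic systems. -/
def AE (Φ : Set Ob → W → Cond → Prop) : Prop :=
  ∃ R : Set (Ob → Ob → Prop), R.Countable ∧ ∀ N η ρ, GM N η ρ → Closed R N → Φ N η ρ

/-- The coordinates in `N`. -/
def KN (N : Set Ob) : Set K := {β | Mem N β}

/-- Stationary below every extension of `ρ₀`. -/
def Large (ρ₀ : Cond) (A : Set (W × Cond × Set K)) : Prop :=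
  ∀ ρ₁, RV ρ₁ → RL ρ₁ ρ₀ → ∀ Φ, AE Φ →
    ∃ N x q, GM N x q ∧ Φ N x q ∧ RL q ρ₁ ∧ (x, q, KN N) ∈ A

structure El (γ : K) (w : Nod) (x : W) (q : Cond) (B : Set K) : Prop where
  v : V γ q
  le : Le γ q w.r
  ht : w.r.ht ≤ x
  lt : x < q.ht
  emp : q.E x = ∅
  T : w.r.T ⊆ B
  tail : ∀ β < γ, β ∈ B → Tail β x q w.r
  val : ∀ β < γ, β ∈ B → ∀ a, (β, Atom.val x a) ∈ q.f ↔ w.F β a

structure Node (γ : K) (w : Nod) : Prop where
  v : V γ w.r
  large : Large w.r w.A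
  el : ∀ x q B, (x, q, B) ∈ w.A → El γ w x q B
  on : ∀ β < γ, ∀ a, w.F β a → (β, Atom.on) ∈ w.r.f

def NLe (γ : K) (w' w : Nod) : Prop :=
  Le γ w'.r w.r ∧ ∀ x q' B, (x, q', B) ∈ w'.A → ∃ q, (x, q, B) ∈ w.A ∧ Le γ q' q

/-- Dense open sets of nodes. -/
def DO (γ : K) (O : Set Nod) : Prop :=
  (∀ w, Node γ w → ∃ w' ∈ O, Node γ w' ∧ NLe γ w' w) ∧
    ∀ w ∈ O, ∀ w', Node γ w → Node γ w' → NLe γ w' w → w' ∈ O

/-- The subnode on which `σ x j = m`. -/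
def restr (w : Nod) (j m : ℕ) : Nod := ⟨w.r, {e | e ∈ w.A ∧ e.2.1.σ e.1 j = m}, w.F⟩

/-- Splitting at `j`. -/
def Spl (w : Nod) (j : ℕ) : Prop := ∀ k, ∃ m, k ≤ m ∧ Large w.r (restr w j m).A

/-! ### Chains of models and positivity -/

structure Ch : Type 1 where
  N : ℕ → Set Ob
  η : ℕ → W
  δ : W
  Ed : Set W
  ρ : Cond
  gm : ∀ i, GM (N i) (η i) ρ
  mono : ∀ i j, i ≤ j → ∀ o : Ob, o.In (N i) → o.In (N j)
  ht : ρ.ht = δ
  f : ρ.f = ∅
  lt : ∀ i, η i < δ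
  cof : ∀ y < δ, ∃ i, y < η i
  emp : ∀ i, ρ.E (η i) = ∅
  lad : Lad ρ.σ δ Ed
  sub : ∀ β ∈ ρ.T, ∃ i, Mem (N i) β

/-- For almost all chains. -/
def AEC (Φ : Ch → Prop) : Prop :=
  ∃ R : Set (Ob → Ob → Prop), R.Countable ∧ ∀ C : Ch, (∀ i, Closed R (C.N i)) → Φ C

namespace Ch

variable (C : Ch)

def MemU {α : Type*} [Cod α] (a : α) : Prop := ∃ i, Mem (C.N i) a

def In (β : K) (w : Nod) (x : W) (p : Cond) : Prop :=
  ∃ q B, (x, q, B) ∈ w.A ∧ RL C.ρ q ∧ (∀ z ∈ C.Ed, x < z → q.ht ≤ z) ∧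
    (∀ i, C.η i ≤ x → KN (C.N i) ⊆ B) ∧ L β p q

theorem lt_of_add {β μ' μ : K} (h : μ' + ω ^ β * 2 ≤ μ) : μ' < μ :=
  lt_of_lt_of_le (lt_add_of_pos_right _ (mul_pos (opow_pos _ omega0_pos) two_pos)) h

/-- Positivity of rank `μ` at level `β`. -/
noncomputable def FPos (β : K) : K → Nod → (Cond → W → Prop) → Cond → Prop :=
  (wellFounded_lt (α := K)).fix fun μ ih w U p =>
    (∀ y < C.δ, Dns β p fun r => ∃ x ∈ C.Ed, y < x ∧ C.In β w x r ∧ U r x) ∧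
      ∀ μ', C.MemU μ' → ∀ h : μ' + ω ^ β * 2 ≤ μ, ∀ i₀, Dns β p fun r => ∃ i, i₀ ≤ i ∧
        ∀ O : Set Nod, Mem (C.N i) O → DO β O → Dns β r fun s => ∃ w' ∈ O, Mem (C.N i) w' ∧
          Node β w' ∧ NLe β w' w ∧ ih μ' (lt_of_add h) w' U s

def FPhi (β μ : K) (i : ℕ) (w : Nod) (U : Cond → W → Prop) (r : Cond) : Prop :=
  ∀ O : Set Nod, Mem (C.N i) O → DO β O → Dns β r fun s => ∃ w' ∈ O, Mem (C.N i) w' ∧
    Node β w' ∧ NLe β w' w ∧ C.FPos β μ w' U s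

/-- Promises: `e = (w, μ, 0)` is `FPos`, and `e = (w, μ, i + 1)` is `FPhi` with index `i`. -/
def Prom (β : K) (e : Nod × K × ℕ) (U : Cond → W → Prop) (p : Cond) : Prop :=
  match e.2.2 with
  | 0 => C.FPos β e.2.1 e.1 U p
  | i + 1 => C.FPhi β e.2.1 i e.1 U p

/-- Enumeration of the promises. -/
noncomputable def pr : ℕ → Nod × K × ℕ :=
  @Classical.epsilon _ ⟨fun _ => (⟨C.ρ, ∅, fun _ _ => False⟩, 0, 0)⟩
    fun f => ∀ e, C.MemU e → ∃ l, f l = e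

/-- The names of promises. -/
noncomputable def zeta (β : K) (l : ℕ) : Nm :=
  canon {y | y.1 ∈ S β ∧ V β y.1 ∧ ∃ t L, y.2 = .cd t L ∧
    C.Prom β (C.pr l) (Uc β C.δ t L) y.1}

/-- Conditions below the master condition of the chain. -/
structure Bel (γ : K) (p : Cond) : Prop where
  le : Rle γ p C.ρ
  lt : C.δ < p.ht
  E : p.E C.δ = C.Ed
  Z : ∀ β < γ, β ∈ C.ρ.T → ∀ l, p.Z β C.δ l = C.zeta β l

/-- `w` has joined a cluster at `b` whose positivity is promised. -/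
def Jn (b μ : K) (w : Nod) (r : Cond) : Prop :=
  ∃ a t m l μ₁, w.F b a ∧ m ≤ a ∧ (b, Atom.cl C.δ t m) ∈ r.f ∧ (b, Atom.pm C.δ t l) ∈ r.f ∧
    C.pr l = (w, μ₁, 0) ∧ μ ≤ μ₁

def Ok (γ μ : K) (w : Nod) (r : Cond) : Prop :=
  L γ r w.r ∧ ∃ b ≤ γ, C.MemU b ∧ (∀ β, b < β → β < γ → ∀ a, ¬ w.F β a) ∧
    (((b = γ ∨ ∀ a, ¬ w.F b a) ∧ C.FPos b μ w (fun _ _ => True) r) ∨ (b < γ ∧ C.Jn b μ w r))

/-- The lifting statement for rank `μ`. -/
def TS (μ : K) : Prop :=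
  ∀ γ w r, C.MemU γ → C.MemU w → Node γ w → V γ r → C.Bel γ r → C.Ok γ μ w r →
    C.FPos γ μ w (fun _ _ => True) r

end Ch

/-- Monotone properties of (condition, point). -/
def UM (β : K) (U : Cond → W → Prop) : Prop := ∀ r r' x, U r x → V β r' → L β r' r → U r' x

/-- The final forcing notion. -/
def PP : Type 1 := {p : Cond // ∀ α, V α p}

end Pool.Agent.MP_2e2931_gt.Gap
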