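import Pool.Agent.MP_2e2931_gt.FAE

namespace Pool.Agent.MP_2e2931_gt.Gap

open Set Ordinal

theorem gm_in_mono {N N' : Set Ob} (h : N ⊆ N') {o : Ob} (ho : o.In N) : o.In N' := by
  induction o with
  | nat n => trivial
  | pr a b iha ihb => exact ⟨iha ho.1, ihb ho.2⟩
  | _ => exact h ho

theorem gm_in_union {M : ℕ → Set Ob} (h : Monotone M) {o : Ob} (ho : o.In (⋃ n, M n)) :
    ∃ n, o.In (M n) := by
  induction o with
  | nat n => exact ⟨0, trivial⟩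
  | pr a b iha ihb =>
    obtain ⟨n, hn⟩ := iha ho.1
    obtain ⟨m, hm⟩ := ihb ho.2
    exact ⟨max n m, gm_in_mono (h (le_max_left _ _)) hn, gm_in_mono (h (le_max_right _ _)) hm⟩
  | _ => exact mem_iUnion.1 ho

theorem gm_leaves (o : Ob) : ∃ A : Set Ob, A.Countable ∧ o.In A := by
  induction o with
  | nat n => exact ⟨∅, countable_empty, trivial⟩
  | pr a b iha ihb =>
    obtain ⟨A, hA, ha⟩ := iha
    obtain ⟨B, hB, hb⟩ := ihb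
    exact ⟨A ∪ B, hA.union hB, gm_in_mono subset_union_left ha, gm_in_mono subset_union_right hb⟩
  | _ => exact ⟨{_}, countable_singleton _, rfl⟩

/-- Objects of bounded depth over `M`. -/
def gmLev (M : Set Ob) : ℕ → Set Ob
  | 0 => M ∪ range Ob.nat
  | n + 1 => gmLev M n ∪ image2 Ob.pr (gmLev M n) (gmLev M n)

theorem gm_countable_in {M : Set Ob} (h : M.Countable) : {o : Ob | o.In M}.Countable := by
  have h₁ : ∀ n, (gmLev M n).Countable := fun n => by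
    induction n with
    | zero => exact h.union (countable_range _)
    | succ n ih => exact ih.union (ih.image2 ih _)
  have h₂ : Monotone (gmLev M) := monotone_nat_of_le_succ fun n => subset_union_left
  refine (countable_iUnion h₁).mono fun o ho => mem_iUnion.2 ?_
  induction o with
  | nat n => exact ⟨0, Or.inr ⟨n, rfl⟩⟩
  | pr a b iha ihb =>
    obtain ⟨n, hn⟩ := iha ho.1
    obtain ⟨m, hm⟩ := ihb ho.2
    exact ⟨max n m + 1, Or.inr ⟨a, h₂ (le_max_left _ _) hn, b, h₂ (le_max_right _ _) hm, rfl⟩⟩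
  | _ => exact ⟨0, Or.inl ho⟩

theorem gm_meet {F : Set (Set Cond)} (hF : F.Countable)
    (hd : ∀ D ∈ F, ∀ c, RV c → ∃ c' ∈ D, RV c' ∧ RL c' c) {p : Cond} (hp : RV p) :
    ∃ q, RV q ∧ RL q p ∧ ∀ D ∈ F, ∃ c' ∈ D, RV c' ∧ RL q c' := by
  rcases F.eq_empty_or_nonempty with rfl | hne
  · exact ⟨p, hp, RL.refl, fun _ h => h.elim⟩
  obtain ⟨e, rfl⟩ := hF.exists_eq_range hne
  have H : ∀ (n : ℕ) (c : {c : Cond // RV c}), ∃ c' : {c : Cond // RV c}, c'.1 ∈ e n ∧ RL c'.1 c.1 :=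
    fun n c => by
      obtain ⟨c', h₁, h₂, h₃⟩ := hd _ ⟨n, rfl⟩ c.1 c.2
      exact ⟨⟨c', h₂⟩, h₁, h₃⟩
  choose g hg using H
  let s : ℕ → {c : Cond // RV c} := fun n => Nat.rec ⟨p, hp⟩ g n
  obtain ⟨l, hl, hs, -⟩ := exists_lim (fun n => (s n).1) (fun n => (s n).2) fun n => (hg n (s n)).2
  refine ⟨l, hl, hs 0, ?_⟩
  rintro _ ⟨n, rfl⟩
  exact ⟨(s (n + 1)).1, (hg n (s n)).1, (s (n + 1)).2, hs (n + 1)⟩

/-- One round of the bookkeeping. -/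
structure GmStep (R : Set (Ob → Ob → Prop)) (M : Set Ob) (p : Cond) (M' : Set Ob) (q : Cond) :
    Prop where
  sub : M ⊆ M'
  rl : RL q p
  gen : ∀ D : Set Cond, Ob.d D ∈ M → (∀ c, RV c → ∃ c' ∈ D, RV c' ∧ RL c' c) →
    ∃ c' ∈ D, Ob.c c' ∈ M' ∧ RV c' ∧ RL q c'
  up : ∀ z : W, Ob.k z.1 ∈ M → z < q.ht
  dn : ∀ z : W, z < p.ht → Ob.k z.1 ∈ M'
  T : ∀ β ∈ p.T, Ob.k β ∈ M'
  cl : ∀ r ∈ R, ∀ o : Ob, o.In M → (∃ o', r o o') → ∃ o' : Ob, o'.In M' ∧ r o o'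

theorem gm_step {R : Set (Ob → Ob → Prop)} (hR : R.Countable) {M : Set Ob} (hM : M.Countable)
    {p : Cond} (hp : RV p) : ∃ M' q, M'.Countable ∧ RV q ∧ GmStep R M p M' q := by
  have hF : {D : Set Cond | Ob.d D ∈ M ∧ ∀ c, RV c → ∃ c' ∈ D, RV c' ∧ RL c' c}.Countable :=
    (hM.preimage_of_injOn (f := Ob.d) fun _ _ _ _ h => Ob.d.inj h).mono fun _ h => h.1
  obtain ⟨q₁, hq₁, hl₁, H₁⟩ := gm_meet hF (fun _ h => h.2) hp
  haveI : Nonempty Cond := ⟨p⟩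
  choose! w hw using H₁
  have hZ : {z : W | Ob.k z.1 ∈ M}.Countable :=
    hM.preimage_of_injOn (f := fun z : W => Ob.k z.1) fun _ _ _ _ h => Subtype.ext (Ob.k.inj h)
  obtain ⟨y, hy⟩ := W.exists_gt hZ
  obtain ⟨q, hq, hl, hyq, -⟩ := exists_ht hq₁ y
  have H₂ : ∀ (r : Ob → Ob → Prop) (o : Ob), ∃ A : Set Ob, A.Countable ∧
      ((∃ o', r o o') → ∃ o' : Ob, o'.In A ∧ r o o') := fun r o => by
    by_cases h : ∃ o', r o o'
    · obtain ⟨o', h⟩ := h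
      obtain ⟨A, hA, ho⟩ := gm_leaves o'
      exact ⟨A, hA, fun _ => ⟨o', ho, h⟩⟩
    · exact ⟨∅, countable_empty, fun h' => absurd h' h⟩
  choose A hA hA' using H₂
  refine ⟨M ∪ ((fun D => Ob.c (w D)) '' _ ∪ ((fun z : W => Ob.k z.1) '' Iic p.ht ∪
    (Ob.k '' p.T ∪ ⋃ r ∈ R, ⋃ o ∈ {o : Ob | o.In M}, A r o))), q,
    hM.union ((hF.image _).union (((W.countable_Iic _).image _).union ((hp.ct.image _).union
      (hR.biUnion fun r _ => (gm_countable_in hM).biUnion fun o _ => hA r o)))), hq,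
    subset_union_left, hl.trans hl₁, fun D h₁ h₂ => ?_, fun z hz => (hy z hz).trans hyq,
    fun z hz => Or.inr (Or.inr (Or.inl ⟨z, hz.le, rfl⟩)),
    fun β hβ => Or.inr (Or.inr (Or.inr (Or.inl ⟨β, hβ, rfl⟩))), fun r hr o ho h => ?_⟩
  · obtain ⟨h₃, h₄, h₅⟩ := hw D ⟨h₁, h₂⟩
    exact ⟨w D, h₃, Or.inr (Or.inl ⟨D, ⟨h₁, h₂⟩, rfl⟩), h₄, hl.trans h₅⟩
  · obtain ⟨o', h₁, h₂⟩ := hA' r o h
    refine ⟨o', gm_in_mono (fun x hx => ?_) h₁, h₂⟩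
    exact Or.inr (Or.inr (Or.inr (Or.inr (mem_biUnion hr (mem_biUnion ho hx)))))

/-- Existence of generic systems. -/
theorem exists_GM {Φ : Set Ob → W → Cond → Prop} (h : AE Φ) {ρ₁ : Cond} (hv : RV ρ₁)
    {N₀ : Set Ob} (h₀ : N₀.Countable) :
    ∃ N η ρ, GM N η ρ ∧ Φ N η ρ ∧ RL ρ ρ₁ ∧ ρ.ht = η ∧ ρ.f = ∅ ∧ ρ.T ⊆ KN N ∧
      ∀ o : Ob, o.In N₀ → o.In N := by
  obtain ⟨R, hR, hΦ⟩ := h
  have H : ∀ x : {x : Set Ob × Cond // x.1.Countable ∧ RV x.2},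
      ∃ y : {x : Set Ob × Cond // x.1.Countable ∧ RV x.2}, GmStep R x.1.1 x.1.2 y.1.1 y.1.2 :=
    fun x => by
      obtain ⟨M', q, h₁, h₂, h₃⟩ := gm_step hR x.2.1 x.2.2
      exact ⟨⟨(M', q), h₁, h₂⟩, h₃⟩
  choose g hg using H
  let s : ℕ → {x : Set Ob × Cond // x.1.Countable ∧ RV x.2} :=
    fun n => Nat.rec ⟨(N₀, ρ₁), h₀, hv⟩ (fun _ => g) n
  have hs : ∀ n, GmStep R (s n).1.1 (s n).1.2 (s (n + 1)).1.1 (s (n + 1)).1.2 := fun n => hg (s n)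
  have hm : Monotone fun n => (s n).1.1 := monotone_nat_of_le_succ fun n => (hs n).sub
  obtain ⟨ρ, hρ, hl, hf, hht, hT⟩ :=
    exists_lim (fun n => (s n).1.2) (fun n => (s n).2.2) fun n => (hs n).rl
  have gm : GM (⋃ n, (s n).1.1) ρ.ht ρ := by
    refine ⟨countable_iUnion fun n => (s n).2.1, fun z => ⟨fun hz => ?_, fun hz => ?_⟩, hρ, le_rfl,
      fun D hD hd => ?_⟩
    · obtain ⟨n, hn⟩ := mem_iUnion.1 hz
      exact ((hs n).up z hn).trans_le (hl (n + 1) 0).ht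
    · obtain ⟨n, hn⟩ := hht z hz
      exact mem_iUnion.2 ⟨n + 1, (hs n).dn z hn⟩
    · obtain ⟨n, hn⟩ := mem_iUnion.1 hD
      obtain ⟨c', h₁, h₂, h₃, h₄⟩ := (hs n).gen D hn hd
      exact ⟨c', h₁, mem_iUnion.2 ⟨n + 1, h₂⟩, h₃, (hl (n + 1)).trans h₄⟩
  refine ⟨_, _, ρ, gm, hΦ _ _ _ gm fun r hr o ho h => ?_, hl 0, rfl, hf, fun β hβ => ?_,
    fun o ho => gm_in_mono (subset_iUnion (fun n => (s n).1.1) 0) ho⟩
  · obtain ⟨n, hn⟩ := gm_in_union hm ho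
    obtain ⟨o', h₁, h₂⟩ := (hs n).cl r hr o hn h
    exact ⟨o', gm_in_mono (subset_iUnion (fun n => (s n).1.1) (n + 1)) h₁, h₂⟩
  · obtain ⟨n, hn⟩ := hT β hβ
    exact mem_iUnion.2 ⟨n + 1, (hs n).T β hn⟩

end Pool.Agent.MP_2e2931_gt.Gap
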