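import Pool.Agent.MP_2e2931_gt.FPP

namespace Pool.Agent.MP_2e2931_gt.Gap

open Set Ordinal

/-- Good data are handled at some coordinate. -/
theorem exists_good (p₀ : PP) (R : At → PP → Prop) (hm : ∀ a r r', R a r → r' ≤ r → R a r')
    (t₁ : ∀ x j, ∀ q ≤ p₀, ∃ r ≤ q, ∃ c, R (.pi x j c) r)
    (t₂ : ∀ d k x, ∀ q ≤ p₀, ∃ r ≤ q, ∃ t, R (.ce d k x t) r)
    (g₃ : ∀ (d : W) (n₀ : ℕ) (B : PP → ℕ × ℕ → Prop), (∀ r r' y, B r y → r' ≤ r → B r' y) →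
      ∀ q ≤ p₀, d < q.1.ht → (∀ j, ∀ r ≤ q, ∃ r' ≤ r, ∃ y, j ≤ y.1 ∧ B r' y) →
        ∃ q' ≤ q, ∃ k, ∃ u : Set (ℕ × ℕ), u.Finite ∧ (∀ y ∈ u, B q' y) ∧
          ∀ x ∈ q.1.E d, ∀ r ≤ q', ∀ t, R (.ce d k x t) r → ∃ y ∈ u, t = (n₀, y)) :
    ∃ β, Good β p₀.1 ∧
      ∀ a (u : PP), Dec β (bk β) u.1 a → ∀ u' ≤ u, ∃ u'' ≤ u', R a u'' := by
  obtain ⟨α, hT, hc⟩ := capture (ι := (W × ℕ) ⊕ (W × ℕ × W)) p₀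
    (Sum.elim (fun i r => ∃ c, R (.pi i.1 i.2 c) r) fun i r => ∃ t, R (.ce i.1 i.2.1 i.2.2 t) r)
    (by
      rintro (i | i) q hq
      exacts [t₁ _ _ q hq, t₂ _ _ _ q hq])
  have hX : ∀ y ∈ {y : Cond × At | y.1 ∈ S α ∧ ∃ r : PP, r.1 = y.1 ∧ R y.2 r}, y.1 ∈ S α :=
    fun _ h => h.1
  obtain ⟨β, hβ, -, hb⟩ := bk_spec (ν := α) ⟨_, hX, rfl⟩ α
  have ent : ∀ c a, (c, a) ∈ (bk β).ent ↔ c ∈ S α ∧ ∃ r : PP, r.1 = c ∧ R a r := fun c a => by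
    rw [hb, ent_canon (small_of_S hX)]
    rfl
  have hT' : p₀.1.T ⊆ Iio β := hT.trans (Iio_subset_Iio hβ)
  have dec : ∀ a (u : PP), Dec β (bk β) u.1 a → ∀ u' ≤ u, ∃ u'' ≤ u', R a u'' := by
    intro a u h u' hu
    obtain ⟨s, v₁, l₁, c, hca, l₂⟩ := Dec_def.1 h u'.1 (u'.2 β) (hu β)
    obtain ⟨h₁, r, rfl, h₂⟩ := (ent c a).1 hca
    obtain ⟨t, h₃, h₄⟩ := PP.amalg u' v₁ l₁
    exact ⟨t, h₃, hm a r t h₂ (PP.le_of (h₄.trans l₂)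
      ((mem_S.1 h₁).1.trans (Iio_subset_Iio hβ)))⟩
  have tot : ∀ (r : PP) (p' : Cond), V β p' → r.1.T ⊆ Iio α → L α r.1 p' →
      ∃ s, V β s ∧ L β s p' ∧ ∀ a, R a r → Dec β (bk β) s a := by
    intro r p' v₁ h₁ l₁
    have vc := V.cut (r.2 α)
    obtain ⟨a₁, a₂, a₃, -⟩ := mix_spec hβ (vc α) v₁ (cut_L.trans l₁)
    have a₄ := L_of_supp a₃ (vc β) fun _ h _ => cut_T h
    refine ⟨_, a₁, a₂.1, fun a h => Dec_def.2 (Dns.of_all fun s _ l₂ => ⟨_, (ent _ a).2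
      ⟨cut_mem_S (r.2 α).rv, ⟨_, vc⟩, rfl, hm a r _ h (PP.le_of cut_L h₁)⟩, l₂.trans a₄⟩)⟩
  refine ⟨β, Good_def.2 ⟨fun x j p' v₁ l₁ => ?_, fun d n₀ B hB p' v₁ l₁ hd H => ?_⟩, dec⟩
  · obtain ⟨r, ⟨c, h₁⟩, h₂, h₃⟩ := hc (Sum.inl (x, j)) p' (v₁.mono hβ) (l₁.mono hβ)
    obtain ⟨s, a₁, a₂, a₃⟩ := tot r p' v₁ h₂ h₃
    exact ⟨s, a₁, a₂, c, a₃ _ h₁⟩
  · obtain ⟨q', hq', k, u, hu, hBu, hx⟩ := g₃ d n₀ (fun r y => B r.1 y)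
      (fun r r' y h h' => hB _ _ y h (r'.2 β) (h' β)) ⟨cut β p', V.cut v₁⟩
      (PP.le_of (cut_L.trans l₁) hT') hd fun j r hr => by
        obtain ⟨s, a₁, a₂, y, a₃, a₄⟩ := H j r.1 (r.2 β) ((hr β).trans cut_L)
        obtain ⟨t, b₁, b₂⟩ := PP.amalg r a₁ a₂
        exact ⟨t, b₁, y, a₃, hB _ _ y a₄ (t.2 β) b₂⟩
    have l₂ : L β q'.1 p' := (hq' β).trans cut_L
    refine ⟨q'.1, q'.2 β, l₂, k, u, hu, hBu, fun x hxd s v₂ l₃ => ?_⟩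
    obtain ⟨r, ⟨t, h₁⟩, h₂, h₃⟩ := hc (Sum.inr (d, k, x)) s (v₂.mono hβ)
      ((l₃.trans (l₂.trans l₁)).mono hβ)
    obtain ⟨s', a₁, a₂, a₃⟩ := tot r s v₂ h₂ h₃
    obtain ⟨t', b₁, b₂⟩ := PP.amalg q' a₁ (a₂.trans l₃)
    obtain ⟨u', c₁, c₂⟩ := dec _ t' ((a₃ _ h₁).mono b₂) t' le_rfl
    obtain ⟨y, hy, rfl⟩ := hx x hxd u' (c₁.trans b₁) t c₂
    exact ⟨s', a₁, a₂, y, hy, a₃ _ h₁⟩

end Pool.Agent.MP_2e2931_gt.Gap
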