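import Pool.Agent.MP_2e2931_gt.FAE

namespace Pool.Agent.MP_2e2931_gt.Gap

open Set Ordinal

variable {ρ₀ ρ₁ : Cond} {A A' : Set (W × Cond × Set K)}

theorem Large.mono (h : Large ρ₀ A) (hl : RL ρ₁ ρ₀) (hA : A ⊆ A') : Large ρ₁ A' := by
  intro ρ₂ hv₂ hl₂ Φ hΦ
  obtain ⟨N, x, q, h1, h2, h3, h4⟩ := h ρ₂ hv₂ (hl₂.trans hl) Φ hΦ
  exact ⟨N, x, q, h1, h2, h3, hA h4⟩

theorem Large.ext (h : Large ρ₀ A) (hl : RL ρ₁ ρ₀)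
    (H : ∀ x q B, (x, q, B) ∈ A → ∃ q', RV q' ∧ RL q' q ∧ (x, q', B) ∈ A') : Large ρ₁ A' := by
  intro ρ₂ hv₂ hl₂ Φ hΦ
  obtain ⟨N, x, q, h1, h2, h3, h4⟩ := h ρ₂ hv₂ (hl₂.trans hl) _ hΦ.ext
  obtain ⟨q', k1, k2, k3⟩ := H x q _ h4
  exact ⟨N, x, q', h1.ext k1 k2, h2 q' k1 k2, k2.trans h3, k3⟩

theorem Large.sub (h : Large ρ₀ A) (hv : RV ρ₁) (hl : RL ρ₁ ρ₀) :
    Large ρ₁ {e | e ∈ A ∧ RL e.2.1 ρ₁ ∧ ρ₁.ht ≤ e.1 ∧ ρ₁.T ⊆ e.2.2} := by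
  intro ρ₂ hv₂ hl₂ Φ hΦ
  obtain ⟨N, x, q, h1, ⟨h2, k1, k2, k3⟩, h3, h4⟩ := h ρ₂ hv₂ (hl₂.trans hl) _
    (hΦ.and ((AE.const ρ₁).and (ae_ht.and ae_T)))
  exact ⟨N, x, q, h1, h2, h3, h4, h3.trans hl₂, (k2 ρ₁ k1).le, k3 ρ₁ k1 hv⟩

theorem Large.nonempty (h : Large ρ₀ A) (hv : RV ρ₀) : A.Nonempty := by
  obtain ⟨N, x, q, -, -, -, h4⟩ := h ρ₀ hv RL.refl (fun _ _ _ => True)
    (AE.of_all fun _ _ _ _ => trivial)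
  exact ⟨_, h4⟩

/-- The pressing down lemma. -/
theorem Large.fodor {α : Type*} [Cod α] (h : Large ρ₀ A) (hv : RV ρ₀)
    (B : α → Set (W × Cond × Set K))
    (H : AE fun N x q => (x, q, KN N) ∈ A →
      ∃ q' c, RV q' ∧ RL q' q ∧ Mem N c ∧ (x, q', KN N) ∈ B c) :
    ∃ ρ₁ c, RV ρ₁ ∧ RL ρ₁ ρ₀ ∧ Large ρ₁ (B c) := by
  by_contra hc
  obtain ⟨Kill, hK⟩ : ∃ Kill : α → Cond → Prop, Kill = fun c r => ∃ Φ, AE Φ ∧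
      ∀ N x q, GM N x q → Φ N x q → RL q r → (x, q, KN N) ∉ B c := ⟨_, rfl⟩
  have ex : ∀ z : α × Cond, ∃ Φ, AE Φ ∧ (Kill z.1 z.2 →
      ∀ N x q, GM N x q → Φ N x q → RL q z.2 → (x, q, KN N) ∉ B z.1) := by
    intro z
    by_cases hz : Kill z.1 z.2
    · have hz' := hz
      rw [hK] at hz'
      obtain ⟨Φ, h1, h2⟩ := hz'
      exact ⟨Φ, h1, fun _ => h2⟩
    · exact ⟨fun _ _ _ => True, AE.of_all fun _ _ _ _ => trivial, fun h => absurd h hz⟩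
  choose Ph hPh hPh' using ex
  obtain ⟨N, x, q, h1, ⟨k1, k2, k3⟩, h3, h4⟩ := h ρ₀ hv RL.refl _
    (H.and ((AE.act Kill id).ext.and (AE.diag hPh).ext))
  obtain ⟨q', c, m1, m2, m3, m4⟩ := k1 h4
  have hr : ∃ b, Kill c b ∧ RV (id b) ∧ RL (id b) q' := by
    by_contra hn
    refine hc ⟨q', c, m1, m2.trans h3, fun r hr1 hr2 Φ hΦ => ?_⟩
    by_contra hn2
    refine hn ⟨r, ?_, hr1, hr2⟩
    rw [hK]
    exact ⟨Φ, hΦ, fun N x q a1 a2 a3 a4 => hn2 ⟨N, x, q, a1, a2, a3, a4⟩⟩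
  obtain ⟨b, b1, b2, -, b4⟩ := k2 q' m1 m2 c m3 hr
  exact hPh' (c, b) b2 N x q' (h1.ext m1 m2) (k3 q' m1 m2 (c, b) (mem_prod.2 ⟨m3, b1⟩)) b4 m4

theorem flarge_decide (D : ℕ → Set (W × Cond × Set K)) (hv : RV ρ₀) :
    ∃ l, RV l ∧ RL l ρ₀ ∧ ∀ n, Large l (D n) ∨ ∀ r, RV r → RL r l → ¬ Large r (D n) := by
  have ex : ∀ (r : {r : Cond // RV r}) (n : ℕ), ∃ r' : {r : Cond // RV r}, RL r'.1 r.1 ∧
      (Large r'.1 (D n) ∨ ∀ s, RV s → RL s r'.1 → ¬ Large s (D n)) := by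
    intro r n
    by_cases hs : ∃ s, RV s ∧ RL s r.1 ∧ Large s (D n)
    · obtain ⟨s, h1, h2, h3⟩ := hs
      exact ⟨⟨s, h1⟩, h2, Or.inl h3⟩
    · exact ⟨r, RL.refl, Or.inr fun s h1 h2 h3 => hs ⟨s, h1, h2, h3⟩⟩
  choose F hF hF' using ex
  obtain ⟨c, c0, cs⟩ : ∃ c : ℕ → {r : Cond // RV r}, c 0 = ⟨ρ₀, hv⟩ ∧
      ∀ n, c (n + 1) = F (c n) n :=
    ⟨fun n => Nat.rec ⟨ρ₀, hv⟩ (fun n r => F r n) n, rfl, fun _ => rfl⟩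
  obtain ⟨l, l1, l2, -⟩ := exists_lim (fun n => (c n).1) (fun n => (c n).2)
    (fun n => by
      show RL (c (n + 1)).1 (c n).1
      rw [cs]
      exact hF _ _)
  refine ⟨l, l1, ?_, fun n => ?_⟩
  · have := l2 0
    simp only [c0] at this
    exact this
  · have h1 : RL l (F (c n) n).1 := by
      rw [← cs]
      exact l2 (n + 1)
    rcases hF' (c n) n with h2 | h2
    · exact Or.inl (h2.mono h1 subset_rfl)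
    · exact Or.inr fun r a1 a2 => h2 r a1 (a2.trans h1)

/-- Splitting, from the scale. -/
theorem Large.split (h : Large ρ₀ A) (hv : RV ρ₀) (hA : ∀ e ∈ A, e.1 < e.2.1.ht) :
    ∃ ρ₁ j, RV ρ₁ ∧ RL ρ₁ ρ₀ ∧ ∀ k, ∃ m, k ≤ m ∧ Large ρ₁ {e | e ∈ A ∧ e.2.1.σ e.1 j = m} := by
  obtain ⟨l, l1, l2, l3⟩ := flarge_decide
    (fun n => {e | e ∈ A ∧ e.2.1.σ e.1 n.unpair.1 = n.unpair.2}) hv
  by_contra hc
  have ex : ∀ j, ∃ k, ∀ m, k ≤ m → ∀ r, RV r → RL r l →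
      ¬ Large r {e | e ∈ A ∧ e.2.1.σ e.1 j = m} := by
    intro j
    by_contra hn
    refine hc ⟨l, j, l1, l2, fun k => ?_⟩
    by_contra hn2
    refine hn ⟨k, fun m hm => ?_⟩
    have h1 := l3 (Nat.pair j m)
    simp only [Nat.unpair_pair] at h1
    exact h1.resolve_left fun h2 => hn2 ⟨m, hm, h2⟩
  choose k hk using ex
  obtain ⟨r, r1, r2, r3, -, -, -, r4, -⟩ := exists_step l1 k (Lad.empty l.σ l.ht)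
    (fun _ _ => canon ∅) (fun β _ => canon_empty_mem β)
  obtain ⟨ρ₂, ⟨j, m⟩, s1, s2, s3⟩ := (h.sub r1 (r2.trans l2)).fodor r1
    (fun z : ℕ × ℕ => {e | (e ∈ A ∧ e.2.1.σ e.1 z.1 = z.2) ∧ k z.1 ≤ z.2})
    (AE.of_all fun N x q hG he => by
      obtain ⟨a1, a2, a3, -⟩ := he
      obtain ⟨j, hj⟩ := (hG.rv.sc l.ht x (r3.trans_le a3) (hA _ a1)).exists
      have e : q.σ l.ht = r.σ l.ht := (a2 0).σ l.ht r3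
      rw [e] at hj
      exact ⟨q, (j, q.σ x j), hG.rv, RL.refl, mem_prod.2 ⟨mem_nat, mem_nat⟩, ⟨a1, rfl⟩,
        (r4 j).trans hj⟩)
  obtain ⟨e, -, he⟩ := s3.nonempty s1
  exact hk j m he ρ₂ s1 (s2.trans r2) (s3.mono RL.refl fun _ h => h.1)

end Pool.Agent.MP_2e2931_gt.Gap
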