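import Pool.Agent.MP_2e2931_gt.FLarge
import Pool.Agent.MP_2e2931_gt.FGM
import Pool.Agent.MP_2e2931_gt.FAM

namespace Pool.Agent.MP_2e2931_gt.Gap

open Set Ordinal

variable {β γ b : K} {v w w' w'' : Nod}

theorem NLe.refl : NLe γ w w := by
  exact ⟨Le.refl, fun _ q _ h => ⟨q, h, Le.refl⟩⟩

theorem NLe.trans (h : NLe γ w'' w') (h' : NLe γ w' w) : NLe γ w'' w := by
  refine ⟨h.1.trans h'.1, fun x q'' B hq => ?_⟩
  obtain ⟨q', h1, h2⟩ := h.2 x q'' B hq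
  obtain ⟨q, h3, h4⟩ := h'.2 x q' B h1
  exact ⟨q, h3, h2.trans h4⟩

theorem NLe.mono (h : NLe γ w' w) (hβ : β ≤ γ) : NLe β w' w := by
  refine ⟨h.1.mono hβ, fun x q' B hq => ?_⟩
  obtain ⟨q, h1, h2⟩ := h.2 x q' B hq
  exact ⟨q, h1, h2.mono hβ⟩

theorem Node.mono (h : Node γ w) (hβ : β ≤ γ) : Node β w := by
  refine ⟨h.v.mono hβ, h.large, fun x q B hq => ?_, fun β' h' => h.on β' (h'.trans_le hβ)⟩
  have e := h.el x q B hq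
  exact ⟨e.v.mono hβ, e.le.mono hβ, e.ht, e.lt, e.emp, e.T,
    fun β' h' => e.tail β' (h'.trans_le hβ), fun β' h' => e.val β' (h'.trans_le hβ)⟩

theorem Node.F_uniq (h : Node γ w) (hβ : β < γ) {a a' : ℕ} (h₁ : w.F β a) (h₂ : w.F β a') :
    a = a' := by
  obtain ⟨⟨x, q, B⟩, hq⟩ := h.large.nonempty h.v.rv
  have e := h.el x q B hq
  have hB := e.T (h.v.supp hβ (h.on β hβ a h₁))
  exact (e.v.loc hβ).fn x a a' ((e.val β hβ hB a).2 h₁) ((e.val β hβ hB a').2 h₂)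

theorem Node.F_mono (h' : Node γ w') (h : Node γ w) (hl : NLe γ w' w) (hβ : β < γ) {a : ℕ}
    (ha : w.F β a) : w'.F β a := by
  obtain ⟨⟨x, q', B⟩, hq⟩ := h'.large.nonempty h'.v.rv
  obtain ⟨q, h1, h2⟩ := hl.2 x q' B hq
  have e := h.el x q B h1
  have hB := e.T (h.v.supp hβ (h.on β hβ a ha))
  exact ((h'.el x q' B hq).val β hβ hB a).1 (h2.1.sub hβ ((e.val β hβ hB a).2 ha))

theorem Node.F_fin (h : Node γ w) : {β | β < γ ∧ ∃ a, w.F β a}.Finite := by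
  refine (h.v.fin.image Prod.fst).subset ?_
  rintro β ⟨hβ, a, ha⟩
  exact ⟨_, h.on β hβ a ha, rfl⟩

/-- Amalgamation of nodes. -/
theorem nodeAm (hb : b ≤ γ) (hw : Node γ w) (hv : Node b v) (hl : NLe b v w) {r : Cond}
    (hr : V γ r) (h₁ : L γ r w.r) (h₂ : Le b v.r r) :
    ∃ w₁, Node γ w₁ ∧ NLe γ w₁ w ∧ NLe b w₁ v ∧ Le γ w₁.r r ∧
      ∀ β, b ≤ β → ∀ a, w₁.F β a ↔ w.F β a := by
  classical
  obtain ⟨a1, a2, -, a4⟩ := am_spec hb hv.v.rv hv.v hr hr h₂.1 h₂.1 Rle.refl (h₂.2 γ) (h₂.2 γ)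
    fun β _ _ => Or.inr (Or.inr (Or.inl fun _ => Iff.rfl))
  have lo : ∀ {β : K} {ρ p'' p' q : Cond} {a : Atom}, β < b →
      ((β, a) ∈ (am b ρ p'' p' q).f ↔ (β, a) ∈ p''.f) := fun h =>
    ⟨fun h' => h'.elim (·.2) fun h' => absurd h'.1 h.not_ge, fun h' => Or.inl ⟨h, h'⟩⟩
  have hi : ∀ {β : K} {ρ p'' p' q : Cond} {a : Atom}, b ≤ β →
      ((β, a) ∈ (am b ρ p'' p' q).f ↔ (β, a) ∈ p'.f ∨ (β, a) ∈ q.f) := fun h =>
    ⟨fun h' => h'.elim (fun h' => absurd h'.1 h.not_gt) (·.2), fun h' => Or.inr ⟨h, h'⟩⟩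
  have key : ∀ x q' q B, (x, q', B) ∈ v.A → (x, q, B) ∈ w.A → Le b q' q →
      El γ ⟨am b v.r v.r r r, ∅, fun β => if β < b then v.F β else w.F β⟩ x (am b q' q' r q) B ∧
        L γ (am b q' q' r q) q ∧ L b (am b q' q' r q) q' := by
    intro x q' q B h' h hq
    have e' := hv.el x q' B h'
    have e := hw.el x q B h
    have hx : r.ht ≤ x := (h₂.2 0).ht.trans e'.ht
    have hp : ∀ β < γ, ∀ a, (β, a) ∈ r.f → a.pos < x := fun β hβ a ha =>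
      ((hr.loc hβ).pos a ha).trans_le hx
    obtain ⟨b1, b2, b3, b4⟩ := am_spec (ρ := q') hb e'.v.rv e'.v hr e.v (e'.le.1.trans h₂.1) hq.1
      Rle.refl ((e'.le.2.trans h₂.2) γ) (hq.2 γ) fun β _ hβ => by
        by_cases hB : β ∈ B
        · refine Or.inr (Or.inr (Or.inr ⟨w.r, x, h₁.mono (Order.succ_le_of_lt hβ),
            hw.v.mono (Order.succ_le_of_lt hβ), fun a ha => e.le.1.sub hβ ha, e.tail β hβ hB,
            fun a a' ha _ hxa => absurd (hp β hβ a ha) hxa.not_gt, fun d m z a hd _ hz hz' => ?_⟩))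
          have hd' : d < x := hp β hβ _ hd
          exact absurd (((e'.v.rv.lad d (hd'.trans e'.lt)).lt z hz').trans hd') hz.not_gt
        · exact Or.inl fun a ha => hB (e'.T (h₂.2.T (hr.supp hβ ha)))
    refine ⟨⟨b1, ⟨le_am hb hv.v hr (b4.trans e'.le.1) b2 (e'.le.2 γ).setf_left Rle.refl (h₂.2 0),
      e'.le.2.setf_left.setf_right⟩, e'.ht, e'.lt, e'.emp, e'.T, fun β hβ hB => ?_,
      fun β hβ hB a => ?_⟩, b3, b4⟩
    · rcases lt_or_ge β b with hβb | hβb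
      · obtain ⟨t1, t2⟩ := e'.tail β hβb hB
        refine ⟨fun a ha hxa => (lo hβb).2 (t1 a ((lo hβb).1 ha) hxa), fun d m hd hxd z hz hzx => ?_⟩
        obtain ⟨a, ha⟩ := t2 d m ((lo hβb).1 hd) hxd z hz hzx
        exact ⟨a, (lo hβb).2 ha⟩
      · obtain ⟨t1, t2⟩ := e.tail β hβ hB
        refine ⟨fun a ha hxa => (hi hβb).2 (Or.inl ?_), fun d m hd hxd z hz hzx => ?_⟩
        · exact ((hi hβb).1 ha).elim id fun ha => h₁.sub hβ (t1 a ha hxa)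
        · rcases (hi hβb).1 hd with hd | hd
          · exact absurd (hp β hβ _ hd) hxd.not_gt
          · have hE : q'.E d = q.E d := (hq.2 0).E d ((e.v.loc hβ).pos _ hd)
            obtain ⟨a, ha⟩ := t2 d m hd hxd z (hE ▸ hz) hzx
            exact ⟨a, (hi hβb).2 (Or.inr ha)⟩
    · change _ ↔ (if β < b then v.F β else w.F β) a
      rcases lt_or_ge β b with hβb | hβb
      · rw [if_pos hβb, lo hβb]
        exact e'.val β hβb hB a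
      · rw [if_neg hβb.not_gt, hi hβb, ← e.val β hβ hB a]
        exact or_iff_right fun h => lt_irrefl x (hp β hβ _ h)
  refine ⟨⟨am b v.r v.r r r, {e | ∃ q' q, (e.1, q', e.2.2) ∈ v.A ∧ (e.1, q, e.2.2) ∈ w.A ∧
    Le b q' q ∧ e.2.1 = am b q' q' r q}, fun β => if β < b then v.F β else w.F β⟩,
    ⟨a1, hv.large.ext RL.refl.setf_left fun x q' B h' => ?_, ?_, fun β hβ a ha => ?_⟩,
    ⟨⟨a2.trans h₁, hl.1.2.setf_left⟩, ?_⟩, ⟨⟨a4, RL.refl.setf_left⟩, ?_⟩, ⟨a2, h₂.2.setf_left⟩,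
    fun β hβ a => ?_⟩
  · obtain ⟨q, h, hq⟩ := hl.2 x q' B h'
    exact ⟨am b q' q' r q, (hv.el x q' B h').v.rv.setf, RL.refl.setf_left, q', q, h', h, hq, rfl⟩
  · rintro x s B ⟨q', q, h', h, hq, rfl⟩
    have e := (key x q' q B h' h hq).1
    exact ⟨e.v, e.le, e.ht, e.lt, e.emp, e.T, e.tail, e.val⟩
  · change (if β < b then v.F β else w.F β) a at ha
    rcases lt_or_ge β b with hβb | hβb
    · rw [if_pos hβb] at ha
      exact (lo hβb).2 (hv.on β hβb a ha)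
    · rw [if_neg hβb.not_gt] at ha
      exact (hi hβb).2 (Or.inl (h₁.sub hβ (hw.on β hβ a ha)))
  · rintro x s B ⟨q', q, h', h, hq, rfl⟩
    exact ⟨q, h, (key x q' q B h' h hq).2.1, hq.2.setf_left⟩
  · rintro x s B ⟨q', q, h', h, hq, rfl⟩
    exact ⟨q', h', (key x q' q B h' h hq).2.2, RL.refl.setf_left⟩
  · change (if β < b then v.F β else w.F β) a ↔ _
    rw [if_neg hβ.not_gt]

/-- Change of the root at level zero. -/
theorem node_sub0 (hw : Node 0 w) {c : Cond} (hc : V 0 c) (h : RL c w.r) :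
    Node 0 ⟨c, {e | e ∈ w.A ∧ RL e.2.1 c ∧ c.ht ≤ e.1 ∧ c.T ⊆ e.2.2}, w.F⟩ ∧
      NLe 0 ⟨c, {e | e ∈ w.A ∧ RL e.2.1 c ∧ c.ht ≤ e.1 ∧ c.T ⊆ e.2.2}, w.F⟩ w := by
  refine ⟨⟨hc, hw.large.sub hc.rv h, fun x q B hq => ?_, fun _ h => absurd h not_lt_zero⟩,
    ⟨L_zero.2 (h 0), h⟩, fun _ q _ hq => ⟨q, hq.1, Le.refl⟩⟩
  have e := hw.el x q B hq.1
  exact ⟨e.v, ⟨L_zero.2 (hq.2.1 0), hq.2.1⟩, hq.2.2.1, e.lt, e.emp, hq.2.2.2,
    fun _ h => absurd h not_lt_zero, fun _ h => absurd h not_lt_zero⟩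

theorem reroot (hw : Node γ w) {c : Cond} (hc : V γ c) (h : Le γ c w.r) :
    ∃ w₁, Node γ w₁ ∧ NLe γ w₁ w ∧ Le γ w₁.r c ∧ ∀ β a, w₁.F β a ↔ w.F β a := by
  obtain ⟨h1, h2⟩ := node_sub0 (hw.mono zero_le) (hc.mono zero_le) h.2
  obtain ⟨w₁, a1, a2, -, a4, a5⟩ := nodeAm zero_le hw h1 h2 hc h.1 Le.refl
  exact ⟨w₁, a1, a2, a4, fun β => a5 β zero_le⟩

theorem reroot' (hw : Node γ w) {p : Cond} (hp : V γ p) (h : L γ p w.r) :
    ∃ w₁, Node γ w₁ ∧ NLe γ w₁ w ∧ L γ w₁.r p := by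
  obtain ⟨w₁, a1, a2, a3, -⟩ := reroot hw (hp.amR hw.v.rv) ⟨amR_L.trans h, amR_RL h.rle⟩
  exact ⟨w₁, a1, a2, a3.1.trans amR_L⟩

theorem exists_triv {p : Cond} (hp : V γ p) : ∃ w, Node γ w ∧ w.r = p ∧ ∀ β a, ¬ w.F β a := by
  refine ⟨⟨p, {e | V γ e.2.1 ∧ e.2.1.f = p.f ∧ RL e.2.1 p ∧ p.ht ≤ e.1 ∧ e.1 < e.2.1.ht ∧
    e.2.1.E e.1 = ∅ ∧ p.T ⊆ e.2.2}, fun _ _ => False⟩,
    ⟨hp, fun ρ₁ hv hl Φ hΦ => ?_, ?_, fun _ _ _ h => h.elim⟩, rfl, fun _ _ h => h⟩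
  · obtain ⟨N, η, ρ, g1, ⟨g2, g3, g4, g5⟩, g6, g7, -⟩ := exists_GM
      (hΦ.ext.and ((AE.const p).and (ae_ht.and ae_T))) hv (countable_empty (α := Ob))
    obtain ⟨c, c1, c2, c3, -, -, c6, -⟩ := exists_step g1.rv (fun _ => 0) (Lad.empty _ _)
      (fun _ _ => canon ∅) fun β _ => canon_empty_mem β
    have d1 : RV (setf c p.f) := c1.setf
    have d2 : RL (setf c p.f) ρ := c2.setf_left
    have d3 : RL (setf c p.f) p := (d2.trans g6).trans hl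
    subst g7
    exact ⟨N, _, setf c p.f, g1.ext d1 d2, g2 _ d1 d2, d2.trans g6,
      V_of_eq hp d1 hp.fin (d3 γ) fun _ _ _ => Iff.rfl, rfl, d3, (g4 p g3).le, c3, c6,
      g5 p g3 hp.rv⟩
  · rintro x q B ⟨h1, h2, h3, h4, h5, h6, h7⟩
    change q.f = p.f at h2
    have hp' : ∀ β < γ, ∀ a, (β, a) ∈ q.f → a.pos < x := fun β hβ a ha =>
      ((hp.loc hβ).pos a (h2 ▸ ha)).trans_le h4
    exact ⟨h1, ⟨L_of_eq (h3 γ) fun _ _ _ => by rw [h2], h3⟩, h4, h5, h6, h7,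
      fun β hβ _ => ⟨fun a ha _ => h2 ▸ ha, fun d m hd hxd => absurd (hp' β hβ _ hd) hxd.not_gt⟩,
      fun β hβ _ a => ⟨fun h => lt_irrefl x (hp' β hβ _ h), False.elim⟩⟩

theorem restr_node (hw : Node γ w) {j m : ℕ} (h : Large w.r (restr w j m).A) :
    Node γ (restr w j m) ∧ NLe γ (restr w j m) w := by
  refine ⟨⟨hw.v, h, fun x q B hq => ?_, hw.on⟩, Le.refl, fun _ q _ hq => ⟨q, hq.1, Le.refl⟩⟩
  have e := hw.el x q B hq.1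
  exact ⟨e.v, e.le, e.ht, e.lt, e.emp, e.T, e.tail, e.val⟩

theorem exists_spl (hw : Node 0 w) : ∃ w' j, Node 0 w' ∧ NLe 0 w' w ∧ Spl w' j := by
  obtain ⟨ρ₁, j, h1, h2, h3⟩ := hw.large.split hw.v.rv fun e he => (hw.el e.1 e.2.1 e.2.2 he).lt
  have h4 : RV (setf ρ₁ ∅) := h1.setf
  obtain ⟨a1, a2⟩ := node_sub0 hw (V_zero.2 ⟨h4, finite_empty⟩) h2.setf_left
  refine ⟨_, j, a1, a2, fun k => ?_⟩
  obtain ⟨m, hm, h5⟩ := h3 k
  exact ⟨m, hm, (h5.sub h4 RL.refl.setf_left).mono RL.refl fun e he => ⟨⟨he.1.1, he.2⟩, he.1.2⟩⟩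

theorem DO.inter {O O' : Set Nod} (h : DO γ O) (h' : DO γ O') : DO γ (O ∩ O') := by
  refine ⟨fun w hw => ?_, fun w hw w' a1 a2 a3 =>
    ⟨h.2 w hw.1 w' a1 a2 a3, h'.2 w hw.2 w' a1 a2 a3⟩⟩
  obtain ⟨w', a1, a2, a3⟩ := h.1 w hw
  obtain ⟨w'', b1, b2, b3⟩ := h'.1 w' a2
  exact ⟨w'', ⟨h.2 w' a1 w'' a2 b2 b3, b1⟩, b2, b3.trans a3⟩

theorem DO.univ : DO γ univ := by
  exact ⟨fun w hw => ⟨w, trivial, hw, NLe.refl⟩, fun _ _ _ _ _ _ => trivial⟩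

/-- `O` together with the nodes that have no extension with property `G`. -/
def Plus (γ : K) (O : Set Nod) (G : Nod → Prop) : Set Nod :=
  O ∪ {v | ∀ v', Node γ v' → NLe γ v' v → ¬ G v'}

theorem do_plus {O : Set Nod} {G : Nod → Prop}
    (h₁ : ∀ v, Node γ v → G v → ∃ v' ∈ O, Node γ v' ∧ NLe γ v' v)
    (h₂ : ∀ v ∈ O, ∀ v', Node γ v → Node γ v' → NLe γ v' v → v' ∈ O) : DO γ (Plus γ O G) := by
  refine ⟨fun w hw => ?_, fun w hw w' a1 a2 a3 => hw.imp (fun h => h₂ w h w' a1 a2 a3)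
    fun h v' b1 b2 => h v' b1 (b2.trans a3)⟩
  by_cases h : ∃ v, Node γ v ∧ NLe γ v w ∧ G v
  · obtain ⟨v, a1, a2, a3⟩ := h
    obtain ⟨v', b1, b2, b3⟩ := h₁ v a1 a3
    exact ⟨v', Or.inl b1, b2, b3.trans a2⟩
  · exact ⟨w, Or.inr fun v a1 a2 a3 => h ⟨v, a1, a2, a3⟩, hw, NLe.refl⟩

end Pool.Agent.MP_2e2931_gt.Gap
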