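import Pool.Agent.MP_2e2931_gt.FR
import Pool.Agent.MP_2e2931_gt.FAM
import Pool.Agent.MP_2e2931_gt.FAdd

namespace Pool.Agent.MP_2e2931_gt.Gap

open Set Ordinal

instance : Preorder PP where
  le q p := ∀ α, L α q.1 p.1
  le_refl _ _ := L.refl
  le_trans _ _ _ h h' α := (h α).trans (h' α)

theorem PP.le_def {q p : PP} : q ≤ p ↔ ∀ α, L α q.1 p.1 := Iff.rfl

theorem locV_of_empty {β : K} {c : Cond} (h : ∀ a, (β, a) ∉ c.f) : LocV β c :=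
  ⟨fun a ha => (h a ha).elim, fun a ha => (h a ha).elim, fun ha => (h _ ha).elim,
    fun ha => (h _ ha).elim, fun _ _ _ ha => (h _ ha).elim, fun _ _ _ _ _ ha => (h _ ha).elim,
    fun _ _ _ ha => (h _ ha).elim⟩

theorem exists_pp_top : ∃ t : PP, ∀ p : PP, p ≤ t := by
  obtain ⟨c, h₁, h₂, h₃, h₄⟩ := exists_top_cond
  have he : ∀ y, y ∉ c.f := fun y hy => by
    rw [h₃] at hy
    exact hy
  have hT : ∀ y, y ∉ c.T := fun y hy => by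
    rw [h₂] at hy
    exact hy
  have hx : ∀ x, ¬ x < c.ht := fun x hx => by
    rw [h₁] at hx
    exact absurd hx (not_lt.2 (w0_le x))
  refine ⟨⟨c, fun α => V_iff.2 ⟨h₄, ?_, fun β _ => locV_of_empty fun a => he _⟩⟩,
    fun p α => L_iff.2 ⟨⟨not_lt.1 (hx _), fun x h => (hx x h).elim, fun x h => (hx x h).elim,
      fun β _ h => (hT β h).elim, fun β _ h => (hT β h).elim⟩,
      fun β _ => LocL.of_empty fun a => he _⟩⟩
  rw [h₃]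
  exact finite_empty

noncomputable instance : OrderTop PP where
  top := exists_pp_top.choose
  le_top := exists_pp_top.choose_spec

theorem V_all {γ : K} {c : Cond} (h : V γ c) (hf : ∀ y ∈ c.f, y.1 < γ) (α : K) : V α c := by
  refine V_iff.2 ⟨h.rv, h.fin, fun β _ => ?_⟩
  by_cases hβ : β < γ
  · exact h.loc hβ
  · exact locV_of_empty fun a ha => hβ (hf _ ha)

theorem PP.bound (p : PP) : ∃ α, p.1.T ⊆ Iio α := by
  have h := (p.2 0).rv.ct.to_subtype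
  obtain ⟨b, hb⟩ : BddAbove p.1.T := Ordinal.bddAbove_of_small
  exact ⟨Order.succ b, fun β hβ => Order.lt_succ_of_le (hb hβ)⟩

theorem PP.le_of {α : K} {q p : PP} (h : L α q.1 p.1) (hp : p.1.T ⊆ Iio α) : q ≤ p :=
  fun β => L_of_supp h (p.2 β) fun _ hγ _ => hp hγ

theorem PP.amalg {α : K} {r : Cond} (s : PP) (hr : V α r) (hrs : L α r s.1) :
    ∃ t : PP, t ≤ s ∧ L α t.1 r :=
  ⟨⟨mix α r s.1, fun γ =>
      (mix_spec (le_max_right γ α) hr (s.2 _) hrs).1.mono (le_max_left γ α)⟩,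
    fun γ => (mix_spec (le_max_right γ α) hr (s.2 _) hrs).2.1.1.mono (le_max_left γ α),
    (mix_spec le_rfl hr (s.2 α) hrs).2.2.1⟩

theorem PP.sub {q p : PP} (h : q ≤ p) : p.1.f ⊆ q.1.f :=
  fun y hy => (h (Order.succ y.1)).sub (a := y.2) (Order.lt_succ y.1) hy

/-- End extensions of the countable part with the same atoms. -/
theorem PP.of_RL (p : PP) {c : Cond} (hv : RV c) (hl : RL c p.1) (hf : c.f = p.1.f) :
    ∃ q ≤ p, q.1 = c := by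
  have he : ∀ y, y ∈ c.f ↔ y ∈ p.1.f := fun y => by rw [hf]
  have hfin : c.f.Finite := by
    rw [hf]
    exact (p.2 0).fin
  exact ⟨⟨c, fun α => V_of_eq (p.2 α) hv hfin (hl α) fun _ _ _ => he _⟩,
    fun α => L_of_eq (hl α) fun _ _ _ => he _, rfl⟩

theorem PP.ht_dense (p : PP) (y : W) : ∃ q ≤ p, y < q.1.ht := by
  obtain ⟨c, h₁, h₂, h₃, -, h₄⟩ := exists_ht (p.2 0).rv y
  obtain ⟨q, hq, rfl⟩ := p.of_RL h₁ h₂ h₄
  exact ⟨q, hq, h₃⟩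

theorem PP.on_dense (p : PP) {β : K} (h : Good β p.1) : ∃ q ≤ p, (β, Atom.on) ∈ q.1.f := by
  obtain ⟨q₁, hq₁, h₀⟩ := p.ht_dense w0
  obtain ⟨c, h₁, h₂, h₃, h₄⟩ := exists_addT (q₁.2 0).rv β
  obtain ⟨q₂, hq₂, rfl⟩ := q₁.of_RL h₁ h₂ h₄
  have hw : w0 < q₂.1.ht := h₀.trans_le (h₂ 0).ht
  have hg : Good β q₂.1 := h.mono ((hq₂.trans hq₁) β)
  let q₃ : PP := ⟨setf q₂.1 (insert (β, Atom.on) q₂.1.f), fun γ => (add_on (q₂.2 γ) hw h₃ hg).1⟩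
  have hq₃ : q₃ ≤ q₂ := fun γ => (add_on (q₂.2 γ) hw h₃ hg).2
  exact ⟨q₃, hq₃.trans (hq₂.trans hq₁), mem_insert _ _⟩

theorem PP.val_dense (p : PP) {β : K} (h : (β, Atom.on) ∈ p.1.f) (z : W) :
    ∃ q ≤ p, ∃ a, (β, Atom.val z a) ∈ q.1.f := by
  obtain ⟨q₁, hq₁, h₀⟩ := p.ht_dense z
  obtain ⟨α, hα⟩ := q₁.bound
  have hβ : β < α := hα ((q₁.2 (Order.succ β)).supp (Order.lt_succ β) (PP.sub hq₁ h))
  obtain ⟨f, h₁, h₂, -, h₃, h₄⟩ := exists_addv (q₁.2 α) hβ (PP.sub hq₁ h) (finite_singleton z)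
    (fun x hx => (mem_singleton_iff.1 hx) ▸ h₀) 0
  have hf : ∀ y ∈ (setf q₁.1 f).f, y.1 < α := by
    intro y hy
    rcases h₃ y hy with hy' | ⟨_, _, _, _, _, rfl⟩
    · exact hα ((q₁.2 (Order.succ y.1)).supp (a := y.2) (Order.lt_succ y.1) hy')
    · exact hβ
  let q₂ : PP := ⟨setf q₁.1 f, V_all h₁ hf⟩
  have hq₂ : q₂ ≤ q₁ := PP.le_of h₂ hα
  exact ⟨q₂, hq₂.trans hq₁, h₄ z rfl⟩

theorem PP.bd_dense (p : PP) {β : K} (h : (β, Atom.on) ∈ p.1.f) (d : W) (m : ℕ) :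
    ∃ q ≤ p, (β, Atom.bd d m) ∈ q.1.f := by
  obtain ⟨q₁, hq₁, h₀⟩ := p.ht_dense d
  have ho := PP.sub hq₁ h
  let q₂ : PP :=
    ⟨setf q₁.1 (insert (β, Atom.bd d m) q₁.1.f), fun γ => (add_bd (q₁.2 γ) ho h₀ m).1⟩
  have hq₂ : q₂ ≤ q₁ := fun γ => (add_bd (q₁.2 γ) ho h₀ m).2
  exact ⟨q₂, hq₂.trans hq₁, mem_insert _ _⟩

theorem exists_long_closure (F : K → K) (α₀ : K) : ∃ α : K, α₀ ≤ α ∧
    ∀ c : Set K, c.Countable → c ⊆ Iio α → ∃ β, α₀ ≤ β ∧ β ≤ α ∧ F β ≤ α ∧ c ⊆ Iio β := by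
  let G : K → K := fun β => max (F (max β α₀)) (max β α₀)
  let a : K → K := (wellFounded_lt (α := K)).fix fun ξ ih => ⨆ η : Iio ξ, G (ih η.1 η.2)
  have ha : ∀ ξ, a ξ = ⨆ η : Iio ξ, G (a η.1) := fun ξ => by
    conv_lhs => simp only [a]; rw [WellFounded.fix_eq]
  have hle : ∀ η ξ, η < ξ → G (a η) ≤ a ξ := fun η ξ h => by
    rw [ha ξ]
    exact le_ciSup (f := fun η : Iio ξ => G (a η.1)) Ordinal.bddAbove_of_small ⟨η, h⟩
  have hG : ∀ β, max β α₀ ≤ G β := fun β => le_max_right _ _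
  refine ⟨a ω₁, ((le_max_right _ _).trans (hG _)).trans (hle 0 _ (omega_pos 1)), fun c hc hcα => ?_⟩
  have : ∀ β ∈ c, ∃ η : W, β < G (a η.1) := by
    intro β hβ
    have h : β < a ω₁ := hcα hβ
    rw [ha] at h
    have : Nonempty (Iio (ω₁ : K)) := ⟨w0⟩
    exact (lt_ciSup_iff Ordinal.bddAbove_of_small).1 h
  have _ : Nonempty W := ⟨w0⟩
  choose! f hf using this
  obtain ⟨b, hb⟩ := W.exists_gt (hc.image f)
  refine ⟨max (a b.1) α₀, le_max_right _ _, (hG _).trans (hle _ _ b.2),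
    (le_max_left _ _).trans (hle _ _ b.2), fun β hβ => ?_⟩
  exact lt_max_of_lt_left ((hf β hβ).trans_le (hle _ _ (hb _ ⟨β, hβ, rfl⟩)))

/-- Set many dense sets are captured at some level. -/
theorem capture {ι : Type 1} [Small.{0} ι] (p₀ : PP) (D : ι → PP → Prop)
    (hD : ∀ i q, q ≤ p₀ → ∃ r ≤ q, D i r) :
    ∃ α, p₀.1.T ⊆ Iio α ∧ ∀ i q, V α q → L α q p₀.1 →
      ∃ r : PP, D i r ∧ r.1.T ⊆ Iio α ∧ L α r.1 q := by
  have key : ∀ β, ∃ b, ∀ i, ∀ s : PP, s.1 ∈ S β → s ≤ p₀ →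
      ∃ r ≤ s, D i r ∧ r.1.T ⊆ Iio b := by
    intro β
    have := small_S β
    have h : ∀ x : ι × S β, ∃ b, ∀ s : PP, s.1 = x.2.1 → s ≤ p₀ →
        ∃ r ≤ s, D x.1 r ∧ r.1.T ⊆ Iio b := by
      rintro ⟨i, s, hs⟩
      by_cases h : ∃ s' : PP, s'.1 = s ∧ s' ≤ p₀
      · obtain ⟨s', rfl, h⟩ := h
        obtain ⟨r, hr, hd⟩ := hD i s' h
        obtain ⟨b, hb⟩ := r.bound
        exact ⟨b, fun t ht _ => ⟨r, (Subtype.ext ht : t = s') ▸ hr, hd, hb⟩⟩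
      · exact ⟨0, fun t ht h' => absurd ⟨t, ht, h'⟩ h⟩
    choose f hf using h
    obtain ⟨b, hb⟩ : BddAbove (range f) := Ordinal.bddAbove_of_small
    refine ⟨b, fun i s hs hsp => ?_⟩
    obtain ⟨r, h₁, h₂, h₃⟩ := hf (i, ⟨s.1, hs⟩) s rfl hsp
    exact ⟨r, h₁, h₂, h₃.trans (Iio_subset_Iio (hb ⟨_, rfl⟩))⟩
  choose F hF using key
  obtain ⟨α₀, h₀⟩ := p₀.bound
  obtain ⟨α, hα, H⟩ := exists_long_closure F α₀
  refine ⟨α, h₀.trans (Iio_subset_Iio hα), fun i q hq hqp => ?_⟩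
  obtain ⟨β, h₁, h₂, h₃, h₄⟩ :=
    H (q.T ∩ Iio α) (hq.rv.ct.mono inter_subset_left) inter_subset_right
  let s' : PP := ⟨cut β q, (hq.mono h₂).cut⟩
  obtain ⟨r, h₅, h₆, h₇⟩ := hF β i s' (cut_mem_S hq.rv)
    (PP.le_of (cut_L.trans (hqp.mono h₂)) (h₀.trans (Iio_subset_Iio h₁)))
  exact ⟨r, h₆, h₇.trans (Iio_subset_Iio h₃),
    (h₅ α).trans (L_of_supp cut_L hq fun γ hγ hlt => h₄ ⟨hγ, hlt⟩)⟩

end Pool.Agent.MP_2e2931_gt.Gap
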