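import Pool.Agent.MP_2e2931_gt.FPosL

namespace Pool.Agent.MP_2e2931_gt.Gap

open Set Ordinal

section

variable {C : Ch} {β μ μ' : K} {w : Nod} {U A B : Cond → W → Prop} {p : Cond} {i : ℕ}

lemma fpart_le (h : C.FPhi β μ i w U p) (hμ : μ' ≤ μ) : C.FPhi β μ' i w U p := fun O hO hD =>
  (h O hO hD).imp fun _ _ _ ⟨w', h1, h2, h3, h4, h5⟩ => ⟨w', h1, h2, h3, h4, h5.le hμ⟩

lemma fpart_pt (hu : Mem (C.N i) (univ : Set Nod)) (h : C.FPhi β μ i w U p) (hp : V β p) {y : W}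
    (hy : y < C.δ) : ∃ s, V β s ∧ L β s p ∧ ∃ x ∈ C.Ed, y < x ∧ C.In β w x s ∧ U s x := by
  obtain ⟨s, hs, hl, w', -, -, -, hn, hf⟩ := (h univ hu DO.univ).ex hp
  obtain ⟨s', hs', hl', x, hx, h1, h2, h3⟩ := ((Ch.FPos_iff.1 hf).1 y hy).ex hs
  exact ⟨s', hs', hl'.trans hl, x, hx, h1, h2.nle hn, h3⟩

/-- The binary partition property of `FPos` of rank `μ`. -/
def fpartB (C : Ch) (β μ : K) (U A B : Cond → W → Prop) : Prop :=
  ∀ w p, (∀ x ∈ C.Ed, ∀ r, V β r → L β r p → U r x → Dns β r fun s => A s x ∨ B s x) →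
    C.FPos β μ w U p → Dns β p fun s => C.FPos β μ w (fun r x => U r x ∧ A r x) s ∨
      C.FPos β μ w (fun r x => U r x ∧ B r x) s

lemma fpart_phi (hI : ∀ O O' : Set Nod, Mem (C.N i) O → Mem (C.N i) O' → Mem (C.N i) (O ∩ O'))
    (ih : fpartB C β μ U A B)
    (H : ∀ x ∈ C.Ed, ∀ r, V β r → L β r p → U r x → Dns β r fun s => A s x ∨ B s x)
    (h : C.FPhi β μ i w U p) : Dns β p fun s => C.FPhi β μ i w (fun r x => U r x ∧ A r x) s ∨
      C.FPhi β μ i w (fun r x => U r x ∧ B r x) s := by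
  by_contra hc
  obtain ⟨p1, v1, l1, n1⟩ := not_dns.1 hc
  have a1 := fun e => n1 p1 v1 L.refl (Or.inl e)
  simp only [Ch.FPhi, not_forall, imp_false] at a1
  obtain ⟨OA, mA, dA, a1⟩ := a1
  obtain ⟨p2, v2, l2, n2⟩ := not_dns.1 a1
  have a2 := fun e => n1 p2 v2 l2 (Or.inr e)
  simp only [Ch.FPhi, not_forall, imp_false] at a2
  obtain ⟨OB, mB, dB, a2⟩ := a2
  obtain ⟨p3, v3, l3, n3⟩ := not_dns.1 a2
  have l3' := (l3.trans l2).trans l1
  obtain ⟨s, vs, ls, w', o, m, nd, nl, f⟩ := h _ (hI _ _ mA mB) (dA.inter dB) p3 v3 l3'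
  obtain ⟨s', vs', ls', e | e⟩ := (ih w' s
    (fun x hx r vr lr => H x hx r vr ((lr.trans ls).trans l3')) f).ex vs
  · exact n2 s' vs' ((ls'.trans ls).trans l3) ⟨w', o.1, m, nd, nl, e⟩
  · exact n3 s' vs' (ls'.trans ls) ⟨w', o.2, m, nd, nl, e⟩

/-- No extension has a point above `y`. -/
def fpartP (C : Ch) (β : K) (w : Nod) (U : Cond → W → Prop) (p : Cond) (y : W) : Prop :=
  ∀ s, V β s → L β s p → ¬ ∃ x ∈ C.Ed, y < x ∧ C.In β w x s ∧ U s x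

/-- No extension has `FPhi` with a large index. -/
def fpartK (C : Ch) (β : K) (w : Nod) (U : Cond → W → Prop) (p : Cond) (μ : K) (i : ℕ) : Prop :=
  ∀ s, V β s → L β s p → ¬ ∃ j, i ≤ j ∧ C.FPhi β μ j w U s

lemma fpart_neg (h : ¬ C.FPos β μ w U p) : ∃ q, V β q ∧ L β q p ∧
    ((∃ y < C.δ, fpartP C β w U q y) ∨
      ∃ μ', C.MemU μ' ∧ μ' + ω ^ β * 2 ≤ μ ∧ ∃ i, fpartK C β w U q μ' i) := by
  rw [Ch.FPos_iff, not_and_or] at h
  simp only [not_forall] at h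
  rcases h with ⟨y, hy, h⟩ | ⟨μ', h1, h2, i, h⟩
  · obtain ⟨q, v, l, n⟩ := not_dns.1 h
    exact ⟨q, v, l, Or.inl ⟨y, hy, n⟩⟩
  · obtain ⟨q, v, l, n⟩ := not_dns.1 h
    exact ⟨q, v, l, Or.inr ⟨μ', h1, h2, i, n⟩⟩

lemma fpartP.kill (hu : ∀ i, Mem (C.N i) (univ : Set Nod)) {y : W} (hy : y < C.δ)
    (h : fpartP C β w U p y) (μ : K) (i : ℕ) : fpartK C β w U p μ i := by
  rintro s vs ls ⟨j, -, f⟩
  obtain ⟨s', vs', ls', e⟩ := fpart_pt (hu j) f vs hy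
  exact h s' vs' (ls'.trans ls) e

lemma fpartK.up (h : fpartK C β w U p μ i) (hμ : μ ≤ μ') {j : ℕ} (hj : i ≤ j) :
    fpartK C β w U p μ' j :=
  fun s vs ls ⟨k, hk, f⟩ => h s vs ls ⟨k, hj.trans hk, fpart_le f hμ⟩

lemma fpart_pos (hu : ∀ i, Mem (C.N i) (univ : Set Nod))
    (hI : ∀ i (O O' : Set Nod), Mem (C.N i) O → Mem (C.N i) O' → Mem (C.N i) (O ∩ O'))
    (hU : UM β U) (μ : K) : fpartB C β μ U A B := by
  induction μ using WellFoundedLT.induction with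
  | ind μ ih =>
  intro w p H h
  by_contra hc
  obtain ⟨p1, v1, l1, n1⟩ := not_dns.1 hc
  obtain ⟨p2, v2, l2, n2⟩ := fpart_neg fun e => n1 p1 v1 L.refl (Or.inl e)
  obtain ⟨p3, v3, l3, n3⟩ := fpart_neg fun e => n1 p2 v2 l2 (Or.inr e)
  have l3' := (l3.trans l2).trans l1
  have key : ∀ ν, C.MemU ν → ν + ω ^ β * 2 ≤ μ → ∀ i,
      fpartK C β w (fun r x => U r x ∧ A r x) p2 ν i →
      fpartK C β w (fun r x => U r x ∧ B r x) p3 ν i → False := fun ν m le i kA kB => by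
    obtain ⟨s, vs, ls, j, hj, f⟩ := (Ch.FPos_iff.1 h).2 ν m le i p3 v3 l3'
    obtain ⟨s', vs', ls', e | e⟩ := (fpart_phi (hI j) (ih ν (Ch.lt_of_add le))
      (fun x hx r vr lr => H x hx r vr ((lr.trans ls).trans l3')) f).ex vs
    · exact kA s' vs' ((ls'.trans ls).trans l3) ⟨j, hj, e⟩
    · exact kB s' vs' (ls'.trans ls) ⟨j, hj, e⟩
  rcases n2 with ⟨yA, hA, nA⟩ | ⟨μA, mA, eA, iA, nA⟩ <;>
    rcases n3 with ⟨yB, hB, nB⟩ | ⟨μB, mB, eB, iB, nB⟩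
  · obtain ⟨s, vs, ls, x, hx, lt, hin, u⟩ := (Ch.FPos_iff.1 h).1 _ (max_lt hA hB) p3 v3 l3'
    obtain ⟨s', vs', ls', e | e⟩ := (H x hx s vs (ls.trans l3') u).ex vs
    · exact nA s' vs' ((ls'.trans ls).trans l3)
        ⟨x, hx, (le_max_left _ _).trans_lt lt, hin.mono ls', hU _ _ _ u vs' ls', e⟩
    · exact nB s' vs' (ls'.trans ls)
        ⟨x, hx, (le_max_right _ _).trans_lt lt, hin.mono ls', hU _ _ _ u vs' ls', e⟩
  · exact key μB mB eB iB (nA.kill hu hA _ _) nB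
  · exact key μA mA eA iA nA (nB.kill hu hB _ _)
  · rcases le_total μA μB with le | le
    · exact key μB mB eB _ (nA.up le (le_max_left iA iB)) (nB.up le_rfl (le_max_right iA iB))
    · exact key μA mA eA _ (nA.up le_rfl (le_max_left iA iB)) (nB.up le (le_max_right iA iB))

lemma fpart_prom (hu : ∀ i, Mem (C.N i) (univ : Set Nod))
    (hI : ∀ i (O O' : Set Nod), Mem (C.N i) O → Mem (C.N i) O' → Mem (C.N i) (O ∩ O'))
    (hU : UM β U) {e : Nod × K × ℕ}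
    (H : ∀ x ∈ C.Ed, ∀ r, V β r → L β r p → U r x → Dns β r fun s => A s x ∨ B s x)
    (h : C.Prom β e U p) : Dns β p fun s => C.Prom β e (fun r x => U r x ∧ A r x) s ∨
      C.Prom β e (fun r x => U r x ∧ B r x) s := by
  obtain ⟨w, μ, _ | i⟩ := e
  · exact fpart_pos hu hI hU μ w p H h
  · exact fpart_phi (hI i) (fpart_pos hu hI hU μ) H h

lemma fpart_ne (hu : ∀ i, Mem (C.N i) (univ : Set Nod)) {e : Nod × K × ℕ} (hp : V β p)
    (h : C.Prom β e U p) : ∃ s, V β s ∧ L β s p ∧ ∃ x ∈ C.Ed, U s x := by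
  obtain ⟨w, μ, _ | i⟩ := e
  · obtain ⟨s, vs, ls, x, hx, -, -, u⟩ := ((Ch.FPos_iff.1 h).1 _ (C.lt 0)).ex hp
    exact ⟨s, vs, ls, x, hx, u⟩
  · obtain ⟨s, vs, ls, x, hx, -, -, u⟩ := fpart_pt (hu i) h hp (C.lt 0)
    exact ⟨s, vs, ls, x, hx, u⟩

end

/-- Partition property of promises. -/
theorem aec_part : AEC fun C => ∀ (β : K) (e : Nod × K × ℕ) (U : Cond → W → Prop) (p : Cond)
    (u : Set (ℕ × ℕ)) (A : ℕ × ℕ → Cond → W → Prop), u.Finite → UM β U → (∀ y, UM β (A y)) →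
    V β p → C.Prom β e U p →
    (∀ x ∈ C.Ed, ∀ r, V β r → L β r p → U r x → Dns β r fun s => ∃ y ∈ u, A y s x) →
    ∃ p', ∃ y ∈ u, V β p' ∧ L β p' p ∧ C.Prom β e (fun r x => U r x ∧ A y r x) p' := by
  refine (AEC.of_AE ((AE.const (univ : Set Nod)).and
    (AE.fn fun z : Set Nod × Set Nod => z.1 ∩ z.2))).mono fun C hC β e U p u A fin hU hA => ?_
  have hu : ∀ i, Mem (C.N i) (univ : Set Nod) := fun i => (hC i).1
  have hI : ∀ i (O O' : Set Nod), Mem (C.N i) O → Mem (C.N i) O' → Mem (C.N i) (O ∩ O') :=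
    fun i O O' h h' => (hC i).2 (O, O') ⟨h, h'⟩
  induction u, fin using Set.Finite.induction_on generalizing U p with
  | empty =>
    intro hp h H
    obtain ⟨s, vs, ls, x, hx, u⟩ := fpart_ne hu hp h
    obtain ⟨_, -, -, _, h, -⟩ := (H x hx s vs ls u).ex vs
    exact h.elim
  | @insert y u _ _ ih =>
    intro hp h H
    have hB : UM β fun r x => ∃ z ∈ u, A z r x :=
      fun r r' x ⟨z, hz, a⟩ v l => ⟨z, hz, hA z _ _ _ a v l⟩
    obtain ⟨s, vs, ls, f | f⟩ := (fpart_prom (A := A y) (B := fun r x => ∃ z ∈ u, A z r x) hu hI hU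
      (fun x hx r vr lr a => (H x hx r vr lr a).imp fun s _ _ ⟨z, hz, b⟩ =>
        hz.elim (fun e => Or.inl (e ▸ b)) fun e => Or.inr ⟨z, e, b⟩) h).ex hp
    · exact ⟨s, y, mem_insert _ _, vs, ls, f⟩
    · obtain ⟨p', z, hz, v, l, g⟩ := ih _ s
        (fun r r' x a v l => ⟨hU _ _ _ a.1 v l, hB _ _ _ a.2 v l⟩) vs f
        fun x _ r _ _ a => Dns.of_all fun s' v l => hB _ _ _ a.2 v l
      exact ⟨p', z, mem_insert_of_mem _ hz, v, l.trans ls, g.imp fun x _ r _ _ a =>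
        Dns.of_all fun s' v l => ⟨hU _ _ _ a.1.1 v l, hA z _ _ _ a.2 v l⟩⟩

end Pool.Agent.MP_2e2931_gt.Gap
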