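import Pool.Agent.MP_2e2931_gt.FNode

namespace Pool.Agent.MP_2e2931_gt.Gap

open Set Ordinal

namespace Ch

variable {C : Ch} {β γ μ μ' : K} {w w' : Nod} {U U' : Cond → W → Prop} {p q : Cond} {x : W}
  {i : ℕ} {e : Nod × K × ℕ}

theorem FPos_iff : C.FPos β μ w U p ↔
    (∀ y < C.δ, Dns β p fun r => ∃ x ∈ C.Ed, y < x ∧ C.In β w x r ∧ U r x) ∧
      ∀ μ', C.MemU μ' → μ' + ω ^ β * 2 ≤ μ → ∀ i₀, Dns β p fun r => ∃ i, i₀ ≤ i ∧
        C.FPhi β μ' i w U r := by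
  unfold FPhi
  unfold FPos
  rw [WellFounded.fix_eq]

theorem In.mono (h : C.In β w x p) (hl : L β q p) : C.In β w x q := by
  obtain ⟨r, B, h1, h2, h3, h4, h5⟩ := h
  exact ⟨r, B, h1, h2, h3, h4, hl.trans h5⟩

theorem In.nle (h : C.In β w' x p) (hl : NLe β w' w) : C.In β w x p := by
  obtain ⟨r, B, h1, h2, h3, h4, h5⟩ := h
  obtain ⟨r', k1, k2⟩ := hl.2 x r B h1
  exact ⟨r', B, k1, h2.trans k2.2, fun z hz hx => (k2.2 0).ht.trans (h3 z hz hx), h4,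
    h5.trans k2.1⟩

theorem FPos.mono (h : C.FPos β μ w U p) (hl : L β q p) : C.FPos β μ w U q := by
  rw [FPos_iff] at h ⊢
  exact ⟨fun y hy => (h.1 y hy).mono hl, fun ν h1 h2 i₀ => (h.2 ν h1 h2 i₀).mono hl⟩

theorem FPos.reg (h : Dns β p fun r => C.FPos β μ w U r) : C.FPos β μ w U p := by
  rw [FPos_iff]
  exact ⟨fun y hy => (h.imp fun _ _ _ k => (FPos_iff.1 k).1 y hy).join,
    fun ν h1 h2 i₀ => (h.imp fun _ _ _ k => (FPos_iff.1 k).2 ν h1 h2 i₀).join⟩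

theorem FPos.le (h : C.FPos β μ w U p) (hμ : μ' ≤ μ) : C.FPos β μ' w U p := by
  rw [FPos_iff] at h ⊢
  exact ⟨h.1, fun ν h1 h2 => h.2 ν h1 (h2.trans hμ)⟩

theorem FPos.nle (h : C.FPos β μ w' U p) (hl : NLe β w' w) : C.FPos β μ w U p := by
  rw [FPos_iff] at h ⊢
  refine ⟨fun y hy => (h.1 y hy).imp ?_, fun ν h1 h2 i₀ => (h.2 ν h1 h2 i₀).imp ?_⟩
  · rintro r _ _ ⟨x, k1, k2, k3, k4⟩
    exact ⟨x, k1, k2, k3.nle hl, k4⟩
  · rintro r _ _ ⟨i, k1, k2⟩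
    refine ⟨i, k1, fun O m1 m2 => (k2 O m1 m2).imp ?_⟩
    rintro s _ _ ⟨v, n1, n2, n3, n4, n5⟩
    exact ⟨v, n1, n2, n3, n4.trans hl, n5⟩

theorem FPos.imp (h : C.FPos β μ w U p) (H : ∀ x ∈ C.Ed, ∀ r, V β r → L β r p → C.In β w x r →
    U r x → Dns β r fun s => U' s x) : C.FPos β μ w U' p := by
  induction μ using (wellFounded_lt (α := K)).induction generalizing w p with
  | _ μ ih =>
    rw [FPos_iff] at h ⊢
    refine ⟨fun y hy => ((h.1 y hy).imp ?_).join, fun ν h1 h2 i₀ => (h.2 ν h1 h2 i₀).imp ?_⟩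
    · rintro r vr lr ⟨x, k1, k2, k3, k4⟩
      exact (H x k1 r vr lr k3 k4).imp fun s _ ls k5 => ⟨x, k1, k2, k3.mono ls, k5⟩
    · rintro r _ lr ⟨i, k1, k2⟩
      refine ⟨i, k1, fun O m1 m2 => (k2 O m1 m2).imp ?_⟩
      rintro s _ ls ⟨v, n1, n2, n3, n4, n5⟩
      exact ⟨v, n1, n2, n3, n4, ih ν (lt_of_add h2) n5 fun x hx t vt lt k3 k4 =>
        H x hx t vt (lt.trans (ls.trans lr)) (k3.nle n4) k4⟩

theorem FPhi.mono (h : C.FPhi β μ i w U p) (hl : L β q p) : C.FPhi β μ i w U q :=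
  fun O m1 m2 => (h O m1 m2).mono hl

theorem FPhi.reg (h : Dns β p fun r => C.FPhi β μ i w U r) : C.FPhi β μ i w U p :=
  fun O m1 m2 => (h.imp fun _ _ _ k => k O m1 m2).join

theorem FPhi.imp (h : C.FPhi β μ i w U p) (H : ∀ x ∈ C.Ed, ∀ r, V β r → L β r p →
    C.In β w x r → U r x → Dns β r fun s => U' s x) : C.FPhi β μ i w U' p := by
  refine fun O m1 m2 => (h O m1 m2).imp ?_
  rintro s _ ls ⟨v, n1, n2, n3, n4, n5⟩
  exact ⟨v, n1, n2, n3, n4, n5.imp fun x hx t vt lt k3 k4 =>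
    H x hx t vt (lt.trans ls) (k3.nle n4) k4⟩

theorem Prom.mono (h : C.Prom β e U p) (hl : L β q p) : C.Prom β e U q := by
  obtain ⟨v, ν, _ | n⟩ := e
  · exact FPos.mono h hl
  · exact FPhi.mono h hl

theorem Prom.reg (h : Dns β p fun r => C.Prom β e U r) : C.Prom β e U p := by
  obtain ⟨v, ν, _ | n⟩ := e
  · exact FPos.reg h
  · exact FPhi.reg h

theorem Prom.imp (h : C.Prom β e U p) (H : ∀ x ∈ C.Ed, ∀ r, V β r → L β r p →
    U r x → Dns β r fun s => U' s x) : C.Prom β e U' p := by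
  obtain ⟨v, ν, _ | n⟩ := e
  · exact FPos.imp h fun x hx r vr lr _ => H x hx r vr lr
  · exact FPhi.imp h fun x hx r vr lr _ => H x hx r vr lr

/-- A positive node has an active root, and `p` is compatible with the root. -/
theorem FPos.act (h : C.FPos β μ w U p) (hp : V β p) (hw : Node β w) :
    RL C.ρ w.r ∧ ∃ p', V β p' ∧ L β p' p ∧ L β p' w.r := by
  obtain ⟨s, vs, ls, x, -, -, ⟨r, B, h1, h2, -, -, h5⟩, -⟩ :=
    ((FPos_iff.1 h).1 (C.η 0) (C.lt 0)).ex hp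
  have k := (hw.el x r B h1).le
  exact ⟨h2.trans k.2, s, vs, ls, h5.trans k.1⟩

theorem memU_prod {α α' : Type*} [Cod α] [Cod α'] {a : α} {a' : α'} :
    C.MemU (a, a') ↔ C.MemU a ∧ C.MemU a' := by
  constructor
  · rintro ⟨i, h⟩
    exact ⟨⟨i, (mem_prod.1 h).1⟩, i, (mem_prod.1 h).2⟩
  · rintro ⟨⟨i, h⟩, j, h'⟩
    exact ⟨max i j, mem_prod.2 ⟨C.mem_mono h (le_max_left _ _), C.mem_mono h' (le_max_right _ _)⟩⟩

theorem pr_spec (h : C.MemU e) : ∃ l, C.pr l = e := by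
  have h1 : {e : Nod × K × ℕ | C.MemU e}.Countable := by
    have : {e : Nod × K × ℕ | C.MemU e} = ⋃ i, {e | Mem (C.N i) e} := by
      ext e
      simp only [mem_ofPred_eq, mem_iUnion, MemU]
    rw [this]
    exact countable_iUnion fun i => countable_mem (C.gm i).ct
  obtain ⟨f, hf⟩ := h1.exists_eq_range ⟨e, h⟩
  exact Classical.epsilon_spec (p := fun f : ℕ → Nod × K × ℕ => ∀ e, C.MemU e → ∃ l, f l = e)
    ⟨f, fun e' he' => (hf ▸ he' : e' ∈ range f)⟩ e h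

theorem zeta_mem (β : K) (l : ℕ) : C.zeta β l ∈ NS β := ⟨_, fun _ hy => hy.1, rfl⟩

theorem dec_zeta {l : ℕ} {t : Nn} {D : Set (Nn × ℕ)} :
    Dec β (C.zeta β l) p (.cd t D) ↔ C.Prom β (C.pr l) (Uc β C.δ t D) p := by
  rw [Dec_def, zeta, ent_canon (small_of_S (α := β) fun _ hy => hy.1)]
  constructor
  · intro h
    refine Prom.reg (h.imp ?_)
    rintro r _ _ ⟨c, ⟨-, -, t', D', h1, h2⟩, h3⟩
    cases h1
    exact h2.mono h3
  · intro h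
    exact Dns.of_all fun s vs ls => ⟨cut β s,
      ⟨cut_mem_S vs.rv, vs.cut β, t, D, rfl, (h.mono ls).mono cut_L⟩, L_cut⟩

theorem Bel.mono (h : C.Bel γ p) (hl : Rle γ q p) : C.Bel γ q :=
  ⟨hl.trans h.le, h.lt.trans_le hl.ht, (hl.E _ h.lt).trans h.E, fun β hβ hT l =>
    (hl.Z β hβ (h.le.T β hβ hT) _ h.lt l).trans (h.Z β hβ hT l)⟩

theorem Bel.level (h : C.Bel γ p) (hβ : β ≤ γ) : C.Bel β p :=
  ⟨h.le.mono hβ, h.lt, h.E, fun b hb => h.Z b (hb.trans_le hβ)⟩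

theorem exists_top (C : Ch) : ∃ τ, RV τ ∧ RL τ C.ρ ∧ ∀ γ, C.Bel γ τ := by
  obtain ⟨τ, h1, h2, h3, -, -, h4, -, h5⟩ := exists_step (C.gm 0).rv (fun _ => 0) (A := C.Ed)
    (C.ht ▸ C.lad) C.zeta zeta_mem
  rw [C.ht] at h3 h4 h5
  exact ⟨τ, h1, h2, fun γ => ⟨h2 γ, h3, h4, fun β _ _ l => h5 β l⟩⟩

theorem Bel.prom (h : C.Bel γ p) (hp : V γ p) (hβ : β < γ) (hT : β ∈ C.ρ.T) {t : Nn} {l : ℕ}
    (ha : (β, Atom.pm C.δ t l) ∈ p.f) :
    C.Prom β (C.pr l) (Uc β C.δ t (code p β C.δ t)) p := by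
  have k := hp.pm hβ ha
  rwa [h.Z β hβ hT l, dec_zeta] at k

theorem Jn.mono {b : K} (h : C.Jn b μ w p) (hs : ∀ a, (b, a) ∈ p.f → (b, a) ∈ q.f) (hμ : μ' ≤ μ) :
    C.Jn b μ' w q := by
  obtain ⟨a, t, m, l, ν, h1, h2, h3, h4, h5, h6⟩ := h
  exact ⟨a, t, m, l, ν, h1, h2, hs _ h3, hs _ h4, h5, hμ.trans h6⟩

theorem Ok.mono (h : C.Ok γ μ w p) (hl : L γ q p) : C.Ok γ μ w q := by
  obtain ⟨h1, b, hb, h2, h3, h4⟩ := h
  refine ⟨hl.trans h1, b, hb, h2, h3, h4.imp (fun k => ⟨k.1, k.2.mono (hl.mono hb)⟩) fun k =>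
    ⟨k.1, k.2.mono (fun _ => hl.sub k.1) le_rfl⟩⟩

end Ch

end Pool.Agent.MP_2e2931_gt.Gap
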