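import Pool.Agent.MP_2e2931_gt.FBasic

namespace Pool.Agent.MP_2e2931_gt.Gap

open Set Ordinal

theorem Lad.empty (σ : W → ℕ → ℕ) (d : W) : Lad σ d ∅ :=
  ⟨fun _ h => h.elim, fun _ _ => by simp, fun _ => ⟨0, by simp⟩⟩

theorem Lad.congr {σ σ' : W → ℕ → ℕ} {d : W} {A : Set W} (h : Lad σ d A)
    (he : ∀ x < d, σ' x = σ x) : Lad σ' d A := by
  refine ⟨h.lt, h.fin, fun s => ?_⟩
  obtain ⟨k, hk⟩ := h.wf s
  refine ⟨k, hk.subset fun x hx => ⟨hx.1, fun j hj => ?_⟩⟩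
  rw [← he x (h.lt x hx.1)]
  exact hx.2 j hj

/-- Limits of chains of countable parts. -/
theorem exists_lim (c : ℕ → Cond) (hv : ∀ n, RV (c n)) (hl : ∀ n, RL (c (n + 1)) (c n)) :
    ∃ l, RV l ∧ (∀ n, RL l (c n)) ∧ l.f = ∅ ∧ (∀ y < l.ht, ∃ n, y < (c n).ht) ∧
      ∀ β ∈ l.T, ∃ n, β ∈ (c n).T := by
  classical
  have hm : ∀ n m, n ≤ m → RL (c m) (c n) := fun n m h => by
    induction m, h using Nat.le_induction with
    | base => exact RL.refl
    | succ m _ ih => exact (hl m).trans ih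
  obtain ⟨b₀, hb₀⟩ := W.exists_gt (countable_range fun n => (c n).ht)
  obtain ⟨b, hb, hmin⟩ := (wellFounded_lt (α := W)).has_min {b | ∀ n, (c n).ht ≤ b}
    ⟨b₀, fun n => (hb₀ _ ⟨n, rfl⟩).le⟩
  have hcof : ∀ y < b, ∃ n, y < (c n).ht := fun y hy => by
    by_contra hc
    push Not at hc
    exact hmin y hc hy
  let l : Cond :=
    { ht := b
      σ := fun x => if h : ∃ n, x < (c n).ht then (c h.choose).σ x else fun _ => 0
      E := fun x => if h : ∃ n, x < (c n).ht then (c h.choose).E x else ∅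
      T := ⋃ n, (c n).T
      f := ∅
      Z := fun β d k => if h : ∃ n, β ∈ (c n).T ∧ d < (c n).ht then (c h.choose).Z β d k
        else canon ∅ }
  have hR : ∀ n, RL l (c n) := fun n α => by
    refine ⟨hb n, fun x hx => ?_, fun x hx => ?_, fun β _ h => mem_iUnion.2 ⟨n, h⟩,
      fun β hβ hT d hd k => ?_⟩
    · have h : ∃ n, x < (c n).ht := ⟨n, hx⟩
      refine (dif_pos h).trans ?_
      rcases le_total n h.choose with e | e
      · exact (hm _ _ e α).σ x hx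
      · exact ((hm _ _ e α).σ x h.choose_spec).symm
    · have h : ∃ n, x < (c n).ht := ⟨n, hx⟩
      refine (dif_pos h).trans ?_
      rcases le_total n h.choose with e | e
      · exact (hm _ _ e α).E x hx
      · exact ((hm _ _ e α).E x h.choose_spec).symm
    · have h : ∃ n, β ∈ (c n).T ∧ d < (c n).ht := ⟨n, hT, hd⟩
      refine (dif_pos h).trans ?_
      rcases le_total n h.choose with e | e
      · exact (hm _ _ e α).Z β hβ hT d hd k
      · exact ((hm _ _ e α).Z β hβ h.choose_spec.1 d h.choose_spec.2 k).symm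
  refine ⟨l, ⟨countable_iUnion fun n => (hv n).ct, fun x y hxy hy => ?_, fun d hd => ?_,
    fun β d k => ?_⟩, hR, rfl, hcof, fun β h => mem_iUnion.1 h⟩
  · obtain ⟨n, hn⟩ := hcof y hy
    rw [(hR n 0).σ x (hxy.trans hn), (hR n 0).σ y hn]
    exact (hv n).sc x y hxy hn
  · obtain ⟨n, hn⟩ := hcof d hd
    rw [(hR n 0).E d hn]
    exact ((hv n).lad d hn).congr fun x hx => (hR n 0).σ x (hx.trans hn)
  · change dite _ _ _ ∈ _
    split_ifs
    · exact (hv _).ns β d k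
    · exact canon_empty_mem β

theorem fr_dom (σ : W → ℕ → ℕ) (d : W) (g : ℕ → ℕ) :
    ∃ h : ℕ → ℕ, (∀ j, g j ≤ h j) ∧ ∀ x ≤ d, ∀ᶠ j in Filter.atTop, σ x j ≤ h j := by
  obtain ⟨e, he⟩ := (W.countable_Iic d).exists_eq_range ⟨d, mem_Iic.2 le_rfl⟩
  refine ⟨fun j => max (g j) ((Finset.range (j + 1)).sup fun i => σ (e i) j),
    fun j => le_max_left _ _, fun x hx => ?_⟩
  obtain ⟨i, rfl⟩ : x ∈ range e := he ▸ hx
  filter_upwards [Filter.eventually_ge_atTop i] with j hj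
  exact le_max_of_le_right (Finset.le_sup (f := fun i => σ (e i) j)
    (Finset.mem_range.2 (Nat.lt_succ_of_le hj)))

theorem fr_ext {c : Cond} (h : RV c) {b : W} (hb : c.ht < b) (g : ℕ → ℕ) {A : Set W}
    (hA : Lad c.σ c.ht A) (Zn : K → ℕ → Nm) (hZ : ∀ β l, Zn β l ∈ NS β) :
    ∃ c', RV c' ∧ RL c' c ∧ c'.ht = b ∧ c'.T = c.T ∧ c'.f = c.f ∧ c'.E c.ht = A ∧
      (∀ j, g j ≤ c'.σ c.ht j) ∧ ∀ β l, c'.Z β c.ht l = Zn β l := by
  classical
  obtain ⟨u, hu, hu'⟩ := fr_dom c.σ c.ht g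
  let c' : Cond :=
    { ht := b
      σ := fun x => if x < c.ht then c.σ x else u
      E := fun x => if x < c.ht then c.E x else if x = c.ht then A else ∅
      T := c.T
      f := c.f
      Z := fun β d k => if d = c.ht then Zn β k else c.Z β d k }
  have hσ : ∀ x < c.ht, c'.σ x = c.σ x := fun x hx => if_pos hx
  have hσ' : ∀ x, ¬ x < c.ht → c'.σ x = u := fun x hx => if_neg hx
  refine ⟨c', ⟨h.ct, fun x y hxy _ => ?_, fun d _ => ?_, fun β d k => ?_⟩,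
    fun α => ⟨hb.le, hσ, fun x hx => if_pos hx, fun _ _ hT => hT,
      fun β _ _ d hd k => if_neg hd.ne⟩, rfl, rfl, rfl,
    (if_neg (lt_irrefl _)).trans (if_pos rfl), fun j => ?_, fun β l => if_pos rfl⟩
  · by_cases hy : y < c.ht
    · rw [hσ x (hxy.trans hy), hσ y hy]
      exact h.sc x y hxy hy
    · rw [hσ' y hy]
      by_cases hx : x < c.ht
      · rw [hσ x hx]
        exact hu' x hx.le
      · rw [hσ' x hx]
        exact Filter.Eventually.of_forall fun _ => le_rfl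
  · change Lad _ _ (ite _ _ _)
    split_ifs with h1 h2
    · exact (h.lad d h1).congr fun x hx => hσ x (hx.trans h1)
    · subst h2
      exact hA.congr hσ
    · exact Lad.empty _ _
  · change ite _ _ _ ∈ _
    split_ifs
    · exact hZ β k
    · exact h.ns β d k
  · rw [hσ' _ (lt_irrefl _)]
    exact hu j

/-- One step extensions. -/
theorem exists_step {c : Cond} (h : RV c) (g : ℕ → ℕ) {A : Set W} (hA : Lad c.σ c.ht A)
    (Zn : K → ℕ → Nm) (hZ : ∀ β l, Zn β l ∈ NS β) :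
    ∃ c', RV c' ∧ RL c' c ∧ c.ht < c'.ht ∧ c'.T = c.T ∧ c'.f = c.f ∧ c'.E c.ht = A ∧
      (∀ j, g j ≤ c'.σ c.ht j) ∧ ∀ β l, c'.Z β c.ht l = Zn β l := by
  obtain ⟨b, hb⟩ := W.exists_gt (countable_singleton c.ht)
  obtain ⟨c', h1, h2, h3, h4⟩ := fr_ext h (hb _ rfl) g hA Zn hZ
  exact ⟨c', h1, h2, h3 ▸ hb _ rfl, h4⟩

theorem exists_ht {c : Cond} (h : RV c) (y : W) :
    ∃ c', RV c' ∧ RL c' c ∧ y < c'.ht ∧ c'.T = c.T ∧ c'.f = c.f := by
  obtain ⟨b, hb⟩ := W.exists_gt ((countable_singleton c.ht).insert y)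
  obtain ⟨c', h1, h2, h3, h4, h5, -⟩ := fr_ext h (hb _ (Or.inr rfl)) (fun _ => 0) (Lad.empty _ _)
    (fun _ _ => canon ∅) fun β _ => canon_empty_mem β
  exact ⟨c', h1, h2, h3 ▸ hb _ (Or.inl rfl), h4, h5⟩

theorem exists_addT {c : Cond} (h : RV c) (β : K) :
    ∃ c', RV c' ∧ RL c' c ∧ β ∈ c'.T ∧ c'.f = c.f :=
  ⟨{ c with T := insert β c.T }, ⟨h.ct.insert β, h.sc, h.lad, h.ns⟩,
    fun _ => ⟨le_rfl, fun _ _ => rfl, fun _ _ => rfl, fun _ _ hT => Or.inr hT,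
      fun _ _ _ _ _ _ => rfl⟩, Or.inl rfl, rfl⟩

theorem exists_top_cond : ∃ c : Cond, c.ht = w0 ∧ c.T = ∅ ∧ c.f = ∅ ∧ RV c :=
  ⟨⟨⟨w0, fun _ _ => 0, fun _ => ∅, ∅, ∅⟩, fun _ _ _ => canon ∅⟩, rfl, rfl, rfl, countable_empty,
    fun _ _ _ _ => Filter.Eventually.of_forall fun _ => le_rfl, fun _ _ => Lad.empty _ _,
    fun β _ _ => canon_empty_mem β⟩

end Pool.Agent.MP_2e2931_gt.Gap
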