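import Pool.Agent.MP_2e2931_gt.FChain

namespace Pool.Agent.MP_2e2931_gt.Gap

open Set Ordinal

namespace FTX

/-- The closure properties of one model that the lifting lemma uses. -/
structure Gd (N : Set Ob) (η : W) (ρ : Cond) : Prop where
  red : η < ρ.ht → ρ.E η = ∅ → ∀ γ : K, Mem N γ → ∀ G : Set Cond,
    Mem N G → (∀ c ∈ G, ∀ c', V γ c' → Le γ c' c → c' ∈ G) → ∀ r ∈ G, V γ r → RL r ρ →
      ∃ r₁, ∃ r₀ ∈ G, V γ r₁ ∧ Le γ r₁ r ∧ Mem N r₀ ∧ V γ r₀ ∧ RL ρ r₀ ∧ L γ r₁ r₀ ∧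
        ∀ β < γ, Mem N β → Tail β η r₁ r₀
  ht : ∀ c : Cond, Mem N c → c.ht < η
  T : ∀ c : Cond, Mem N c → RV c → c.T ⊆ KN N
  zero : w0 < η
  memT : KN N ⊆ ρ.T
  root : ∀ w : Nod, Mem N w → Mem N w.r
  add : ∀ z : K × K, Mem N z → Mem N (z.1 + ω ^ z.2 : K)
  cone : ∀ z : K × Nod, Mem N z → Mem N {c | Le z.1 c z.2.r}
  proj : ∀ z : K × K × Set Nod × Nod × Cond × ℕ, Mem N z →
    Mem N (Proj z.1 z.2.1 z.2.2.1 z.2.2.2.1 z.2.2.2.2.1 z.2.2.2.2.2)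
  wit : ∀ z : (K × K × Set Nod × Nod × Cond × ℕ) × Nod, Mem N z →
    (∃ w'', PrQ z.1.1 z.1.2.1 z.1.2.2.1 z.1.2.2.2.1 z.1.2.2.2.2.1 z.1.2.2.2.2.2 z.2 w'') →
    ∃ w'', Mem N w'' ∧
      PrQ z.1.1 z.1.2.1 z.1.2.2.1 z.1.2.2.2.1 z.1.2.2.2.2.1 z.1.2.2.2.2.2 z.2 w''

theorem ae_gd : AE Gd := by
  refine ((((ae_red.and ae_ht).and (ae_T.and ae_zero)).and (ae_memT.and
    (AE.fn fun w : Nod => w.r))).and (((AE.fn fun z : K × K => (z.1 + ω ^ z.2 : K)).and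
    (AE.fn fun z : K × Nod => {c | Le z.1 c z.2.r})).and
    ((AE.fn fun z : K × K × Set Nod × Nod × Cond × ℕ =>
      Proj z.1 z.2.1 z.2.2.1 z.2.2.2.1 z.2.2.2.2.1 z.2.2.2.2.2).and
    (AE.wit fun (z : (K × K × Set Nod × Nod × Cond × ℕ) × Nod) (w'' : Nod) =>
      PrQ z.1.1 z.1.2.1 z.1.2.2.1 z.1.2.2.2.1 z.1.2.2.2.2.1 z.1.2.2.2.2.2 z.2 w'')))).mono ?_
  rintro N η ρ - ⟨⟨⟨⟨h1, h2⟩, h3, h4⟩, h5, h6⟩, ⟨h7, h8⟩, h9, h10⟩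
  exact ⟨h1, h2, h3, h4, h5, h6, h7, h8, h9, h10⟩

theorem rank_le {μ μ' b γ : K} (hb : b < γ) (h : μ' + ω ^ γ * 2 ≤ μ) :
    μ' + ω ^ γ + ω ^ b * 2 ≤ μ := by
  refine le_trans ?_ h
  have h1 : ω ^ b * 2 ≤ ω ^ γ := by
    calc ω ^ b * 2 ≤ ω ^ b * ω := by
          gcongr
          exact (natCast_lt_omega0 2).le
      _ = ω ^ (Order.succ b) := (opow_succ _ _).symm
      _ ≤ ω ^ γ := opow_le_opow_right omega0_pos (Order.succ_le_of_lt hb)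
  rw [add_assoc, Ordinal.mul_two (ω ^ γ)]
  gcongr

variable {C : Ch} {γ b μ' : K} {w : Nod} {i : ℕ}

/-- A promise is added to an existing cluster. -/
theorem addp {r : Cond} (hr : V γ r) (hB : C.Bel γ r) (hb : b < γ) (hT : b ∈ C.ρ.T) {t : Nn}
    {m : ℕ} (hc : (b, Atom.cl C.δ t m) ∈ r.f) {e : Nod × K × ℕ} (he : C.MemU e)
    (hP : C.Prom b e (Uc b C.δ t (code r b C.δ t)) r) :
    ∃ l, C.pr l = e ∧ V γ (setf r (insert (b, Atom.pm C.δ t l) r.f)) ∧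
      L γ (setf r (insert (b, Atom.pm C.δ t l) r.f)) r := by
  obtain ⟨l, hl⟩ := Ch.pr_spec he
  refine ⟨l, hl, add_pm hr ((hr.loc hb).on _ hc) hB.lt ?_⟩
  rw [hB.Z b hb hT l, Ch.dec_zeta, hl]
  exact hP

/-- The amalgamation with the root of a node of the model. -/
theorem amalg (hG : Gd (C.N i) (C.η i) C.ρ) (hb : b ≤ γ) {p q r₁ r₀ : Cond} (hp : V b p)
    (hq : V γ q) (h₁ : V γ r₁) (h₀ : V γ r₀) (mq : Mem (C.N i) q) (lq : L b p q) (l₁ : L b p r₁)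
    (rq : RL r₁ q) (l₀ : L γ r₁ r₀) (lq₀ : L γ q r₀)
    (tl : ∀ β < γ, Mem (C.N i) β → Tail β (C.η i) r₁ r₀) :
    ∃ r, V γ r ∧ L γ r q ∧ L γ r r₁ ∧ L b r p ∧
      ∀ β, b ≤ β → β < γ → ∀ a : Atom, a.pos = C.δ → ((β, a) ∈ r.f ↔ (β, a) ∈ r₁.f) := by
  have hρ : RV (amR b p r₁) := hp.rv.amR h₁.rv
  have k₁ : RL (amR b p r₁) r₁ := amR_RL l₁.rle
  have kq := k₁.trans rq
  have lt := hG.ht q mq
  have pos : ∀ β < γ, ∀ a : Atom, (β, a) ∈ q.f → a.pos < C.η i := fun β hβ a ha =>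
    ((hq.loc hβ).pos a ha).trans lt
  obtain ⟨a1, a2, a3, a4⟩ := am_spec hb hρ hp hq h₁ lq l₁ amR_rle (kq γ) (k₁ γ) fun β _ hβ => by
    by_cases hN : Mem (C.N i) β
    · have hs := Order.succ_le_of_lt hβ
      refine Or.inr (Or.inr (Or.inr ⟨r₀, C.η i, lq₀.mono hs, h₀.mono hs,
        fun a ha => l₀.sub hβ ha, tl β hβ hN, fun a a' ha _ hx => ?_,
        fun d m z a hd _ hx hz => ?_⟩))
      · exact absurd (pos β hβ a ha) (not_lt.2 hx)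
      · have h1 : d < q.ht := (hq.loc hβ).pos _ hd
        have h2 := (hρ.lad d (h1.trans_le (kq γ).ht)).lt z hz
        exact absurd (h2.trans (h1.trans lt)) (not_lt.2 hx)
    · exact Or.inl fun a ha => hN (hG.T q mq hq.rv (hq.supp hβ ha))
  refine ⟨_, a1, a2, a3, a4, fun β h1 h2 a ha => ?_⟩
  rw [mem_am]
  constructor
  · rintro (⟨h, -⟩ | ⟨-, h | h⟩)
    · exact absurd h (not_lt.2 h1)
    · exact absurd (ha ▸ (pos β h2 a h).trans (C.lt i)) (lt_irrefl _)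
    · exact h
  · exact fun h => Or.inr ⟨h1, Or.inr h⟩

/-- The promise at level `b` is lifted to level `γ`. -/
theorem lift (hCL : C.CL) (hG : Gd (C.N i) (C.η i) C.ρ) (IH : ∀ μ ≤ μ' + ω ^ γ, C.TS μ)
    (mw : Mem (C.N i) w) (mγ : Mem (C.N i) γ) (mμ : Mem (C.N i) μ') (mb : Mem (C.N i) b)
    (hb : b < γ) (hw : Node γ w) {r₂ : Cond} (hB : C.Bel γ r₂) (hl : L γ r₂ w.r)
    (hact : RL C.ρ w.r) (hF : ∀ β, b < β → β < γ → ∀ a, ¬ w.F β a)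
    (H : ((∀ a, ¬ w.F b a) ∧ C.FPhi b (μ' + ω ^ γ) i w (fun _ _ => True) r₂) ∨
      ∃ a t m l, w.F b a ∧ m ≤ a ∧ (b, Atom.cl C.δ t m) ∈ r₂.f ∧ (b, Atom.pm C.δ t l) ∈ r₂.f ∧
        C.pr l = (w, μ' + ω ^ γ, i + 1)) :
    C.FPhi γ μ' i w (fun _ _ => True) r₂ := by
  intro O mO hO r₃ v₃ l₃
  have rv := (C.gm i).rv
  have hT : b ∈ C.ρ.T := hG.memT mb
  have mlam : Mem (C.N i) (μ' + ω ^ γ : K) := hG.add (μ', γ) ⟨mμ, mγ⟩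
  have kc : RL (amR γ r₃ C.ρ) C.ρ := amR_RL (hB.mono l₃.rle).le
  obtain ⟨r₁, r₀, g₀, v₁, l₁, m₀, v₀, k₀, l₁₀, tl⟩ := hG.red (C.ht ▸ C.lt i) (C.emp i) γ mγ
    {c | Le γ c w.r} (hG.cone (γ, w) ⟨mγ, mw⟩) (fun c hc c' _ h => Le.trans h hc)
    (amR γ r₃ C.ρ) ⟨(amR_L.trans l₃).trans hl, kc.trans hact⟩ (v₃.amR rv) kc
  have l₁₃ : L γ r₁ r₃ := l₁.1.trans amR_L
  have l₁₂ : L γ r₁ r₂ := l₁₃.trans l₃
  have k₁ : RL r₁ C.ρ := l₁.2.trans kc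
  have B₁ : C.Bel γ r₁ := hB.mono l₁₂.rle
  obtain ⟨M, hM⟩ := exists_bd_bound v₁.fin
  have mz : Mem (C.N i) (γ, b, O, w, r₀, M) := ⟨mγ, mb, mO, mw, m₀, trivial⟩
  have main : ∀ U, C.FPhi b (μ' + ω ^ γ) i w U r₁ → ∃ w'' ∈ O, Mem (C.N i) w'' ∧ Node γ w'' ∧
      NLe γ w'' w ∧ ∃ r, V γ r ∧ L γ r w''.r ∧ L γ r r₁ ∧ C.FPos b (μ' + ω ^ γ) w'' U r ∧
        (∀ β, b ≤ β → β < γ → ∀ a : Atom, a.pos = C.δ → ((β, a) ∈ r.f ↔ (β, a) ∈ r₁.f)) ∧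
        ∀ β, b ≤ β → β < γ → (∀ a, ¬ w.F β a) → C.Bd β w'' r := by
    intro U hU
    obtain ⟨p₂, vp₂, lp₂, v, hv, mv, nv, lv, pv⟩ := (hU _ (hG.proj _ mz)
      (do_proj hb.le hO hw v₀ g₀.1 M)).ex (v₁.mono hb.le)
    obtain ⟨av, p₃, vp₃, lp₃, lpv⟩ := pv.act vp₂ nv
    have l₃₁ : L b p₃ r₁ := lp₃.trans lp₂
    have kp : RL (amR b p₃ C.ρ) C.ρ := amR_RL (l₃₁.rle.trans (k₁ b))
    rcases hv with hv | hv
    swap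
    · obtain ⟨w₁, n₁, a₁, a₂, -⟩ := reroot nv (vp₃.amR rv) ⟨amR_L.trans lpv, kp.trans av⟩
      exact absurd ⟨a₁.trans lv, (a₂.1.trans amR_L).trans (l₃₁.trans (l₁₀.mono hb.le)),
        a₂.2.trans (kp.trans k₀)⟩ (hv w₁ n₁ a₁)
    obtain ⟨w'', mw'', o1, o2, o3, o4, o5, o6⟩ := hG.wit ((γ, b, O, w, r₀, M), v) ⟨mz, mv⟩ hv
    have mr := hG.root w'' mw''
    obtain ⟨r, vr, lr, lr₁, lrp, hδ⟩ := amalg hG hb.le vp₃ o2.v v₁ v₀ mr (lpv.trans o6.1.1) l₃₁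
      (k₁.trans (av.trans o6.1.2)) l₁₀ o4 tl
    refine ⟨w'', o1, mw'', o2, o3, r, vr, lr, lr₁, (pv.nle o6).mono (lrp.trans lp₃), hδ,
      fun β h1 h2 h3 a m ha hm => ?_⟩
    have hm₁ := (hδ β h1 h2 _ rfl).1 hm
    have mβ : Mem (C.N i) β := hG.T _ mr o2.v.rv (o2.v.supp h2 (o2.on β h2 a ha))
    exact (hM β _ m hm₁).trans
      (o5 β h1 h2 ((tl β h2 mβ).1 _ ((v₁.loc h2).on _ hm₁) hG.zero) h3 a ha)
  have fin : ∀ w'' ∈ O, Mem (C.N i) w'' → Node γ w'' → NLe γ w'' w → ∀ r, V γ r → L γ r w''.r →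
      L γ r r₁ → (C.Jn b (μ' + ω ^ γ) w'' r ∨
        (C.FPos b (μ' + ω ^ γ) w'' (fun _ _ => True) r ∧ C.Bd b w'' r)) →
      (∀ β, b < β → β < γ → C.Bd β w'' r) → ∃ s, V γ s ∧ L γ s r₃ ∧ ∃ w' ∈ O,
        Mem (C.N i) w' ∧ Node γ w' ∧ NLe γ w' w ∧ C.FPos γ μ' w' (fun _ _ => True) s := by
    intro w'' o1 mw'' o2 o3 r vr lr lr₁ h1 h2
    obtain ⟨s, vs, ls, ok⟩ := hCL (μ' + ω ^ γ) γ b μ' w'' r IH ⟨i, mw''⟩ ⟨i, mb⟩ ⟨i, mμ⟩ o2 vr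
      (B₁.mono lr₁.rle) lr hb h1 h2 le_rfl
    exact ⟨s, vs, ls.trans (lr₁.trans l₁₃), w'', o1, mw'', o2, o3, IH μ' le_self_add γ w'' s
      ⟨i, mγ⟩ ⟨i, mw''⟩ o2 vs (B₁.mono (ls.trans lr₁).rle) ok⟩
  rcases H with ⟨h1, h2⟩ | ⟨a, t, m, l, h1, h2, h3, h4, h5⟩
  · obtain ⟨w'', o1, mw'', o2, o3, r, vr, lr, lr₁, pr, -, bd⟩ := main _ (h2.mono (l₁₂.mono hb.le))
    exact fin w'' o1 mw'' o2 o3 r vr lr lr₁ (Or.inr ⟨pr, bd b le_rfl hb h1⟩)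
      fun β a1 a2 => bd β a1.le a2 (hF β a1 a2)
  · have hP := B₁.prom v₁ hb hT (l₁₂.sub hb h4)
    rw [h5] at hP
    obtain ⟨w'', o1, mw'', o2, o3, r, vr, lr, lr₁, pr, hδ, bd⟩ := main _ hP
    rw [← code_congr (hδ b le_rfl hb)] at pr
    have hc := (lr₁.trans l₁₂).sub hb h3
    obtain ⟨l', e1, e2, e3⟩ := addp vr (B₁.mono lr₁.rle) hb hT hc (e := (w'', μ' + ω ^ γ, 0))
      ⟨i, mw'', mlam, trivial⟩ pr
    refine fin w'' o1 mw'' o2 o3 _ e2 (e3.trans lr) (e3.trans lr₁) (Or.inl ⟨a, t, m, l', _,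
      o2.F_mono hw o3 hb h1, h2, Or.inr hc, Or.inl rfl, e1, le_rfl⟩) fun β a1 a2 a' m' ha hm => ?_
    rcases hm with hm | hm
    · cases hm
    · exact bd β a1.le a2 (hF β a1 a2) a' m' ha hm

theorem ts (hCL : C.CL) (hG : ∀ i, Gd (C.N i) (C.η i) C.ρ) (μ : K) : C.TS μ := by
  induction μ using WellFoundedLT.induction with
  | ind μ IH =>
  intro γ w r mγ mw hw vr hB ok
  obtain ⟨lw, b, hbγ, mb, hF, hc⟩ := id ok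
  rcases hbγ.eq_or_lt with rfl | hb
  · rcases hc with hc | hc
    · exact hc.2
    · exact absurd hc.1 (lt_irrefl _)
  refine Ch.FPos_iff.2 ⟨fun y hy r' v' l' => ?_, fun μ' mμ hμ i₀ r' v' l' => ?_⟩
  · obtain ⟨s, vs, ls, x, hx, h1, h2⟩ := Ch.ok_A (fun i => (hG i).memT) hw v' (hB.mono l'.rle)
      (ok.mono l') hy
    exact ⟨s, vs, ls, x, hx, h1, h2, trivial⟩
  have hle := rank_le hb hμ
  have IH' : ∀ ν ≤ μ' + ω ^ γ, C.TS ν := fun ν h => IH ν (h.trans_lt (Ch.lt_of_add hle))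
  obtain ⟨j, hj, mγ, mw, mb, mμ⟩ : ∃ j, i₀ ≤ j ∧ Mem (C.N j) γ ∧ Mem (C.N j) w ∧ Mem (C.N j) b ∧
      Mem (C.N j) μ' := by
    obtain ⟨j₁, h₁⟩ := mγ
    obtain ⟨j₂, h₂⟩ := mw
    obtain ⟨j₃, h₃⟩ := mb
    obtain ⟨j₄, h₄⟩ := mμ
    exact ⟨i₀ + j₁ + j₂ + j₃ + j₄, by omega, C.mem_mono h₁ (by omega), C.mem_mono h₂ (by omega),
      C.mem_mono h₃ (by omega), C.mem_mono h₄ (by omega)⟩
  have mlam : Mem (C.N j) (μ' + ω ^ γ : K) := (hG j).add (μ', γ) ⟨mμ, mγ⟩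
  have hT : b ∈ C.ρ.T := (hG j).memT mb
  have B' := hB.mono l'.rle
  have step : ∀ μ₁ U, μ ≤ μ₁ → C.FPos b μ₁ w U r' → RL C.ρ w.r ∧ ∃ i, j ≤ i ∧ ∃ s, V γ s ∧
      L γ s r' ∧ C.FPhi b (μ' + ω ^ γ) i w U s ∧ ∀ a, (b, a) ∈ s.f ↔ (b, a) ∈ r'.f := by
    intro μ₁ U h1 h2
    obtain ⟨p, vp, lp, i, hi, h3⟩ := ((Ch.FPos_iff.1 h2).2 _ ⟨j, mlam⟩ (hle.trans h1) j).ex
      (v'.mono hb.le)
    obtain ⟨a1, a2, a3, -⟩ := mix_spec hb.le vp v' lp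
    exact ⟨(h2.act (v'.mono hb.le) (hw.mono hb.le)).1, i, hi, _, a1, a2.1, h3.mono a3,
      fun a => by simp [mem_mix]⟩
  rcases hc with ⟨h1, h2⟩ | ⟨-, a, t, m, l, μ₁, h1, h2, h3, h4, h5, h6⟩
  · obtain ⟨act, i, hi, s, vs, ls, h3, -⟩ := step μ _ le_rfl (h2.mono (l'.mono hb.le))
    exact ⟨s, vs, ls, i, hj.trans hi, lift hCL (hG i) IH' (C.mem_mono mw hi) (C.mem_mono mγ hi)
      (C.mem_mono mμ hi) (C.mem_mono mb hi) hb hw (B'.mono ls.rle) (ls.trans (l'.trans lw)) act hF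
      (Or.inl ⟨h1.resolve_left hb.ne, h3⟩)⟩
  · have hP := B'.prom v' hb hT (l'.sub hb h4)
    rw [h5] at hP
    obtain ⟨act, i, hi, s, vs, ls, h7, h8⟩ := step μ₁ _ h6 hP
    rw [← code_congr fun a _ => h8 a] at h7
    have hc := (ls.trans l').sub hb h3
    obtain ⟨l₁, e1, e2, e3⟩ := addp vs (B'.mono ls.rle) hb hT hc (e := (w, μ' + ω ^ γ, i + 1))
      ⟨j, mw, mlam, trivial⟩ h7
    have e4 := e3.trans ls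
    exact ⟨_, e2, e4, i, hj.trans hi, lift hCL (hG i) IH' (C.mem_mono mw hi) (C.mem_mono mγ hi)
      (C.mem_mono mμ hi) (C.mem_mono mb hi) hb hw (B'.mono e4.rle) (e4.trans (l'.trans lw)) act hF
      (Or.inr ⟨a, t, m, l₁, h1, h2, Or.inr hc, Or.inl rfl, e1⟩)⟩

end FTX

/-- The lifting lemma. -/
theorem aec_ts : AEC fun C => ∀ μ, C.TS μ :=
  (aec_cl.and (AEC.of_AE FTX.ae_gd)).mono fun _ h => FTX.ts h.1 h.2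

end Pool.Agent.MP_2e2931_gt.Gap
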