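import Pool.Agent.MP_2e2931_gt.FPP
import Pool.Agent.MP_2e2931_gt.FT
import Pool.Agent.MP_2e2931_gt.FCh

namespace Pool.Agent.MP_2e2931_gt.Gap

open Set Ordinal

/-- The preservation theorem. -/
theorem two_dense (p₀ : PP) (R : W → ℕ → ℕ → PP → Prop)
    (hm : ∀ x k v r r', R x k v r → r' ≤ r → R x k v r')
    (hR : ∀ x k, ∀ q ≤ p₀, ∃ r ≤ q, ∃ v, R x k v r) :
    ∃ p₁ ≤ p₀, ∃ d, w0 < d ∧ d < p₁.1.ht ∧ ∀ k, ∀ q ≤ p₁, ∃ r ≤ q, ∃ v, ∀ y < d, ∀ s ≤ r,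
      ∃ s' ≤ s, ∃ x ∈ p₁.1.E d, y < x ∧ R x k v s' := by
  obtain ⟨γ, hT, hc⟩ := capture (ι := W × ℕ) p₀ (fun i r => ∃ v, R i.1 i.2 v r)
    fun i q hq => hR _ _ q hq
  obtain ⟨w₀, hw₀, hr₀, hF₀⟩ := exists_triv (p₀.2 γ)
  obtain ⟨O, hO⟩ : ∃ O : ℕ → Set Nod, ∀ k, O k = Plus γ {v | ∃ n, ∀ x q B, (x, q, B) ∈ v.A →
      ∃ r : PP, R x k n r ∧ r.1.T ⊆ Iio γ ∧ L γ q r.1} fun v => L γ v.r p₀.1 :=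
    ⟨_, fun _ => rfl⟩
  have dO : ∀ k, DO γ (O k) := fun k => by
    rw [hO]
    refine do_plus (fun v hv hl => ?_) fun v ⟨n, hn⟩ v' _ _ h => ⟨n, fun x q' B hx => ?_⟩
    · obtain ⟨w', n, h₁, h₂, h₃⟩ := shrink hv
        (fun x q n => ∃ r : PP, R x k n r ∧ r.1.T ⊆ Iio γ ∧ L γ q r.1)
        (fun x q q' n ⟨r, a, b, c⟩ _ l => ⟨r, a, b, l.trans c⟩) fun x q B hx => by
          obtain ⟨r, ⟨n, a⟩, b, c⟩ := hc (x, k) q (hv.el x q B hx).v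
            ((hv.el x q B hx).le.1.trans hl)
          exact ⟨r.1, n, r.2 γ, c, r, a, b, L.refl⟩
      exact ⟨w', ⟨n, h₃⟩, h₁, h₂⟩
    · obtain ⟨q, a, b⟩ := h.2 x q' B hx
      obtain ⟨r, c, d, e⟩ := hn x q B a
      exact ⟨r, c, d, b.1.trans e⟩
  obtain ⟨C, ⟨hTS, hN⟩, hpos⟩ := exists_ch (aec_ts.and (AEC.of_AE ((AE.const w₀).and
    ((AE.const γ).and ((AE.const (0 : K)).and ((AE.all fun k => AE.const (O k)).and ae_zero))))))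
    (hw₀.mono bot_le) (ω ^ γ * 2)
  have hρ : RL C.ρ p₀.1 := hr₀ ▸ (hpos.act
    (V_zero.2 ⟨(C.gm 0).rv, by rw [C.f]; exact finite_empty⟩) (hw₀.mono bot_le)).1
  obtain ⟨τ, hτ, hτρ, hB⟩ := C.exists_top
  have r₁ : Rle γ (setf τ p₀.1.f) p₀.1 := ((hτρ.trans hρ) γ).setf_left
  have v₁ : V γ (setf τ p₀.1.f) :=
    V_of_eq (p₀.2 γ) hτ.setf (p₀.2 γ).fin r₁ fun _ _ _ => Iff.rfl
  have l₁ : L γ (cut γ (setf τ p₀.1.f)) p₀.1 := cut_L.trans (L_of_eq r₁ fun _ _ _ => Iff.rfl)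
  have b₁ : C.Bel γ (cut γ (setf τ p₀.1.f)) :=
    (hB γ).mono (cut_L.rle.trans Rle.refl.setf_left)
  have hF := hTS (ω ^ γ * 2) γ w₀ _ ⟨0, (hN 0).2.1⟩ ⟨0, (hN 0).1⟩ hw₀ (v₁.cut γ) b₁
    ⟨hr₀ ▸ l₁, 0, bot_le, ⟨0, (hN 0).2.2.1⟩, fun β _ _ => hF₀ β,
      Or.inl ⟨Or.inr (hF₀ 0), hpos.mono (L_zero.2 (b₁.le.mono bot_le))⟩⟩
  refine ⟨⟨_, v₁.cut⟩, PP.le_of l₁ hT, C.δ, (hN 0).2.2.2.2.trans (C.lt 0), b₁.lt,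
    fun k q hq => ?_⟩
  obtain ⟨s₀, a₁, a₂, i, -, a₃⟩ := (Ch.FPos_iff.1 hF).2 0 ⟨0, (hN 0).2.2.1⟩
    (zero_add _).le 0 q.1 (q.2 γ) (hq γ)
  obtain ⟨s, c₁, c₂, w', c₃, -, c₄, c₅, c₆⟩ := (a₃ (O k) ((hN i).2.2.2.1 k) (dO k)).ex a₁
  rw [hO] at c₃
  obtain ⟨n, hn⟩ := c₃.resolve_right fun h => h w' c₄ NLe.refl (hr₀ ▸ c₅.1.1)
  obtain ⟨r, d₁, d₂⟩ := PP.amalg q c₁ (c₂.trans a₂)
  refine ⟨r, d₁, n, fun y hy s₁ hs₁ => ?_⟩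
  obtain ⟨s₂, e₁, e₂, x, e₃, e₄, ⟨q', B, e₅, -, -, -, e₆⟩, -⟩ :=
    (Ch.FPos_iff.1 c₆).1 y hy s₁.1 (s₁.2 γ) ((hs₁ γ).trans d₂)
  obtain ⟨r', f₁, f₂, f₃⟩ := hn x q' B e₅
  obtain ⟨s', g₁, g₂⟩ := PP.amalg s₁ e₁ e₂
  exact ⟨s', g₁, x, b₁.E ▸ e₃, e₄, hm _ _ _ r' s' f₁ (PP.le_of (g₂.trans (e₆.trans f₃)) f₂)⟩

end Pool.Agent.MP_2e2931_gt.Gap
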