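import Pool.Agent.MP_2e2931_gt.GDefs

namespace Pool.Agent.MP_2e2931_gt.Gap

open Pool.Agent.MP_c6cf52_lc Pool.Agent.MP_c6cf52_lc.Name Pool.Agent.MP_c6cf52_lc.Gen Set

variable {g : Gen PP}

theorem gb_triW (a b : W) : a < b ∨ a = b ∨ b < a := lt_trichotomy a b

theorem gb_triK (a b : K) : a < b ∨ a = b ∨ b < a := lt_trichotomy a b

theorem gb_ct_Iio (x : W) : {y | y < x}.Countable := (W.countable_Iic x).mono Iio_subset_Iic_self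

theorem E_o {a : W} (h : o a ∈ g.N) {x : g.M} :
    g.E x (g.v (o a)) ↔ ∃ y, y < a ∧ o y ∈ g.N ∧ g.v (o y) = x := E_ordN wfW h

theorem E_w1 (h : w1N ∈ g.N) {x : g.M} :
    g.E x (g.v w1N) ↔ ∃ y, o y ∈ g.N ∧ g.v (o y) = x := by
  unfold w1N at h ⊢
  rw [E_setN wfW h]
  simp only [mem_univ, true_and]
  rfl

theorem o_lt {a b : W} (ha : o a ∈ g.N) (hb : o b ∈ g.N) :
    g.E (g.v (o a)) (g.v (o b)) ↔ a < b := ord_lt_iff wfW gb_triW ha hb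

theorem o_inj {a b : W} (ha : o a ∈ g.N) (hb : o b ∈ g.N) (h : g.v (o a) = g.v (o b)) :
    a = b := ord_inj wfW gb_triW ha hb h

theorem o_mem {a b : W} (hb : o b ∈ g.N) (hab : a < b) : o a ∈ g.N :=
  ordN_mem wfW hb (gb_ct_Iio b) hab

theorem o_w1 (h : w1N ∈ g.N) {a : W} (ha : o a ∈ g.N) : g.E (g.v (o a)) (g.v w1N) :=
  (E_w1 h).2 ⟨a, ha, rfl⟩

theorem kN_inj {a b : K} (ha : kN a ∈ g.N) (hb : kN b ∈ g.N) (h : g.v (kN a) = g.v (kN b)) :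
    a = b := ord_inj wfK gb_triK ha hb h

theorem nN_mem (k : ℕ) : nN k ∈ g.N := nat_mem _

theorem omN_mem : omN ∈ g.N := g.omega_mem

theorem v_nN (k : ℕ) : g.v (nN k) = g.nat k := rfl

theorem v_omN : g.v omN = g.om := rfl

theorem ndN_mem (t : Nn) : ndN t ∈ g.N :=
  pairN_mem_iff.2 ⟨nN_mem _, pairN_mem_iff.2 ⟨nN_mem _, nN_mem _⟩⟩

theorem v_ndN (t : Nn) : g.v (ndN t) = Cd.ι t := by
  unfold ndN
  rw [v_pairN (nN_mem _) (pairN_mem_iff.2 ⟨nN_mem _, nN_mem _⟩), v_pairN (nN_mem _) (nN_mem _)]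
  rfl

theorem exists_rep (h : w1N ∈ g.N) (x : TT g) : ∃ a, Rep g a x := by
  obtain ⟨a, ha, e⟩ := (E_w1 h).1 x.2
  exact ⟨a, ha, e⟩

theorem exists_elt (h : w1N ∈ g.N) {a : W} (ha : o a ∈ g.N) : ∃ x, Rep g a x :=
  ⟨⟨_, o_w1 h ha⟩, ha, rfl⟩

theorem Rep.inj {a a' : W} {x x' : TT g} (h : Rep g a x) (h' : Rep g a' x') :
    x = x' ↔ a = a' := by
  constructor
  · rintro rfl
    exact o_inj h.1 h'.1 (h.2.trans h'.2.symm)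
  · rintro rfl
    exact Subtype.ext (h.2.symm.trans h'.2)

theorem app_EN (h : EN ∈ g.N) {s t : g.M} : App g.E (g.v EN) s t ↔
    ∃ d x p, p ∈ g.G ∧ d < p.1.ht ∧ x ∈ p.1.E d ∧ o d ∈ g.N ∧ o x ∈ g.N ∧
      s = g.v (o d) ∧ t = g.v (o x) := by
  unfold EN at h ⊢
  rw [app_relN h]
  exact ⟨fun ⟨⟨⟨d, x, p⟩, h₀⟩, h₁, h₂⟩ => ⟨d, x, p, h₁, h₀.1, h₀.2, h₂⟩,
    fun ⟨d, x, p, h₁, h₀, h₀', h₂⟩ => ⟨⟨⟨d, x, p⟩, h₀, h₀'⟩, h₁, h₂⟩⟩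

theorem E_onN (h : onN ∈ g.N) {s : g.M} : g.E s (g.v onN) ↔
    ∃ β p, p ∈ g.G ∧ (β, Atom.on) ∈ p.1.f ∧ kN β ∈ g.N ∧ s = g.v (kN β) := by
  rw [E_v h]
  exact ⟨fun ⟨⟨⟨β, p⟩, h₀⟩, h₁, h₂, h₃⟩ => ⟨β, p, h₁, h₀, h₂, h₃.symm⟩,
    fun ⟨β, p, h₁, h₀, h₂, h₃⟩ => ⟨⟨⟨β, p⟩, h₀⟩, h₁, h₂, h₃.symm⟩⟩

theorem app_valN (h : valN ∈ g.N) {β : K} {z : W} (hβ : kN β ∈ g.N) (hz : o z ∈ g.N) {t : g.M} :
    App g.E (g.v valN) (pr (g.v (kN β)) (g.v (o z))) t ↔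
      ∃ a p, p ∈ g.G ∧ (β, Atom.val z a) ∈ p.1.f ∧ t = g.nat a := by
  unfold valN at h ⊢
  rw [app_relN h]
  constructor
  · rintro ⟨⟨⟨β', y, a, p⟩, h₀⟩, h₁, h₂, -, e, rfl⟩
    obtain ⟨h₃, h₄⟩ := pairN_mem_iff.1 h₂
    rw [v_pairN h₃ h₄, pr_inj] at e
    obtain rfl : β = β' := kN_inj hβ h₃ e.1
    obtain rfl : z = y := o_inj hz h₄ e.2
    exact ⟨a, p, h₁, h₀, rfl⟩
  · rintro ⟨a, p, h₁, h₀, rfl⟩
    exact ⟨⟨⟨β, z, a, p⟩, h₀⟩, h₁, pairN_mem_iff.2 ⟨hβ, hz⟩, nN_mem _, (v_pairN hβ hz).symm, rfl⟩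

theorem app_bdN (h : bdN ∈ g.N) {β : K} {d : W} (hβ : kN β ∈ g.N) (hd : o d ∈ g.N) {t : g.M} :
    App g.E (g.v bdN) (pr (g.v (kN β)) (g.v (o d))) t ↔
      ∃ m p, p ∈ g.G ∧ (β, Atom.bd d m) ∈ p.1.f ∧ t = g.nat m := by
  unfold bdN at h ⊢
  rw [app_relN h]
  constructor
  · rintro ⟨⟨⟨β', y, a, p⟩, h₀⟩, h₁, h₂, -, e, rfl⟩
    obtain ⟨h₃, h₄⟩ := pairN_mem_iff.1 h₂
    rw [v_pairN h₃ h₄, pr_inj] at e
    obtain rfl : β = β' := kN_inj hβ h₃ e.1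
    obtain rfl : d = y := o_inj hd h₄ e.2
    exact ⟨a, p, h₁, h₀, rfl⟩
  · rintro ⟨a, p, h₁, h₀, rfl⟩
    exact ⟨⟨⟨β, d, a, p⟩, h₀⟩, h₁, pairN_mem_iff.2 ⟨hβ, hd⟩, nN_mem _, (v_pairN hβ hd).symm, rfl⟩

theorem app_piN (h : piN ∈ g.N) {β : K} (hβ : kN β ∈ g.N) {s t : g.M} :
    App g.E (g.v piN) (pr (g.v (kN β)) s) t ↔
      ∃ x j c p, p ∈ g.G ∧ Dec β (bk β) p.1 (.pi x j c) ∧ o x ∈ g.N ∧
        s = pr (g.v (o x)) (g.nat j) ∧ t = g.nat c := by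
  unfold piN at h ⊢
  rw [app_relN h]
  constructor
  · rintro ⟨⟨⟨β', x, j, c, p⟩, h₀⟩, h₁, h₂, -, e, rfl⟩
    obtain ⟨h₃, h₄⟩ := pairN_mem_iff.1 h₂
    obtain ⟨h₅, h₆⟩ := pairN_mem_iff.1 h₄
    rw [v_pairN h₃ h₄, v_pairN h₅ h₆, pr_inj] at e
    obtain rfl : β = β' := kN_inj hβ h₃ e.1
    exact ⟨x, j, c, p, h₁, h₀, h₅, e.2, rfl⟩
  · rintro ⟨x, j, c, p, h₁, h₀, hx, rfl, rfl⟩
    have h₂ := pairN_mem_iff.2 ⟨hx, nN_mem (g := g) j⟩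
    refine ⟨⟨⟨β, x, j, c, p⟩, h₀⟩, h₁, pairN_mem_iff.2 ⟨hβ, h₂⟩, nN_mem _, ?_, rfl⟩
    rw [v_pairN hβ h₂, v_pairN hx (nN_mem _)]
    rfl

theorem app_ceN (h : ceN ∈ g.N) {β : K} (hβ : kN β ∈ g.N) {s t : g.M} :
    App g.E (g.v ceN) (pr (g.v (kN β)) s) t ↔
      ∃ d k x u p, p ∈ g.G ∧ Dec β (bk β) p.1 (.ce d k x u) ∧ o d ∈ g.N ∧ o x ∈ g.N ∧
        s = pr (g.v (o d)) (pr (g.nat k) (g.v (o x))) ∧ t = Cd.ι u := by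
  unfold ceN at h ⊢
  rw [app_relN h]
  constructor
  · rintro ⟨⟨⟨β', d, k, x, u, p⟩, h₀⟩, h₁, h₂, -, e, rfl⟩
    obtain ⟨h₃, h₄⟩ := pairN_mem_iff.1 h₂
    obtain ⟨h₅, h₆⟩ := pairN_mem_iff.1 h₄
    obtain ⟨h₇, h₈⟩ := pairN_mem_iff.1 h₆
    rw [v_pairN h₃ h₄, v_pairN h₅ h₆, v_pairN h₇ h₈, pr_inj] at e
    obtain rfl : β = β' := kN_inj hβ h₃ e.1
    exact ⟨d, k, x, u, p, h₁, h₀, h₅, h₈, e.2, v_ndN u⟩
  · rintro ⟨d, k, x, u, p, h₁, h₀, hd, hx, rfl, rfl⟩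
    have h₃ := pairN_mem_iff.2 ⟨nN_mem (g := g) k, hx⟩
    have h₂ := pairN_mem_iff.2 ⟨hd, h₃⟩
    refine ⟨⟨⟨β, d, k, x, u, p⟩, h₀⟩, h₁, pairN_mem_iff.2 ⟨hβ, h₂⟩, ndN_mem _, ?_,
      (v_ndN u).symm⟩
    rw [v_pairN hβ h₂, v_pairN hd h₃, v_pairN (nN_mem _) hx]
    rfl

theorem gb_app_sgN (h : sgN ∈ g.N) {x : W} (hx : o x ∈ g.N) {j : ℕ} {t : g.M} :
    App g.E (g.v sgN) (pr (g.v (o x)) (g.nat j)) t ↔
      ∃ p ∈ g.G, x < p.1.ht ∧ t = g.nat (p.1.σ x j) := by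
  unfold sgN at h ⊢
  rw [app_relN h]
  constructor
  · rintro ⟨⟨⟨y, i, p⟩, h₀⟩, h₁, h₂, -, e, rfl⟩
    obtain ⟨h₃, h₄⟩ := pairN_mem_iff.1 h₂
    rw [v_pairN h₃ h₄, pr_inj] at e
    obtain rfl : x = y := o_inj hx h₃ e.1
    obtain rfl : j = i := nat_inj e.2
    exact ⟨p, h₁, h₀, rfl⟩
  · rintro ⟨p, h₁, h₀, rfl⟩
    exact ⟨⟨⟨x, j, p⟩, h₀⟩, h₁, pairN_mem_iff.2 ⟨hx, nN_mem _⟩, nN_mem _,
      (v_pairN hx (nN_mem _)).symm, rfl⟩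

theorem gb_base_w1 (h : baseN ⊆ g.N) : w1N ∈ g.N := h (by simp [baseN])

theorem gb_base_EN (h : baseN ⊆ g.N) : EN ∈ g.N := h (by simp [baseN])

theorem gb_base_sgN (h : baseN ⊆ g.N) : sgN ∈ g.N := h (by simp [baseN])

theorem gb_agree_G {p q : PP} (hp : p ∈ g.G) (hq : q ∈ g.G) {x : W} (h₁ : x < p.1.ht)
    (h₂ : x < q.1.ht) : p.1.E x = q.1.E x ∧ p.1.σ x = q.1.σ x := by
  obtain ⟨r, -, h₃, h₄⟩ := g.dir hp hq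
  exact ⟨((h₃ 0).rle.E x h₁).symm.trans ((h₄ 0).rle.E x h₂),
    ((h₃ 0).rle.σ x h₁).symm.trans ((h₄ 0).rle.σ x h₂)⟩

theorem exists_ht_mem (h : baseN ⊆ g.N) {a : W} (ha : o a ∈ g.N) : ∃ p ∈ g.G, a < p.1.ht := by
  have hp : pairN (o a) (nN 0) ∈ g.N := pairN_mem_iff.2 ⟨ha, nN_mem _⟩
  have : ∃ b, App g.E (g.v sgN) (g.v (pairN (o a) (nN 0))) b := by
    refine dens (Ψ := fun _ E w => ∃ b, App E (w 0) (w 1) b) (UDef.ex (UDef.app _ _ _))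
      (l2 (gb_base_sgN h) hp) fun p _ => ?_
    obtain ⟨q, hq, hlt⟩ := PP.ht_dense p a
    refine ⟨q, hq, ∅, countable_empty, fun g' hq' _ hl => ?_⟩
    have h₁ : sgN ∈ g'.N := hl _ (by simp)
    have h₂ : o a ∈ g'.N := (pairN_mem_iff.1 (hl (pairN (o a) (nN 0)) (by simp))).1
    refine ⟨g'.nat (q.1.σ a 0), ?_⟩
    change App g'.E (g'.v sgN) (g'.v (pairN (o a) (nN 0))) _
    rw [v_pairN h₂ (nN_mem _)]
    exact (gb_app_sgN h₁ h₂).2 ⟨q, hq', hlt, rfl⟩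
  obtain ⟨b, hb⟩ := this
  rw [v_pairN ha (nN_mem _)] at hb
  obtain ⟨p, hp, hlt, -⟩ := (gb_app_sgN (gb_base_sgN h) ha).1 hb
  exact ⟨p, hp, hlt⟩

theorem ebG_iff (h : baseN ⊆ g.N) {p : PP} (hp : p ∈ g.G) {d x : W} {d' x' : TT g}
    (hd : Rep g d d') (hx : Rep g x x') (hlt : d < p.1.ht) : EbG g d' x' ↔ x ∈ p.1.E d := by
  unfold EbG
  rw [app_EN (gb_base_EN h), ← hd.2, ← hx.2]
  constructor
  · rintro ⟨a, b, q, hq, h₁, h₂, h₃, h₄, e₁, e₂⟩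
    obtain rfl : d = a := o_inj hd.1 h₃ e₁
    obtain rfl : x = b := o_inj hx.1 h₄ e₂
    rwa [(gb_agree_G hp hq hlt h₁).1]
  · intro h₁
    exact ⟨d, x, p, hp, hlt, h₁, hd.1, hx.1, rfl, rfl⟩

theorem sgG_eq (h : baseN ⊆ g.N) {p : PP} (hp : p ∈ g.G) {x : W} {x' : TT g} (hx : Rep g x x')
    (hlt : x < p.1.ht) (j : ℕ) : sgG g x' j = p.1.σ x j := by
  refine ev_eq fun b => ?_
  change App g.E (g.v sgN) (pr x'.1 (g.nat j)) (g.nat b) ↔ _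
  rw [← hx.2, gb_app_sgN (gb_base_sgN h) hx.1]
  constructor
  · rintro ⟨q, hq, h₁, e⟩
    rw [nat_inj e, (gb_agree_G hp hq hlt h₁).2]
  · rintro rfl
    exact ⟨p, hp, hlt, rfl⟩

theorem tm_EbG : g.Tm fun z : TT g × TT g => EbG g z.1 z.2 := by
  unfold EbG
  fun_prop

theorem tm_sgG : g.Tm fun z : TT g × ℕ => sgG g z.1 z.2 := by
  unfold sgG
  fun_prop

theorem gb_finite_of_rep (h : w1N ∈ g.N) {S : Set (TT g)} {A : Set W} (hA : A.Finite)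
    (H : ∀ x ∈ S, ∀ a, Rep g a x → a ∈ A) : S.Finite := by
  choose r hr using exists_rep h
  exact (hA.preimage (f := r) fun x _ y _ e => ((hr x).inj (hr y)).2 e).subset
    fun x hx => H x hx _ (hr x)

theorem gb_ad_G_lt (h : baseN ⊆ g.N) {a a' : W} {d d' : TT g} (ha : Rep g a d) (ha' : Rep g a' d')
    (hlt : a < a') : {x | EbG g d x ∧ EbG g d' x}.Finite := by
  obtain ⟨p, hp, h₁⟩ := exists_ht_mem h ha'.1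
  have h₂ := hlt.trans h₁
  refine gb_finite_of_rep (gb_base_w1 h) ((((p.2 0).rv.lad a' h₁).fin a hlt)) fun x hx b hb =>
    ⟨(ebG_iff h hp ha' hb h₁).1 hx.2, ?_⟩
  exact ((p.2 0).rv.lad a h₂).lt b ((ebG_iff h hp ha hb h₂).1 hx.1)

theorem ad_G (h : baseN ⊆ g.N) (d d' : TT g) (hd : d ≠ d') :
    {x | EbG g d x ∧ EbG g d' x}.Finite := by
  obtain ⟨a, ha⟩ := exists_rep (gb_base_w1 h) d
  obtain ⟨a', ha'⟩ := exists_rep (gb_base_w1 h) d'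
  rcases lt_trichotomy a a' with h₁ | h₁ | h₁
  · exact gb_ad_G_lt h ha ha' h₁
  · exact absurd ((ha.inj ha').2 h₁) hd
  · exact (gb_ad_G_lt h ha' ha h₁).subset fun x hx => ⟨hx.2, hx.1⟩

theorem wf_G (h : baseN ⊆ g.N) (d : TT g) (s : ℕ → ℕ) :
    ∃ k, {x | EbG g d x ∧ ∀ j < k, sgG g x j = s j}.Finite := by
  obtain ⟨a, ha⟩ := exists_rep (gb_base_w1 h) d
  obtain ⟨p, hp, h₁⟩ := exists_ht_mem h ha.1
  have hl := (p.2 0).rv.lad a h₁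
  obtain ⟨k, hk⟩ := hl.wf s
  refine ⟨k, gb_finite_of_rep (gb_base_w1 h) hk fun x hx b hb => ?_⟩
  have h₂ := (ebG_iff h hp ha hb h₁).1 hx.1
  exact ⟨h₂, fun j hj => (sgG_eq h hp hb ((hl.lt b h₂).trans h₁) j).symm.trans (hx.2 j hj)⟩

theorem gb_ctbl_o {y : W} (hy : o y ∈ g.N) : ∃ f, IsInj g.E f (g.v (o y)) g.om := by
  have := (gb_ct_Iio y).to_subtype
  obtain ⟨e, he⟩ := exists_injective_nat {z | z < y}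
  let τ : Name PP := relN (fun z : {z | z < y} => o z.1) (fun z => nN (e z)) (fun _ => ⊤)
  refine dens (Ψ := fun _ E w => ∃ f, IsInj E f (w 0) (w 1)) (UDef.ex (UDef.isInj _ _ _))
    (l2 hy omN_mem) fun p _ => ⟨p, le_rfl, {τ}, countable_singleton _, fun g' _ hC hl => ?_⟩
  have hτ : τ ∈ g'.N := hC rfl
  have hy' : o y ∈ g'.N := hl _ (by simp)
  refine ⟨g'.v τ, ⟨fun p hp => ?_, fun a ha => ?_⟩, fun a a' b h₁ h₂ => ?_⟩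
  · obtain ⟨z, -, h₁, h₂, rfl⟩ := (E_relN hτ).1 hp
    exact ⟨_, _, (o_lt h₁ hy').2 z.2, nat_om _, isPair_pr _ _⟩
  · obtain ⟨z, hz, hzN, rfl⟩ := (E_o hy').1 ha
    refine ⟨_, (app_relN hτ).2 ⟨⟨z, hz⟩, g'.top, hzN, nN_mem _, rfl, rfl⟩, fun b hb => ?_⟩
    obtain ⟨z', -, h₁, -, e₁, rfl⟩ := (app_relN hτ).1 hb
    obtain rfl : z' = ⟨z, hz⟩ := Subtype.ext (o_inj h₁ hzN e₁.symm)
    rfl
  · obtain ⟨z, -, -, -, rfl, rfl⟩ := (app_relN hτ).1 h₁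
    obtain ⟨z', -, -, -, rfl, e₂⟩ := (app_relN hτ).1 h₂
    rw [he (nat_inj e₂)]

theorem en_G (h : baseN ⊆ g.N) : ∃ en : TT g → TT g → ℕ,
    g.Tm (fun z : TT g × TT g => en z.1 z.2) ∧
      ∀ d x y, EbG g d x → EbG g d y → en d x = en d y → x = y := by
  refine tm_choice_fun (Q := fun d f => ∀ x y, EbG g d x → EbG g d y → f x = f y → x = y)
    (by unfold EbG; fun_prop) fun d => ?_
  obtain ⟨a, ha⟩ := exists_rep (gb_base_w1 h) d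
  obtain ⟨p, hp, h₁⟩ := exists_ht_mem h ha.1
  obtain ⟨f, hf, H⟩ := ctbl_iff.1 (gb_ctbl_o ha.1)
  have key : ∀ x, EbG g d x → g.E x.1 (g.v (o a)) := fun x hx => by
    obtain ⟨b, hb⟩ := exists_rep (gb_base_w1 h) x
    rw [← hb.2, o_lt hb.1 ha.1]
    exact ((p.2 0).rv.lad a h₁).lt b ((ebG_iff h hp ha hb h₁).1 hx)
  exact ⟨fun x => f x.1, by fun_prop, fun x y hx hy e =>
    Subtype.ext (H _ _ (key x hx) (key y hy) e)⟩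

end Pool.Agent.MP_2e2931_gt.Gap
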