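import Pool.Agent.MP_2e2931_gt.CDefs
import Pool.Agent.MP_c6cf52_lc.Auto

namespace Pool.Agent.MP_2e2931_gt.Gap

open Pool.Agent.MP_c6cf52_lc Pool.Agent.MP_c6cf52_lc.Gen

/-- Nodes `(n, j, c)`. -/
abbrev Nd : Type := ℕ × ℕ × ℕ

variable {P : Type 1} [Preorder P] [OrderTop P]

/-- Certificates exist for every definable set of nodes above `n` with unbounded levels. -/
def GoodInt (g : Gen P) {A : g.M} (Eb : g.Elt A → g.Elt A → Prop)
    (a : g.Elt A → ℕ → g.Elt A → Nd) : Prop :=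
  ∀ (d : g.Elt A) (n : ℕ) (B : ℕ × ℕ → Prop), g.Tm B → (∀ j, ∃ y, j ≤ y.1 ∧ B y) →
    ∃ k m, ∀ x, Eb d x → (a d k x).1 = n ∧ B (a d k x).2 ∧ (a d k x).2.1 < m ∧ (a d k x).2.2 < m

/-- Membership of `x` in the cluster with node `t` and separation data `L`. -/
def InU {T : Type*} (π : T → ℕ → ℕ) (a : T → ℕ → T → Nd) (d : T) (t : Nd) (L : Set (Nd × ℕ))
    (x : T) : Prop :=
  π x 0 = t.1 ∧ π x (t.2.1 + 1) = t.2.2 ∧ ∀ y ∈ L, ∃ k < y.2, a d k x = y.1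

/-- The combinatorial package that holds in the generic model. -/
structure Comb (g : Gen P) (A : g.M) where
  Eb : g.Elt A → g.Elt A → Prop
  sg : g.Elt A → ℕ → ℕ
  en : g.Elt A → g.Elt A → ℕ
  tmE : g.Tm fun z : g.Elt A × g.Elt A => Eb z.1 z.2
  tmS : g.Tm fun z : g.Elt A × ℕ => sg z.1 z.2
  tmN : g.Tm fun z : g.Elt A × g.Elt A => en z.1 z.2
  ad : ∀ d d', d ≠ d' → {x | Eb d x ∧ Eb d' x}.Finite
  wf : ∀ d (s : ℕ → ℕ), ∃ k, {x | Eb d x ∧ ∀ j < k, sg x j = s j}.Finite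
  inj : ∀ d x y, Eb d x → Eb d y → en d x = en d y → x = y
  two : ∀ F : ℕ → g.Elt A → ℕ, g.Tm (fun z : ℕ × g.Elt A => F z.1 z.2) →
    ∃ d, ∀ k, ∃ v, {x | Eb d x ∧ F k x = v}.Infinite
  three : ∀ (π : g.Elt A → ℕ → ℕ) (a : g.Elt A → ℕ → g.Elt A → Nd),
    g.Tm (fun z : g.Elt A × ℕ => π z.1 z.2) →
    g.Tm (fun z : g.Elt A × ℕ × g.Elt A => a z.1 z.2.1 z.2.2) → GoodInt g Eb a →
    ∃ φ : g.Elt A → ℕ, g.Tm φ ∧ ∀ d v, ∃ (Fn : Set (g.Elt A)) (Cs : Set Nd)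
      (L : Nd → Set (Nd × ℕ)), Fn.Finite ∧ Cs.Finite ∧
      (∀ x, Eb d x → φ x ≤ v → x ∈ Fn ∨ ∃ t ∈ Cs, InU π a d t (L t) x) ∧
      ∀ t ∈ Cs, ∀ t' ∈ Cs, t ≠ t' → ∃ m, (t', m) ∈ L t ∨ (t, m) ∈ L t'

/-- The isolated points of the space. -/
noncomputable def ptM (g : Gen P) {A : g.M} (x : g.Elt A) : g.M := pr (g.nat 0) x.1

/-- The point at infinity. -/
noncomputable def infM (g : Gen P) : g.M := pr (g.nat 1) (g.nat 0)

/-- The points of the remainder in the tree compactifications. -/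
noncomputable def ndM (g : Gen P) {A : g.M} (d : g.Elt A) (j c : ℕ) : g.M :=
  pr (g.nat 2) (pr d.1 (pr (g.nat j) (g.nat c)))

/-- `(X, S)` is the space with one non isolated point given by the family `Eb`. -/
structure Sp (g : Gen P) {A : g.M} (Eb : g.Elt A → g.Elt A → Prop) (X S : g.M) : Prop where
  mem : ∀ y, g.E y X ↔ y = infM g ∨ ∃ x : g.Elt A, y = ptM g x
  opn : ∀ U, g.E U S ↔ Sub g.E U X ∧ (g.E (infM g) U → ∃ Fn D : Set (g.Elt A), Fn.Finite ∧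
    D.Finite ∧ ∀ x, x ∉ Fn → (∀ d ∈ D, ¬ Eb d x) → g.E (ptM g x) U)

/-- `y` is in the closure of the class `Q` for the topology `T`. -/
def Cl (g : Gen P) (T : g.M) (Q : g.M → Prop) (y : g.M) : Prop :=
  ∀ V, g.E V T → g.E y V → ∃ x, Q x ∧ g.E x V

/-- The image of a class of isolated points. -/
def Img {T M : Type*} (e : T → M) (Q : T → Prop) (y : M) : Prop := ∃ x, Q x ∧ y = e x

/-- What is used about a compactification: `e x` are the isolated points, `i` is infinity. -/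
structure CData (g : Gen P) {A : g.M} (Eb : g.Elt A → g.Elt A → Prop) (K T Y : g.M)
    (e : g.Elt A → g.M) (i : g.M) : Prop where
  ch : IsCH g.E g.om K T
  tm : g.Tm e
  mem : ∀ y, g.E y Y ↔ y = i ∨ ∃ x, y = e x
  eK : ∀ x, g.E (e x) K
  iK : g.E i K
  iso : ∀ x, ∃ V, g.E V T ∧ g.E (e x) V ∧ ¬ g.E i V ∧ ∀ x', g.E (e x') V → x' = x
  nb : ∀ V, g.E V T → g.E i V → ∃ Fn D : Set (g.Elt A), Fn.Finite ∧ D.Finite ∧
    ∀ x, x ∉ Fn → (∀ d ∈ D, ¬ Eb d x) → g.E (e x) V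
  opn : ∀ d, ∃ V, g.E V T ∧ g.E i V ∧ ∀ x, Eb d x → ¬ g.E (e x) V

end Pool.Agent.MP_2e2931_gt.Gap
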