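import Pool.Agent.MP_2e2931_gt.FPP
import Pool.Agent.MP_2e2931_gt.TDefs

namespace Pool.Agent.MP_2e2931_gt.Gap

open Pool.Agent.MP_c6cf52_lc Pool.Agent.MP_c6cf52_lc.Name Pool.Agent.MP_c6cf52_lc.Gen Set

theorem wfW : WellFounded (fun a b : W => a < b) := wellFounded_lt

theorem wfK : WellFounded (fun a b : K => a < b) := wellFounded_lt

noncomputable def o (x : W) : Name PP := ordN wfW x

noncomputable def w1N : Name PP := setN wfW Set.univ

noncomputable def kN (β : K) : Name PP := ordN wfK β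

noncomputable def nN (k : ℕ) : Name PP := ordN natWf ⟨k⟩

noncomputable def omN : Name PP := setN natWf Set.univ

noncomputable def ndN (t : Nn) : Name PP := pairN (nN t.1) (pairN (nN t.2.1) (nN t.2.2))

/-- The ladder system. -/
noncomputable def EN : Name PP :=
  relN (fun z : {z : W × W × PP // z.1 < z.2.2.1.ht ∧ z.2.1 ∈ z.2.2.1.E z.1} => o z.1.1)
    (fun z => o z.1.2.1) (fun z => z.1.2.2)

/-- The scale. -/
noncomputable def sgN : Name PP :=
  relN (fun z : {z : W × ℕ × PP // z.1 < z.2.2.1.ht} => pairN (o z.1.1) (nN z.1.2.1))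
    (fun z => nN (z.1.2.2.1.σ z.1.1 z.1.2.1)) (fun z => z.1.2.2)

/-- The active coordinates. -/
noncomputable def onN : Name PP :=
  Name.mk {z : K × PP // (z.1, Atom.on) ∈ z.2.1.f} (fun z => kN z.1.1) (fun z => z.1.2)

noncomputable def valN : Name PP :=
  relN (fun z : {z : K × W × ℕ × PP // (z.1, Atom.val z.2.1 z.2.2.1) ∈ z.2.2.2.1.f} =>
    pairN (kN z.1.1) (o z.1.2.1)) (fun z => nN z.1.2.2.1) (fun z => z.1.2.2.2)

noncomputable def bdN : Name PP :=
  relN (fun z : {z : K × W × ℕ × PP // (z.1, Atom.bd z.2.1 z.2.2.1) ∈ z.2.2.2.1.f} =>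
    pairN (kN z.1.1) (o z.1.2.1)) (fun z => nN z.1.2.2.1) (fun z => z.1.2.2.2)

noncomputable def piN : Name PP :=
  relN (fun z : {z : K × W × ℕ × ℕ × PP //
      Dec z.1 (bk z.1) z.2.2.2.2.1 (.pi z.2.1 z.2.2.1 z.2.2.2.1)} =>
    pairN (kN z.1.1) (pairN (o z.1.2.1) (nN z.1.2.2.1))) (fun z => nN z.1.2.2.2.1)
    (fun z => z.1.2.2.2.2)

noncomputable def ceN : Name PP :=
  relN (fun z : {z : K × W × ℕ × W × Nn × PP //
      Dec z.1 (bk z.1) z.2.2.2.2.2.1 (.ce z.2.1 z.2.2.1 z.2.2.2.1 z.2.2.2.2.1)} =>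
    pairN (kN z.1.1) (pairN (o z.1.2.1) (pairN (nN z.1.2.2.1) (o z.1.2.2.2.1))))
    (fun z => ndN z.1.2.2.2.2.1) (fun z => z.1.2.2.2.2.2)

/-- The names that the generic model has to contain. -/
def baseN : Set (Name PP) := {w1N, EN, sgN, onN, valN, bdN, piN, ceN}

/-- The underlying set of isolated points. -/
abbrev TT (g : Gen PP) : Type 2 := g.Elt (g.v w1N)

def EbG (g : Gen PP) (d x : TT g) : Prop := App g.E (g.v EN) d.1 x.1

noncomputable def sgG (g : Gen PP) (x : TT g) (j : ℕ) : ℕ := ev (TT g × ℕ) ℕ (g.v sgN) (x, j)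

/-- `x` is the value of the name of the ordinal `a`. -/
def Rep (g : Gen PP) (a : W) (x : TT g) : Prop := o a ∈ g.N ∧ g.v (o a) = x.1

end Pool.Agent.MP_2e2931_gt.Gap
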