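import Pool.Agent.MP_2e2931_gt.GBase
import Pool.Agent.MP_2e2931_gt.FGood

namespace Pool.Agent.MP_2e2931_gt.Gap

open Pool.Agent.MP_c6cf52_lc Pool.Agent.MP_c6cf52_lc.Name Pool.Agent.MP_c6cf52_lc.Gen Set

variable {g : Gen PP}

namespace GGoodX

section Formulas

variable {M : Type 2} (E : M → M → Prop)

/-- The value of `f` at the pair `(a, b)` is `c`. -/
def A21 (f a b c : M) : Prop := ∃ p, IsPair E p a b ∧ App E f p c

/-- `p` is the triple `(a, b, c)`. -/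
def Tr (p a b c : M) : Prop := ∃ q, IsPair E q b c ∧ IsPair E p a q

/-- The value of `f` at a triple is a triple. -/
def A33 (f a b c a' b' c' : M) : Prop := ∃ p p', Tr E p a b c ∧ Tr E p' a' b' c' ∧ App E f p p'

/-- All the points of the ladder `d` have their `k`-th certificate in `b`. -/
def Inn (W e s b d n k : M) : Prop :=
  ∀ x, E x W → App E e d x → ∃ j c, App E b j c ∧ A33 E s d k x n j c

/-- The relation `b` has a point of level at least `j`. -/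
def Unb (om b j : M) : Prop := ∃ j' c, E j' om ∧ E c om ∧ ¬ E j' j ∧ App E b j' c

/-- First order form of the properties of the data. -/
def Fo (W om e t s : M) : Prop :=
  (∀ x j, E x W → E j om → ∃ c, E c om ∧ A21 E t x j c) ∧
  (∀ d k x, E d W → E k om → E x W → ∃ n j c, E n om ∧ E j om ∧ E c om ∧ A33 E s d k x n j c) ∧
  (∀ u y y', App E s u y → App E s u y' → y = y') ∧
  ∀ d n b, E d W → E n om → (∀ j, E j om → Unb E om b j) → ∃ k m, E k om ∧ E m om ∧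
    ∀ x, E x W → App E e d x → ∃ j c, E j m ∧ E c m ∧ App E b j c ∧ A33 E s d k x n j c

/-- Some active coordinate decides the data correctly. -/
def Ps (a f f' t s : M) : Prop :=
  ∃ b, E b a ∧ (∀ u c, A21 E f b u c → App E t u c) ∧ ∀ u c, A21 E f' b u c → App E s u c

end Formulas

theorem u21 (i j k l : ℕ) : UDef.{2} (fun _ E w => A21 E (w i) (w j) (w k) (w l)) := by
  unfold A21
  exact UDef.ex ((UDef.isPair _ _ _).and (UDef.app _ _ _))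

theorem uTr (i j k l : ℕ) : UDef.{2} (fun _ E w => Tr E (w i) (w j) (w k) (w l)) := by
  unfold Tr
  exact UDef.ex ((UDef.isPair _ _ _).and (UDef.isPair _ _ _))

theorem u33 (i j k l m n r : ℕ) :
    UDef.{2} (fun _ E w => A33 E (w i) (w j) (w k) (w l) (w m) (w n) (w r)) := by
  unfold A33
  exact UDef.ex (UDef.ex ((uTr _ _ _ _).and ((uTr _ _ _ _).and (UDef.app _ _ _))))

theorem uInn (i j k l m n r : ℕ) :
    UDef.{2} (fun _ E w => Inn E (w i) (w j) (w k) (w l) (w m) (w n) (w r)) := by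
  unfold Inn
  exact UDef.all ((UDef.mem _ _).imp ((UDef.app _ _ _).imp (UDef.ex (UDef.ex
    ((UDef.app _ _ _).and (u33 _ _ _ _ _ _ _))))))

theorem uUnb (i j k : ℕ) : UDef.{2} (fun _ E w => Unb E (w i) (w j) (w k)) := by
  unfold Unb
  exact UDef.ex (UDef.ex ((UDef.mem _ _).and ((UDef.mem _ _).and
    ((UDef.mem _ _).not.and (UDef.app _ _ _)))))

theorem uFo : UDef.{2} (fun _ E w => Fo E (w 0) (w 1) (w 2) (w 3) (w 4)) := by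
  unfold Fo
  refine UDef.and ?_ (UDef.and ?_ (UDef.and ?_ ?_))
  · exact UDef.all (UDef.all ((UDef.mem _ _).imp ((UDef.mem _ _).imp
      (UDef.ex ((UDef.mem _ _).and (u21 _ _ _ _))))))
  · exact UDef.all (UDef.all (UDef.all ((UDef.mem _ _).imp ((UDef.mem _ _).imp ((UDef.mem _ _).imp
      (UDef.ex (UDef.ex (UDef.ex ((UDef.mem _ _).and ((UDef.mem _ _).and ((UDef.mem _ _).and
        (u33 _ _ _ _ _ _ _))))))))))))
  · exact UDef.all (UDef.all (UDef.all ((UDef.app _ _ _).imp ((UDef.app _ _ _).imp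
      (UDef.eq _ _)))))
  · exact UDef.all (UDef.all (UDef.all ((UDef.mem _ _).imp ((UDef.mem _ _).imp
      ((UDef.all ((UDef.mem _ _).imp (uUnb _ _ _))).imp (UDef.ex (UDef.ex ((UDef.mem _ _).and
        ((UDef.mem _ _).and (UDef.all ((UDef.mem _ _).imp ((UDef.app _ _ _).imp
          (UDef.ex (UDef.ex ((UDef.mem _ _).and ((UDef.mem _ _).and ((UDef.app _ _ _).and
            (u33 _ _ _ _ _ _ _))))))))))))))))))

theorem uPs : UDef.{2} (fun _ E w => Ps E (w 0) (w 1) (w 2) (w 3) (w 4)) := by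
  unfold Ps
  exact UDef.ex ((UDef.mem _ _).and
    ((UDef.all (UDef.all ((u21 _ _ _ _).imp (UDef.app _ _ _)))).and
      (UDef.all (UDef.all ((u21 _ _ _ _).imp (UDef.app _ _ _))))))

theorem a21 {f a b c : g.M} : A21 g.E f a b c ↔ App g.E f (pr a b) c := by
  simp only [A21, isPair_iff, exists_eq_left]

theorem a33 {f a b c a' b' c' : g.M} :
    A33 g.E f a b c a' b' c' ↔ App g.E f (pr a (pr b c)) (pr a' (pr b' c')) := by
  simp only [A33, Tr, isPair_iff, exists_eq_left, exists_and_left]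

theorem dens_app {a b c : Name PP} (ha : a ∈ g.N) (hb : b ∈ g.N) (hc : c ∈ g.N)
    (H : ∀ p ∈ g.G, ∃ q ≤ p, ∀ g' : Gen PP, q ∈ g'.G → a ∈ g'.N → b ∈ g'.N → c ∈ g'.N →
      App g'.E (g'.v a) (g'.v b) (g'.v c)) : App g.E (g.v a) (g.v b) (g.v c) := by
  refine dens (UDef.app 0 1 2) (l3 ha hb hc) fun p hp => ?_
  obtain ⟨q, hq, H'⟩ := H p hp
  exact ⟨q, hq, ∅, countable_empty, fun g' hq' _ hl =>
    H' g' hq' (hl _ (by simp)) (hl _ (by simp)) (hl _ (by simp))⟩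

theorem fin_dir {ι : Type} (u : Finset ι) (D : PP → ι → Prop)
    (hm : ∀ r r' y, D r y → r' ≤ r → D r' y) (H : ∀ y ∈ u, ∃ r ∈ g.G, D r y) {q : PP}
    (hq : q ∈ g.G) : ∃ r ∈ g.G, r ≤ q ∧ ∀ y ∈ u, D r y := by
  classical
  induction u using Finset.induction_on with
  | empty => exact ⟨q, hq, le_rfl, by simp⟩
  | insert y u _ ih =>
    obtain ⟨r, hr, h₁, h₂⟩ := ih fun z hz => H z (Finset.mem_insert_of_mem hz)
    obtain ⟨s, hs, h₃⟩ := H y (Finset.mem_insert_self _ _)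
    obtain ⟨t, ht, h₄, h₅⟩ := g.dir hr hs
    refine ⟨t, ht, h₄.trans h₁, fun z hz => ?_⟩
    rcases Finset.mem_insert.1 hz with rfl | hz
    exacts [hm _ _ _ h₃ h₅, hm _ _ _ (h₂ z hz) h₄]

/-- The name of the pair of a point and a number. -/
noncomputable def n2 (x : W) (j : ℕ) : Name PP := pairN (o x) (nN j)

/-- The name of a triple. -/
noncomputable def n3 (d : W) (k : ℕ) (x : W) : Name PP := pairN (o d) (pairN (nN k) (o x))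

theorem n2_mem {x : W} {j : ℕ} : n2 x j ∈ g.N ↔ o x ∈ g.N :=
  pairN_mem_iff.trans (and_iff_left (nN_mem j))

theorem n3_mem {d x : W} {k : ℕ} : n3 d k x ∈ g.N ↔ o d ∈ g.N ∧ o x ∈ g.N :=
  pairN_mem_iff.trans (and_congr_right fun _ => pairN_mem_iff.trans (and_iff_right (nN_mem k)))

theorem v_n2 {x : W} (j : ℕ) (h : o x ∈ g.N) : g.v (n2 x j) = pr (g.v (o x)) (g.nat j) :=
  v_pairN h (nN_mem j)

theorem v_n3 {d x : W} (k : ℕ) (hd : o d ∈ g.N) (hx : o x ∈ g.N) :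
    g.v (n3 d k x) = pr (g.v (o d)) (pr (g.nat k) (g.v (o x))) := by
  unfold n3
  rw [v_pairN hd (pairN_mem_iff.2 ⟨nN_mem k, hx⟩), v_pairN (nN_mem k) hx, v_nN]

/-- The statements that are forced about the names `t` and `s`. -/
def RR (t s : Name PP) : At → PP → Prop
  | .pi x j c, r => ∀ g' : Gen PP, r ∈ g'.G → t ∈ g'.N → n2 x j ∈ g'.N → nN c ∈ g'.N →
      App g'.E (g'.v t) (g'.v (n2 x j)) (g'.v (nN c))
  | .ce d k x y, r => ∀ g' : Gen PP, r ∈ g'.G → s ∈ g'.N → n3 d k x ∈ g'.N → ndN y ∈ g'.N →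
      App g'.E (g'.v s) (g'.v (n3 d k x)) (g'.v (ndN y))
  | .cd _ _, _ => True

theorem RR_mono (t s : Name PP) (a : At) (r r' : PP) (h : RR t s a r) (hl : r' ≤ r) :
    RR t s a r' := by
  cases a with
  | pi x j c => exact fun g' hg => h g' (g'.up hg hl)
  | ce d k x y => exact fun g' hg => h g' (g'.up hg hl)
  | cd _ _ => trivial

/-- The condition `p` forces the first order properties. -/
def FF (t s : Name PP) (p : PP) : Prop :=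
  ∀ g' : Gen PP, p ∈ g'.G → w1N ∈ g'.N → EN ∈ g'.N → t ∈ g'.N → s ∈ g'.N →
    Fo g'.E (g'.v w1N) g'.om (g'.v EN) (g'.v t) (g'.v s)

/-- The name of a relation on the numbers. -/
noncomputable def bN (B : PP → ℕ × ℕ → Prop) : Name PP :=
  relN (fun z : {z : (ℕ × ℕ) × PP // B z.2 z.1} => nN z.1.1.1) (fun z => nN z.1.1.2)
    (fun z => z.1.2)

theorem app_bN {B : PP → ℕ × ℕ → Prop} (h : bN B ∈ g.N) {s t : g.M} :
    App g.E (g.v (bN B)) s t ↔ ∃ y r, r ∈ g.G ∧ B r y ∧ s = g.nat y.1 ∧ t = g.nat y.2 := by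
  unfold bN at h ⊢
  rw [app_relN h]
  exact ⟨fun ⟨⟨⟨y, r⟩, h₀⟩, h₁, _, _, h₂⟩ => ⟨y, r, h₁, h₀, h₂⟩,
    fun ⟨y, r, h₁, h₀, h₂⟩ => ⟨⟨⟨y, r⟩, h₀⟩, h₁, nN_mem _, nN_mem _, h₂⟩⟩

/-- The name of a finite relation of the ground model. -/
noncomputable def uN (u : Finset (ℕ × ℕ)) : Name PP := bN fun _ y => y ∈ u

theorem app_uN {u : Finset (ℕ × ℕ)} (h : uN u ∈ g.N) {s t : g.M} :
    App g.E (g.v (uN u)) s t ↔ ∃ y ∈ u, s = g.nat y.1 ∧ t = g.nat y.2 :=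
  (app_bN h).trans ⟨fun ⟨y, _, _, h₀, h₂⟩ => ⟨y, h₀, h₂⟩,
    fun ⟨y, h₀, h₂⟩ => ⟨y, ⊤, g.top, h₀, h₂⟩⟩

variable {t s : Name PP} {p₀ : PP}

theorem tot_pi (h : FF t s p₀) (x : W) (j : ℕ) (q : PP) (hq : q ≤ p₀) :
    ∃ r ≤ q, ∃ c, RR t s (.pi x j c) r := by
  obtain ⟨g', hq', hC⟩ := exists_gen q {w1N, EN, t, s, o x} (toFinite _).countable
  have hx : o x ∈ g'.N := hC (by simp)
  have F := h g' (g'.up hq' hq) (hC (by simp)) (hC (by simp)) (hC (by simp)) (hC (by simp))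
  obtain ⟨c, hc, hA⟩ := F.1 _ _ (o_w1 (hC (by simp)) hx) (nat_om j)
  obtain ⟨c, rfl⟩ := E_om.1 hc
  rw [a21, ← v_n2 j hx, ← v_nN] at hA
  obtain ⟨r, hr, H⟩ := transfer_app (hC (by simp)) (n2_mem.2 hx) (nN_mem c) hA
  obtain ⟨r', -, h₁, h₂⟩ := g'.dir hr hq'
  exact ⟨r', h₂, c, fun g'' hg => H g'' (g''.up hg h₁)⟩

theorem tot_ce (h : FF t s p₀) (d : W) (k : ℕ) (x : W) (q : PP) (hq : q ≤ p₀) :
    ∃ r ≤ q, ∃ y, RR t s (.ce d k x y) r := by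
  obtain ⟨g', hq', hC⟩ := exists_gen q {w1N, EN, t, s, o d, o x} (toFinite _).countable
  have hd : o d ∈ g'.N := hC (by simp)
  have hx : o x ∈ g'.N := hC (by simp)
  have F := h g' (g'.up hq' hq) (hC (by simp)) (hC (by simp)) (hC (by simp)) (hC (by simp))
  obtain ⟨n, j, c, hn, hj, hc, hA⟩ := F.2.1 _ _ _ (o_w1 (hC (by simp)) hd) (nat_om k)
    (o_w1 (hC (by simp)) hx)
  obtain ⟨n, rfl⟩ := E_om.1 hn
  obtain ⟨j, rfl⟩ := E_om.1 hj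
  obtain ⟨c, rfl⟩ := E_om.1 hc
  have hA' : App g'.E (g'.v s) (g'.v (n3 d k x)) (g'.v (ndN (n, j, c))) := by
    rw [v_n3 k hd hx, v_ndN]
    exact a33.1 hA
  obtain ⟨r, hr, H⟩ := transfer_app (hC (by simp)) (n3_mem.2 ⟨hd, hx⟩) (ndN_mem _) hA'
  obtain ⟨r', -, h₁, h₂⟩ := g'.dir hr hq'
  exact ⟨r', h₂, _, fun g'' hg => H g'' (g''.up hg h₁)⟩

theorem unb_bN {B : PP → ℕ × ℕ → Prop} (hb : bN B ∈ g.N) {q : PP} (hq : q ∈ g.G)
    (hu : ∀ j, ∀ r ≤ q, ∃ r' ≤ r, ∃ y, j ≤ y.1 ∧ B r' y) (j : ℕ) :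
    Unb g.E g.om (g.v (bN B)) (g.nat j) := by
  refine dens (uUnb 0 1 2) (l3 omN_mem hb (nN_mem j)) fun p hp => ?_
  obtain ⟨r, -, h₁, h₂⟩ := g.dir hp hq
  obtain ⟨r', h₃, y, hy, hB⟩ := hu j r h₂
  refine ⟨r', h₃.trans h₁, ∅, countable_empty, fun g' hr' _ hl => ?_⟩
  exact ⟨g'.nat y.1, g'.nat y.2, nat_om _, nat_om _, fun e => (nat_lt.1 e).not_ge hy,
    (app_bN (hl _ (by simp))).2 ⟨y, r', hr', hB, rfl, rfl⟩⟩

theorem cert (h : FF t s p₀) (d : W) (n₀ : ℕ) (B : PP → ℕ × ℕ → Prop)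
    (hm : ∀ r r' y, B r y → r' ≤ r → B r' y) (q : PP) (hq : q ≤ p₀) (hd : d < q.1.ht)
    (hu : ∀ j, ∀ r ≤ q, ∃ r' ≤ r, ∃ y, j ≤ y.1 ∧ B r' y) :
    ∃ q' ≤ q, ∃ k, ∃ u : Set (ℕ × ℕ), u.Finite ∧ (∀ y ∈ u, B q' y) ∧
      ∀ x ∈ q.1.E d, ∀ r ≤ q', ∀ y', RR t s (.ce d k x y') r → ∃ y ∈ u, y' = (n₀, y) := by
  classical
  obtain ⟨g', hq', hC⟩ := exists_gen q ({w1N, EN, t, s, o d, bN B} ∪ range uN)
    ((toFinite _).countable.union (countable_range _))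
  have hw : w1N ∈ g'.N := hC (by simp)
  have he : EN ∈ g'.N := hC (by simp)
  have hs : s ∈ g'.N := hC (by simp)
  have hd' : o d ∈ g'.N := hC (by simp)
  have hb : bN B ∈ g'.N := hC (by simp)
  have F := h g' (g'.up hq' hq) hw he (hC (by simp)) hs
  obtain ⟨k, m, hk, hm', H⟩ := F.2.2.2 _ _ _ (o_w1 hw hd') (nat_om n₀) fun j hj => by
    obtain ⟨j, rfl⟩ := E_om.1 hj
    exact unb_bN hb hq' hu j
  obtain ⟨k, rfl⟩ := E_om.1 hk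
  obtain ⟨m, rfl⟩ := E_om.1 hm'
  let u : Finset (ℕ × ℕ) := (Finset.range m ×ˢ Finset.range m).filter fun y =>
    App g'.E (g'.v (bN B)) (g'.nat y.1) (g'.nat y.2)
  have hu' : uN u ∈ g'.N := hC (Or.inr ⟨u, rfl⟩)
  have hI : Inn g'.E (g'.v w1N) (g'.v EN) (g'.v s) (g'.v (uN u)) (g'.v (o d)) (g'.nat n₀)
      (g'.nat k) := fun x hx hA => by
    obtain ⟨j, c, hj, hc, h₁, h₂⟩ := H x hx hA
    obtain ⟨j, hj', rfl⟩ := E_nat.1 hj
    obtain ⟨c, hc', rfl⟩ := E_nat.1 hc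
    refine ⟨_, _, (app_uN hu').2 ⟨(j, c), Finset.mem_filter.2 ⟨?_, h₁⟩, rfl, rfl⟩, h₂⟩
    simp [hj', hc']
  obtain ⟨q₁, hq₁, T⟩ := transfer (uInn 0 1 2 3 4 5 6)
    (lcons hw (lcons he (lcons hs (l4 hu' hd' (nN_mem n₀) (nN_mem k))))) hI
  obtain ⟨q₂, hq₂, h₁, h₂⟩ := g'.dir hq₁ hq'
  obtain ⟨q', -, h₃, hB⟩ := fin_dir u B hm (fun y hy => by
    obtain ⟨y', r, hr, h₄, e₁, e₂⟩ := (app_bN hb).1 (Finset.mem_filter.1 hy).2
    obtain rfl : y = y' := Prod.ext (nat_inj e₁) (nat_inj e₂)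
    exact ⟨r, hr, h₄⟩) hq₂
  refine ⟨q', h₃.trans h₂, k, u, u.finite_toSet, hB, fun x hx r hr y' hR => ?_⟩
  obtain ⟨g₂, hr', hC'⟩ := exists_gen r {w1N, EN, t, s, o d, o x, uN u} (toFinite _).countable
  have iw : w1N ∈ g₂.N := hC' (by simp)
  have ie : EN ∈ g₂.N := hC' (by simp)
  have is : s ∈ g₂.N := hC' (by simp)
  have id : o d ∈ g₂.N := hC' (by simp)
  have ix : o x ∈ g₂.N := hC' (by simp)
  have iu : uN u ∈ g₂.N := hC' (by simp)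
  have iq : q ∈ g₂.G := g₂.up hr' (hr.trans (h₃.trans h₂))
  have F₂ := h g₂ (g₂.up iq hq) iw ie (hC' (by simp)) is
  have I₂ : Inn g₂.E (g₂.v w1N) (g₂.v EN) (g₂.v s) (g₂.v (uN u)) (g₂.v (o d)) (g₂.nat n₀)
      (g₂.nat k) := T g₂ (g₂.up hr' (hr.trans (h₃.trans h₁)))
        (lcons iw (lcons ie (lcons is (l4 iu id (nN_mem n₀) (nN_mem k)))))
  obtain ⟨j, c, a₁, a₂⟩ := I₂ _ (o_w1 iw ix) ((app_EN ie).2 ⟨d, x, q, iq, hd, hx, id, ix, rfl, rfl⟩)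
  obtain ⟨y, hy, rfl, rfl⟩ := (app_uN iu).1 a₁
  have a₃ := hR g₂ hr' is (n3_mem.2 ⟨id, ix⟩) (ndN_mem _)
  rw [v_n3 k id ix, v_ndN] at a₃
  exact ⟨y, hy, Cd.inj (g := g₂) (F₂.2.2.1 _ _ _ a₃ (a33.1 a₂))⟩

theorem exists_ps (h : FF t s p₀) : ∃ q ≤ p₀, ∃ C : Set (Name PP), C.Countable ∧
    ∀ g' : Gen PP, q ∈ g'.G → C ⊆ g'.N → onN ∈ g'.N → piN ∈ g'.N → ceN ∈ g'.N → t ∈ g'.N →
      s ∈ g'.N → Ps g'.E (g'.v onN) (g'.v piN) (g'.v ceN) (g'.v t) (g'.v s) := by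
  obtain ⟨β, hG, H⟩ := exists_good p₀ (RR t s) (RR_mono t s) (tot_pi h) (tot_ce h) (cert h)
  obtain ⟨q, hq, hon⟩ := p₀.on_dense hG
  refine ⟨q, hq, {kN β}, countable_singleton _, fun g' hq' hC ho hp hc ht hs => ?_⟩
  have hβ : kN β ∈ g'.N := hC rfl
  refine ⟨g'.v (kN β), (E_onN ho).2 ⟨β, q, hq', hon, hβ, rfl⟩, fun u c hA => ?_, fun u c hA => ?_⟩
  · obtain ⟨x, j, c, p, hp', hD, hx, rfl, rfl⟩ := (app_piN hp hβ).1 (a21.1 hA)
    rw [← v_n2 j hx, ← v_nN]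
    refine dens_app ht (n2_mem.2 hx) (nN_mem c) fun r hr => ?_
    obtain ⟨r', -, h₁, h₂⟩ := g'.dir hr hp'
    obtain ⟨r'', h₃, hR⟩ := H _ p hD r' h₂
    exact ⟨r'', h₃.trans h₁, hR⟩
  · obtain ⟨d, k, x, y, p, hp', hD, hd, hx, rfl, rfl⟩ := (app_ceN hc hβ).1 (a21.1 hA)
    rw [← v_n3 k hd hx, ← v_ndN]
    refine dens_app hs (n3_mem.2 ⟨hd, hx⟩) (ndN_mem y) fun r hr => ?_
    obtain ⟨r', -, h₁, h₂⟩ := g'.dir hr hp'
    obtain ⟨r'', h₃, hR⟩ := H _ p hD r' h₂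
    exact ⟨r'', h₃.trans h₁, hR⟩

theorem fo_G {π : TT g → ℕ → ℕ} {a : TT g → ℕ → TT g → Nd} (H : GoodInt g (EbG g) a)
    {sp sa : g.M}
    (hp : ∀ u c, App g.E sp u c ↔ ∃ z : TT g × ℕ, True ∧ u = Cd.ι z ∧ c = Cd.ι (π z.1 z.2))
    (ha : ∀ u c, App g.E sa u c ↔
      ∃ z : TT g × ℕ × TT g, True ∧ u = Cd.ι z ∧ c = Cd.ι (a z.1 z.2.1 z.2.2)) :
    Fo g.E (g.v w1N) g.om (g.v EN) sp sa := by
  refine ⟨fun x j hx hj => ?_, fun d k x hd hk hx => ?_, fun u y y' h₁ h₂ => ?_,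
    fun d n b hd hn hb => ?_⟩
  · obtain ⟨j, rfl⟩ := E_om.1 hj
    exact ⟨_, nat_om (π ⟨x, hx⟩ j), a21.2 ((hp _ _).2 ⟨(⟨x, hx⟩, j), trivial, rfl, rfl⟩)⟩
  · obtain ⟨k, rfl⟩ := E_om.1 hk
    exact ⟨_, _, _, nat_om (a ⟨d, hd⟩ k ⟨x, hx⟩).1, nat_om (a ⟨d, hd⟩ k ⟨x, hx⟩).2.1,
      nat_om (a ⟨d, hd⟩ k ⟨x, hx⟩).2.2,
      a33.2 ((ha _ _).2 ⟨(⟨d, hd⟩, k, ⟨x, hx⟩), trivial, rfl, rfl⟩)⟩
  · obtain ⟨z, -, e₁, rfl⟩ := (ha _ _).1 h₁
    obtain ⟨z', -, e₂, rfl⟩ := (ha _ _).1 h₂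
    rw [Cd.inj (g := g) (e₁.symm.trans e₂)]
  · obtain ⟨n, rfl⟩ := E_om.1 hn
    obtain ⟨k, m, K⟩ := H ⟨d, hd⟩ n (fun y => App g.E b (g.nat y.1) (g.nat y.2)) (by fun_prop)
      fun j => by
        obtain ⟨j', c, hj', hc, h₁, h₂⟩ := hb _ (nat_om j)
        obtain ⟨j', rfl⟩ := E_om.1 hj'
        obtain ⟨c, rfl⟩ := E_om.1 hc
        exact ⟨(j', c), not_lt.1 fun e => h₁ (nat_lt.2 e), h₂⟩
    refine ⟨_, _, nat_om k, nat_om m, fun x hx hA => ?_⟩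
    obtain ⟨e, h₁, h₂, h₃⟩ := K ⟨x, hx⟩ hA
    refine ⟨_, _, nat_lt.2 h₂, nat_lt.2 h₃, h₁, a33.2 ?_⟩
    rw [← e]
    exact (ha _ _).2 ⟨(⟨d, hd⟩, k, ⟨x, hx⟩), trivial, rfl, rfl⟩

end GGoodX

open GGoodX

/-- Good data of the generic model are handled at an active coordinate of the model. -/
theorem good_G (h : baseN ⊆ g.N) (π : TT g → ℕ → ℕ) (a : TT g → ℕ → TT g → Nd)
    (hπ : g.Tm fun z : TT g × ℕ => π z.1 z.2)
    (ha : g.Tm fun z : TT g × ℕ × TT g => a z.1 z.2.1 z.2.2) (H : GoodInt g (EbG g) a) :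
    ∃ β, kN β ∈ g.N ∧ (∃ p ∈ g.G, (β, Atom.on) ∈ p.1.f) ∧
      (∀ p ∈ g.G, ∀ x x' j c, Rep g x x' → Dec β (bk β) p.1 (.pi x j c) → π x' j = c) ∧
      ∀ p ∈ g.G, ∀ d d' k x x' t, Rep g d d' → Rep g x x' → Dec β (bk β) p.1 (.ce d k x t) →
        a d' k x' = t := by
  obtain ⟨sp, -, hp⟩ := exists_graph Df.true hπ
  obtain ⟨sa, -, hs⟩ := exists_graph Df.true ha
  obtain ⟨tp, htp, rfl⟩ := exists_v sp
  obtain ⟨ta, hta, rfl⟩ := exists_v sa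
  have hw : w1N ∈ g.N := h (by simp [baseN])
  have he : EN ∈ g.N := h (by simp [baseN])
  have ho : onN ∈ g.N := h (by simp [baseN])
  have hi : piN ∈ g.N := h (by simp [baseN])
  have hc : ceN ∈ g.N := h (by simp [baseN])
  obtain ⟨p₀, hp₀, T⟩ := transfer uFo (lcons hw (l4 omN_mem he htp hta)) (fo_G H hp hs)
  have K : Ps g.E (g.v onN) (g.v piN) (g.v ceN) (g.v tp) (g.v ta) := by
    refine dens uPs (lcons ho (l4 hi hc htp hta)) fun p hp' => ?_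
    obtain ⟨q₀, -, h₁, h₂⟩ := g.dir hp' hp₀
    obtain ⟨q, hq, C, hC, K⟩ := exists_ps (t := tp) (s := ta) (p₀ := q₀)
      fun g' hg b₁ b₂ b₃ b₄ => T g' (g'.up hg h₂) (lcons b₁ (l4 omN_mem b₂ b₃ b₄))
    exact ⟨q, hq.trans h₁, C, hC, fun g' hg hC' hl => K g' hg hC' (hl _ (by simp)) (hl _ (by simp))
      (hl _ (by simp)) (hl _ (by simp)) (hl _ (by simp))⟩
  obtain ⟨b, hb, K₁, K₂⟩ := K
  obtain ⟨β, p, hp', hon, hβ, rfl⟩ := (E_onN ho).1 hb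
  refine ⟨β, hβ, ⟨p, hp', hon⟩, fun r hr x x' j c hx hD => ?_,
    fun r hr d d' k x x' y hd hx hD => ?_⟩
  · obtain ⟨z, -, e₁, e₂⟩ := (hp _ _).1 (K₁ _ _ (a21.2 ((app_piN hi hβ).2
      ⟨x, j, c, r, hr, hD, hx.1, rfl, rfl⟩)))
    rw [hx.2] at e₁
    obtain rfl : (x', j) = z := Cd.inj (g := g) e₁
    exact (nat_inj e₂).symm
  · obtain ⟨z, -, e₁, e₂⟩ := (hs _ _).1 (K₂ _ _ (a21.2 ((app_ceN hc hβ).2
      ⟨d, k, x, y, r, hr, hD, hd.1, hx.1, rfl, rfl⟩)))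
    rw [hd.2, hx.2] at e₁
    obtain rfl : (d', k, x') = z := Cd.inj (g := g) e₁
    exact (Cd.inj (g := g) e₂).symm

end Pool.Agent.MP_2e2931_gt.Gap
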