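import Pool.Agent.MP_2e2931_gt.GGood

namespace Pool.Agent.MP_2e2931_gt.Gap

open Pool.Agent.MP_c6cf52_lc Pool.Agent.MP_c6cf52_lc.Name Pool.Agent.MP_c6cf52_lc.Gen Set

variable {g : Gen PP}

theorem gthree_val (h : valN ∈ g.N) {β : K} (hβ : kN β ∈ g.N) {p₀ : PP} (hp₀ : p₀ ∈ g.G)
    (ho : (β, Atom.on) ∈ p₀.1.f) {z : W} (hz : o z ∈ g.N) :
    ∃ a p, p ∈ g.G ∧ (β, Atom.val z a) ∈ p.1.f := by
  have hs : pairN (kN β) (o z) ∈ g.N := pairN_mem_iff.2 ⟨hβ, hz⟩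
  have H : ∃ b, App g.E (g.v valN) (g.v (pairN (kN β) (o z))) b := by
    refine dens (Ψ := fun _ E w => ∃ b, App E (w 0) (w 1) b) (UDef.ex (UDef.app _ _ _))
      (l2 h hs) fun p hp => ?_
    obtain ⟨q, -, h₁, h₂⟩ := g.dir hp hp₀
    obtain ⟨t, ht, a, ha⟩ := PP.val_dense q (PP.sub h₂ ho) z
    refine ⟨t, ht.trans h₁, ∅, countable_empty, fun g' ht' _ hl => ⟨g'.nat a, ?_⟩⟩
    have h' : valN ∈ g'.N := hl _ (by simp)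
    obtain ⟨hβ', hz'⟩ := pairN_mem_iff.1 (hl _ (by simp) : pairN (kN β) (o z) ∈ g'.N)
    show App g'.E (g'.v valN) (g'.v (pairN (kN β) (o z))) (g'.nat a)
    rw [v_pairN hβ' hz']
    exact (app_valN h' hβ' hz').2 ⟨a, t, ht', ha, rfl⟩
  obtain ⟨b, hb⟩ := H
  rw [v_pairN hβ hz] at hb
  obtain ⟨a, p, hp, ha, -⟩ := (app_valN h hβ hz).1 hb
  exact ⟨a, p, hp, ha⟩

theorem gthree_bd (h : bdN ∈ g.N) {β : K} (hβ : kN β ∈ g.N) {p₀ : PP} (hp₀ : p₀ ∈ g.G)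
    (ho : (β, Atom.on) ∈ p₀.1.f) {d : W} (hd : o d ∈ g.N) (m : ℕ) :
    ∃ p, p ∈ g.G ∧ (β, Atom.bd d m) ∈ p.1.f := by
  have hs : pairN (kN β) (o d) ∈ g.N := pairN_mem_iff.2 ⟨hβ, hd⟩
  have H : App g.E (g.v bdN) (g.v (pairN (kN β) (o d))) (g.v (nN m)) := by
    refine dens (Ψ := fun _ E w => App E (w 0) (w 1) (w 2)) (UDef.app _ _ _)
      (l3 h hs (nN_mem m)) fun p hp => ?_
    obtain ⟨q, -, h₁, h₂⟩ := g.dir hp hp₀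
    obtain ⟨t, ht, ha⟩ := PP.bd_dense q (PP.sub h₂ ho) d m
    refine ⟨t, ht.trans h₁, ∅, countable_empty, fun g' ht' _ hl => ?_⟩
    have h' : bdN ∈ g'.N := hl _ (by simp)
    obtain ⟨hβ', hd'⟩ := pairN_mem_iff.1 (hl _ (by simp) : pairN (kN β) (o d) ∈ g'.N)
    show App g'.E (g'.v bdN) (g'.v (pairN (kN β) (o d))) (g'.v (nN m))
    rw [v_pairN hβ' hd']
    exact (app_bdN h' hβ' hd').2 ⟨m, t, ht', ha, rfl⟩
  rw [v_pairN hβ hd] at H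
  obtain ⟨m', p, hp, ha, e⟩ := (app_bdN h hβ hd).1 H
  obtain rfl : m = m' := nat_inj e
  exact ⟨p, hp, ha⟩

theorem gthree_ev (h : valN ∈ g.N) {β : K} (hβ : kN β ∈ g.N) {z : W} {x : TT g}
    (hx : Rep g z x) {p : PP} (hp : p ∈ g.G) {a : ℕ} (ha : (β, Atom.val z a) ∈ p.1.f) :
    ev g.M ℕ (g.v valN) (pr (g.v (kN β)) x.1) = a := by
  refine ev_eq fun b => ?_
  rw [ι_M, ← hx.2, app_valN h hβ hx.1]
  constructor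
  · rintro ⟨a', q, hq, ha', e⟩
    obtain ⟨r, -, h₁, h₂⟩ := g.dir hp hq
    have e' : b = a' := nat_inj e
    rw [e']
    exact ((r.2 (Order.succ β)).loc (Order.lt_succ β)).fn z a' a (PP.sub h₂ ha') (PP.sub h₁ ha)
  · rintro rfl
    exact ⟨b, p, hp, ha, rfl⟩

theorem three_G (h : baseN ⊆ g.N) (π : TT g → ℕ → ℕ) (a : TT g → ℕ → TT g → Nd)
    (hπ : g.Tm fun z : TT g × ℕ => π z.1 z.2)
    (ha : g.Tm fun z : TT g × ℕ × TT g => a z.1 z.2.1 z.2.2) (H : GoodInt g (EbG g) a) :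
    ∃ φ : TT g → ℕ, g.Tm φ ∧ ∀ d v, ∃ (Fn : Set (TT g)) (Cs : Set Nd)
      (D : Nd → Set (Nd × ℕ)), Fn.Finite ∧ Cs.Finite ∧
      (∀ x, EbG g d x → φ x ≤ v → x ∈ Fn ∨ ∃ t ∈ Cs, InU π a d t (D t) x) ∧
      ∀ t ∈ Cs, ∀ t' ∈ Cs, t ≠ t' → ∃ m, (t', m) ∈ D t ∨ (t, m) ∈ D t' := by
  obtain ⟨β, hβ, ⟨p₀, hp₀, ho⟩, h₁, h₂⟩ := good_G h π a hπ ha H
  have hw : w1N ∈ g.N := h (by simp [baseN])
  have hv : valN ∈ g.N := h (by simp [baseN])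
  have hb : bdN ∈ g.N := h (by simp [baseN])
  refine ⟨fun x => ev g.M ℕ (g.v valN) (pr (g.v (kN β)) x.1), by fun_prop, fun d v => ?_⟩
  obtain ⟨d₀, hd⟩ := exists_rep hw d
  obtain ⟨p, hp, hbd⟩ := gthree_bd hb hβ hp₀ ho hd.1 (v + 1)
  have hV := p.2 (Order.succ β)
  have hl := hV.loc (Order.lt_succ β)
  have hlt : d₀ < p.1.ht := hl.pos _ hbd
  refine ⟨⋃ y ∈ p.1.f, {x | ∃ z c, Rep g z x ∧ y = (β, Atom.val z c)},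
    ⋃ y ∈ p.1.f, {t | ∃ m, y = (β, Atom.cl d₀ t m)}, code p.1 β d₀, ?_, ?_, ?_, ?_⟩
  · refine hV.fin.biUnion fun y _ => Set.Subsingleton.finite ?_
    rintro x ⟨z, c, hx, rfl⟩ x' ⟨z', c', hx', e⟩
    exact (hx.inj hx').2 (Atom.val.inj (Prod.ext_iff.1 e).2).1
  · refine hV.fin.biUnion fun y _ => Set.Subsingleton.finite ?_
    rintro t ⟨m, rfl⟩ t' ⟨m', e⟩
    exact (Atom.cl.inj (Prod.ext_iff.1 e).2).2.1
  · intro x hx hφ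
    obtain ⟨z, hz⟩ := exists_rep hw x
    obtain ⟨c, q, hq, hc⟩ := gthree_val hv hβ hp₀ ho hz.1
    have hcv : c ≤ v := by
      rw [← gthree_ev hv hβ hz hq hc]
      exact hφ
    by_cases hF : (β, Atom.val z c) ∈ p.1.f
    · exact Or.inl (mem_iUnion₂.2 ⟨_, hF, z, c, hz, rfl⟩)
    · obtain ⟨r, hr, r₁, r₂⟩ := g.dir hp hq
      rcases ((r₁ (Order.succ β)).loc (Order.lt_succ β)).val z c d₀ (v + 1) (PP.sub r₂ hc) hF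
        hbd hlt ((ebG_iff h hp hd hz hlt).1 hx) with h₃ | ⟨t, m, ht, -, hU⟩
      · omega
      · obtain ⟨u₁, u₂, u₃⟩ := Uc_def.1 hU
        refine Or.inr ⟨t, mem_iUnion₂.2 ⟨_, ht, m, rfl⟩, h₁ r hr _ _ _ _ hz u₁,
          h₁ r hr _ _ _ _ hz u₂, fun y hy => ?_⟩
        obtain ⟨k, hk, u₄⟩ := u₃ y hy
        exact ⟨k, hk, h₂ r hr _ _ _ _ _ _ hd hz u₄⟩
  · intro t ht t' ht' hne
    obtain ⟨_, e₁, m, rfl⟩ := mem_iUnion₂.1 ht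
    obtain ⟨_, e₂, m', rfl⟩ := mem_iUnion₂.1 ht'
    exact hl.sep d₀ t m t' m' e₁ e₂ hne

end Pool.Agent.MP_2e2931_gt.Gap
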