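import Pool.Agent.MP_2e2931_gt.TBasic

namespace Pool.Agent.MP_2e2931_gt.Gap

open Pool.Agent.MP_c6cf52_lc Pool.Agent.MP_c6cf52_lc.Gen

variable {P : Type 1} [Preorder P] [OrderTop P] {g : Gen P} {A X S : g.M}

namespace TCptX

theorem exists_union2 (a b : g.M) : ∃ c, ∀ x, g.E x c ↔ g.E x a ∨ g.E x b := by
  obtain ⟨d, hd⟩ := exists_upair a b
  obtain ⟨U, hU⟩ := exists_union d
  refine ⟨U, fun x => ?_⟩
  simp only [hU, hd]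
  constructor
  · rintro ⟨y, h, rfl | rfl⟩
    exacts [Or.inl h, Or.inr h]
  · rintro (h | h)
    exacts [⟨a, h, Or.inl rfl⟩, ⟨b, h, Or.inr rfl⟩]

theorem tm_congr {Γ : Type*} [Cd g Γ] {Q R : Γ → Prop} (h : g.Tm Q) (e : ∀ x, Q x ↔ R x) :
    g.Tm R := (h.df.congr e).tm

theorem code_fin {F : Set (g.Elt A)} (hF : F.Finite) :
    ∃ s : g.M, (∃ n f, g.E n g.om ∧ IsInj g.E f s n) ∧ ∀ x : g.Elt A, g.E x.1 s ↔ x ∈ F := by
  obtain ⟨n, s, f, h₁, h₂, h₃⟩ := exists_fin (hF.image Subtype.val)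
  refine ⟨s, ⟨n, f, h₁, h₃⟩, fun x => (h₂ _).trans ?_⟩
  exact Subtype.val_injective.mem_set_image

/-- Quantification over finite sets is definable. -/
theorem tm_exFin {Γ : Type*} [Cd g Γ] {Q : Γ → Set (g.Elt A) → Prop}
    (h : g.Tm fun z : Γ × g.M => Q z.1 {x | g.E x.1 z.2}) :
    g.Tm fun z : Γ => ∃ F : Set (g.Elt A), F.Finite ∧ Q z F := by
  have h₁ : g.Tm fun z : Γ × g.M => ∃ n f, g.E n g.om ∧ IsInj g.E f z.2 n := by fun_prop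
  refine tm_congr (tm_ex (Q := fun (z : Γ) (s : g.M) => (∃ n f, g.E n g.om ∧ IsInj g.E f s n) ∧
    Q z {x | g.E x.1 s}) (tm_and h₁ h)) fun z => ⟨?_, ?_⟩
  · rintro ⟨s, ⟨n, f, hn, hf⟩, hQ⟩
    exact ⟨_, (fin_of_inj hn hf).preimage Subtype.val_injective.injOn, hQ⟩
  · rintro ⟨F, hF, hQ⟩
    obtain ⟨s, hs, e⟩ := code_fin hF
    refine ⟨s, hs, ?_⟩
    rwa [show {x : g.Elt A | g.E x.1 s} = F from Set.ext e]

end TCptX

open TCptX in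
theorem exists_space {Eb : g.Elt A → g.Elt A → Prop}
    (hE : g.Tm fun z : g.Elt A × g.Elt A => Eb z.1 z.2) :
    ∃ X S, Sp g Eb X S ∧ IsTop g.E X S := by
  obtain ⟨X₀, hX₀⟩ := tm_image (g := g) (Γ := g.Elt A) (Q := fun _ => True) (f := ptM g)
    (by fun_prop) (by fun_prop)
  obtain ⟨I, hI⟩ := exists_upair (infM g) (infM g)
  obtain ⟨X, hX⟩ := exists_union2 I X₀
  obtain ⟨W, hW⟩ := exists_power X
  have h₁ : g.Tm fun U : g.M => ∃ F : Set (g.Elt A), F.Finite ∧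
      ∀ x, x ∉ F → (∀ d ∈ F, ¬ Eb d x) → g.E (ptM g x) U := by
    refine tm_exFin ?_
    simp only [Set.mem_ofPred_eq]
    fun_prop
  obtain ⟨S, hS⟩ := tm_sep (Q := fun U => g.E (infM g) U → ∃ F : Set (g.Elt A), F.Finite ∧
    ∀ x, x ∉ F → (∀ d ∈ F, ¬ Eb d x) → g.E (ptM g x) U) (tm_imp (by fun_prop) h₁) W
  have mem : ∀ y, g.E y X ↔ y = infM g ∨ ∃ x : g.Elt A, y = ptM g x := fun y => by
    simp only [hX, hI, hX₀, or_self, true_and, eq_comm]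
  simp only [hW] at hS
  refine ⟨X, S, ⟨mem, fun U => (hS U).trans (and_congr_right fun _ => imp_congr_right fun _ =>
    ⟨fun ⟨F, hF, h⟩ => ⟨F, F, hF, hF, h⟩, fun ⟨F, D, hF, hD, h⟩ => ⟨F ∪ D, hF.union hD,
      fun x h₂ h₃ => h x (fun h₄ => h₂ (Or.inl h₄)) fun d hd => h₃ d (Or.inr hd)⟩⟩)⟩,
    fun U hU => ((hS U).1 hU).1, (hS X).2 ⟨fun _ h => h, fun _ =>
      ⟨∅, Set.finite_empty, fun x _ _ => (mem _).2 (Or.inr ⟨x, rfl⟩)⟩⟩, fun C hC => ?_,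
    fun U V hU hV => ?_⟩
  · obtain ⟨Z, hZ⟩ := exists_union C
    refine ⟨Z, (hS Z).2 ⟨fun y hy => ?_, fun h => ?_⟩, fun x => by simp only [hZ, and_comm]⟩
    · obtain ⟨U, h₂, h₃⟩ := (hZ y).1 hy
      exact ((hS U).1 (hC U h₃)).1 y h₂
    · obtain ⟨U, h₂, h₃⟩ := (hZ _).1 h
      obtain ⟨F, hF, h₄⟩ := ((hS U).1 (hC U h₃)).2 h₂
      exact ⟨F, hF, fun x a b => (hZ _).2 ⟨U, h₄ x a b, h₃⟩⟩
  · obtain ⟨Z, hZ⟩ := tm_sep (Q := fun y => g.E y V) (by fun_prop) U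
    refine ⟨Z, (hS Z).2 ⟨fun y hy => ((hS U).1 hU).1 y ((hZ y).1 hy).1, fun h => ?_⟩, hZ⟩
    obtain ⟨F, hF, h₂⟩ := ((hS U).1 hU).2 ((hZ _).1 h).1
    obtain ⟨D, hD, h₃⟩ := ((hS V).1 hV).2 ((hZ _).1 h).2
    exact ⟨F ∪ D, hF.union hD, fun x a b => (hZ _).2
      ⟨h₂ x (fun c => a (Or.inl c)) fun d c => b d (Or.inl c),
        h₃ x (fun c => a (Or.inr c)) fun d c => b d (Or.inr c)⟩⟩

/-- The values at level `j + 1` of the points of the class `(d, j, c)` that satisfy `Q`. -/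
def Vals {T : Type*} (Eb : T → T → Prop) (κ : T → T → ℕ → ℕ) (Q : T → Prop) (d : T) (j c : ℕ) :
    Set ℕ := {v | ∃ x, Eb d x ∧ κ d x j = c ∧ Q x ∧ κ d x (j + 1) = v}

namespace TCptX

theorem nd_inj {d d' : g.Elt A} {j c j' c' : ℕ} (h : ndM g d j c = ndM g d' j' c') :
    d = d' ∧ j = j' ∧ c = c' := by
  unfold ndM at h
  simp only [pr_inj, nat_inj.eq_iff, true_and] at h
  exact ⟨Subtype.ext h.1, h.2⟩

theorem nd_ne_pt (d x : g.Elt A) (j c : ℕ) : ndM g d j c ≠ ptM g x := fun h => by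
  unfold ndM ptM at h
  exact absurd (nat_inj (pr_inj.1 h).1) (by omega)

theorem nd_ne_inf (d : g.Elt A) (j c : ℕ) : ndM g d j c ≠ infM g := fun h => by
  unfold ndM infM at h
  exact absurd (nat_inj (pr_inj.1 h).1) (by omega)

section Defs

variable (Eb : g.Elt A → g.Elt A → Prop) (κ : g.Elt A → g.Elt A → ℕ → ℕ)

/-- The class `(d, j, c)` has infinitely many children. -/
def Esc (d : g.Elt A) (j c : ℕ) : Prop := (Vals Eb κ (fun _ => True) d j c).Infinite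

/-- `y` is the point `x` or a node of level at least `j` on its branch. -/
def Wit (d : g.Elt A) (j : ℕ) (x : g.Elt A) (y : g.M) : Prop :=
  Eb d x ∧ (y = ptM g x ∨ ∃ j', j ≤ j' ∧ Esc Eb κ d j' (κ d x j') ∧ y = ndM g d j' (κ d x j'))

/-- `y` is in the closure of the class `(d, j, c)`. -/
def Inn (d : g.Elt A) (j c : ℕ) (y : g.M) : Prop := ∃ x, κ d x j = c ∧ Wit Eb κ d j x y

/-- The points of the compactification. -/
def InK (y : g.M) : Prop :=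
  y = infM g ∨ (∃ x : g.Elt A, y = ptM g x) ∨ ∃ d j c, Esc Eb κ d j c ∧ y = ndM g d j c

/-- The basic neighbourhoods of infinity. -/
def Oi (F : Set (g.Elt A)) (y : g.M) : Prop :=
  InK Eb κ y ∧ ∀ x ∈ F, y ≠ ptM g x ∧ ¬ Inn Eb κ x 0 0 y

/-- The basic neighbourhoods of a node. -/
def On (d : g.Elt A) (j c m : ℕ) (y : g.M) : Prop :=
  Inn Eb κ d j c y ∧ ∀ c', c' < m → ¬ Inn Eb κ d (j + 1) c' y

/-- Open classes. -/
def Opn (V : g.M → Prop) : Prop :=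
  (V (infM g) → ∃ F : Set (g.Elt A), F.Finite ∧ ∀ y, Oi Eb κ F y → V y) ∧
    ∀ d j c, Esc Eb κ d j c → V (ndM g d j c) → ∃ m, ∀ y, On Eb κ d j c m y → V y

/-- The combinatorial hypotheses. -/
structure Hy : Prop where
  ad : ∀ d d', d ≠ d' → {x | Eb d x ∧ Eb d' x}.Finite
  h₀ : ∀ d x, κ d x 0 = 0
  cum : ∀ d x y j, Eb d x → Eb d y → κ d x (j + 1) = κ d y (j + 1) → κ d x j = κ d y j
  wf : ∀ d (s : ℕ → ℕ), ∃ k, {x | Eb d x ∧ ∀ j < k, κ d x j = s j}.Finite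

end Defs

variable {Eb : g.Elt A → g.Elt A → Prop} {κ : g.Elt A → g.Elt A → ℕ → ℕ}
  {d d' x x' : g.Elt A} {i j c c' m : ℕ} {y : g.M}

theorem vals_inf {Q : g.Elt A → Prop} : (Vals Eb κ Q d j c).Infinite ↔
    ∀ m, ∃ x, Eb d x ∧ κ d x j = c ∧ Q x ∧ m < κ d x (j + 1) := by
  rw [Set.infinite_iff_exists_gt]
  exact forall_congr' fun m => ⟨fun ⟨_, ⟨x, h₁, h₂, h₃, rfl⟩, h⟩ => ⟨x, h₁, h₂, h₃, h⟩,
    fun ⟨x, h₁, h₂, h₃, h⟩ => ⟨_, ⟨x, h₁, h₂, h₃, rfl⟩, h⟩⟩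

theorem Hy.cum' (H : Hy Eb κ) (hx : Eb d x) (hx' : Eb d x') (hij : i ≤ j)
    (h : κ d x j = κ d x' j) : κ d x i = κ d x' i := by
  induction j, hij using Nat.le_induction with
  | base => exact h
  | succ n _ ih => exact ih (H.cum _ _ _ _ hx hx' h)

theorem Wit.mono (h : Wit Eb κ d j x y) (hij : i ≤ j) : Wit Eb κ d i x y :=
  ⟨h.1, h.2.imp id fun ⟨k, a, b⟩ => ⟨k, hij.trans a, b⟩⟩

theorem Wit.pt (h : Eb d x) (j : ℕ) : Wit Eb κ d j x (ptM g x) := ⟨h, Or.inl rfl⟩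

theorem Wit.nd (h : Eb d x) (e : κ d x j = c) (hE : Esc Eb κ d j c) :
    Wit Eb κ d j x (ndM g d j c) := ⟨h, Or.inr ⟨j, le_rfl, e ▸ hE, e ▸ rfl⟩⟩

theorem Hy.wit_uniq (H : Hy Eb κ) (h : Wit Eb κ d i x y) (h' : Wit Eb κ d i x' y) :
    κ d x i = κ d x' i := by
  rcases h with ⟨a, rfl | ⟨k, a₁, -, rfl⟩⟩
  · rcases h' with ⟨-, e | ⟨k', -, -, e⟩⟩
    · rw [ptM_inj e]
    · exact absurd e.symm (nd_ne_pt _ _ _ _)
  · rcases h' with ⟨b, e | ⟨k', -, -, e⟩⟩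
    · exact absurd e (nd_ne_pt _ _ _ _)
    · obtain ⟨-, rfl, e'⟩ := nd_inj e
      exact H.cum' a b a₁ e'

theorem Hy.inn_iff (H : Hy Eb κ) (h : Wit Eb κ d j x y) (hij : i ≤ j) :
    Inn Eb κ d i c y ↔ κ d x i = c :=
  ⟨fun ⟨_, e, h'⟩ => (H.wit_uniq (h.mono hij) h').trans e, fun e => ⟨x, e, h.mono hij⟩⟩

theorem inn_pt : Inn Eb κ d j c (ptM g x) ↔ Eb d x ∧ κ d x j = c := by
  refine ⟨?_, fun h => ⟨x, h.2, Wit.pt h.1 j⟩⟩
  rintro ⟨x', e, a, b | ⟨k, -, -, b⟩⟩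
  · rw [ptM_inj b]
    exact ⟨a, e⟩
  · exact absurd b.symm (nd_ne_pt _ _ _ _)

theorem not_inn_inf : ¬ Inn Eb κ d j c (infM g) := by
  rintro ⟨x', -, -, b | ⟨k, -, -, b⟩⟩
  exacts [ptM_ne_infM _ b.symm, nd_ne_inf _ _ _ b.symm]

theorem inn_nd (h : Inn Eb κ d i c (ndM g d' j c')) : d = d' ∧ i ≤ j := by
  obtain ⟨x', -, -, b | ⟨k, a, -, b⟩⟩ := h
  · exact absurd b (nd_ne_pt _ _ _ _)
  · obtain ⟨rfl, rfl, -⟩ := nd_inj b
    exact ⟨rfl, a⟩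

theorem Esc.wit (h : Esc Eb κ d j c) : ∃ x, κ d x j = c ∧ Wit Eb κ d j x (ndM g d j c) := by
  obtain ⟨x, h₁, h₂, -⟩ := vals_inf.1 h 0
  exact ⟨x, h₂, Wit.nd h₁ h₂ h⟩

theorem Inn.inK (h : Inn Eb κ d j c y) : InK Eb κ y := by
  obtain ⟨x, -, -, b | ⟨k, -, a, b⟩⟩ := h
  exacts [Or.inr (Or.inl ⟨x, b⟩), Or.inr (Or.inr ⟨_, _, _, a, b⟩)]

theorem Hy.inn_zero (H : Hy Eb κ) (h : Inn Eb κ d j c y) : Inn Eb κ d 0 0 y :=
  let ⟨x, _, b⟩ := h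
  ⟨x, H.h₀ _ _, b.mono (Nat.zero_le _)⟩

/-- Below the level of a node, the points of its class lie in the same classes as the node. -/
theorem Hy.nest (H : Hy Eb κ) (hE : Esc Eb κ d j c) (h : Inn Eb κ d j c y) (hij : i ≤ j) :
    Inn Eb κ d i c' y ↔ Inn Eb κ d i c' (ndM g d j c) := by
  obtain ⟨x, e, hx⟩ := h
  rw [H.inn_iff hx hij, H.inn_iff (Wit.nd hx.1 e hE) hij]

theorem On.self (hE : Esc Eb κ d j c) : On Eb κ d j c m (ndM g d j c) :=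
  ⟨hE.wit, fun _ _ h => absurd (inn_nd h).2 (by omega)⟩

theorem on_pt (h₁ : Eb d x) (h₂ : κ d x j = c) (h₃ : m < κ d x (j + 1)) :
    On Eb κ d j c m (ptM g x) :=
  ⟨inn_pt.2 ⟨h₁, h₂⟩, fun _ a b => by have := (inn_pt.1 b).2; omega⟩

theorem On.anti {m' : ℕ} (h : On Eb κ d j c m y) (hm : m' ≤ m) : On Eb κ d j c m' y :=
  ⟨h.1, fun c' a => h.2 c' (a.trans_le hm)⟩

theorem Oi.anti {F F' : Set (g.Elt A)} (h : Oi Eb κ F y) (hF : F' ⊆ F) : Oi Eb κ F' y :=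
  ⟨h.1, fun x a => h.2 x (hF a)⟩

theorem Hy.opn_On (H : Hy Eb κ) : Opn Eb κ (On Eb κ d j c m) := by
  refine ⟨fun h => absurd h.1 not_inn_inf, fun d' j' c' hE h => ?_⟩
  obtain ⟨rfl, hj⟩ := inn_nd h.1
  rcases hj.eq_or_lt with rfl | hj'
  · obtain ⟨x, e, hx⟩ := hE.wit
    obtain rfl : c' = c := e.symm.trans ((H.inn_iff hx le_rfl).1 h.1)
    exact ⟨m, fun _ hy => hy⟩
  · exact ⟨0, fun y hy => ⟨(H.nest hE hy.1 hj).2 h.1, fun k a b =>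
      h.2 k a ((H.nest hE hy.1 hj').1 b)⟩⟩

/-- A node has a neighbourhood that misses a given finite set of points. -/
theorem on_avoid {B : Set (g.Elt A)} (hB : B.Finite) (d : g.Elt A) (j c : ℕ) :
    ∃ m, ∀ x ∈ B, ¬ On Eb κ d j c m (ptM g x) := by
  obtain ⟨m, hm⟩ := (hB.image fun x => κ d x (j + 1)).bddAbove
  exact ⟨m + 1, fun x hx h => h.2 _ (Nat.lt_succ_of_le (hm ⟨x, hx, rfl⟩))
    (inn_pt.2 ⟨(inn_pt.1 h.1).1, rfl⟩)⟩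

theorem Hy.opn_Oi (H : Hy Eb κ) {F : Set (g.Elt A)} (hF : F.Finite) : Opn Eb κ (Oi Eb κ F) := by
  refine ⟨fun _ => ⟨F, hF, fun _ h => h⟩, fun d j c hE h => ?_⟩
  have hd : ∀ d' ∈ F, d ≠ d' := by
    rintro _ a rfl
    exact (h.2 _ a).2 (H.inn_zero hE.wit)
  obtain ⟨m, hm⟩ := on_avoid (Eb := Eb) (κ := κ) (hF.union (hF.biUnion
    (t := fun d' => {x | Eb d x ∧ Eb d' x}) fun d' a => H.ad _ _ (hd d' a))) d j c
  refine ⟨m, fun y hy => ⟨hy.1.inK, fun d' a => ⟨?_, fun b => ?_⟩⟩⟩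
  · rintro rfl
    exact hm _ (Or.inl a) hy
  · obtain ⟨x, -, a₁, rfl | ⟨k, -, -, rfl⟩⟩ := hy.1
    · exact hm x (Or.inr (Set.mem_biUnion a ⟨a₁, (inn_pt.1 b).1⟩)) hy
    · exact hd _ a (inn_nd b).1.symm

theorem opn_pt : Opn Eb κ (fun y => y = ptM g x) :=
  ⟨fun h => absurd h.symm (ptM_ne_infM _), fun _ _ _ _ h => absurd h (nd_ne_pt _ _ _ _)⟩

theorem opn_not_pt : Opn Eb κ (fun y => InK Eb κ y ∧ ¬ y = ptM g x) := by
  refine ⟨fun _ => ⟨{x}, Set.finite_singleton _, fun y h => ⟨h.1, (h.2 x rfl).1⟩⟩,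
    fun d j c _ _ => ?_⟩
  obtain ⟨m, hm⟩ := on_avoid (Eb := Eb) (κ := κ) (Set.finite_singleton x) d j c
  exact ⟨m, fun y hy => ⟨hy.1.inK, fun e => hm x rfl (e ▸ hy)⟩⟩

theorem Hy.opn_inn (H : Hy Eb κ) : Opn Eb κ (Inn Eb κ d j c) := by
  have := H.opn_On (d := d) (j := j) (c := c) (m := 0)
  rwa [show On Eb κ d j c 0 = Inn Eb κ d j c from funext fun y => by simp [On]] at this

theorem Hy.opn_not_inn (H : Hy Eb κ) (hE : Esc Eb κ d j c) :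
    Opn Eb κ (fun y => InK Eb κ y ∧ ¬ Inn Eb κ d j c y) := by
  refine ⟨fun _ => ⟨{d}, Set.finite_singleton _, fun y h =>
    ⟨h.1, fun a => (h.2 d rfl).2 (H.inn_zero a)⟩⟩, fun d' j' c' hE' h => ?_⟩
  by_cases hd : d = d'
  · subst hd
    rcases le_or_gt j j' with hj | hj
    · exact ⟨0, fun y hy => ⟨hy.1.inK, fun a => h.2 ((H.nest hE' hy.1 hj).1 a)⟩⟩
    · obtain ⟨x, -, hx⟩ := hE.wit
      exact ⟨κ d x (j' + 1) + 1, fun y hy => ⟨hy.1.inK, fun a => hy.2 _ (Nat.lt_succ_self _)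
        ((H.nest hE a hj).2 ((H.inn_iff hx hj).2 rfl))⟩⟩
  · obtain ⟨m, hm⟩ := (H.opn_Oi (Set.finite_singleton d)).2 d' j' c' hE'
      ⟨h.1, by
        rintro _ rfl
        exact ⟨nd_ne_pt _ _ _ _, fun a => hd (inn_nd a).1⟩⟩
    exact ⟨m, fun y hy => ⟨hy.1.inK, fun a => ((hm y hy).2 d rfl).2 (H.inn_zero a)⟩⟩

section Cover

variable {C : g.M}

/-- The class `Q` is covered by finitely many members of `C`. -/
def Cov (C : g.M) (Q : g.M → Prop) : Prop :=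
  ∃ D : Set g.M, D.Finite ∧ (∀ U ∈ D, g.E U C) ∧ ∀ y, Q y → ∃ U ∈ D, g.E y U

theorem Cov.mono {Q R : g.M → Prop} (h : Cov C Q) (e : ∀ y, R y → Q y) : Cov C R :=
  let ⟨D, a, b, c⟩ := h
  ⟨D, a, b, fun y hy => c y (e y hy)⟩

theorem Cov.one {U : g.M} (h : g.E U C) : Cov C (fun y => g.E y U) :=
  ⟨{U}, Set.finite_singleton _, fun _ e => e ▸ h, fun _ hy => ⟨U, rfl, hy⟩⟩

theorem Cov.or {Q R : g.M → Prop} (h : Cov C Q) (h' : Cov C R) : Cov C (fun y => Q y ∨ R y) := by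
  obtain ⟨D, a, b, c⟩ := h
  obtain ⟨D', a', b', c'⟩ := h'
  refine ⟨D ∪ D', a.union a', fun U hU => hU.elim (b U) (b' U), fun y hy => ?_⟩
  rcases hy with hy | hy
  · obtain ⟨U, h₁, h₂⟩ := c y hy
    exact ⟨U, Or.inl h₁, h₂⟩
  · obtain ⟨U, h₁, h₂⟩ := c' y hy
    exact ⟨U, Or.inr h₁, h₂⟩

theorem Cov.fin {I : Type*} {s : Set I} (hs : s.Finite) {Q : I → g.M → Prop}
    (h : ∀ i ∈ s, Cov C (Q i)) : Cov C (fun y => ∃ i ∈ s, Q i y) := by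
  choose! D a b c using h
  refine ⟨⋃ i ∈ s, D i, hs.biUnion a, fun U hU => ?_, fun y ⟨i, hi, hy⟩ => ?_⟩
  · obtain ⟨i, hi, hU⟩ := Set.mem_iUnion₂.1 hU
    exact b i hi U hU
  · obtain ⟨U, h₁, h₂⟩ := c i hi y hy
    exact ⟨U, Set.mem_biUnion hi h₁, h₂⟩

variable (H : Hy Eb κ) (hC : ∀ U, g.E U C → Opn Eb κ (fun y => g.E y U))
  (cov : ∀ y, InK Eb κ y → ∃ U, g.E U C ∧ g.E y U)

include cov in
theorem cov_pts {B : Set (g.Elt A)} (hB : B.Finite) : Cov C (fun y => ∃ x ∈ B, y = ptM g x) :=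
  Cov.fin hB fun x _ => by
    obtain ⟨U, h₁, h₂⟩ := cov _ (Or.inr (Or.inl ⟨x, rfl⟩))
    exact (Cov.one h₁).mono fun y e => e ▸ h₂

include H hC cov in
theorem cov_step (h : ∀ v ∈ Vals Eb κ (fun _ => True) d j c, Cov C (Inn Eb κ d (j + 1) v)) :
    Cov C (Inn Eb κ d j c) := by
  by_cases hE : Esc Eb κ d j c
  · obtain ⟨U, h₁, h₂⟩ := cov _ (Or.inr (Or.inr ⟨d, j, c, hE, rfl⟩))
    obtain ⟨m, hm⟩ := (hC U h₁).2 d j c hE h₂
    refine ((Cov.one h₁).or (Cov.fin ((Set.finite_lt_nat m).inter_of_right _)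
      fun v hv => h v hv.1)).mono fun y hy => ?_
    by_cases a : ∃ v, v < m ∧ Inn Eb κ d (j + 1) v y
    · obtain ⟨v, a₁, x, e, hx⟩ := a
      exact Or.inr ⟨v, ⟨⟨x, hx.1, (H.inn_iff hx (Nat.le_succ j)).1 hy, trivial, e⟩, a₁⟩, x, e, hx⟩
    · exact Or.inl (hm y ⟨hy, fun v a₁ a₂ => a ⟨v, a₁, a₂⟩⟩)
  · refine (Cov.fin (Set.not_infinite.1 hE) h).mono ?_
    rintro y ⟨x, e, a, b⟩
    refine ⟨_, ⟨x, a, e, trivial, rfl⟩, x, rfl, a, b.imp id fun ⟨k, b₁, b₂⟩ => ⟨k, ?_, b₂⟩⟩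
    rcases b₁.eq_or_lt with rfl | b₃
    exacts [absurd (e ▸ b₂.1) hE, b₃]

include H hC cov in
theorem cov_root (d : g.Elt A) : Cov C (Inn Eb κ d 0 0) := by
  by_contra hn
  have step : ∀ j c, ∃ v, ¬ Cov C (Inn Eb κ d j c) →
      v ∈ Vals Eb κ (fun _ => True) d j c ∧ ¬ Cov C (Inn Eb κ d (j + 1) v) := fun j c => by
    by_contra h
    push Not at h
    exact (h 0).1 (cov_step H hC cov fun v hv => (h v).2 hv)
  choose f hf using step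
  let s : ℕ → ℕ := fun n => Nat.rec 0 f n
  have bad : ∀ n, ¬ Cov C (Inn Eb κ d n (s n)) := fun n => by
    induction n with
    | zero => exact hn
    | succ n ih => exact (hf n (s n) ih).2
  have down : ∀ x, Eb d x → ∀ k, κ d x k = s k → ∀ j < k, κ d x j = s j := by
    intro x hx k
    induction k with
    | zero => exact fun _ j hj => absurd hj (Nat.not_lt_zero _)
    | succ k ih =>
      intro e j hj
      obtain ⟨x', a₁, a₂, -, a₃⟩ := (hf k (s k) (bad k)).1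
      have e' : κ d x k = s k := (H.cum d x x' k hx a₁ (e.trans a₃.symm)).trans a₂
      rcases (Nat.lt_succ_iff.1 hj).eq_or_lt with rfl | hj'
      exacts [e', ih e' j hj']
  obtain ⟨k, hk⟩ := H.wf d s
  refine bad k ((cov_pts cov hk).mono ?_)
  rintro y ⟨x, e, a, rfl | ⟨k', b₁, b₂, -⟩⟩
  · exact ⟨x, ⟨a, down x a k e⟩, rfl⟩
  · refine absurd ((hk.image fun x => κ d x (k' + 1)).subset ?_) b₂
    rintro _ ⟨x', a₁, a₂, -, rfl⟩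
    exact ⟨x', ⟨a₁, down x' a₁ k ((H.cum' a₁ a b₁ a₂).trans e)⟩, rfl⟩

include H hC cov in
theorem cov_all : Cov C (InK Eb κ) := by
  obtain ⟨U, h₁, h₂⟩ := cov _ (Or.inl rfl)
  obtain ⟨F, hF, h⟩ := (hC U h₁).1 h₂
  refine ((Cov.one h₁).or ((cov_pts cov hF).or
    (Cov.fin hF fun d _ => cov_root H hC cov d))).mono fun y hy => ?_
  by_contra a
  push Not at a
  exact a.1 (h y ⟨hy, fun x hx => ⟨a.2.1 x hx, a.2.2 x hx⟩⟩)

end Cover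

section Def

variable (hE : g.Tm fun z : g.Elt A × g.Elt A => Eb z.1 z.2)
  (hκ : g.Tm fun z : g.Elt A × g.Elt A × ℕ => κ z.1 z.2.1 z.2.2)

theorem tm_nd : g.Tm fun z : g.Elt A × ℕ × ℕ => ndM g z.1 z.2.1 z.2.2 := by
  unfold ndM
  fun_prop

include hE hκ

theorem tm_esc : g.Tm fun z : g.Elt A × ℕ × ℕ => Esc Eb κ z.1 z.2.1 z.2.2 := by
  simp only [Esc, vals_inf]
  fun_prop

theorem tm_inn : g.Tm fun z : g.Elt A × ℕ × ℕ × g.M => Inn Eb κ z.1 z.2.1 z.2.2.1 z.2.2.2 := by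
  have h₁ := tm_esc hE hκ
  have h₂ := tm_nd (g := g) (A := A)
  unfold Inn Wit
  fun_prop

theorem tm_inK : g.Tm (InK Eb κ) := by
  have h₁ := tm_esc hE hκ
  have h₂ := tm_nd (g := g) (A := A)
  unfold InK
  fun_prop

theorem tm_on : g.Tm fun z : g.Elt A × ℕ × ℕ × ℕ × g.M =>
    On Eb κ z.1 z.2.1 z.2.2.1 z.2.2.2.1 z.2.2.2.2 := by
  have h₁ := tm_inn hE hκ
  unfold On
  fun_prop

theorem tm_oi : g.Tm fun z : g.M × g.M => Oi Eb κ {x | g.E x.1 z.1} z.2 := by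
  have h₁ := tm_inn hE hκ
  have h₂ := tm_inK hE hκ
  simp only [Oi, Set.mem_ofPred_eq]
  fun_prop

theorem tm_opn : g.Tm fun V : g.M => Opn Eb κ (fun y => g.E y V) := by
  have h₁ := tm_esc hE hκ
  have h₂ := tm_nd (g := g) (A := A)
  have h₃ := tm_on hE hκ
  have h₄ := tm_inn hE hκ
  have h₅ := tm_inK hE hκ
  refine tm_and (tm_imp (by fun_prop) (tm_exFin ?_)) (by fun_prop)
  simp only [Oi, Set.mem_ofPred_eq]
  fun_prop

end Def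

end TCptX

open TCptX in
/-- The tree compactification given by `κ`. -/
theorem exists_cpt {Eb : g.Elt A → g.Elt A → Prop}
    (hE : g.Tm fun z : g.Elt A × g.Elt A => Eb z.1 z.2)
    (ad : ∀ d d', d ≠ d' → {x | Eb d x ∧ Eb d' x}.Finite) (hX : Sp g Eb X S)
    (κ : g.Elt A → g.Elt A → ℕ → ℕ)
    (hκ : g.Tm fun z : g.Elt A × g.Elt A × ℕ => κ z.1 z.2.1 z.2.2)
    (h₀ : ∀ d x, κ d x 0 = 0)
    (cum : ∀ d x y j, Eb d x → Eb d y → κ d x (j + 1) = κ d y (j + 1) → κ d x j = κ d y j)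
    (wf : ∀ d (s : ℕ → ℕ), ∃ k, {x | Eb d x ∧ ∀ j < k, κ d x j = s j}.Finite) :
    ∃ K T, IsCpt g.E g.om X S K T X ∧
      (∀ y, g.E y K ↔ g.E y X ∨
        ∃ d j c, (Vals Eb κ (fun _ => True) d j c).Infinite ∧ y = ndM g d j c) ∧
      ∀ d j c (Q : g.Elt A → Prop), (Vals Eb κ (fun _ => True) d j c).Infinite →
        (Cl g T (fun y => y = infM g ∨ ∃ x, Q x ∧ y = ptM g x) (ndM g d j c) ↔
          (Vals Eb κ Q d j c).Infinite) := by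
  have H : Hy Eb κ := ⟨ad, h₀, cum, wf⟩
  have t₁ := tm_esc hE hκ
  have t₂ := tm_nd (g := g) (A := A)
  have t₃ := tm_on hE hκ
  have t₄ := tm_inn hE hκ
  have t₅ := tm_inK hE hκ
  obtain ⟨N, hN⟩ := tm_image (g := g) (Γ := g.Elt A × ℕ × ℕ) t₁ t₂
  obtain ⟨K, hK'⟩ := exists_union2 X N
  have hK₁ : ∀ y, g.E y K ↔ g.E y X ∨ ∃ d j c, Esc Eb κ d j c ∧ y = ndM g d j c := fun y =>
    (hK' y).trans (or_congr_right ((hN y).trans ⟨fun ⟨z, a, b⟩ => ⟨_, _, _, a, b.symm⟩,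
      fun ⟨d, j, c, a, b⟩ => ⟨(d, j, c), a, b.symm⟩⟩))
  have hK : ∀ y, g.E y K ↔ InK Eb κ y := fun y => by rw [hK₁, hX.mem, InK, or_assoc]
  obtain ⟨W, hW⟩ := exists_power K
  obtain ⟨T, hT⟩ := tm_sep (tm_opn hE hκ) W
  simp only [hW] at hT
  have mk : ∀ Q : g.M → Prop, g.Tm Q → (∀ y, Q y → InK Eb κ y) → Opn Eb κ Q →
      ∃ V, g.E V T ∧ ∀ y, g.E y V ↔ Q y := fun Q a b c => by
    obtain ⟨V, hV⟩ := tm_sep a K
    have e : ∀ y, g.E y V ↔ Q y := fun y =>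
      (hV y).trans ⟨fun h => h.2, fun h => ⟨(hK y).2 (b y h), h⟩⟩
    refine ⟨V, (hT V).2 ⟨fun y hy => ((hV y).1 hy).1, ?_⟩, e⟩
    rwa [show (fun y => g.E y V) = Q from funext fun y => propext (e y)]
  have XK : ∀ y, g.E y X → g.E y K := fun y h => (hK₁ y).2 (Or.inl h)
  have ndX : ∀ d j c, ¬ g.E (ndM g (A := A) d j c) X := fun d j c h =>
    ((hX.mem _).1 h).elim (nd_ne_inf _ _ _) fun ⟨x, e⟩ => nd_ne_pt _ _ _ _ e
  have top : IsTop g.E K T := by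
    refine ⟨fun U hU => ((hT U).1 hU).1, (hT K).2 ⟨fun _ h => h, fun _ => ⟨∅, Set.finite_empty,
      fun y h => (hK y).2 h.1⟩, fun d j c _ _ => ⟨0, fun y h => (hK y).2 h.1.inK⟩⟩,
      fun C hC => ?_, fun U V hU hV => ?_⟩
    · obtain ⟨Z, hZ⟩ := exists_union C
      refine ⟨Z, (hT Z).2 ⟨fun y hy => ?_, fun h => ?_, fun d j c a h => ?_⟩,
        fun x => by simp only [hZ, and_comm]⟩
      · obtain ⟨U, h₂, h₃⟩ := (hZ y).1 hy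
        exact ((hT U).1 (hC U h₃)).1 y h₂
      · obtain ⟨U, h₂, h₃⟩ := (hZ _).1 h
        obtain ⟨F, hF, h₄⟩ := ((hT U).1 (hC U h₃)).2.1 h₂
        exact ⟨F, hF, fun y b => (hZ _).2 ⟨U, h₄ y b, h₃⟩⟩
      · obtain ⟨U, h₂, h₃⟩ := (hZ _).1 h
        obtain ⟨m, h₄⟩ := ((hT U).1 (hC U h₃)).2.2 d j c a h₂
        exact ⟨m, fun y b => (hZ _).2 ⟨U, h₄ y b, h₃⟩⟩
    · obtain ⟨Z, hZ⟩ := tm_sep (Q := fun y => g.E y V) (by fun_prop) U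
      refine ⟨Z, (hT Z).2 ⟨fun y hy => ((hT U).1 hU).1 y ((hZ y).1 hy).1, fun h => ?_,
        fun d j c a h => ?_⟩, hZ⟩
      · obtain ⟨F, hF, h₂⟩ := ((hT U).1 hU).2.1 ((hZ _).1 h).1
        obtain ⟨D, hD, h₃⟩ := ((hT V).1 hV).2.1 ((hZ _).1 h).2
        exact ⟨F ∪ D, hF.union hD, fun y b => (hZ _).2
          ⟨h₂ y (b.anti Set.subset_union_left), h₃ y (b.anti Set.subset_union_right)⟩⟩
      · obtain ⟨m, h₂⟩ := ((hT U).1 hU).2.2 d j c a ((hZ _).1 h).1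
        obtain ⟨m', h₃⟩ := ((hT V).1 hV).2.2 d j c a ((hZ _).1 h).2
        exact ⟨max m m', fun y b => (hZ _).2
          ⟨h₂ y (b.anti (le_max_left _ _)), h₃ y (b.anti (le_max_right _ _))⟩⟩
  have sep : ∀ (Q : g.M → Prop) (x y : g.M), g.Tm Q → (∀ y, Q y → InK Eb κ y) → Opn Eb κ Q →
      Opn Eb κ (fun y => InK Eb κ y ∧ ¬ Q y) → Q x → InK Eb κ y → ¬ Q y →
      (∃ U V, g.E U T ∧ g.E V T ∧ g.E x U ∧ g.E y V ∧ ∀ z, ¬ (g.E z U ∧ g.E z V)) ∧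
        ∃ U V, g.E U T ∧ g.E V T ∧ g.E y U ∧ g.E x V ∧ ∀ z, ¬ (g.E z U ∧ g.E z V) := by
    intro Q x y a₁ a₂ a₃ a₄ a₅ a₆ a₇
    obtain ⟨U, hU, eU⟩ := mk Q a₁ a₂ a₃
    obtain ⟨V, hV, eV⟩ := mk _ (tm_and t₅ (tm_not a₁)) (fun _ h => h.1) a₄
    exact ⟨⟨U, V, hU, hV, (eU _).2 a₅, (eV _).2 ⟨a₆, a₇⟩,
      fun z h => ((eV z).1 h.2).2 ((eU z).1 h.1)⟩, V, U, hV, hU, (eV _).2 ⟨a₆, a₇⟩, (eU _).2 a₅,
      fun z h => ((eV z).1 h.1).2 ((eU z).1 h.2)⟩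
  have sepP := fun (x : g.Elt A) (y : g.M) => sep (fun y => y = ptM g x) (ptM g x) y
    (by fun_prop) (fun _ h => Or.inr (Or.inl ⟨x, h⟩)) opn_pt opn_not_pt rfl
  have sepN := fun d j c (h : Esc Eb κ d j c) (y : g.M) => sep (Inn Eb κ d j c) (ndM g d j c) y
    (by fun_prop) (fun _ h => h.inK) H.opn_inn (H.opn_not_inn h) h.wit
  have sepNN : ∀ d j c d' j' c', Esc Eb κ d' j' c' → j' ≤ j → ndM g d j c ≠ ndM g d' j' c' →
      ¬ Inn Eb κ d j c (ndM g d' j' c') := fun d j c d' j' c' a b e h => by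
    obtain ⟨rfl, h₁⟩ := inn_nd h
    obtain rfl := le_antisymm b h₁
    obtain ⟨x, e', hx⟩ := a.wit
    exact e (by rw [← e', (H.inn_iff hx le_rfl).1 h])
  obtain ⟨e, he⟩ := tm_image (Γ := g.Elt X) (Q := fun _ => True) (f := fun x => pr x.1 x.1)
    (by fun_prop) (by fun_prop)
  have he' : ∀ p, g.E p e ↔ ∃ x, g.E x X ∧ pr x x = p := fun p =>
    (he p).trans ⟨fun ⟨x, _, e⟩ => ⟨x.1, x.2, e⟩, fun ⟨x, hx, e⟩ => ⟨⟨x, hx⟩, trivial, e⟩⟩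
  have app : ∀ x y, App g.E e x y ↔ g.E x X ∧ y = x := fun x y => by
    rw [app_iff, he']
    constructor
    · rintro ⟨z, hz, h⟩
      obtain ⟨rfl, rfl⟩ := pr_inj.1 h
      exact ⟨hz, rfl⟩
    · rintro ⟨h, rfl⟩
      exact ⟨y, h, rfl⟩
  refine ⟨K, T, ⟨⟨top, fun x y hx hy hxy => ?_, fun C hC cov => ?_⟩, fun V hV ⟨y, hy⟩ => ?_, e,
    isInj_of_graph (f := fun x => x) he' XK fun _ _ _ _ h => h, fun y => ?_, fun U => ?_⟩, hK₁,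
    fun d j c Q hd => ⟨fun h => ?_, fun h V hV hn => ?_⟩⟩
  · rw [hK] at hx hy
    rcases id hx with rfl | ⟨a, rfl⟩ | ⟨d, j, c, a, rfl⟩
    · rcases id hy with rfl | ⟨b, rfl⟩ | ⟨d, j, c, b, rfl⟩
      exacts [absurd rfl hxy, (sepP b _ hx hxy).2, (sepN d j c b _ hx not_inn_inf).2]
    · exact (sepP a _ hy hxy.symm).1
    · rcases id hy with rfl | ⟨b, rfl⟩ | ⟨d', j', c', b, rfl⟩
      · exact (sepN d j c a _ hy not_inn_inf).1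
      · exact (sepP b _ hx hxy).2
      · rcases le_total j' j with h | h
        · exact (sepN d j c a _ hy (sepNN _ _ _ _ _ _ b h hxy)).1
        · exact (sepN d' j' c' b _ hx (sepNN _ _ _ _ _ _ a h hxy.symm)).2
  · obtain ⟨D, h₁, h₂, h₃⟩ := cov_all H (fun U hU => ((hT U).1 (hC U hU)).2)
      fun y hy => cov y ((hK y).2 hy)
    obtain ⟨n, s, f, a₁, a₂, a₃⟩ := exists_fin h₁
    refine ⟨s, n, f, fun U hU => h₂ U ((a₂ U).1 hU), a₁, a₃, fun y hy => ?_⟩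
    obtain ⟨U, b₁, b₂⟩ := h₃ y ((hK y).1 hy)
    exact ⟨U, (a₂ U).2 b₁, b₂⟩
  · rcases (hK₁ y).1 (((hT V).1 hV).1 y hy) with h | ⟨d, j, c, a, rfl⟩
    · exact ⟨y, h, hy⟩
    · obtain ⟨m, hm⟩ := ((hT V).1 hV).2.2 d j c a hy
      obtain ⟨x, b₁, b₂, -, b₃⟩ := vals_inf.1 a m
      exact ⟨_, (hX.mem _).2 (Or.inr ⟨x, rfl⟩), hm _ (on_pt b₁ b₂ b₃)⟩
  · simp only [app]
    exact ⟨fun h => ⟨y, h, rfl⟩, fun ⟨x, h, e⟩ => e ▸ h⟩
  · rw [hX.opn]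
    refine and_congr_right fun hU => ⟨fun h => ?_, fun ⟨V, hV, h⟩ hi => ?_⟩
    · by_cases hi : g.E (infM g) U
      · obtain ⟨F, D, hF, hD, h⟩ := h hi
        obtain ⟨s, -, hs⟩ := code_fin (hF.union hD)
        have e₁ : {x : g.Elt A | g.E x.1 s} = F ∪ D := Set.ext hs
        have t₆ : g.Tm (Oi Eb κ (F ∪ D)) :=
          e₁ ▸ Tm.comp (f := fun y : g.M => (s, y)) (tm_oi hE hκ) (by fun_prop)
        have o := H.opn_Oi (hF.union hD)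
        obtain ⟨V, hV, eV⟩ := mk (fun y => g.E y U ∨ Oi Eb κ (F ∪ D) y)
          (tm_or (by fun_prop) t₆) (fun y hy => hy.elim (fun a => (hK y).1 (XK y (hU y a)))
            fun a => a.1) ⟨fun _ => ⟨_, hF.union hD, fun y a => Or.inr a⟩, fun d j c a b => by
              obtain ⟨m, hm⟩ := o.2 d j c a (b.resolve_left fun b' => ndX _ _ _ (hU _ b'))
              exact ⟨m, fun y hy => Or.inr (hm y hy)⟩⟩
        refine ⟨V, hV, fun x y hxy => ?_⟩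
        obtain ⟨hx, rfl⟩ := (app _ _).1 hxy
        refine ⟨fun a => (eV _).2 (Or.inl a), fun a => ((eV _).1 a).elim id fun b => ?_⟩
        rcases (hX.mem _).1 hx with rfl | ⟨x, rfl⟩
        · exact hi
        · exact h x (fun c => (b.2 x (Or.inl c)).1 rfl) fun d c c' =>
            (b.2 d (Or.inr c)).2 (inn_pt.2 ⟨c', h₀ _ _⟩)
      · refine ⟨U, (hT U).2 ⟨fun y hy => XK y (hU y hy), fun a => absurd a hi,
          fun d j c _ b => absurd (hU _ b) (ndX _ _ _)⟩, fun x y hxy => ?_⟩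
        rw [((app _ _).1 hxy).2]
    · have iX : g.E (infM g) X := (hX.mem _).2 (Or.inl rfl)
      obtain ⟨F, hF, hF'⟩ := ((hT V).1 hV).2.1 ((h _ _ ((app _ _).2 ⟨iX, rfl⟩)).1 hi)
      refine ⟨F, F, hF, hF, fun x a b => ?_⟩
      refine (h _ _ ((app _ _).2 ⟨(hX.mem _).2 (Or.inr ⟨x, rfl⟩), rfl⟩)).2
        (hF' _ ⟨Or.inr (Or.inl ⟨x, rfl⟩), fun d c => ⟨fun e' => ?_, fun e' => ?_⟩⟩)
      exacts [a (ptM_inj e' ▸ c), b d c (inn_pt.1 e').1]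
  · refine vals_inf.2 fun m => ?_
    obtain ⟨V, hV, eV⟩ := mk (On Eb κ d j c (m + 1)) (by fun_prop) (fun _ a => a.1.inK) H.opn_On
    obtain ⟨y, rfl | ⟨x, a, rfl⟩, b⟩ := h V hV ((eV _).2 (On.self hd))
    · exact absurd ((eV _).1 b).1 not_inn_inf
    · obtain ⟨b₁, b₂⟩ := (eV _).1 b
      obtain ⟨b₃, b₄⟩ := inn_pt.1 b₁
      exact ⟨x, b₃, b₄, a, lt_of_not_ge fun c => b₂ _ (Nat.lt_succ_of_le c) (inn_pt.2 ⟨b₃, rfl⟩)⟩
  · obtain ⟨m, hm⟩ := ((hT V).1 hV).2.2 d j c hd hn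
    obtain ⟨x, b₁, b₂, b₃, b₄⟩ := vals_inf.1 h m
    exact ⟨_, Or.inr ⟨x, b₃, rfl⟩, hm _ (on_pt b₁ b₂ b₄)⟩

end Pool.Agent.MP_2e2931_gt.Gap
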