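import Pool.Agent.MP_2e2931_gt.TKill
import Pool.Agent.MP_2e2931_gt.TCpt

namespace Pool.Agent.MP_2e2931_gt.Gap

open Pool.Agent.MP_c6cf52_lc Pool.Agent.MP_c6cf52_lc.Gen

variable {P : Type 1} [Preorder P] [OrderTop P] {g : Gen P} {A X S : g.M}

/-- Codes of initial segments. -/
def kk (s : ℕ → ℕ) : ℕ → ℕ
  | 0 => 0
  | j + 1 => Nat.pair (kk s j) (s j)

theorem kk_iter (s : ℕ → ℕ) (j : ℕ) :
    (fun p : ℕ × ℕ => (p.1 + 1, Nat.pair p.2 (s p.1)))^[j] (0, 0) = (j, kk s j) := by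
  induction j with
  | zero => rfl
  | succ j ih => rw [Function.iterate_succ_apply', ih]; rfl

theorem tm_kk {Γ : Type*} [Cd g Γ] {s : Γ → ℕ → ℕ} (hs : g.Tm fun z : Γ × ℕ => s z.1 z.2) :
    g.Tm fun z : Γ × ℕ => kk (s z.1) z.2 := by
  have : g.Tm fun z : Γ × ℕ =>
      ((fun p : ℕ × ℕ => (p.1 + 1, Nat.pair p.2 (s z.1 p.1)))^[z.2] (0, 0)).2 := by fun_prop
  simpa only [kk_iter] using this

theorem exists_two (Cb : Comb g A) (hX : Sp g Cb.Eb X S) :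
    ∃ K T Y, IsCpt g.E g.om X S K T Y ∧ InF g.E g.om K T 2 Y := by
  have hk := tm_kk (s := Cb.sg) Cb.tmS
  obtain ⟨K, T, h, hK, hC⟩ := exists_cpt Cb.tmE Cb.ad hX (fun _ x j => kk (Cb.sg x) j)
    (hk.comp Tm.snd') (fun _ _ => rfl)
    (fun _ _ _ _ _ _ e => (Nat.pair_eq_pair.1 e).1) (fun d s => by
      obtain ⟨k, hk⟩ := Cb.wf d fun j => (Nat.unpair (s (j + 1))).2
      refine ⟨k + 1, hk.subset fun x hx => ⟨hx.1, fun j hj => ?_⟩⟩
      have e : Nat.pair (kk (Cb.sg x) j) (Cb.sg x j) = s (j + 1) := hx.2 (j + 1) (by omega)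
      simp only [← e, Nat.unpair_pair])
  obtain ⟨B, hB, H⟩ := exists_closure h.1.1 (Γ := ℕ × ℕ)
    (Q := fun i y => y = infM g ∨ ∃ x, kk (Cb.sg x) i.1 = i.2 ∧ y = ptM g x) (by
      have : g.Tm fun z : ((ℕ × ℕ) × g.M) × g.Elt A => kk (Cb.sg z.2) z.1.1.1 :=
        hk.comp (f := fun z : ((ℕ × ℕ) × g.M) × g.Elt A => (z.2, z.1.1.1)) (by fun_prop)
      exact tm_or (by fun_prop) (tm_ex (tm_and (tm_eq this (by fun_prop)) (by fun_prop))))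
  refine ⟨K, T, X, h, inF2_of hB (fun c => (H c).1) fun y => ⟨fun hy => ?_, fun ⟨hy, hj⟩ => ?_⟩⟩
  · have hy' := (hK y).2 (Or.inl hy)
    refine ⟨hy', fun j => ?_⟩
    rcases (hX.mem y).1 hy with e | ⟨x, e⟩
    · exact ⟨0, ((H _).2 y).2 ⟨hy', Cl.self (Or.inl e)⟩⟩
    · exact ⟨kk (Cb.sg x) j, ((H _).2 y).2 ⟨hy', Cl.self (Or.inr ⟨x, rfl, e⟩)⟩⟩
  · rcases (hK y).1 hy with hy | ⟨d, j, c, hi, rfl⟩
    · exact hy
    · obtain ⟨c', hc⟩ := hj (j + 1)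
      refine absurd ((Set.finite_singleton c').subset ?_)
        ((hC d j c (fun x => kk (Cb.sg x) (j + 1) = c') hi).1 (((H _).2 _).1 hc).2)
      rintro v ⟨x, -, -, h₁, h₂⟩
      exact h₂.symm.trans h₁

theorem ndM_ne_infM (d : g.Elt A) (j c : ℕ) : ndM g d j c ≠ infM g := fun e => by
  have := nat_inj (pr_inj.1 e).1
  omega

theorem ndM_ne_ptM (d x : g.Elt A) (j c : ℕ) : ndM g d j c ≠ ptM g x := fun e => by
  have := nat_inj (pr_inj.1 e).1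
  omega

/-- The compactification that adds one point for every infinite member of the family. -/
theorem exists_one (Cb : Comb g A) (hX : Sp g Cb.Eb X S) :
    ∃ K T, IsCpt g.E g.om X S K T X ∧
      (∀ y, g.E y K ↔ g.E y X ∨ ∃ d, {x | Cb.Eb d x}.Infinite ∧ y = ndM g d 0 0) ∧
      ∀ d (Q : g.Elt A → Prop), {x | Cb.Eb d x}.Infinite →
        (Cl g T (fun y => y = infM g ∨ ∃ x, Q x ∧ y = ptM g x) (ndM g d 0 0) ↔
          {x | Cb.Eb d x ∧ Q x}.Infinite) := by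
  have hN := Cb.tmN
  let κ : g.Elt A → g.Elt A → ℕ → ℕ := fun d x j => if j = 0 then 0 else Cb.en d x
  have hv : ∀ d (Q : g.Elt A → Prop),
      (Vals Cb.Eb κ Q d 0 0).Infinite ↔ {x | Cb.Eb d x ∧ Q x}.Infinite := by
    intro d Q
    have e : Vals Cb.Eb κ Q d 0 0 = Cb.en d '' {x | Cb.Eb d x ∧ Q x} := by
      ext v
      simp [Vals, κ, and_assoc]
    rw [e]
    exact Set.infinite_image_iff fun x hx y hy => Cb.inj d x y hx.1 hy.1
  have hv' : ∀ d, (Vals Cb.Eb κ (fun _ => True) d 0 0).Infinite ↔ {x | Cb.Eb d x}.Infinite := by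
    intro d
    simpa using hv d fun _ => True
  obtain ⟨K, T, h, hK, hC⟩ := exists_cpt Cb.tmE Cb.ad hX κ
    (by
      have : g.Tm fun z : g.Elt A × g.Elt A × ℕ => Cb.en z.1 z.2.1 :=
        hN.comp (f := fun z : g.Elt A × g.Elt A × ℕ => (z.1, z.2.1)) (by fun_prop)
      exact tm_ite (by fun_prop) (by fun_prop) this)
    (fun _ _ => rfl)
    (fun d x y j hx hy e => by rw [Cb.inj d x y hx hy (by simpa [κ] using e)])
    (fun d s => ⟨2, Set.Subsingleton.finite fun x hx y hy => Cb.inj d x y hx.1 hy.1 (by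
      simpa [κ] using (hx.2 1 (by omega)).trans (hy.2 1 (by omega)).symm)⟩)
  refine ⟨K, T, h, fun y => (hK y).trans (or_congr_right ⟨?_, ?_⟩), fun d Q hd => ?_⟩
  · rintro ⟨d, j, c, hi, rfl⟩
    obtain rfl : j = 0 := by
      by_contra hj
      refine hi ((Set.finite_singleton c).subset ?_)
      rintro v ⟨x, -, h₁, -, h₂⟩
      simp only [κ, if_neg hj, Nat.succ_ne_zero, if_false] at h₁ h₂
      exact h₂.symm.trans h₁
    obtain ⟨v, x, -, h₁, -⟩ := hi.nonempty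
    obtain rfl : 0 = c := h₁
    exact ⟨d, (hv' d).1 hi, rfl⟩
  · rintro ⟨d, hd, rfl⟩
    exact ⟨d, 0, 0, (hv' d).2 hd, rfl⟩
  · exact (hC d 0 0 Q ((hv' d).2 hd)).trans (hv d Q)

theorem exists_seq {s₀ : ℕ → ℕ} (hs : g.Tm s₀) : ∃ s, IsFun g.E s g.om g.om ∧
    ∀ a b : ℕ, App g.E s (g.nat a) (g.nat b) → s₀ a = b := by
  obtain ⟨s, h₁, h₂⟩ := exists_graph Df.true hs
  refine ⟨s, ⟨fun p hp => ?_, fun a ha => ?_⟩, fun a b hab => ?_⟩
  · obtain ⟨n, -, rfl⟩ := h₁ p hp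
    exact ⟨_, _, nat_om n, nat_om (s₀ n), isPair_pr _ _⟩
  · obtain ⟨n, rfl⟩ := E_om.1 ha
    refine ⟨g.nat (s₀ n), (h₂ _ _).2 ⟨n, trivial, rfl, rfl⟩, fun b hb => ?_⟩
    obtain ⟨m, -, e₁, e₂⟩ := (h₂ _ _).1 hb
    obtain rfl : n = m := nat_inj e₁
    exact e₂
  · obtain ⟨m, -, e₁, e₂⟩ := (h₂ _ _).1 hab
    obtain rfl : a = m := nat_inj e₁
    exact (nat_inj e₂).symm

theorem exists_high (Cb : Comb g A) (hX : Sp g Cb.Eb X S) :
    ∃ K T Y, IsCpt g.E g.om X S K T Y ∧ Susl g.E g.om K T Y ∧ ¬ InF g.E g.om K T 2 Y := by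
  obtain ⟨K, T, h, hK, hC⟩ := exists_one Cb hX
  have hS := Cb.tmS
  refine ⟨K, T, X, h, ?_, fun h₂ => ?_⟩
  · obtain ⟨R, hR⟩ := exists_pr_bound g.om g.om
    obtain ⟨W, hW⟩ := exists_power R
    obtain ⟨B, hB, H⟩ := exists_closure h.1.1 (Γ := g.Elt W)
      (Q := fun t y => y = infM g ∨ ∃ x, (∀ a b : ℕ, App g.E t.1 (g.nat a) (g.nat b) →
        Cb.sg x a = b) ∧ y = ptM g x) (by
        have : g.Tm fun z : (((g.Elt W × g.M) × g.Elt A) × ℕ) × ℕ => Cb.sg z.1.1.2 z.1.2 :=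
          hS.comp (f := fun z : (((g.Elt W × g.M) × g.Elt A) × ℕ) × ℕ => (z.1.1.2, z.1.2))
            (by fun_prop)
        exact tm_or (by fun_prop) (tm_ex (tm_and (tm_all (tm_all (tm_imp (by fun_prop)
          (tm_eq this (by fun_prop))))) (by fun_prop))))
    obtain ⟨F, -, hF⟩ := exists_graph Df.true hB
    refine ⟨F, fun t B' hb => ?_, fun t B' B'' hb hb' => ?_, fun y => ⟨fun hy => ?_, ?_⟩⟩
    · obtain ⟨t', -, -, rfl⟩ := (hF _ _).1 hb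
      exact (H t').1
    · obtain ⟨t', -, rfl, rfl⟩ := (hF _ _).1 hb
      obtain ⟨t'', -, e, rfl⟩ := (hF _ _).1 hb'
      rw [Cd.inj e]
    · obtain ⟨s₀, hs₀, hy'⟩ : ∃ s₀ : ℕ → ℕ, g.Tm s₀ ∧
          (y = infM g ∨ ∃ x, Cb.sg x = s₀ ∧ y = ptM g x) := by
        rcases (hX.mem y).1 hy with e | ⟨x, e⟩
        · exact ⟨fun _ => 0, by fun_prop, Or.inl e⟩
        · exact ⟨Cb.sg x, hS.comp (f := fun a : ℕ => (x, a)) (by fun_prop), Or.inr ⟨x, rfl, e⟩⟩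
      obtain ⟨s, hs, hs'⟩ := exists_seq hs₀
      refine ⟨s, hs, fun k _ => ?_⟩
      obtain ⟨t, ht⟩ := tm_sep (Q := fun p => ∃ a b, g.E a k ∧ p = pr a b) (by fun_prop) s
      have htW : g.E t W := (hW t).2 fun p hp => by
        obtain ⟨a, b, ha, hb, e⟩ := hs.1 p ((ht p).1 hp).1
        rw [isPair_iff.1 e]
        exact hR a b ha hb
      refine ⟨t, B ⟨t, htW⟩, fun p => by simp only [ht, isPair_iff],
        (hF _ _).2 ⟨⟨t, htW⟩, trivial, rfl, rfl⟩,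
        ((H _).2 y).2 ⟨(hK y).2 (Or.inl hy), Cl.self (hy'.imp_right ?_)⟩⟩
      rintro ⟨x, rfl, e⟩
      exact ⟨x, fun a b hab => hs' a b (app_iff.2 ((ht _).1 (app_iff.1 hab)).1), e⟩
    · rintro ⟨s, hs, hy⟩
      have hyK : g.E y K := by
        obtain ⟨t, B', -, hb, hy'⟩ := hy _ (nat_om 0)
        obtain ⟨t', -, -, rfl⟩ := (hF _ _).1 hb
        exact (((H t').2 y).1 hy').1
      rcases (hK y).1 hyK with hy' | ⟨d, hd, rfl⟩
      · exact hy'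
      have ex : ∀ a : ℕ, ∃ b : ℕ, App g.E s (g.nat a) (g.nat b) := fun a => by
        obtain ⟨b, hb, hab⟩ := fun_ex hs (nat_om a)
        obtain ⟨n, rfl⟩ := E_om.1 hb
        exact ⟨n, hab⟩
      choose s₀ hs₀ using ex
      obtain ⟨k, hk⟩ := Cb.wf d s₀
      obtain ⟨t, B', ht, hb, hy'⟩ := hy _ (nat_om k)
      obtain ⟨t', -, rfl, rfl⟩ := (hF _ _).1 hb
      refine absurd (hk.subset fun x hx => ⟨hx.1, fun j hj => hx.2 j _ ?_⟩)
        ((hC d _ hd).1 (((H t').2 _).1 hy').2)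
      exact app_iff.2 ((ht _).2 ⟨app_iff.1 (hs₀ j), _, _, nat_lt.2 hj, isPair_pr _ _⟩)
  · obtain ⟨C, hCt, hCc, H⟩ := nf2 h.1.1 (B := X) (Or.inr h₂)
    obtain ⟨f, hf, hf'⟩ := tm_choice (Γ := ℕ × g.Elt A) (α := ℕ)
      (Q := fun z c => g.E (ptM g z.2) (C (z.1, c))) (by fun_prop)
      fun z => ((H _).1 ((hX.mem _).2 (Or.inr ⟨z.2, rfl⟩))).2 z.1
    obtain ⟨d, hd⟩ := Cb.two (fun k x => f (k, x)) hf
    have hd' : {x | Cb.Eb d x}.Infinite := by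
      obtain ⟨v, hv⟩ := hd 0
      exact hv.mono fun x hx => hx.1
    have hn : g.E (ndM g d 0 0) K := (hK _).2 (Or.inr ⟨d, hd', rfl⟩)
    have hm : g.E (ndM g d 0 0) X := (H _).2 ⟨hn, fun k => by
      obtain ⟨v, hv⟩ := hd k
      refine ⟨v, ?_⟩
      rcases Cl.or h.1.1 ((hC d _ hd').2 hv) with hc | hc
      · exact absurd (Cl.finite h.1 (Set.finite_singleton (infM g))
          (fun x hx => hx ▸ (hK _).2 (Or.inl ((hX.mem _).2 (Or.inl rfl)))) hn hc)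
          (ndM_ne_infM d 0 0)
      · refine Cl.clsd (hCc _) ?_ hn hc
        rintro _ ⟨x, rfl, rfl⟩
        exact hf' (k, x)⟩
    rcases (hX.mem _).1 hm with e | ⟨x, e⟩
    exacts [ndM_ne_infM d 0 0 e, ndM_ne_ptM d x 0 0 e]

theorem top_main (Cb : Comb g A) : ∃ X S, IsTop g.E X S ∧
    (∃ K T Y, IsCpt g.E g.om X S K T Y ∧ InF g.E g.om K T 2 Y ∧
      ∀ m < 2, ¬ InF g.E g.om K T m Y) ∧
    (∃ K T Y, IsCpt g.E g.om X S K T Y ∧ Susl g.E g.om K T Y ∧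
      ∀ m ≤ 3, ¬ InF g.E g.om K T m Y) ∧
    ∀ K T Y, IsCpt g.E g.om X S K T Y → InF g.E g.om K T 3 Y → InF g.E g.om K T 2 Y := by
  obtain ⟨X, S, hX, ht⟩ := exists_space Cb.tmE
  refine ⟨X, S, ht, ?_, ?_, fun K T Y h => kill Cb hX h⟩
  · obtain ⟨K, T, Y, h, h₂⟩ := exists_two Cb hX
    refine ⟨K, T, Y, h, h₂, fun m hm => ?_⟩
    interval_cases m
    exacts [(not_low Cb hX h).1, (not_low Cb hX h).2]
  · obtain ⟨K, T, Y, h, h₁, h₂⟩ := exists_high Cb hX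
    refine ⟨K, T, Y, h, h₁, fun m hm => ?_⟩
    interval_cases m
    exacts [(not_low Cb hX h).1, (not_low Cb hX h).2, h₂, fun h₃ => h₂ (kill Cb hX h h₃)]

end Pool.Agent.MP_2e2931_gt.Gap
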