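import Pool.Agent.MP_2e2931_gt.GTwo
import Pool.Agent.MP_2e2931_gt.GThree
import Pool.Agent.MP_2e2931_gt.TMain

namespace Pool.Agent.MP_2e2931_gt.Gap

open Pool.Agent.MP_c6cf52_lc Pool.Agent.MP_c6cf52_lc.Name Pool.Agent.MP_c6cf52_lc.Gen Set

theorem final : ∃ (M : Type 2) (E : M → M → Prop), IsZFC E ∧ ∃ w X S, IsOmega E w ∧
    IsTop E X S ∧
    (∃ K T Y, IsCpt E w X S K T Y ∧ InF E w K T 2 Y ∧ ∀ m < 2, ¬ InF E w K T m Y) ∧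
    (∃ K T Y, IsCpt E w X S K T Y ∧ Susl E w K T Y ∧ ∀ m ≤ 3, ¬ InF E w K T m Y) ∧
    ∀ K T Y, IsCpt E w X S K T Y → InF E w K T 3 Y → InF E w K T 2 Y := by
  obtain ⟨g, -, h⟩ := exists_gen (⊤ : PP) baseN (by unfold baseN; exact (toFinite _).countable)
  obtain ⟨en, h₁, h₂⟩ := en_G h
  let Cb : Comb g (g.v w1N) :=
    ⟨EbG g, sgG g, en, tm_EbG, tm_sgG, h₁, ad_G h, wf_G h, h₂, two_G h, three_G h⟩
  obtain ⟨X, S, H⟩ := top_main Cb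
  exact ⟨g.M, g.E, isZFC g, g.om, X, S, isOmega_om, H⟩

end Pool.Agent.MP_2e2931_gt.Gap
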