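import Pool.Agent.MP_2e2931_gt.GBase
import Pool.Agent.MP_2e2931_gt.FTwo

namespace Pool.Agent.MP_2e2931_gt.Gap

open Pool.Agent.MP_c6cf52_lc Pool.Agent.MP_c6cf52_lc.Name Pool.Agent.MP_c6cf52_lc.Gen Set

variable {g : Gen PP}

/-- Application to a pair of arguments. -/
def twoApp {M : Type 2} (E : M → M → Prop) (s k x v : M) : Prop :=
  ∃ q, IsPair E q k x ∧ App E s q v

theorem udef_twoApp (i j k l : ℕ) : UDef fun _ E w => twoApp E (w i) (w j) (w k) (w l) :=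
  UDef.ex ((UDef.isPair _ _ _).and (UDef.app _ _ _))

theorem two_forced {σ : Name PP} (hσ : σ ∈ g.N) (hw : w1N ∈ g.N) (hE : EN ∈ g.N)
    (tot : ∀ k, g.E k g.om → ∀ x, g.E x (g.v w1N) → ∃ v, g.E v g.om ∧ twoApp g.E (g.v σ) k x v) :
    ∃ d, g.E d (g.v w1N) ∧ (∃ y, g.E y d) ∧ ∀ k, g.E k g.om → ∃ v, g.E v g.om ∧
      ∀ y, g.E y d → ∃ x, g.E y x ∧ App g.E (g.v EN) d x ∧ twoApp g.E (g.v σ) k x v := by
  obtain ⟨p₀, hp₀, H₀⟩ := transfer (Ψ := fun _ E w => ∀ k, E k (w 2) → ∀ x, E x (w 1) →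
    ∃ v, E v (w 2) ∧ twoApp E (w 0) k x v) (by
      repeat' first
        | exact UDef.mem _ _ | exact udef_twoApp _ _ _ _ | apply UDef.and
        | apply UDef.imp | apply UDef.all | apply UDef.ex) (l3 hσ hw omN_mem) tot
  let R : W → ℕ → ℕ → PP → Prop := fun x k v r => ∀ g' : Gen PP, r ∈ g'.G → σ ∈ g'.N →
    o x ∈ g'.N → twoApp g'.E (g'.v σ) (g'.nat k) (g'.v (o x)) (g'.nat v)
  have hR : ∀ x k, ∀ q ≤ p₀, ∃ r ≤ q, ∃ v, R x k v r := fun x k q hq => by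
    obtain ⟨g', hq', hC⟩ := exists_gen q {σ, w1N, o x} (toFinite _).countable
    have h₁ : σ ∈ g'.N := hC (by simp)
    have h₂ : w1N ∈ g'.N := hC (by simp)
    have h₃ : o x ∈ g'.N := hC (by simp)
    obtain ⟨v, hv, h⟩ := H₀ g' (g'.up hq' hq) (l3 h₁ h₂ omN_mem) _ (nat_om k) _ (o_w1 h₂ h₃)
    obtain ⟨v, rfl⟩ := E_om.1 hv
    obtain ⟨r, hr, h'⟩ := transfer (udef_twoApp 0 1 2 3) (l4 h₁ (nN_mem k) h₃ (nN_mem v)) h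
    obtain ⟨t, -, h₄, h₅⟩ := g'.dir hr hq'
    exact ⟨t, h₅, v, fun g'' a b c => h' g'' (g''.up a h₄) (l4 b (nN_mem k) c (nN_mem v))⟩
  refine dens (Ψ := fun _ E w => ∃ d, E d (w 1) ∧ (∃ y, E y d) ∧ ∀ k, E k (w 2) → ∃ v,
    E v (w 2) ∧ ∀ y, E y d → ∃ x, E y x ∧ App E (w 3) d x ∧ twoApp E (w 0) k x v) (by
      repeat' first
        | exact UDef.mem _ _ | exact UDef.app _ _ _ | exact udef_twoApp _ _ _ _ | apply UDef.and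
        | apply UDef.imp | apply UDef.all | apply UDef.ex) (l4 hσ hw omN_mem hE) fun p hp => ?_
  obtain ⟨q, -, h₁, h₂⟩ := g.dir hp hp₀
  obtain ⟨p₁, hp₁, d, hd₀, hd, H⟩ := two_dense q R
    (fun x k v r r' h hl g' hg => h g' (g'.up hg hl)) fun x k r hr => hR x k r (hr.trans h₂)
  refine ⟨p₁, hp₁.trans h₁, {o d}, countable_singleton _, fun g₁ hg₁ hC hl => ?_⟩
  have hd₁ : o d ∈ g₁.N := hC rfl
  refine ⟨g₁.v (o d), o_w1 (hl _ (by simp)) hd₁, ⟨_, (o_lt (o_mem hd₁ hd₀) hd₁).2 hd₀⟩,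
    fun k hk => ?_⟩
  obtain ⟨k, rfl⟩ := E_om.1 hk
  refine dens (Ψ := fun _ E w => ∃ v, E v (w 1) ∧ ∀ y, E y (w 3) →
    ∃ x, E y x ∧ App E (w 2) (w 3) x ∧ twoApp E (w 0) (w 4) x v) (by
      repeat' first
        | exact UDef.mem _ _ | exact UDef.app _ _ _ | exact udef_twoApp _ _ _ _ | apply UDef.and
        | apply UDef.imp | apply UDef.all | apply UDef.ex)
    (lcons (hl σ (by simp)) (l4 omN_mem (hl EN (by simp)) hd₁ (nN_mem k))) fun p hp => ?_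
  obtain ⟨q₁, -, h₃, h₄⟩ := g₁.dir hp hg₁
  obtain ⟨r, hr, v, Hr⟩ := H k q₁ h₄
  refine ⟨r, hr.trans h₃, ∅, countable_empty, fun g₂ hg₂ _ hl₂ =>
    ⟨g₂.nat v, nat_om v, fun y hy => ?_⟩⟩
  have hd₂ : o d ∈ g₂.N := hl₂ _ (by simp)
  obtain ⟨y, hyd, hy₂, rfl⟩ := (E_o hd₂).1 hy
  refine dens (Ψ := fun _ E w => ∃ x, E (w 5) x ∧ App E (w 1) (w 2) x ∧
    twoApp E (w 0) (w 3) x (w 4)) (by
      repeat' first
        | exact UDef.mem _ _ | exact UDef.app _ _ _ | exact udef_twoApp _ _ _ _ | apply UDef.and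
        | apply UDef.ex)
    (lcons (hl₂ σ (by simp)) (lcons (hl₂ EN (by simp)) (l4 hd₂ (nN_mem k) (nN_mem v) hy₂)))
    fun p hp => ?_
  obtain ⟨s, -, h₅, h₆⟩ := g₂.dir hp hg₂
  obtain ⟨s', hs', x, hx, hyx, hRx⟩ := Hr y hyd s h₆
  refine ⟨s', hs'.trans h₅, ∅, countable_empty, fun g₃ hg₃ _ hl₃ => ?_⟩
  have hd₃ : o d ∈ g₃.N := hl₃ _ (by simp)
  have hx₃ : o x ∈ g₃.N := o_mem hd₃ (((p₁.2 0).rv.lad d hd).lt x hx)
  exact ⟨g₃.v (o x), (o_lt (hl₃ _ (by simp)) hx₃).2 hyx, (app_EN (hl₃ _ (by simp))).2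
    ⟨d, x, p₁, g₃.up hg₃ (hs'.trans (h₆.trans (hr.trans h₄))), hd, hx, hd₃, hx₃, rfl, rfl⟩,
    hRx g₃ hg₃ (hl₃ _ (by simp)) hx₃⟩

theorem two_G (h : baseN ⊆ g.N) (F : ℕ → TT g → ℕ) (hF : g.Tm fun z : ℕ × TT g => F z.1 z.2) :
    ∃ d, ∀ k, ∃ v, {x | EbG g d x ∧ F k x = v}.Infinite := by
  have hw : w1N ∈ g.N := h (by simp [baseN])
  have hE : EN ∈ g.N := h (by simp [baseN])
  obtain ⟨s, -, hs⟩ := exists_graph Df.true hF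
  obtain ⟨σ, hσ, rfl⟩ := exists_v s
  have e : ∀ k v (x : TT g), twoApp g.E (g.v σ) (g.nat k) x.1 (g.nat v) ↔ F k x = v := by
    intro k v x
    constructor
    · rintro ⟨q, h₁, h₂⟩
      obtain ⟨z, -, h₃, h₄⟩ := (hs _ _).1 h₂
      obtain rfl : (k, x) = z := Cd.inj ((isPair_iff.1 h₁).symm.trans h₃)
      exact (nat_inj h₄).symm
    · rintro rfl
      exact ⟨_, isPair_pr _ _, (hs _ _).2 ⟨(k, x), trivial, rfl, rfl⟩⟩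
  obtain ⟨d, hd, ⟨y, hy⟩, H⟩ := two_forced hσ hw hE fun k hk x hx => by
    obtain ⟨k, rfl⟩ := E_om.1 hk
    exact ⟨_, nat_om _, (e k _ ⟨x, hx⟩).2 rfl⟩
  refine ⟨⟨d, hd⟩, fun k => ?_⟩
  obtain ⟨v, hv, H⟩ := H _ (nat_om k)
  obtain ⟨v, rfl⟩ := E_om.1 hv
  refine ⟨v, fun hfin => ?_⟩
  have key : ∀ y, g.E y d → ∃ x : TT g,
      ((EbG g ⟨d, hd⟩ x ∧ F k x = v) ∧ g.E x.1 d) ∧ g.E y x.1 := fun y hy => by
    obtain ⟨x, h₁, h₂, h₃⟩ := H y hy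
    obtain ⟨a, b, p, -, h₄, h₅, h₆, h₇, rfl, rfl⟩ := (app_EN hE).1 h₂
    exact ⟨⟨_, o_w1 hw h₇⟩, ⟨⟨h₂, (e k v ⟨_, o_w1 hw h₇⟩).1 h₃⟩,
      (o_lt h₇ h₆).2 (((p.2 0).rv.lad a h₄).lt b h₅)⟩, h₁⟩
  choose rep hrep using exists_rep hw
  obtain ⟨x, hx, hmax⟩ := Set.exists_max_image {x | (EbG g ⟨d, hd⟩ x ∧ F k x = v) ∧ g.E x.1 d}
    rep (hfin.subset fun x hx => hx.1) ((key y hy).imp fun x hx => hx.1)
  obtain ⟨x', h₁, h₂⟩ := key _ hx.2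
  rw [← (hrep x).2, ← (hrep x').2, o_lt (hrep x).1 (hrep x').1] at h₂
  exact (hmax x' h₁).not_gt h₂

end Pool.Agent.MP_2e2931_gt.Gap
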