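import Pool.Agent.MP_2e2931_gt.TDefs

namespace Pool.Agent.MP_2e2931_gt.Gap

open Pool.Agent.MP_c6cf52_lc Pool.Agent.MP_c6cf52_lc.Gen

variable {P : Type 1} [Preorder P] [OrderTop P] {g : Gen P} {K T : g.M}

theorem isOmega_om : IsOmega g.E g.om := by
  refine ⟨isOrd_setN Name.natWf natTri g.omega_mem fun _ _ _ _ => trivial, ⟨_, nat_om 0⟩,
    fun x hx => ?_, fun x hx ⟨y, hy⟩ => ?_⟩
  · obtain ⟨n, rfl⟩ := E_om.1 hx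
    exact ⟨_, nat_om (n + 1), nat_lt.2 (Nat.lt_succ_self n)⟩
  · obtain ⟨n, rfl⟩ := E_om.1 hx
    obtain ⟨m, hm, -⟩ := E_nat.1 hy
    refine ⟨g.nat (n - 1), nat_lt.2 (by omega), fun z hz => ?_⟩
    obtain ⟨k, hk, rfl⟩ := E_nat.1 hz
    rw [nat_lt]
    omega

theorem fin_of_inj {n f D : g.M} (hn : g.E n g.om) (hf : IsInj g.E f D n) :
    {x | g.E x D}.Finite := by
  obtain ⟨m, rfl⟩ := E_om.1 hn
  refine Set.Finite.of_injOn (f := ev g.M g.M f) (t := g.nat '' Set.Iio m) (fun x hx => ?_)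
    (fun x hx y hy e => hf.2 _ _ _ (app_ev hf.1 hx) (e ▸ app_ev hf.1 hy))
    ((Set.finite_Iio m).image _)
  obtain ⟨k, hk, e⟩ := E_nat.1 (fun_mem hf.1 (app_ev hf.1 hx)).2
  exact ⟨k, hk, e⟩

@[fun_prop] theorem tm_ptM {Γ : Type*} [Cd g Γ] {A : g.M} {f : Γ → g.Elt A} (hf : g.Tm f) :
    g.Tm fun x => ptM g (f x) := by
  unfold ptM
  fun_prop

@[fun_prop] theorem tm_Sub {Γ : Type*} [Cd g Γ] {f h : Γ → g.M} (hf : g.Tm f) (hh : g.Tm h) :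
    g.Tm fun x => Sub g.E (f x) (h x) := by
  unfold Sub
  fun_prop

@[fun_prop] theorem tm_Clsd {Γ : Type*} [Cd g Γ] {f : Γ → g.M} (hf : g.Tm f) :
    g.Tm fun x => Clsd g.E K T (f x) := by
  unfold Clsd
  fun_prop

theorem tm_Cl {Γ : Type*} [Cd g Γ] {Q : Γ → g.M → Prop} {f : Γ → g.M}
    (hQ : g.Tm fun z : Γ × g.M => Q z.1 z.2) (hf : g.Tm f) :
    g.Tm fun x => Cl g T (Q x) (f x) := by
  unfold Cl
  have h : g.Tm fun z : (Γ × g.M) × g.M => Q z.1.1 z.2 :=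
    tm_comp (f := fun z : (Γ × g.M) × g.M => (z.1.1, z.2)) hQ (by fun_prop)
  refine tm_all (tm_imp (by fun_prop) (tm_imp (by fun_prop) (tm_ex (tm_and h (by fun_prop)))))

theorem ptM_inj {A : g.M} : Function.Injective (ptM g (A := A)) := by
  intro x y h
  exact Subtype.ext (pr_inj.1 h).2

theorem ptM_ne_infM {A : g.M} (x : g.Elt A) : ptM g x ≠ infM g := by
  intro h
  exact absurd (nat_inj (pr_inj.1 h).1) (by decide)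

theorem IsTop.finInter (h : IsTop g.E K T) {D : Set g.M} (hD : D.Finite)
    (hT : ∀ U ∈ D, g.E U T) : ∃ W, g.E W T ∧ ∀ x, g.E x W ↔ g.E x K ∧ ∀ U ∈ D, g.E x U := by
  induction D, hD using Set.Finite.induction_on with
  | empty => exact ⟨K, h.2.1, fun x => by simp⟩
  | @insert a S _ _ ih =>
    obtain ⟨W, h₁, h₂⟩ := ih fun U hU => hT U (Set.mem_insert_of_mem _ hU)
    obtain ⟨W', h₃, h₄⟩ := h.2.2.2 a W (hT a (Set.mem_insert _ _)) h₁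
    refine ⟨W', h₃, fun x => ?_⟩
    rw [h₄, h₂, Set.forall_mem_insert]
    tauto

theorem IsTop.defUnion (h : IsTop g.E K T) {Q : g.M → Prop} (hQ : g.Tm Q) :
    ∃ W, g.E W T ∧ ∀ x, g.E x W ↔ ∃ U, g.E U T ∧ Q U ∧ g.E x U := by
  obtain ⟨S, hS⟩ := tm_sep hQ T
  obtain ⟨W, h₁, h₂⟩ := h.2.2.1 S fun x hx => ((hS x).1 hx).1
  refine ⟨W, h₁, fun x => ?_⟩
  simp only [h₂, hS, and_assoc]

theorem IsCH.cover (h : IsCH g.E g.om K T) {Q : g.M → Prop} (hQ : g.Tm Q)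
    (H : ∀ x, g.E x K → ∃ U, g.E U T ∧ Q U ∧ g.E x U) :
    ∃ D : Set g.M, D.Finite ∧ (∀ U ∈ D, g.E U T ∧ Q U) ∧ ∀ x, g.E x K → ∃ U ∈ D, g.E x U := by
  obtain ⟨C, hC⟩ := tm_sep hQ T
  obtain ⟨D, n, f, h₁, h₂, h₃, h₄⟩ := h.2.2 C (fun x hx => ((hC x).1 hx).1) fun x hx => by
    obtain ⟨U, k₁, k₂, k₃⟩ := H x hx
    exact ⟨U, (hC U).2 ⟨k₁, k₂⟩, k₃⟩
  exact ⟨{x | g.E x D}, fin_of_inj h₂ h₃, fun U hU => (hC U).1 (h₁ U hU), h₄⟩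

theorem Cl.mono {Q R : g.M → Prop} {y : g.M} (h : Cl g T Q y) (H : ∀ x, Q x → R x) :
    Cl g T R y := by
  intro V h₁ h₂
  obtain ⟨x, h₃, h₄⟩ := h V h₁ h₂
  exact ⟨x, H x h₃, h₄⟩

theorem Cl.self {Q : g.M → Prop} {y : g.M} (h : Q y) : Cl g T Q y := by
  exact fun _ _ h₂ => ⟨y, h, h₂⟩

theorem Cl.finUnion (h : IsTop g.E K T) {I : Type*} {s : Set I} (hs : s.Finite)
    {Q : I → g.M → Prop} {y : g.M} (hy : g.E y K) (H : Cl g T (fun x => ∃ i ∈ s, Q i x) y) :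
    ∃ i ∈ s, Cl g T (Q i) y := by
  by_contra hn
  have hn' : ∀ i : s, ∃ V, g.E V T ∧ g.E y V ∧ ∀ x, Q i x → ¬ g.E x V := by
    intro i
    by_contra hc
    refine hn ⟨i, i.2, fun V h₁ h₂ => ?_⟩
    by_contra h₃
    exact hc ⟨V, h₁, h₂, fun x h₄ h₅ => h₃ ⟨x, h₄, h₅⟩⟩
  choose V hV using hn'
  have := hs.to_subtype
  obtain ⟨W, h₁, h₂⟩ := h.finInter (Set.finite_range V) (by rintro _ ⟨i, rfl⟩; exact (hV i).1)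
  obtain ⟨x, ⟨i, hi, h₃⟩, h₄⟩ := H W h₁ ((h₂ y).2 ⟨hy, by rintro _ ⟨i, rfl⟩; exact (hV i).2.1⟩)
  exact (hV ⟨i, hi⟩).2.2 x h₃ (((h₂ x).1 h₄).2 _ ⟨⟨i, hi⟩, rfl⟩)

theorem Cl.or (h : IsTop g.E K T) {Q R : g.M → Prop} {y : g.M}
    (H : Cl g T (fun x => Q x ∨ R x) y) : Cl g T Q y ∨ Cl g T R y := by
  by_contra hn
  obtain ⟨h₁, h₂⟩ := not_or.1 hn
  simp only [Cl, not_forall, not_exists, not_and] at h₁ h₂
  obtain ⟨U, u₁, u₂, u₃⟩ := h₁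
  obtain ⟨V, v₁, v₂, v₃⟩ := h₂
  obtain ⟨W, w₁, w₂⟩ := h.2.2.2 U V u₁ v₁
  obtain ⟨x, hx | hx, h₃⟩ := H W w₁ ((w₂ y).2 ⟨u₂, v₂⟩)
  exacts [u₃ x hx ((w₂ x).1 h₃).1, v₃ x hx ((w₂ x).1 h₃).2]

theorem Cl.finite (h : IsCH g.E g.om K T) {s : Set g.M} (hs : s.Finite) (hK : ∀ x ∈ s, g.E x K)
    {y : g.M} (hy : g.E y K) (H : Cl g T (fun x => x ∈ s) y) : y ∈ s := by
  obtain ⟨i, hi, h₁⟩ := Cl.finUnion h.1 hs (Q := fun i x => x = i) hy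
    (H.mono fun x hx => ⟨x, hx, rfl⟩)
  by_contra hn
  obtain ⟨U, V, u, -, h₂, h₃, h₄⟩ := h.2.1 y i hy (hK i hi) (fun e => hn (e ▸ hi))
  obtain ⟨x, rfl, h₅⟩ := h₁ U u h₂
  exact h₄ x ⟨h₅, h₃⟩

theorem Cl.clsd {B y : g.M} {Q : g.M → Prop} (hB : Clsd g.E K T B) (H : ∀ x, Q x → g.E x B)
    (hy : g.E y K) (h : Cl g T Q y) : g.E y B := by
  obtain ⟨V, h₁, h₂⟩ := hB
  refine (h₂ y).2 ⟨hy, fun h₃ => ?_⟩
  obtain ⟨x, h₄, h₅⟩ := h V h₁ h₃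
  exact ((h₂ x).1 (H x h₄)).2 h₅

/-- Closures of a definable family of classes. -/
theorem exists_closure (h : IsTop g.E K T) {Γ : Type*} [Cd g Γ] [Bd g Γ] {Q : Γ → g.M → Prop}
    (hQ : g.Tm fun z : Γ × g.M => Q z.1 z.2) : ∃ B : Γ → g.M, g.Tm B ∧
      ∀ i, Clsd g.E K T (B i) ∧ ∀ y, g.E y (B i) ↔ g.E y K ∧ Cl g T (Q i) y := by
  have h₁ : g.Tm fun z : (Γ × g.M) × g.M => Cl g T (Q z.1.1) z.2 :=
    tm_Cl (Γ := (Γ × g.M) × g.M) (Q := fun z => Q z.1.1)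
      (tm_comp (f := fun z : ((Γ × g.M) × g.M) × g.M => (z.1.1.1, z.2)) hQ (by fun_prop))
      (by fun_prop)
  refine tm_choice (Q := fun i B => Clsd g.E K T B ∧ ∀ y, g.E y B ↔ g.E y K ∧ Cl g T (Q i) y)
    (tm_and (by fun_prop) (tm_all (tm_iff (by fun_prop) (tm_and (by fun_prop) h₁)))) fun i => ?_
  have h₂ : g.Tm fun z : g.M × g.M => Q i z.2 :=
    tm_comp (f := fun z : g.M × g.M => (i, z.2)) hQ (by fun_prop)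
  obtain ⟨V, v₁, v₂⟩ := h.defUnion (Q := fun U => ∀ x, Q i x → ¬ g.E x U)
    (tm_all (tm_imp h₂ (by fun_prop)))
  obtain ⟨B, hB⟩ := tm_sep (Q := fun y => ¬ g.E y V) (by fun_prop) K
  refine ⟨B, ⟨V, v₁, hB⟩, fun y => (hB y).trans (and_congr_right fun _ => ?_)⟩
  rw [v₂]
  constructor
  · intro h₃ U u₁ u₂
    by_contra h₄
    exact h₃ ⟨U, u₁, fun x h₅ h₆ => h₄ ⟨x, h₅, h₆⟩, u₂⟩
  · rintro h₃ ⟨U, u₁, u₂, u₃⟩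
    obtain ⟨x, h₄, h₅⟩ := h₃ U u₁ u₃
    exact u₂ x h₄ h₅

theorem IsCH.regular (h : IsCH g.E g.om K T) {y V : g.M} (hV : g.E V T) (hy : g.E y V) :
    ∃ V', g.E V' T ∧ g.E y V' ∧ ∀ z, g.E z K → Cl g T (fun x => g.E x V') z → g.E z V := by
  have hyK := h.1.1 V hV y hy
  obtain ⟨D, hD, h₁, h₂⟩ := h.cover (Q := fun W => W = V ∨
      ∃ U, g.E U T ∧ g.E y U ∧ ∀ z, ¬ (g.E z U ∧ g.E z W)) (by fun_prop) fun x hx => by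
    by_cases e : y = x
    · exact ⟨V, hV, Or.inl rfl, e ▸ hy⟩
    · obtain ⟨U, W, k₁, k₂, k₃, k₄, k₅⟩ := h.2.1 y x hyK hx e
      exact ⟨W, k₂, Or.inr ⟨U, k₁, k₃, k₅⟩, k₄⟩
  have h₃ : ∀ W : D, ∃ U, g.E U T ∧ g.E y U ∧ (W.1 = V ∨ ∀ z, ¬ (g.E z U ∧ g.E z W.1)) := by
    intro W
    rcases (h₁ W.1 W.2).2 with e | ⟨U, k₁, k₂, k₃⟩
    exacts [⟨V, hV, hy, Or.inl e⟩, ⟨U, k₁, k₂, Or.inr k₃⟩]
  choose U hU using h₃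
  have := hD.to_subtype
  obtain ⟨V', v₁, v₂⟩ := h.1.finInter (Set.finite_range U) (by rintro _ ⟨i, rfl⟩; exact (hU i).1)
  refine ⟨V', v₁, (v₂ y).2 ⟨hyK, by rintro _ ⟨i, rfl⟩; exact (hU i).2.1⟩, fun z hz hc => ?_⟩
  obtain ⟨W, w₁, w₂⟩ := h₂ z hz
  rcases (hU ⟨W, w₁⟩).2.2 with e | k
  · exact e ▸ w₂
  · obtain ⟨x, x₁, x₂⟩ := hc W (h₁ W w₁).1 w₂
    exact absurd ⟨((v₂ x).1 x₁).2 _ ⟨⟨W, w₁⟩, rfl⟩, x₂⟩ (k x)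

end Pool.Agent.MP_2e2931_gt.Gap
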