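import Pool.Agent.MP_2e2931_gt.TBasic

namespace Pool.Agent.MP_2e2931_gt.Gap

open Pool.Agent.MP_c6cf52_lc Pool.Agent.MP_c6cf52_lc.Gen

variable {P : Type 1} [Preorder P] [OrderTop P] {g : Gen P} {A K T Y : g.M}

/-- The node `t` belongs to the finite set coded by `k`. -/
def certIn (k : ℕ) (t : Nd) : Prop := k.testBit (Nat.pair t.1 (Nat.pair t.2.1 t.2.2)) = true

theorem cert_testBit (k i : ℕ) : k.testBit i = true ↔
    ∃ a r, r < (fun m => m + m)^[i] 1 ∧ k = r + (fun m => m + m)^[i] 1 * (1 + 2 * a) := by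
  have e : (fun m => m + m)^[i] 1 = 2 ^ i := by
    induction i with
    | zero => rfl
    | succ i ih => rw [Function.iterate_succ_apply', ih, pow_succ, mul_two]
  rw [e, Nat.testBit_eq_decide_div_mod_eq, decide_eq_true_iff]
  constructor
  · intro h
    refine ⟨k / 2 ^ i / 2, k % 2 ^ i, Nat.mod_lt _ (by positivity), ?_⟩
    rw [← h, Nat.mod_add_div, Nat.mod_add_div]
  · rintro ⟨a, r, h, rfl⟩
    rw [Nat.add_mul_div_left _ _ (by positivity), Nat.div_eq_of_lt h]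
    omega

@[fun_prop] theorem tm_certIn {Γ : Type*} [Cd g Γ] {k : Γ → ℕ} {t : Γ → Nd} (hk : g.Tm k)
    (ht : g.Tm t) : g.Tm fun x => certIn (k x) (t x) := by
  simp only [certIn, cert_testBit]
  fun_prop

theorem exists_certIn {U : Set Nd} (hU : U.Finite) : ∃ k, ∀ t, certIn k t ↔ t ∈ U := by
  induction U, hU using Set.Finite.induction_on with
  | empty => exact ⟨0, fun t => by simp [certIn]⟩
  | @insert a U _ _ ih =>
    obtain ⟨k, hk⟩ := ih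
    refine ⟨2 ^ Nat.pair a.1 (Nat.pair a.2.1 a.2.2) ||| k, fun t => ?_⟩
    rw [Set.mem_insert_iff, ← hk, @eq_comm _ t a]
    simp only [certIn, Nat.testBit_or, Bool.or_eq_true, Nat.testBit_two_pow, decide_eq_true_iff,
      Nat.pair_eq_pair, Prod.ext_iff]

/-- Certificates from compactness. -/
theorem exists_cert {Eb : g.Elt A → g.Elt A → Prop}
    (hE : g.Tm fun z : g.Elt A × g.Elt A => Eb z.1 z.2) {e : g.Elt A → g.M} {i : g.M}
    (h : CData g Eb K T Y e i) (π : g.Elt A → ℕ → ℕ)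
    (hπ : g.Tm fun z : g.Elt A × ℕ => π z.1 z.2) (h₀ : ∀ x j, π x (j + 1) ≠ 0)
    (H : ∀ y n, g.E y K → (∀ j, ∃ j' c, j ≤ j' ∧
      Cl g T (Img e fun x => π x 0 = n ∧ π x (j' + 1) = c) y) → g.E y Y) :
    ∃ a : g.Elt A → ℕ → g.Elt A → Nd,
      g.Tm (fun z : g.Elt A × ℕ × g.Elt A => a z.1 z.2.1 z.2.2) ∧ GoodInt g Eb a ∧
      ∀ d k (t : Nd) y, g.E y K →
        Cl g T (Img e fun x => π x 0 = t.1 ∧ π x (t.2.1 + 1) = t.2.2) y →
        Cl g T (Img e fun x => Eb d x ∧ a d k x = t) y → g.E y Y := by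
  have he := h.tm
  let D : Nd → g.M → Prop := fun t => Img e fun x => π x 0 = t.1 ∧ π x (t.2.1 + 1) = t.2.2
  let Sf : g.Elt A → (g.Elt A → Nd) → Prop := fun d f => ∀ (t : Nd) y, g.E y K → Cl g T (D t) y →
    Cl g T (Img e fun x => Eb d x ∧ f x = t) y → g.E y Y
  let Rg : g.Elt A → ℕ → (g.Elt A → Nd) → Prop := fun d k f => ∀ x, Eb d x → certIn k (f x)
  obtain ⟨F, hF, hQ⟩ := tm_choice_fun (g := g) (Γ := g.Elt A × ℕ)
    (Q := fun p (f : g.Elt A → Nd) => Sf p.1 f ∧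
      ((∃ s : g.M, Sf p.1 (ev _ _ s) ∧ Rg p.1 p.2 (ev _ _ s)) → Rg p.1 p.2 f))
    (by simp only [Sf, Rg, D, Cl, Img]; fun_prop) fun p => by
      by_cases hs : ∃ s : g.M, Sf p.1 (ev _ _ s) ∧ Rg p.1 p.2 (ev _ _ s)
      · obtain ⟨s, h1, h2⟩ := hs
        exact ⟨ev _ _ s, by fun_prop, h1, fun _ => h2⟩
      · refine ⟨fun _ => (0, 0, 0), by fun_prop, fun t y hy h1 h2 => ?_, fun h => absurd h hs⟩
        obtain ⟨_, ⟨x, ⟨-, rfl⟩, -⟩, -⟩ := h2 K h.ch.1.2.1 hy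
        obtain ⟨_, ⟨x, ⟨-, h3⟩, -⟩, -⟩ := h1 K h.ch.1.2.1 hy
        exact absurd h3 (h₀ x 0)
  refine ⟨fun d k => F (d, k), by fun_prop, fun d n B hB unb => ?_, fun d k => (hQ (d, k)).1⟩
  let C : g.M → Nd → Prop := fun V t => ∀ z, g.E z K → Cl g T (fun x => g.E x V) z →
    ¬ Cl g T (D t) z
  have hC : g.Tm fun z : g.M × Nd => C z.1 z.2 := by simp only [C, D, Cl, Img]; fun_prop
  obtain ⟨W, hW, hW1, hW2⟩ := h.ch.cover (Q := fun V => (∃ x₀, ∀ x, g.E (e x) V → x = x₀) ∨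
      (∀ x, Eb d x → ¬ g.E (e x) V) ∨ ∃ y, B y ∧ C V (n, y)) (by fun_prop) fun z hz => by
    by_cases hzY : g.E z Y
    · rcases (h.mem z).1 hzY with rfl | ⟨x, rfl⟩
      · obtain ⟨V, h1, h2, h3⟩ := h.opn d
        exact ⟨V, h1, Or.inr (Or.inl h3), h2⟩
      · obtain ⟨V, h1, h2, -, h3⟩ := h.iso x
        exact ⟨V, h1, Or.inl ⟨x, h3⟩, h2⟩
    · obtain ⟨j, hj⟩ := not_forall.1 (mt (H z n hz) hzY)
      obtain ⟨y, h1, h2⟩ := unb j
      have h3 : ¬ Cl g T (D (n, y)) z := fun h3 => hj ⟨y.1, y.2, h1, h3⟩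
      simp only [Cl, not_forall] at h3
      obtain ⟨V, h4, h5, h6⟩ := h3
      obtain ⟨V', h7, h8, h9⟩ := h.ch.regular h4 h5
      exact ⟨V', h7, Or.inr (Or.inr ⟨y, h2, fun w hw h10 h11 => h6 (h11 V h4 (h9 w hw h10))⟩), h8⟩
  obtain ⟨y₀, -, hy₀⟩ := unb 0
  have hl : ∀ V, ∃ y, B y ∧ ((∃ y, B y ∧ C V (n, y)) → C V (n, y)) := fun V => by
    by_cases hV : ∃ y, B y ∧ C V (n, y)
    · obtain ⟨y, h1, h2⟩ := hV
      exact ⟨y, h1, fun _ => h2⟩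
    · exact ⟨y₀, hy₀, fun h => absurd h hV⟩
  choose lab hl1 hl2 using hl
  have hU : (insert (n, y₀) ((fun V => (n, lab V)) '' W) : Set Nd).Finite := (hW.image _).insert _
  obtain ⟨k, hk⟩ := exists_certIn hU
  obtain ⟨m, hm⟩ := (hU.image fun t => t.2.1 + t.2.2).bddAbove
  obtain ⟨s, hs⟩ := exists_finset hW
  obtain ⟨f, hf, hf'⟩ := tm_choice (g := g) (Q := fun (x : g.Elt A) (t : Nd) => certIn k t ∧
      ((∃ V, g.E V s ∧ g.E (e x) V ∧ ∃ t', certIn k t' ∧ C V t') →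
        ∃ V, g.E V s ∧ g.E (e x) V ∧ C V t)) (by fun_prop) fun x => by
    by_cases hx : ∃ V, g.E V s ∧ g.E (e x) V ∧ ∃ t', certIn k t' ∧ C V t'
    · obtain ⟨V, h1, h2, t, h3, h4⟩ := hx
      exact ⟨t, h3, fun _ => ⟨V, h1, h2, h4⟩⟩
    · exact ⟨(n, y₀), (hk _).2 (Set.mem_insert _ _), fun h => absurd h hx⟩
  have hSf : Sf d f := by
    intro t y hy h1 h2
    have hFn : (⋃ V ∈ W, {x | g.E (e x) V ∧ ∀ x', g.E (e x') V → x' = x}).Finite :=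
      hW.biUnion fun V _ => Set.Subsingleton.finite fun x hx x' hx' => hx'.2 x hx.1
    have h3 : Cl g T (fun w => w ∈ e '' (⋃ V ∈ W, {x | g.E (e x) V ∧ ∀ x', g.E (e x') V → x' = x}) ∨
        ∃ V ∈ {V ∈ W | C V t}, g.E w V) y := by
      refine h2.mono ?_
      rintro _ ⟨x, ⟨h3, rfl⟩, rfl⟩
      obtain ⟨V, h4, h5⟩ := hW2 _ (h.eK x)
      rcases (hW1 V h4).2 with ⟨x₀, h6⟩ | h6 | h6
      · exact Or.inl ⟨x, Set.mem_biUnion h4 ⟨h5, fun x' h7 => (h6 x' h7).trans (h6 x h5).symm⟩, rfl⟩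
      · exact absurd h5 (h6 x h3)
      · obtain ⟨V', h7, h8, h9⟩ := (hf' x).2 ⟨V, (hs V).2 h4, h5, _,
          (hk _).2 (Set.mem_insert_of_mem _ ⟨V, h4, rfl⟩), hl2 V h6⟩
        exact Or.inr ⟨V', ⟨(hs V').1 h7, h9⟩, h8⟩
    rcases h3.or h.ch.1 with h4 | h4
    · obtain ⟨x, -, rfl⟩ := h4.finite h.ch (hFn.image e) (by rintro _ ⟨x, -, rfl⟩; exact h.eK x) hy
      exact (h.mem _).2 (Or.inr ⟨x, rfl⟩)
    · obtain ⟨V, h5, h6⟩ := h4.finUnion h.ch.1 (hW.subset fun V hV => hV.1) hy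
      exact absurd h1 (h5.2 y hy h6)
  obtain ⟨c, rfl⟩ := exists_ev hf
  refine ⟨k, m + 1, fun x hx => ?_⟩
  have h1 := (hk _).1 ((hQ (d, k)).2 ⟨c, hSf, fun x _ => (hf' x).1⟩ x hx)
  have h2 : (F (d, k) x).2.1 + (F (d, k) x).2.2 ≤ m := hm ⟨_, h1, rfl⟩
  refine and_assoc.1 ⟨?_, by dsimp only; omega, by dsimp only; omega⟩
  dsimp only
  rcases h1 with h1 | ⟨V, -, h1⟩
  · rw [h1]; exact ⟨rfl, hy₀⟩
  · rw [← h1]; exact ⟨rfl, hl1 V⟩

end Pool.Agent.MP_2e2931_gt.Gap
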