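import Pool.Agent.MP_2e2931_gt.TLow
import Pool.Agent.MP_2e2931_gt.TCert

namespace Pool.Agent.MP_2e2931_gt.Gap

open Pool.Agent.MP_c6cf52_lc Pool.Agent.MP_c6cf52_lc.Gen

/-- Cumulative codes. -/
def kCum (a : ℕ) (p : ℕ → ℕ) : ℕ → ℕ
  | 0 => a
  | j + 1 => Nat.pair (kCum a p j) (p j) + 1

theorem kCum_iter (a : ℕ) (p : ℕ → ℕ) (j : ℕ) :
    (fun s : ℕ × ℕ => (s.1 + 1, Nat.pair s.2 (p s.1) + 1))^[j] (0, a) = (j, kCum a p j) := by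
  induction j with
  | zero => rfl
  | succ j ih => rw [Function.iterate_succ_apply', ih]; rfl

theorem kCum_inj {a a' : ℕ} {p p' : ℕ → ℕ} {j : ℕ} (h : kCum a p j = kCum a' p' j) :
    a = a' ∧ ∀ k < j, p k = p' k := by
  induction j with
  | zero => exact ⟨h, fun k hk => absurd hk (Nat.not_lt_zero k)⟩
  | succ j ih =>
    have h' := Nat.pair_eq_pair.1 (Nat.succ_injective h)
    refine ⟨(ih h'.1).1, fun k hk => ?_⟩
    rcases Nat.lt_succ_iff_lt_or_eq.1 hk with hk | rfl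
    exacts [(ih h'.1).2 k hk, h'.2]

variable {P : Type 1} [Preorder P] [OrderTop P] {g : Gen P} {A X S K T Y : g.M}

theorem Cl.kLoc (h : IsTop g.E K T) {Q : g.M → Prop} {y V : g.M} (hV : g.E V T) (hy : g.E y V)
    (H : Cl g T Q y) : Cl g T (fun x => Q x ∧ g.E x V) y := by
  intro U hU hyU
  obtain ⟨W, hW, e⟩ := h.2.2.2 U V hU hV
  obtain ⟨x, hx, hxW⟩ := H W hW ((e y).2 ⟨hyU, hy⟩)
  exact ⟨x, ⟨hx, ((e x).1 hxW).2⟩, ((e x).1 hxW).1⟩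

theorem Cl.kImg_ne (h : IsTop g.E K T) {e : g.Elt A → g.M} {Q : g.Elt A → Prop} {y : g.M}
    (hy : g.E y K) (H : Cl g T (Img e Q) y) : ∃ x, Q x := by
  obtain ⟨_, ⟨x, hx, -⟩, -⟩ := H K h.2.1 hy
  exact ⟨x, hx⟩

theorem Cl.kImg_mono {e : g.Elt A → g.M} {Q R : g.Elt A → Prop} {y : g.M}
    (H : Cl g T (Img e Q) y) (h : ∀ x, Q x → R x) : Cl g T (Img e R) y :=
  H.mono fun _ ⟨x, hx, e⟩ => ⟨x, h x hx, e⟩

theorem Cl.kImg_union (h : IsTop g.E K T) {I : Type*} {s : Set I} (hs : s.Finite)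
    {e : g.Elt A → g.M} {Q : I → g.Elt A → Prop} {y : g.M} (hy : g.E y K)
    (H : Cl g T (Img e fun x => ∃ i ∈ s, Q i x) y) : ∃ i ∈ s, Cl g T (Img e (Q i)) y :=
  Cl.finUnion h hs hy (H.mono fun _ ⟨x, ⟨i, hi, hx⟩, e⟩ => ⟨i, hi, x, hx, e⟩)

theorem Cl.kImg_drop {Eb : g.Elt A → g.Elt A → Prop} {e : g.Elt A → g.M} {i : g.M}
    (h : CData g Eb K T Y e i) {Fn : Set (g.Elt A)} (hF : Fn.Finite) {Q : g.Elt A → Prop}
    {y : g.M} (hy : g.E y K) (hY : ¬ g.E y Y) (H : Cl g T (Img e fun x => x ∈ Fn ∨ Q x) y) :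
    Cl g T (Img e Q) y := by
  have H' : Cl g T (fun z => z ∈ e '' Fn ∨ Img e Q z) y := H.mono fun _ ⟨x, hx, e⟩ =>
    hx.elim (fun hx => Or.inl ⟨x, hx, e.symm⟩) fun hx => Or.inr ⟨x, hx, e⟩
  rcases Cl.or h.ch.1 H' with H₁ | H₁
  · obtain ⟨x, -, rfl⟩ := Cl.finite h.ch (hF.image e) (by
      rintro _ ⟨x, -, rfl⟩
      exact h.eK x) hy H₁
    exact absurd ((h.mem _).2 (Or.inr ⟨x, rfl⟩)) hY
  · exact H₁

theorem kill (Cb : Comb g A) (hX : Sp g Cb.Eb X S) (h : IsCpt g.E g.om X S K T Y)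
    (h₃ : InF g.E g.om K T 3 Y) : InF g.E g.om K T 2 Y := by
  obtain ⟨e, i, cd⟩ := exists_cdata Cb.tmE hX h
  have top := cd.ch.1
  have he := cd.tm
  obtain ⟨C, hC, hcl, hY⟩ := nf3 top h₃
  obtain ⟨p₀, tm₀, hp₀⟩ := tm_choice (g := g) (Γ := g.Elt A) (α := ℕ)
    (Q := fun x n => ∀ j : ℕ, ∃ c : ℕ, g.E (e x) (C (n, j, c))) (by fun_prop)
    fun x => ((hY _).1 ((cd.mem _).2 (Or.inr ⟨x, rfl⟩))).2
  obtain ⟨p₁, tm₁, hp₁⟩ := tm_choice (g := g) (Γ := g.Elt A × ℕ) (α := ℕ)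
    (Q := fun z c => g.E (e z.1) (C (p₀ z.1, z.2, c))) (by fun_prop) fun z => hp₀ z.1 z.2
  let π : g.Elt A → ℕ → ℕ := fun x => kCum (p₀ x) fun j => p₁ (x, j)
  have hπ : g.Tm fun z : g.Elt A × ℕ => π z.1 z.2 := by
    have : g.Tm fun z : g.Elt A × ℕ =>
        ((fun s : ℕ × ℕ => (s.1 + 1, Nat.pair s.2 (p₁ (z.1, s.1)) + 1))^[z.2] (0, p₀ z.1)).2 := by
      fun_prop
    have e' : (fun z : g.Elt A × ℕ => π z.1 z.2) = fun z : g.Elt A × ℕ =>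
        ((fun s : ℕ × ℕ => (s.1 + 1, Nat.pair s.2 (p₁ (z.1, s.1)) + 1))^[z.2] (0, p₀ z.1)).2 :=
      funext fun z => (congrArg Prod.snd (kCum_iter (p₀ z.1) (fun j => p₁ (z.1, j)) z.2)).symm
    rw [e']
    exact this
  have cπ : ∀ x x' j, π x (j + 1) = π x' (j + 1) →
      π x 0 = π x' 0 ∧ ∀ k ≤ j, p₁ (x, k) = p₁ (x', k) := fun x x' j hx =>
    ⟨(kCum_inj hx).1, fun k hk => (kCum_inj hx).2 k (Nat.lt_succ_of_le hk)⟩
  have H : ∀ y n, g.E y K → (∀ j, ∃ j' c, j ≤ j' ∧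
      Cl g T (Img e fun x => π x 0 = n ∧ π x (j' + 1) = c) y) → g.E y Y := by
    intro y n hy hj
    refine (hY y).2 ⟨hy, n, fun j => ?_⟩
    obtain ⟨j', c, hjj, hc⟩ := hj j
    obtain ⟨x₀, h₀, h₁⟩ := Cl.kImg_ne top hy hc
    refine ⟨p₁ (x₀, j), Cl.clsd (hcl _) ?_ hy hc⟩
    rintro _ ⟨x, ⟨hx₀, hx₁⟩, rfl⟩
    have := hp₁ (x, j)
    rw [(cπ x x₀ j' (hx₁.trans h₁.symm)).2 j hjj, show p₀ x = n from hx₀] at this
    exact this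
  obtain ⟨a, ha, good, cert⟩ :=
    exists_cert Cb.tmE cd π hπ (fun x j => Nat.succ_ne_zero _) H
  obtain ⟨φ, hφ, three⟩ := Cb.three π a hπ ha good
  have hπ' : ∀ {Γ : Type 2} [Cd g Γ] {f : Γ → g.Elt A} {k : Γ → ℕ}, g.Tm f → g.Tm k →
      g.Tm fun z => π (f z) (k z) := fun hf hk => Tm.comp₂ hπ hf hk
  obtain ⟨B, hB, hBc⟩ := exists_closure (Γ := ℕ × ℕ) top
    (Q := fun z y => y = i ∨ ∃ x, Nat.pair (φ x) (π x (z.1 + 1)) = z.2 ∧ y = e x) (by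
      refine tm_or (by fun_prop) (tm_ex (tm_and (tm_eq (tm_natPair (by fun_prop)
        (hπ' (by fun_prop) (by fun_prop))) (by fun_prop)) (by fun_prop))))
  refine inF2_of hB (fun c => (hBc c).1) fun y => ⟨fun hy => ?_, fun ⟨hy, hj⟩ => ?_⟩
  · rcases (cd.mem y).1 hy with rfl | ⟨x, rfl⟩
    · exact ⟨cd.iK, fun j => ⟨0, ((hBc _).2 _).2 ⟨cd.iK, Cl.self (Or.inl rfl)⟩⟩⟩
    · exact ⟨cd.eK x, fun j =>
        ⟨Nat.pair (φ x) (π x (j + 1)),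
          ((hBc _).2 _).2 ⟨cd.eK x, Cl.self (Or.inr ⟨x, rfl, rfl⟩)⟩⟩⟩
  by_contra hn
  have hyi : y ≠ i := fun e => hn ((cd.mem y).2 (Or.inl e))
  obtain ⟨V, V', hV, hV', hyV, hiV, dis⟩ := cd.ch.2.1 y i hy cd.iK hyi
  obtain ⟨Fn, D, hFn, hD, hnb⟩ := cd.nb V' hV' hiV
  have step : ∀ j, ∃ d ∈ D, ∃ v,
      Cl g T (Img e fun x => Cb.Eb d x ∧ Nat.pair (φ x) (π x (j + 1)) = v) y := by
    intro j
    obtain ⟨v, hv⟩ := hj j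
    have h₁ := Cl.kLoc top hV hyV (((hBc _).2 _).1 hv).2
    have h₂ : Cl g T (Img e fun x => x ∈ Fn ∨
        ∃ d ∈ D, Cb.Eb d x ∧ Nat.pair (φ x) (π x (j + 1)) = v) y := by
      refine h₁.mono ?_
      rintro z ⟨rfl | ⟨x, hx, rfl⟩, hz⟩
      · exact absurd ⟨hz, hiV⟩ (dis _)
      · refine ⟨x, ?_, rfl⟩
        by_contra hc
        push Not at hc
        exact dis _ ⟨hz, hnb x hc.1 fun d hd hE => hc.2 d hd hE hx⟩
    obtain ⟨d, hd, h₃⟩ := Cl.kImg_union top hD hy (Cl.kImg_drop cd hFn hy hn h₂)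
    exact ⟨d, hd, v, h₃⟩
  obtain ⟨d, hd⟩ : ∃ d, ∀ j, ∃ j', j ≤ j' ∧ ∃ v,
      Cl g T (Img e fun x => Cb.Eb d x ∧ Nat.pair (φ x) (π x (j' + 1)) = v) y := by
    by_contra hc
    push Not at hc
    have : ∀ᶠ j in Filter.atTop, ∀ d ∈ D, ∀ v,
        ¬ Cl g T (Img e fun x => Cb.Eb d x ∧ Nat.pair (φ x) (π x (j + 1)) = v) y :=
      (Filter.eventually_all_finite hD).2 fun d _ => Filter.eventually_atTop.2 (hc d)
    obtain ⟨j, hj⟩ := this.exists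
    obtain ⟨d, hd, v, hv⟩ := step j
    exact hj d hd v hv
  have same : ∀ j j' x₀ x₀',
      Cl g T (Img e fun x => Cb.Eb d x ∧
        Nat.pair (φ x) (π x (j + 1)) = Nat.pair (φ x₀) (π x₀ (j + 1))) y →
      Cl g T (Img e fun x => Cb.Eb d x ∧
        Nat.pair (φ x) (π x (j' + 1)) = Nat.pair (φ x₀') (π x₀' (j' + 1))) y →
      π x₀ 0 = π x₀' 0 := by
    intro j j' x₀ x₀' h₁ h₂
    obtain ⟨Fn', Cs, L, hF', hCs, cov, sep⟩ := three d (max (φ x₀) (φ x₀'))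
    have get : ∀ j x₁, φ x₁ ≤ max (φ x₀) (φ x₀') → Cl g T (Img e fun x => Cb.Eb d x ∧
        Nat.pair (φ x) (π x (j + 1)) = Nat.pair (φ x₁) (π x₁ (j + 1))) y →
        ∃ t ∈ Cs, π x₁ 0 = t.1 ∧ Cl g T (Img e fun x => Cb.Eb d x ∧ InU π a d t (L t) x) y := by
      intro j x₁ hx₁ hc
      have h₃ : Cl g T (Img e fun x => x ∈ Fn' ∨ ∃ t ∈ Cs, (Cb.Eb d x ∧ InU π a d t (L t) x) ∧
          π x (j + 1) = π x₁ (j + 1)) y := hc.kImg_mono fun x hx => by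
        have hx' := Nat.pair_eq_pair.1 hx.2
        rcases cov x hx.1 (hx'.1 ▸ hx₁) with h | ⟨t, ht, h⟩
        exacts [Or.inl h, Or.inr ⟨t, ht, ⟨hx.1, h⟩, hx'.2⟩]
      obtain ⟨t, ht, h₄⟩ := Cl.kImg_union top hCs hy (Cl.kImg_drop cd hF' hy hn h₃)
      obtain ⟨x, hx, hx'⟩ := Cl.kImg_ne top hy h₄
      exact ⟨t, ht, (cπ _ _ _ hx').1.symm.trans hx.2.1, h₄.kImg_mono fun _ h => h.1⟩
    have clash : ∀ t t' m, (t', m) ∈ L t →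
        Cl g T (Img e fun x => Cb.Eb d x ∧ InU π a d t (L t) x) y →
        Cl g T (Img e fun x => Cb.Eb d x ∧ InU π a d t' (L t') x) y → False := by
      intro t t' m hm c₁ c₂
      obtain ⟨k, -, c₃⟩ := Cl.kImg_union (Q := fun k x => Cb.Eb d x ∧ a d k x = t') top
        (Set.finite_lt_nat m) hy (c₁.kImg_mono fun x hx => by
          obtain ⟨k, hk, e⟩ := hx.2.2.2 _ hm
          exact ⟨k, hk, hx.1, e⟩)
      exact hn (cert d k t' y hy (c₂.kImg_mono fun x hx => ⟨hx.2.1, hx.2.2.1⟩) c₃)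
    obtain ⟨t, ht, e₁, c₁⟩ := get j x₀ (le_max_left _ _) h₁
    obtain ⟨t', ht', e₂, c₂⟩ := get j' x₀' (le_max_right _ _) h₂
    by_cases htt : t = t'
    · rw [e₁, e₂, htt]
    · obtain ⟨m, hm | hm⟩ := sep t ht t' ht' htt
      exacts [(clash t t' m hm c₁ c₂).elim, (clash t' t m hm c₂ c₁).elim]
  obtain ⟨j₀, -, v₀, c₀⟩ := hd 0
  obtain ⟨x₀, -, rfl⟩ := Cl.kImg_ne top hy c₀
  refine hn (H y (π x₀ 0) hy fun j => ?_)
  obtain ⟨j', hj', v, c⟩ := hd j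
  obtain ⟨x₁, -, rfl⟩ := Cl.kImg_ne top hy c
  refine ⟨j', π x₁ (j' + 1), hj', c.kImg_mono fun x hx => ?_⟩
  have hx' := (Nat.pair_eq_pair.1 hx.2).2
  exact ⟨(cπ _ _ _ hx').1.trans (same j₀ j' x₀ x₁ c₀ c).symm, hx'⟩

end Pool.Agent.MP_2e2931_gt.Gap
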