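import Pool.Agent.MP_2e2931_gt.TNf

namespace Pool.Agent.MP_2e2931_gt.Gap

open Pool.Agent.MP_c6cf52_lc Pool.Agent.MP_c6cf52_lc.Gen

variable {P : Type 1} [Preorder P] [OrderTop P] {g : Gen P} {A X S K T Y : g.M}

theorem exists_cdata {Eb : g.Elt A → g.Elt A → Prop}
    (hE : g.Tm fun z : g.Elt A × g.Elt A => Eb z.1 z.2) (hX : Sp g Eb X S)
    (h : IsCpt g.E g.om X S K T Y) : ∃ e i, CData g Eb K T Y e i := by
  obtain ⟨ch, -, e0, he, hY, hS⟩ := h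
  have hi : g.E (infM g) X := (hX.mem _).2 (Or.inl rfl)
  have hp : ∀ x : g.Elt A, g.E (ptM g x) X := fun x => (hX.mem _).2 (Or.inr ⟨x, rfl⟩)
  have ai := app_ev he.1 hi
  have ap := fun x : g.Elt A => app_ev he.1 (hp x)
  refine ⟨fun x => ev g.M g.M e0 (ptM g x), ev g.M g.M e0 (infM g), ch, by fun_prop,
    fun y => ?_, fun x => (fun_mem he.1 (ap x)).2, (fun_mem he.1 ai).2, fun x => ?_,
    fun V hV hiV => ?_, fun d => ?_⟩
  · rw [hY]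
    constructor
    · rintro ⟨x, hx⟩
      rcases (hX.mem x).1 (fun_mem he.1 hx).1 with rfl | ⟨x, rfl⟩
      · exact Or.inl (fun_uniq he.1 hx ai)
      · exact Or.inr ⟨x, fun_uniq he.1 hx (ap x)⟩
    · rintro (rfl | ⟨x, rfl⟩)
      exacts [⟨_, ai⟩, ⟨_, ap x⟩]
  · obtain ⟨U, hU⟩ := exists_finset (g := g) (Set.finite_singleton (ptM g x))
    simp only [Set.mem_singleton_iff] at hU
    have hUS : g.E U S := (hX.opn U).2 ⟨fun y hy => (hU y).1 hy ▸ hp x,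
      fun h => absurd ((hU _).1 h).symm (ptM_ne_infM x)⟩
    obtain ⟨-, V, hV, H⟩ := (hS U).1 hUS
    refine ⟨V, hV, (H _ _ (ap x)).1 ((hU _).2 rfl), fun h => ?_, fun x' h => ?_⟩
    · exact ptM_ne_infM x ((hU _).1 ((H _ _ ai).2 h)).symm
    · exact ptM_inj ((hU _).1 ((H _ _ (ap x')).2 h))
  · obtain ⟨U, hU⟩ := tm_sep (g := g) (Q := fun u => g.E (ev g.M g.M e0 u) V) (by fun_prop) X
    have hUS : g.E U S := (hS U).2 ⟨fun y hy => ((hU y).1 hy).1, V, hV, fun x y hxy => by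
      have hx := (fun_mem he.1 hxy).1
      rw [hU, fun_uniq he.1 hxy (app_ev he.1 hx)]
      exact and_iff_right hx⟩
    obtain ⟨Fn, D, hF, hD, H⟩ := ((hX.opn U).1 hUS).2 ((hU _).2 ⟨hi, hiV⟩)
    exact ⟨Fn, D, hF, hD, fun x hx hd => ((hU _).1 (H x hx hd)).2⟩
  · have hd : g.Tm fun x : g.Elt A => Eb d x :=
      hE.comp (f := fun x : g.Elt A => (d, x)) (by fun_prop)
    have hd' : g.Tm fun z : g.M × g.Elt A => Eb d z.2 := hd.comp (by fun_prop)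
    obtain ⟨U, hU⟩ := tm_sep (g := g) (Q := fun u => ¬ ∃ x : g.Elt A, Eb d x ∧ u = ptM g x)
      (tm_not (tm_ex (tm_and hd' (by fun_prop)))) X
    have hUS : g.E U S := (hX.opn U).2 ⟨fun y hy => ((hU y).1 hy).1, fun _ =>
      ⟨∅, {d}, Set.finite_empty, Set.finite_singleton d, fun x _ hx => (hU _).2 ⟨hp x,
        fun ⟨x', h₁, h₂⟩ => hx d rfl (ptM_inj h₂ ▸ h₁)⟩⟩⟩
    obtain ⟨-, V, hV, H⟩ := (hS U).1 hUS
    refine ⟨V, hV, (H _ _ ai).1 ((hU _).2 ⟨hi, fun ⟨x, _, h⟩ => ptM_ne_infM x h.symm⟩),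
      fun x hx h => ((hU _).1 ((H _ _ (ap x)).2 h)).2 ⟨x, hx, rfl⟩⟩

theorem not_fle1 (Cb : Comb g A) (hX : Sp g Cb.Eb X S) (h : IsCpt g.E g.om X S K T Y) :
    ¬ FLe g.E g.om K T 1 Y := by
  intro hF
  obtain ⟨e, i, cd⟩ := exists_cdata Cb.tmE hX h
  obtain ⟨C, hC, hcl, hY⟩ := nf1 cd.ch.1 hF
  have he := cd.tm
  obtain ⟨F, hFt, hFc⟩ := tm_choice (g := g) (Γ := g.Elt A) (α := ℕ)
    (Q := fun x c => g.E (e x) (C c)) (by fun_prop)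
    fun x => (hY _).1 ((cd.mem _).2 (Or.inr ⟨x, rfl⟩))
  obtain ⟨d, hd⟩ := Cb.two (fun _ x => F x) (by fun_prop)
  obtain ⟨v, hv⟩ := hd 0
  have hd₁ : g.Tm fun x : g.Elt A => Cb.Eb d x :=
    Cb.tmE.comp (f := fun x : g.Elt A => (d, x)) (by fun_prop)
  have hd₂ : g.Tm fun z : g.M × g.Elt A => Cb.Eb d z.2 := hd₁.comp (by fun_prop)
  obtain ⟨D, hD, hDT, hcov⟩ := cd.ch.cover (Q := fun U => (∀ y, g.E y U → ¬ g.E y (C v)) ∨
      (∃ x, ∀ x', g.E (e x') U → x' = x) ∨ ∀ x, Cb.Eb d x → ¬ g.E (e x) U)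
    (tm_or (by fun_prop) (tm_or (by fun_prop) (tm_all (tm_imp hd₂ (by fun_prop))))) fun y hy => by
      by_cases hyC : g.E y (C v)
      · rcases (cd.mem y).1 ((hY y).2 ⟨v, hyC⟩) with rfl | ⟨x, rfl⟩
        · obtain ⟨V, hV, h₁, h₂⟩ := cd.opn d
          exact ⟨V, hV, Or.inr (Or.inr h₂), h₁⟩
        · obtain ⟨V, hV, h₁, -, h₂⟩ := cd.iso x
          exact ⟨V, hV, Or.inr (Or.inl ⟨x, h₂⟩), h₁⟩
      · obtain ⟨V, hV, H⟩ := hcl v
        refine ⟨V, hV, Or.inl fun z hz hz' => ((H z).1 hz').2 hz, ?_⟩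
        by_contra hyV
        exact hyC ((H y).2 ⟨hy, hyV⟩)
  refine hv (Set.Finite.subset (hD.biUnion (t := fun U =>
    {x | (Cb.Eb d x ∧ F x = v) ∧ g.E (e x) U}) fun U hU => ?_) fun x hx => ?_)
  · rcases (hDT U hU).2 with H | ⟨x, H⟩ | H
    · exact Set.finite_empty.subset fun x hx => H _ hx.2 (hx.1.2 ▸ hFc x)
    · exact (Set.finite_singleton x).subset fun x' hx' => H _ hx'.2
    · exact Set.finite_empty.subset fun x hx => H _ hx.1.1 hx.2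
  · obtain ⟨U, hU, hxU⟩ := hcov _ (cd.eK x)
    exact Set.mem_biUnion hU ⟨hx, hxU⟩

theorem not_low (Cb : Comb g A) (hX : Sp g Cb.Eb X S) (h : IsCpt g.E g.om X S K T Y) :
    ¬ InF g.E g.om K T 0 Y ∧ ¬ InF g.E g.om K T 1 Y :=
  ⟨fun H => not_fle1 Cb hX h (Or.inl H), fun H => not_fle1 Cb hX h (Or.inr H)⟩

end Pool.Agent.MP_2e2931_gt.Gap
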