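import Pool.Agent.MP_2e2931_gt.TBasic

namespace Pool.Agent.MP_2e2931_gt.Gap

open Pool.Agent.MP_c6cf52_lc Pool.Agent.MP_c6cf52_lc.Gen

variable {P : Type 1} [Preorder P] [OrderTop P] {g : Gen P} {K T : g.M}

/-- A countable set of the model has a definable enumeration with a default value. -/
theorem nf_enum {C f : g.M} (hf : IsInj g.E f C g.om) (d : g.M) :
    ∃ e : ℕ → g.M, g.Tm e ∧ (∀ n, g.E (e n) C ∨ e n = d) ∧ ∀ x, g.E x C → ∃ n, e n = x := by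
  obtain ⟨φ, hφ, hi⟩ := ctbl_iff.1 ⟨f, hf⟩
  obtain ⟨e, he, H⟩ := tm_choice (g := g) (Γ := ℕ) (α := g.M)
    (Q := fun n y => (g.E y C ∧ φ y = n) ∨ ((¬ ∃ z, g.E z C ∧ φ z = n) ∧ y = d)) (by fun_prop)
    fun n => by
      by_cases h : ∃ z, g.E z C ∧ φ z = n
      · obtain ⟨z, hz⟩ := h
        exact ⟨z, Or.inl hz⟩
      · exact ⟨d, Or.inr ⟨h, rfl⟩⟩
  refine ⟨e, he, fun n => (H n).imp (fun h => h.1) fun h => h.2, fun x hx => ⟨φ x, ?_⟩⟩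
  rcases H (φ x) with h | h
  · exact hi _ _ h.1 hx h.2
  · exact absurd ⟨x, hx, rfl⟩ h.1

/-- The range of a definable sequence is a countable set of the model. -/
theorem nf_range {e : ℕ → g.M} (he : g.Tm e) :
    ∃ S f, IsInj g.E f S g.om ∧ ∀ y, g.E y S ↔ ∃ n, e n = y := by
  obtain ⟨S, hS⟩ := tm_image (g := g) (Γ := ℕ) (Q := fun _ => True) (by fun_prop) he
  have hS' : ∀ y, g.E y S ↔ ∃ n, e n = y := fun y => by simp [hS]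
  have : Nonempty (g.Elt S) := ⟨⟨e 0, (hS' _).2 ⟨0, rfl⟩⟩⟩
  obtain ⟨k, hk, H⟩ := tm_choice (g := g) (Γ := g.Elt S) (α := ℕ)
    (Q := fun x n => e n = x.1) (by fun_prop) fun x => (hS' _).1 x.2
  obtain ⟨f, hf⟩ := (ctbl_iff (a := S)).2 ⟨fun x => k (un (g.Elt S) x), by fun_prop,
    fun x y hx hy h => by
      have h₁ : un (g.Elt S) x = ⟨x, hx⟩ := un_ι (g := g) (α := g.Elt S) ⟨x, hx⟩
      have h₂ : un (g.Elt S) y = ⟨y, hy⟩ := un_ι (g := g) (α := g.Elt S) ⟨y, hy⟩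
      dsimp only at h
      rw [h₁, h₂] at h
      have h₃ := H ⟨x, hx⟩
      have h₄ := H ⟨y, hy⟩
      rw [h] at h₃
      exact h₃.symm.trans h₄⟩
  exact ⟨S, f, hf, hS'⟩

theorem nf_emp (h : IsTop g.E K T) : ∃ d, Clsd g.E K T d ∧ ∀ y, ¬ g.E y d := by
  obtain ⟨d, hd⟩ := exists_finset (g := g) Set.finite_empty
  have hd' : ∀ y, ¬ g.E y d := fun y hy => (hd y).1 hy
  exact ⟨d, ⟨K, h.2.1, fun y => ⟨fun hy => absurd hy (hd' y), fun hy => absurd hy.1 hy.2⟩⟩, hd'⟩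

theorem nf_top (h : IsTop g.E K T) : Clsd g.E K T K := by
  obtain ⟨d, -, hd⟩ := nf_emp h
  obtain ⟨W, hW, H⟩ := h.2.2.1 d fun x hx => absurd hx (hd x)
  refine ⟨W, hW, fun y => ⟨fun hy => ⟨hy, fun h' => ?_⟩, fun hy => hy.1⟩⟩
  obtain ⟨U, hU, -⟩ := (H y).1 h'
  exact hd U hU

theorem nf_sub {B y : g.M} (hB : Clsd g.E K T B) (hy : g.E y B) : g.E y K := by
  obtain ⟨V, -, H⟩ := hB
  exact ((H y).1 hy).1

theorem nf1 (h : IsTop g.E K T) {B : g.M} (hB : FLe g.E g.om K T 1 B) :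
    ∃ C : ℕ → g.M, g.Tm C ∧ (∀ c, Clsd g.E K T (C c)) ∧ ∀ y, g.E y B ↔ ∃ c, g.E y (C c) := by
  rcases hB with hB | ⟨C, f, hf, hC, H⟩
  · exact ⟨fun _ => B, by fun_prop, fun _ => hB, fun y => by simp⟩
  · obtain ⟨d, hd, hd'⟩ := nf_emp h
    obtain ⟨e, he, h₁, h₂⟩ := nf_enum hf d
    refine ⟨e, he, fun c => ?_, fun y => (H y).trans ⟨?_, ?_⟩⟩
    · rcases h₁ c with h₃ | h₃
      · exact hC _ h₃
      · rw [h₃]; exact hd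
    · rintro (⟨-, A, hA, hy⟩ | ⟨h₃, -⟩)
      · obtain ⟨n, rfl⟩ := h₂ A hA
        exact ⟨n, hy⟩
      · exact absurd h₃ (by decide)
    · rintro ⟨c, hy⟩
      rcases h₁ c with h₃ | h₃
      · exact Or.inl ⟨by decide, _, h₃, hy⟩
      · rw [h₃] at hy
        exact absurd hy (hd' y)

theorem nf2 (h : IsTop g.E K T) {B : g.M} (hB : FLe g.E g.om K T 2 B) :
    ∃ C : ℕ × ℕ → g.M, g.Tm C ∧ (∀ c, Clsd g.E K T (C c)) ∧
      ∀ y, g.E y B ↔ g.E y K ∧ ∀ j, ∃ c, g.E y (C (j, c)) := by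
  rcases hB with hB | ⟨C, f, hf, hC, H⟩
  · obtain ⟨D, hD, h₁, h₂⟩ := nf1 h hB
    refine ⟨fun z => D z.2, by fun_prop, fun z => h₁ _, fun y => (h₂ y).trans ⟨?_, ?_⟩⟩
    · rintro ⟨c, hy⟩
      exact ⟨nf_sub (h₁ c) hy, fun _ => ⟨c, hy⟩⟩
    · exact fun hy => hy.2 0
  · obtain ⟨e, he, h₁, h₂⟩ := nf_enum hf K
    obtain ⟨F, hF, h₃⟩ := tm_choice_fun (g := g) (Γ := ℕ) (α := ℕ) (β := g.M)
      (Q := fun n F => (∀ c, Clsd g.E K T (F c)) ∧ ∀ y, g.E y (e n) ↔ ∃ c, g.E y (F c))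
      (by fun_prop) fun n => by
        refine nf1 h ?_
        rcases h₁ n with h₃ | h₃
        · exact hC _ h₃
        · rw [h₃]; exact Or.inl (nf_top h)
    refine ⟨fun z => F z.1 z.2, hF, fun z => (h₃ _).1 _, fun y => (H y).trans ⟨?_, ?_⟩⟩
    · rintro (⟨h₄, -⟩ | ⟨-, hy, h₄⟩)
      · exact absurd h₄ (by decide)
      · refine ⟨hy, fun j => ((h₃ j).2 y).1 ?_⟩
        rcases h₁ j with h₅ | h₅
        · exact h₄ _ h₅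
        · rw [h₅]; exact hy
    · rintro ⟨hy, h₄⟩
      refine Or.inr ⟨by decide, hy, fun A hA => ?_⟩
      obtain ⟨n, rfl⟩ := h₂ A hA
      exact ((h₃ n).2 y).2 (h₄ n)

theorem nf3 (h : IsTop g.E K T) {B : g.M} (hB : InF g.E g.om K T 3 B) :
    ∃ C : ℕ × ℕ × ℕ → g.M, g.Tm C ∧ (∀ c, Clsd g.E K T (C c)) ∧
      ∀ y, g.E y B ↔ g.E y K ∧ ∃ n, ∀ j, ∃ c, g.E y (C (n, j, c)) := by
  obtain ⟨C, f, hf, hC, H⟩ := hB
  obtain ⟨d, hd, hd'⟩ := nf_emp h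
  obtain ⟨e, he, h₁, h₂⟩ := nf_enum hf d
  obtain ⟨F, hF, h₃⟩ := tm_choice_fun (g := g) (Γ := ℕ) (α := ℕ × ℕ) (β := g.M)
    (Q := fun n F => (∀ c, Clsd g.E K T (F c)) ∧
      ∀ y, g.E y (e n) ↔ g.E y K ∧ ∀ j, ∃ c, g.E y (F (j, c)))
    (by fun_prop) fun n => by
      refine nf2 h ?_
      rcases h₁ n with h₃ | h₃
      · exact hC _ h₃
      · rw [h₃]; exact Or.inl (Or.inl hd)
  refine ⟨fun z => F z.1 z.2, hF, fun z => (h₃ _).1 _, fun y => (H y).trans ⟨?_, ?_⟩⟩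
  · rintro (⟨-, A, hA, hy⟩ | ⟨h₄, -⟩)
    · obtain ⟨n, rfl⟩ := h₂ A hA
      exact ⟨(((h₃ n).2 y).1 hy).1, n, (((h₃ n).2 y).1 hy).2⟩
    · exact absurd h₄ (by decide)
  · rintro ⟨hy, n, h₄⟩
    have h₅ := ((h₃ n).2 y).2 ⟨hy, h₄⟩
    rcases h₁ n with h₆ | h₆
    · exact Or.inl ⟨by decide, _, h₆, h₅⟩
    · rw [h₆] at h₅
      exact absurd h₅ (hd' y)

theorem inF2_of {B : g.M} {C : ℕ × ℕ → g.M} (hC : g.Tm C) (hc : ∀ c, Clsd g.E K T (C c))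
    (H : ∀ y, g.E y B ↔ g.E y K ∧ ∀ j, ∃ c, g.E y (C (j, c))) : InF g.E g.om K T 2 B := by
  obtain ⟨U, hU, h₁⟩ := tm_choice (g := g) (Γ := ℕ) (α := g.M)
    (Q := fun j U => ∀ y, g.E y U ↔ ∃ c, g.E y (C (j, c))) (by fun_prop) fun j => by
      obtain ⟨S, -, -, hS⟩ := nf_range (g := g) (e := fun c => C (j, c)) (by fun_prop)
      obtain ⟨U, hU⟩ := exists_union S
      refine ⟨U, fun y => (hU y).trans ⟨?_, ?_⟩⟩
      · rintro ⟨A, hy, hA⟩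
        obtain ⟨c, rfl⟩ := (hS A).1 hA
        exact ⟨c, hy⟩
      · rintro ⟨c, hy⟩
        exact ⟨_, hy, (hS _).2 ⟨c, rfl⟩⟩
  obtain ⟨S, f, hf, hS⟩ := nf_range hU
  refine ⟨S, f, hf, fun A hA => ?_, fun y => (H y).trans ⟨?_, ?_⟩⟩
  · obtain ⟨j, rfl⟩ := (hS A).1 hA
    obtain ⟨R, f', hf', hR⟩ := nf_range (g := g) (e := fun c => C (j, c)) (by fun_prop)
    refine Or.inr ⟨R, f', hf', fun D hD => ?_, fun y => (h₁ j y).trans ⟨?_, ?_⟩⟩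
    · obtain ⟨c, rfl⟩ := (hR D).1 hD
      exact hc _
    · rintro ⟨c, hy⟩
      exact Or.inl ⟨by decide, _, (hR _).2 ⟨c, rfl⟩, hy⟩
    · rintro (⟨-, D, hD, hy⟩ | ⟨h₂, -⟩)
      · obtain ⟨c, rfl⟩ := (hR D).1 hD
        exact ⟨c, hy⟩
      · exact absurd h₂ (by decide)
  · rintro ⟨hy, h₂⟩
    refine Or.inr ⟨by decide, hy, fun A hA => ?_⟩
    obtain ⟨j, rfl⟩ := (hS A).1 hA
    exact (h₁ j y).2 (h₂ j)
  · rintro (⟨h₂, -⟩ | ⟨-, hy, h₂⟩)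
    · exact absurd h₂ (by decide)
    · exact ⟨hy, fun j => (h₁ j y).1 (h₂ _ ((hS _).2 ⟨j, rfl⟩))⟩

end Pool.Agent.MP_2e2931_gt.Gap
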