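import Mathlib

/-! The `F`-Borel hierarchy and the set of attainable complexities. -/

open Set Topology Ordinal

universe u

namespace Pool.Agent.MP_2e2931_gt

/-- `α = l + m` with `l` zero or a limit ordinal and `m` an odd natural number -/
def OddOrd (α : Ordinal.{0}) : Prop :=
  ∃ (l : Ordinal.{0}) (m : ℕ), (l = 0 ∨ Order.IsSuccLimit l) ∧ α = l + m ∧ Odd m

/-- `FB Y α A`: the set `A` is in the class `F_α(Y)` -/
inductive FB (Y : Type u) [TopologicalSpace Y] : Ordinal.{0} → Set Y → Prop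
  | closed {A : Set Y} : IsClosed A → FB Y 0 A
  | union {α : Ordinal.{0}} (b : ℕ → Ordinal.{0}) (f : ℕ → Set Y) : OddOrd α →
      (∀ n, b n < α) → (∀ n, FB Y (b n) (f n)) → FB Y α (⋃ n, f n)
  | inter {α : Ordinal.{0}} (b : ℕ → Ordinal.{0}) (f : ℕ → Set Y) : ¬ OddOrd α →
      (∀ n, b n < α) → (∀ n, FB Y (b n) (f n)) → FB Y α (⋂ n, f n)

/-- Suslin-`F` sets -/
def Suslin (Y : Type u) [TopologicalSpace Y] (A : Set Y) : Prop :=
  ∃ F : List ℕ → Set Y, (∀ s, IsClosed (F s)) ∧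
    A = ⋃ σ : ℕ → ℕ, ⋂ k, F (List.ofFn fun i : Fin (k + 1) => σ i)

/-- the classes `F_α(Y)` for `α ≤ ω₁` -/
def InF (Y : Type u) [TopologicalSpace Y] (α : Ordinal.{0}) (A : Set Y) : Prop :=
  (α < ω₁ ∧ FB Y α A) ∨ (α = ω₁ ∧ Suslin Y A)

/-- a compactification of `X` -/
structure Cpt (X : Type u) [TopologicalSpace X] where
  Y : Type u
  [top : TopologicalSpace Y]
  [cpt : CompactSpace Y]
  [haus : T2Space Y]
  e : X → Y
  emb : IsEmbedding e
  dense : DenseRange e

attribute [instance] Cpt.top Cpt.cpt Cpt.haus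

/-- `X` is a Suslin-`F` subset of some compact Hausdorff space -/
def KAnalytic (X : Type u) [TopologicalSpace X] : Prop :=
  ∃ (Y : Type u) (_ : TopologicalSpace Y) (_ : CompactSpace Y) (_ : T2Space Y) (e : X → Y),
    IsEmbedding e ∧ Suslin Y (range e)

/-- the set of attainable complexities -/
def Cplx (X : Type u) [TopologicalSpace X] : Set Ordinal.{0} :=
  {α | ∃ c : Cpt X, IsLeast {a | InF c.Y a (range c.e)} α}

end Pool.Agent.MP_2e2931_gt
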