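import Pool.Agent.MP_2e2931_gt.ZDefs

/-! Closure properties of the hierarchy, separation, and the transfer lemma. -/

open Set Topology Ordinal

universe u v w

namespace Pool.Agent.MP_2e2931_gt

theorem zdec (α : Ordinal.{0}) : ∃ (q : Ordinal.{0}) (m : ℕ), α = ω * q + m := by
  obtain ⟨m, hm⟩ := lt_omega0.1 (mod_lt α omega0_ne_zero)
  exact ⟨α / ω, m, by rw [← hm, div_add_mod]⟩

theorem zodd_iff (q : Ordinal.{0}) (m : ℕ) : OddOrd (ω * q + m) ↔ Odd m := by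
  constructor
  · rintro ⟨l, k, hl, e, hk⟩
    have h1 : ω ∣ l := by
      rcases hl with rfl | hl
      · exact dvd_zero _
      · exact isSuccPrelimit_iff_omega0_dvd.1 hl.isSuccPrelimit
    obtain ⟨r, rfl⟩ := h1
    have h2 := congrArg (· % ω) e
    simp only [mul_add_mod_self, natCast_mod_omega0, Nat.cast_inj] at h2
    rwa [h2]
  · intro h
    refine ⟨ω * q, m, ?_, rfl, h⟩
    by_cases c : ω * q = 0
    · exact Or.inl c
    · exact Or.inr (isSuccLimit_iff.2 ⟨c, isSuccPrelimit_iff_omega0_dvd.2 (dvd_mul_right _ _)⟩)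

theorem zodd_succ {α : Ordinal.{0}} (h : ¬ OddOrd α) : OddOrd (α + 1) := by
  obtain ⟨q, m, rfl⟩ := zdec α
  rw [zodd_iff] at h
  rw [add_assoc, ← Nat.cast_succ, zodd_iff]
  exact (Nat.not_odd_iff_even.1 h).add_one

theorem zodd_pred {α : Ordinal.{0}} (h : OddOrd α) : ∃ β, ¬ OddOrd β ∧ α = β + 1 := by
  obtain ⟨q, m, rfl⟩ := zdec α
  rw [zodd_iff] at h
  obtain ⟨k, rfl⟩ := h
  refine ⟨ω * q + (2 * k : ℕ), ?_, by rw [add_assoc, Nat.cast_add_one]⟩
  rw [zodd_iff, Nat.not_odd_iff_even]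
  exact even_two_mul k

theorem zodd_zero : ¬ OddOrd 0 := by
  have := zodd_iff 0 0
  simpa using this

theorem zodd_one : OddOrd 1 := by simpa using zodd_succ zodd_zero

section Hier

variable {Y : Type u} [TopologicalSpace Y]

theorem FB.inv {α : Ordinal.{0}} {A : Set Y} (h : FB Y α A) : (α = 0 ∧ IsClosed A) ∨
    ∃ (b : ℕ → Ordinal.{0}) (f : ℕ → Set Y), (∀ n, b n < α) ∧ (∀ n, FB Y (b n) (f n)) ∧
      ((OddOrd α ∧ A = ⋃ n, f n) ∨ (¬ OddOrd α ∧ A = ⋂ n, f n)) := by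
  cases h with
  | closed h => exact Or.inl ⟨rfl, h⟩
  | union b f h1 h2 h3 => exact Or.inr ⟨b, f, h2, h3, Or.inl ⟨h1, rfl⟩⟩
  | inter b f h1 h2 h3 => exact Or.inr ⟨b, f, h2, h3, Or.inr ⟨h1, rfl⟩⟩

theorem FB.zero {A : Set Y} (h : FB Y 0 A) : IsClosed A := by
  rcases h.inv with h | ⟨b, -, h, -⟩
  · exact h.2
  · exact absurd (h 0) not_lt_bot

theorem FB.mono {α β : Ordinal.{0}} {A : Set Y} (h : FB Y β A) (hle : β ≤ α) : FB Y α A := by
  rcases hle.eq_or_lt with rfl | hlt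
  · exact h
  by_cases c : OddOrd α
  · have := FB.union (fun _ => β) (fun _ => A) c (fun _ => hlt) fun _ => h
    rwa [iUnion_const] at this
  · have := FB.inter (fun _ => β) (fun _ => A) c (fun _ => hlt) fun _ => h
    rwa [iInter_const] at this

theorem FB.of_closed {α : Ordinal.{0}} {A : Set Y} (h : IsClosed A) : FB Y α A :=
  (FB.closed h).mono bot_le

theorem FB.union2 {α : Ordinal.{0}} (b : ℕ → ℕ → Ordinal.{0}) (f : ℕ → ℕ → Set Y) (h : OddOrd α)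
    (h1 : ∀ n m, b n m < α) (h2 : ∀ n m, FB Y (b n m) (f n m)) : FB Y α (⋃ n, ⋃ m, f n m) := by
  rw [← iUnion_unpair]
  exact FB.union (fun k => b k.unpair.1 k.unpair.2) _ h (fun _ => h1 _ _) fun _ => h2 _ _

theorem FB.inter2 {α : Ordinal.{0}} (b : ℕ → ℕ → Ordinal.{0}) (f : ℕ → ℕ → Set Y)
    (h : ¬ OddOrd α) (h1 : ∀ n m, b n m < α) (h2 : ∀ n m, FB Y (b n m) (f n m)) :
    FB Y α (⋂ n, ⋂ m, f n m) := by
  rw [← iInter_unpair]
  exact FB.inter (fun k => b k.unpair.1 k.unpair.2) _ h (fun _ => h1 _ _) fun _ => h2 _ _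

theorem FB.both (α : Ordinal.{0}) : ∀ A B : Set Y, FB Y α A → FB Y α B →
    FB Y α (A ∩ B) ∧ FB Y α (A ∪ B) := by
  induction α using WellFoundedLT.induction with
  | ind α ih =>
  intro A B hA hB
  rcases hA.inv with ⟨rfl, -⟩ | ⟨a, f, a1, a2, a3⟩
  · exact ⟨.closed (hA.zero.inter hB.zero), .closed (hA.zero.union hB.zero)⟩
  rcases hB.inv with ⟨rfl, -⟩ | ⟨b, g, b1, b2, b3⟩
  · exact absurd (a1 0) not_lt_bot
  have l : ∀ n m, max (a n) (b m) < α := fun n m => max_lt (a1 n) (b1 m)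
  have k := fun n m => ih _ (l n m) (f n) (g m) ((a2 n).mono (le_max_left _ _))
    ((b2 m).mono (le_max_right _ _))
  rcases a3 with ⟨o, rfl⟩ | ⟨o, rfl⟩ <;> rcases b3 with ⟨o', rfl⟩ | ⟨o', rfl⟩
  · constructor
    · simp only [iUnion_inter, inter_iUnion]
      exact FB.union2 (fun m n => max (a n) (b m)) _ o (fun m n => l n m) fun m n => (k n m).1
    · rw [← iUnion_union_distrib]
      exact FB.union _ _ o (fun n => l n n) fun n => (k n n).2
  · exact absurd o o'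
  · exact absurd o' o
  · constructor
    · rw [← iInter_inter_distrib]
      exact FB.inter _ _ o (fun n => l n n) fun n => (k n n).1
    · simp only [iInter_union, union_iInter]
      exact FB.inter2 (fun m n => max (a n) (b m)) _ o (fun m n => l n m) fun m n => (k n m).2

theorem FB.cap {α : Ordinal.{0}} {A B : Set Y} (hA : FB Y α A) (hB : FB Y α B) :
    FB Y α (A ∩ B) := (FB.both α A B hA hB).1

theorem FB.cup {α : Ordinal.{0}} {A B : Set Y} (hA : FB Y α A) (hB : FB Y α B) :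
    FB Y α (A ∪ B) := (FB.both α A B hA hB).2

theorem FB.iUnion {α : Ordinal.{0}} (o : OddOrd α) {f : ℕ → Set Y} (h : ∀ n, FB Y α (f n)) :
    FB Y α (⋃ n, f n) := by
  have k : ∀ n, ∃ (b : ℕ → Ordinal.{0}) (g : ℕ → Set Y), (∀ m, b m < α) ∧
      (∀ m, FB Y (b m) (g m)) ∧ f n = ⋃ m, g m := fun n => by
    rcases (h n).inv with ⟨rfl, -⟩ | ⟨b, g, b1, b2, ⟨-, e⟩ | ⟨o', -⟩⟩
    · exact absurd o zodd_zero
    · exact ⟨b, g, b1, b2, e⟩
    · exact absurd o o'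
  choose b g b1 b2 e using k
  simp only [e]
  exact FB.union2 b g o b1 b2

theorem FB.iInter {α : Ordinal.{0}} (o : ¬ OddOrd α) {f : ℕ → Set Y} (h : ∀ n, FB Y α (f n)) :
    FB Y α (⋂ n, f n) := by
  by_cases c : α = 0
  · subst c
    exact .closed (isClosed_iInter fun n => (h n).zero)
  have k : ∀ n, ∃ (b : ℕ → Ordinal.{0}) (g : ℕ → Set Y), (∀ m, b m < α) ∧
      (∀ m, FB Y (b m) (g m)) ∧ f n = ⋂ m, g m := fun n => by
    rcases (h n).inv with ⟨e, -⟩ | ⟨b, g, b1, b2, ⟨o', -⟩ | ⟨-, e⟩⟩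
    · exact absurd e c
    · exact absurd o' o
    · exact ⟨b, g, b1, b2, e⟩
  choose b g b1 b2 e using k
  simp only [e]
  exact FB.inter2 b g o b1 b2

end Hier

/-- the image of `A` is separated from `W` by a set of class `α` -/
def Sep {X : Type v} {Y : Type u} [TopologicalSpace Y] (e : X → Y) (α : Ordinal.{0})
    (A : Set X) (W : Set Y) : Prop :=
  ∃ B, FB Y α B ∧ (∀ x ∈ A, e x ∈ B) ∧ ∀ w ∈ W, w ∉ B

section Sep

variable {X : Type v} {Y : Type u} [TopologicalSpace Y] {e : X → Y} {α β : Ordinal.{0}}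

theorem sep_iff : Sep e α univ (range e)ᶜ ↔ FB Y α (range e) := by
  constructor
  · rintro ⟨B, h1, h2, h3⟩
    have : B = range e := by
      ext w
      exact ⟨fun h => by_contra fun c => h3 w c h, fun ⟨x, hx⟩ => hx ▸ h2 x trivial⟩
    exact this ▸ h1
  · exact fun h => ⟨_, h, fun x _ => mem_range_self x, fun _ h => h⟩

theorem Sep.mono {A A' : Set X} {W W' : Set Y} (h : Sep e β A W) (hle : β ≤ α) (hA : A' ⊆ A)
    (hW : W' ⊆ W) : Sep e α A' W' := by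
  obtain ⟨B, h1, h2, h3⟩ := h
  exact ⟨B, h1.mono hle, fun x hx => h2 x (hA hx), fun w hw => h3 w (hW hw)⟩

theorem Sep.left {A A' : Set X} {W : Set Y} (h : Sep e α A W) (h' : Sep e α A' W) :
    Sep e α (A ∪ A') W := by
  obtain ⟨B, h1, h2, h3⟩ := h
  obtain ⟨B', g1, g2, g3⟩ := h'
  exact ⟨B ∪ B', h1.cup g1, fun x hx => hx.imp (h2 x) (g2 x),
    fun w hw c => c.elim (h3 w hw) (g3 w hw)⟩

theorem Sep.right {A : Set X} {W W' : Set Y} (h : Sep e α A W) (h' : Sep e α A W') :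
    Sep e α A (W ∪ W') := by
  obtain ⟨B, h1, h2, h3⟩ := h
  obtain ⟨B', g1, g2, g3⟩ := h'
  exact ⟨B ∩ B', h1.cap g1, fun x hx => ⟨h2 x hx, g2 x hx⟩,
    fun w hw c => hw.elim (fun k => h3 w k c.1) fun k => g3 w k c.2⟩

theorem Sep.ileft (o : OddOrd α) {A : ℕ → Set X} {W : Set Y} (h : ∀ n, Sep e α (A n) W) :
    Sep e α (⋃ n, A n) W := by
  choose B h1 h2 h3 using h
  refine ⟨⋃ n, B n, FB.iUnion o h1, fun x hx => ?_, fun w hw c => ?_⟩
  · obtain ⟨n, hn⟩ := mem_iUnion.1 hx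
    exact mem_iUnion.2 ⟨n, h2 n x hn⟩
  · obtain ⟨n, hn⟩ := mem_iUnion.1 c
    exact h3 n w hw hn

theorem Sep.iright (o : ¬ OddOrd α) {A : Set X} {W : ℕ → Set Y} (h : ∀ n, Sep e α A (W n)) :
    Sep e α A (⋃ n, W n) := by
  choose B h1 h2 h3 using h
  refine ⟨⋂ n, B n, FB.iInter o h1, fun x hx => mem_iInter.2 fun n => h2 n x hx, fun w hw c => ?_⟩
  obtain ⟨n, hn⟩ := mem_iUnion.1 hw
  exact h3 n w hn (mem_iInter.1 c n)

theorem sep_closure {A : Set X} {W : Set Y} (h : ∀ w ∈ W, w ∉ closure (e '' A)) : Sep e α A W :=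
  ⟨_, .of_closed isClosed_closure, fun _ hx => subset_closure (mem_image_of_mem _ hx), h⟩

variable {C : Type w} [TopologicalSpace C] {j : X → C}

theorem transfer_aux {A : Set X} {W : Set C} (S : C → Set Y) (hS : ∀ w ∈ W, (S w).Finite)
    (H : ∀ w ∈ W, ∀ A' ⊆ A, w ∈ closure (j '' A') → ∃ z ∈ S w, z ∈ closure (e '' A'))
    (α : Ordinal.{0}) : ∀ B, FB Y α B → ∃ B', FB C α B' ∧ (∀ x ∈ A, e x ∈ B → j x ∈ B') ∧
      ∀ w ∈ W, w ∈ B' → ∃ z ∈ S w, z ∈ B := by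
  induction α using WellFoundedLT.induction with
  | ind α ih =>
  intro B hB
  rcases hB.inv with ⟨rfl, -⟩ | ⟨b, f, b1, b2, ⟨o, rfl⟩ | ⟨o, rfl⟩⟩
  · refine ⟨closure (j '' (A ∩ e ⁻¹' B)), .closed isClosed_closure,
      fun x hx h => subset_closure (mem_image_of_mem _ ⟨hx, h⟩), fun w hw h => ?_⟩
    obtain ⟨z, z1, z2⟩ := H w hw _ inter_subset_left h
    exact ⟨z, z1, closure_minimal (by rintro _ ⟨x, hx, rfl⟩; exact hx.2) hB.zero z2⟩
  · choose g g1 g2 g3 using fun n => ih _ (b1 n) _ (b2 n)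
    refine ⟨⋃ n, g n, .union b g o b1 g1, fun x hx h => ?_, fun w hw h => ?_⟩
    · obtain ⟨n, hn⟩ := mem_iUnion.1 h
      exact mem_iUnion.2 ⟨n, g2 n x hx hn⟩
    · obtain ⟨n, hn⟩ := mem_iUnion.1 h
      obtain ⟨z, z1, z2⟩ := g3 n w hw hn
      exact ⟨z, z1, mem_iUnion.2 ⟨n, z2⟩⟩
  · have k : ∀ n : ℕ, ∃ c < α, FB Y c {y | ∀ m ≤ n, y ∈ f m} := fun n => by
      induction n with
      | zero => exact ⟨b 0, b1 0, by simpa using b2 0⟩
      | succ n ihn =>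
        obtain ⟨c, c1, c2⟩ := ihn
        refine ⟨max c (b (n + 1)), max_lt c1 (b1 _), ?_⟩
        have e1 : {y | ∀ m ≤ n + 1, y ∈ f m} = {y | ∀ m ≤ n, y ∈ f m} ∩ f (n + 1) := by
          ext y
          exact ⟨fun h => ⟨fun m hm => h m (by omega), h _ le_rfl⟩, fun h m hm =>
            (Nat.of_le_succ hm).elim (h.1 m) fun t => t ▸ h.2⟩
        rw [e1]
        exact (c2.mono (le_max_left _ _)).cap ((b2 _).mono (le_max_right _ _))
    choose c c1 c2 using k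
    choose g g1 g2 g3 using fun n => ih _ (c1 n) _ (c2 n)
    refine ⟨⋂ n, g n, .inter c g o c1 g1,
      fun x hx h => mem_iInter.2 fun n => g2 n x hx fun m _ => mem_iInter.1 h m, fun w hw h => ?_⟩
    by_contra hc
    have h1 : ∀ z : S w, ∃ m, (z : Y) ∉ f m := fun z => by
      by_contra h2
      exact hc ⟨z, z.2, mem_iInter.2 fun m => by_contra fun h3 => h2 ⟨m, h3⟩⟩
    choose m hm using h1
    have := (hS w hw).to_subtype
    obtain ⟨N, hN⟩ := (finite_range m).bddAbove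
    obtain ⟨z, z1, z2⟩ := g3 N w hw (mem_iInter.1 h N)
    exact hm ⟨z, z1⟩ (z2 _ (hN (mem_range_self _)))

theorem Sep.transfer {A : Set X} {Z : Set Y} {W : Set C} (h : Sep e α A Z)
    (H : ∀ w ∈ W, ∃ S ⊆ Z, S.Finite ∧
      ∀ A' ⊆ A, w ∈ closure (j '' A') → ∃ z ∈ S, z ∈ closure (e '' A')) : Sep j α A W := by
  choose! S S1 S2 S3 using H
  obtain ⟨B, h1, h2, h3⟩ := h
  obtain ⟨B', g1, g2, g3⟩ := transfer_aux S S2 S3 α B h1
  refine ⟨B', g1, fun x hx => g2 x hx (h2 x hx), fun w hw c => ?_⟩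
  obtain ⟨z, z1, z2⟩ := g3 w hw c
  exact h3 z (S1 w hw z1) z2

theorem Sep.transfer1 {A : Set X} {Z : Set Y} {W : Set C} (h : Sep e α A Z)
    (H : ∀ w ∈ W, ∃ z ∈ Z, ∀ A' ⊆ A, w ∈ closure (j '' A') → z ∈ closure (e '' A')) :
    Sep j α A W :=
  h.transfer fun w hw => by
    obtain ⟨z, z1, z2⟩ := H w hw
    exact ⟨{z}, singleton_subset_iff.2 z1, finite_singleton z,
      fun A' hA c => ⟨z, rfl, z2 A' hA c⟩⟩

end Sep

end Pool.Agent.MP_2e2931_gt
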